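import Pool.Agent.Helper44.LN.StF

/-! Project LN, module ASG (helper63): assignment of the classes. -/

set_option autoImplicit false

namespace Pool.Agent.Helper44.LN

open Finset

theorem pASG : StASG := by
  intro n N r hr
  set C : ℕ → ℕ := fun u => ∑ v ∈ range u, n v with hC
  have hmono : Monotone C := fun a b hab =>
    Finset.sum_le_sum_of_subset (Finset.range_subset_range.mpr hab)
  have hC0 : C 0 = 0 := by simp [hC]
  have hsucc : ∀ u, C (u + 1) = C u + n u := fun u => Finset.sum_range_succ _ _
  have hr' : C (N + 1) = r := hr
  refine ⟨fun i => Nat.findGreatest (fun u => C u ≤ i) N, fun i => Nat.findGreatest_le N, ?_, ?_⟩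
  · intro i hi
    refine le_antisymm (Nat.findGreatest_le N) (Nat.le_findGreatest le_rfl ?_)
    exact (hmono (Nat.le_succ N)).trans (hr'.le.trans hi)
  · intro u hu
    have h1 : (range r).filter (fun i => Nat.findGreatest (fun u => C u ≤ i) N = u) =
        Finset.Ico (C u) (C (u + 1)) := by
      ext i
      rw [mem_filter, mem_range, Finset.mem_Ico]
      have hsp : C (Nat.findGreatest (fun u => C u ≤ i) N) ≤ i :=
        Nat.findGreatest_spec (P := fun u => C u ≤ i) (Nat.zero_le N) (by rw [hC0]; omega)
      constructor
      · rintro ⟨hir, hiu⟩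
        rw [hiu] at hsp
        refine ⟨hsp, ?_⟩
        rcases Nat.lt_or_ge u N with h | h
        · by_contra hcon
          have h2 : u + 1 ≤ Nat.findGreatest (fun u => C u ≤ i) N :=
            Nat.le_findGreatest h (by omega)
          omega
        · have h3 : u = N := by omega
          rw [h3, hr']; exact hir
      · rintro ⟨h2, h3⟩
        have h4 : C (u + 1) ≤ r := by rw [← hr']; exact hmono (by omega)
        refine ⟨by omega, le_antisymm ?_ (Nat.le_findGreatest hu h2)⟩
        by_contra hcon
        push Not at hcon
        have h5 : C (u + 1) ≤ C (Nat.findGreatest (fun u => C u ≤ i) N) := hmono hcon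
        omega
    rw [h1, Nat.card_Ico, hsucc]
    omega

end Pool.Agent.Helper44.LN
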