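import Pool.Agent.Helper44.LN.StA

/-! Project LN, module ASY. -/

namespace Pool.Agent.Helper44.LN

open Finset Filter Topology

private lemma asy_sum_mul {M : Type*} [AddCommMonoid M] (f : ℕ → M) (d m : ℕ) :
    ∑ u ∈ range (d*m), f u = ∑ k ∈ range d, ∑ j ∈ range m, f (k*m+j) := by
  induction d with
  | zero => simp
  | succ d ih => rw [Nat.succ_mul, sum_range_add, ih, sum_range_succ]

private lemma asy_cut {x y m d : ℕ} (hm : 1 ≤ m) (c : ℕ → ℤ) {κ : ℕ} (hκ : κ < d) :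
    Cut x y m d c κ = ∑ k ∈ range κ, ∑ j ∈ range m,
      (if κ ≤ k + j then (Mm x y m d k (j+1) : ℤ) * c (k*m+j) else 0)
      + ∑ j ∈ range m, (Mm x y m d κ (j+1) : ℤ) * c (κ*m+j) := by
  unfold Cut
  rw [asy_sum_mul]
  have h1 : ∀ k ∈ range d, ∑ j ∈ range m,
      (if (k*m+j)/m ≤ κ ∧ κ < (k*m+j)/m + ((k*m+j)%m+1) then
        (Mm x y m d ((k*m+j)/m) ((k*m+j)%m+1) : ℤ) * c (k*m+j) else 0) =
      if k ≤ κ then ∑ j ∈ range m,
        (if κ ≤ k + j then (Mm x y m d k (j+1) : ℤ) * c (k*m+j) else 0) else 0 := by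
    intro k _
    split_ifs with hk
    · refine sum_congr rfl fun j hj => ?_
      have hj' := mem_range.1 hj
      have e1 : (k*m+j)/m = k := by
        rw [Nat.mul_comm, Nat.mul_add_div (by omega), Nat.div_eq_of_lt hj', add_zero]
      have e2 : (k*m+j)%m = j := by
        rw [Nat.mul_comm, Nat.mul_add_mod, Nat.mod_eq_of_lt hj']
      rw [e1, e2]
      by_cases h : κ ≤ k + j
      · rw [if_pos h, if_pos ⟨hk, by omega⟩]
      · rw [if_neg h, if_neg (by omega)]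
    · refine sum_eq_zero fun j hj => ?_
      have hj' := mem_range.1 hj
      have e1 : (k*m+j)/m = k := by
        rw [Nat.mul_comm, Nat.mul_add_div (by omega), Nat.div_eq_of_lt hj', add_zero]
      rw [e1, if_neg (fun h => hk h.1)]
  rw [sum_congr rfl h1, ← sum_filter]
  have h2 : (range d).filter (fun k => k ≤ κ) = range (κ+1) := by
    ext k
    simp only [mem_filter, mem_range]
    omega
  rw [h2, sum_range_succ]
  congr 1
  refine sum_congr rfl fun j _ => ?_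
  rw [if_pos (by omega)]

private lemma asy_rec {x y m d : ℕ} (hm : 1 ≤ m) {r H : ℤ} {z : ℕ → ℤ}
    (h : RecP x y m d r H z) {κ : ℕ} (hκ : κ < d) : ∃ t : ℝ, 0 ≤ t ∧ t ≤ Mh x y m d κ ∧
      (∑ j ∈ range m, (Mm x y m d κ (j+1) : ℝ)) * (z κ : ℝ) = (Bk x y m d r κ : ℝ) +
        (∑ j ∈ range m, (j : ℝ) * (Mm x y m d κ (j+1) : ℝ)) * (H : ℝ) -
        (∑ k ∈ range κ, ∑ j ∈ range m, if κ ≤ k + j then
          (Mm x y m d k (j+1) : ℝ) * ((z k : ℝ) - j * H) else 0) - t := by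
  obtain ⟨h0, h1⟩ := h κ hκ
  refine ⟨((Bk x y m d r κ - Cut x y m d (Zf m z H) κ : ℤ) : ℝ), by exact_mod_cast h0,
    by exact_mod_cast h1.le, ?_⟩
  have hZ : ∀ k j, j ∈ range m → Zf m z H (k*m+j) = z k - (j:ℤ) * H := by
    intro k j hj
    have hj' := mem_range.1 hj
    have e1 : (k*m+j)/m = k := by
      rw [Nat.mul_comm, Nat.mul_add_div (by omega), Nat.div_eq_of_lt hj', add_zero]
    have e2 : (k*m+j)%m = j := by
      rw [Nat.mul_comm, Nat.mul_add_mod, Nat.mod_eq_of_lt hj']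
    unfold Zf
    rw [e1, e2]
  rw [asy_cut hm _ hκ]
  have e3 : ∑ k ∈ range κ, ∑ j ∈ range m,
      (if κ ≤ k + j then (Mm x y m d k (j+1) : ℤ) * Zf m z H (k*m+j) else 0) =
      ∑ k ∈ range κ, ∑ j ∈ range m,
      (if κ ≤ k + j then (Mm x y m d k (j+1) : ℤ) * (z k - (j:ℤ) * H) else 0) := by
    refine sum_congr rfl fun k _ => sum_congr rfl fun j hj => ?_
    rw [hZ k j hj]
  have e4 : ∑ j ∈ range m, (Mm x y m d κ (j+1) : ℤ) * Zf m z H (κ*m+j) =
      (∑ j ∈ range m, (Mm x y m d κ (j+1) : ℤ)) * z κ -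
      (∑ j ∈ range m, (j : ℤ) * (Mm x y m d κ (j+1) : ℤ)) * H := by
    rw [sum_mul, sum_mul, ← sum_sub_distrib]
    refine sum_congr rfl fun j hj => ?_
    rw [hZ κ j hj]
    ring
  rw [e3, e4]
  push_cast
  ring

private lemma asy_zb {T : Type*} {L : Filter T} {f g : T → ℝ} {B : ℝ}
    (hf : Tendsto f L (𝓝 0)) (hg : ∀ᶠ p in L, |g p| ≤ B) :
    Tendsto (fun p => f p * g p) L (𝓝 0) := by
  have h1 : Tendsto (fun p => |f p| * |B|) L (𝓝 0) := by
    simpa using hf.abs.mul_const |B|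
  refine squeeze_zero_norm' ?_ h1
  filter_upwards [hg] with p hp
  rw [Real.norm_eq_abs, abs_mul]
  exact mul_le_mul_of_nonneg_left (hp.trans (le_abs_self _)) (abs_nonneg _)

private lemma asy_core {T : Type*} {L : Filter T} {m d : ℕ} (hm : 1 ≤ m)
    (μ : ℕ → ℕ → T → ℝ) (w β τ D ζ : ℕ → T → ℝ) (η : T → ℝ) (c0 : ℝ) (hc0 : 0 < c0)
    (h0 : ∀ κ < d, Tendsto (fun p => μ κ 0 p - D κ p) L (𝓝 0))
    (h1 : ∀ k < d, ∀ j, 1 ≤ j → j < m → Tendsto (μ k j) L (𝓝 0))
    (hη : Tendsto η L (𝓝 0)) (hτ : ∀ κ < d, Tendsto (τ κ) L (𝓝 0))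
    (hβ : ∀ κ < d, Tendsto (fun p => β κ p - D κ p * ζ κ p) L (𝓝 0))
    (hζ : ∀ κ < d, ∀ p, |ζ κ p| ≤ 1) (hD : ∀ κ < d, ∀ p, c0 ≤ D κ p)
    (hE : ∀ κ < d, ∀ p, (∑ j ∈ range m, μ κ j p) * w κ p = β κ p +
      (∑ j ∈ range m, (j:ℝ) * μ κ j p) * η p -
      (∑ k ∈ range κ, ∑ j ∈ range m, if κ ≤ k + j then μ k j p * (w k p - j * η p) else 0)
      - τ κ p) :
    ∀ κ < d, Tendsto (fun p => w κ p - ζ κ p) L (𝓝 0) := by
  intro κ
  induction κ using Nat.strong_induction_on with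
  | _ κ ih =>
    intro hκ
    have hA : Tendsto (fun p => (∑ j ∈ range m, μ κ j p) - D κ p) L (𝓝 0) := by
      have e : ∀ p, (∑ j ∈ range m, μ κ j p) - D κ p =
          (∑ j ∈ range (m-1), μ κ (j+1) p) + (μ κ 0 p - D κ p) := by
        intro p
        obtain ⟨m', rfl⟩ : ∃ m', m = m' + 1 := ⟨m - 1, by omega⟩
        rw [sum_range_succ']
        simp only [Nat.add_sub_cancel]
        ring
      simp_rw [e]
      have h2 : Tendsto (fun p => ∑ j ∈ range (m-1), μ κ (j+1) p) L (𝓝 0) := by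
        have := tendsto_finsetSum (f := fun j p => μ κ (j+1) p) (a := fun _ => (0:ℝ))
          (x := L) (range (m-1)) (fun j hj => h1 κ hκ (j+1) (by omega)
            (by have := mem_range.1 hj; omega))
        simpa using this
      simpa using h2.add (h0 κ hκ)
    have hB : Tendsto (fun p => (∑ j ∈ range m, (j:ℝ) * μ κ j p) * η p) L (𝓝 0) := by
      have h2 : Tendsto (fun p => ∑ j ∈ range m, (j:ℝ) * μ κ j p) L (𝓝 0) := by
        have := tendsto_finsetSum (f := fun (j:ℕ) p => (j:ℝ) * μ κ j p) (a := fun _ => (0:ℝ))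
          (x := L) (range m) (fun j hj => by
            rcases Nat.eq_zero_or_pos j with rfl | hj0
            · simp only [Nat.cast_zero, zero_mul]
              exact tendsto_const_nhds
            · simpa using (h1 κ hκ j hj0 (mem_range.1 hj)).const_mul (j:ℝ))
        simpa using this
      simpa using h2.mul hη
    have hC : Tendsto (fun p => ∑ k ∈ range κ, ∑ j ∈ range m,
        if κ ≤ k + j then μ k j p * (w k p - j * η p) else 0) L (𝓝 0) := by
      have := tendsto_finsetSum (f := fun (k:ℕ) p => ∑ j ∈ range m,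
        if κ ≤ k + j then μ k j p * (w k p - j * η p) else 0) (a := fun _ => (0:ℝ))
          (x := L) (range κ) (fun k hk => by
            have hk' := mem_range.1 hk
            have := tendsto_finsetSum (f := fun (j:ℕ) p =>
              if κ ≤ k + j then μ k j p * (w k p - j * η p) else 0) (a := fun _ => (0:ℝ))
              (x := L) (range m) (fun j hj => by
                by_cases hkj : κ ≤ k + j
                · simp only [if_pos hkj]
                  have hw := ih k hk' (by omega)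
                  have hwη : Tendsto (fun p => (w k p - ζ k p) - j * η p) L (𝓝 0) := by
                    simpa using hw.sub (hη.const_mul (j:ℝ))
                  refine asy_zb (B := 2) (h1 k (by omega) j (by omega) (mem_range.1 hj)) ?_
                  have h3 : ∀ᶠ p in L, |(w k p - ζ k p) - j * η p| < 1 := by
                    have := hwη.abs
                    rw [abs_zero] at this
                    exact this.eventually_lt_const one_pos
                  filter_upwards [h3] with p hp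
                  have h4 := hζ k (by omega) p
                  have h5 : w k p - j * η p = ((w k p - ζ k p) - j * η p) + ζ k p := by ring
                  rw [h5]
                  refine (abs_add_le _ _).trans ?_
                  linarith
                · simp only [if_neg hkj]
                  exact tendsto_const_nhds)
            simpa using this)
      simpa using this
    have hG : Tendsto (fun p => (∑ j ∈ range m, μ κ j p) * w κ p - D κ p * ζ κ p) L (𝓝 0) := by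
      have e : ∀ p, (∑ j ∈ range m, μ κ j p) * w κ p - D κ p * ζ κ p =
          (β κ p - D κ p * ζ κ p) + (∑ j ∈ range m, (j:ℝ) * μ κ j p) * η p -
          (∑ k ∈ range κ, ∑ j ∈ range m,
            if κ ≤ k + j then μ k j p * (w k p - j * η p) else 0) - τ κ p := by
        intro p
        rw [hE κ hκ p]
        ring
      simp_rw [e]
      simpa using (((hβ κ hκ).add hB).sub hC).sub (hτ κ hκ)
    have hN : Tendsto (fun p => ((∑ j ∈ range m, μ κ j p) * w κ p - D κ p * ζ κ p) -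
        ((∑ j ∈ range m, μ κ j p) - D κ p) * ζ κ p) L (𝓝 0) := by
      have := hG.sub (asy_zb (B := 1) hA (Eventually.of_forall (hζ κ hκ)))
      simpa using this
    have hAb : ∀ᶠ p in L, c0 / 2 ≤ ∑ j ∈ range m, μ κ j p := by
      have h2 := hA.abs
      rw [abs_zero] at h2
      filter_upwards [h2.eventually_lt_const (half_pos hc0)] with p hp
      have h3 := hD κ hκ p
      have h4 := abs_lt.1 hp
      linarith [h4.1]
    have hI : ∀ᶠ p in L, |(∑ j ∈ range m, μ κ j p)⁻¹| ≤ (c0/2)⁻¹ := by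
      filter_upwards [hAb] with p hp
      have hpos : 0 < ∑ j ∈ range m, μ κ j p := lt_of_lt_of_le (half_pos hc0) hp
      rw [abs_of_pos (inv_pos.2 hpos)]
      exact inv_anti₀ (half_pos hc0) hp
    refine (asy_zb hN hI).congr' ?_
    filter_upwards [hAb] with p hp
    have hpos : 0 < ∑ j ∈ range m, μ κ j p := lt_of_lt_of_le (half_pos hc0) hp
    field_simp
    ring

private lemma asy_bn {n i : ℕ} {θ : ℝ} (h0 : 0 ≤ θ) (h1 : θ ≤ 1) :
    |bn n i θ| ≤ (n.choose i : ℝ) := by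
  unfold bn
  have h2 : (0:ℝ) ≤ 1 - θ := by linarith
  have h3 : (1 - θ) ^ (n - i) ≤ 1 := pow_le_one₀ h2 (by linarith)
  have h4 : θ ^ i ≤ 1 := pow_le_one₀ h0 h1
  have h5 : 0 ≤ (1 - θ) ^ (n - i) := pow_nonneg h2 _
  have h6 : 0 ≤ θ ^ i := pow_nonneg h0 _
  have h7 : (0:ℝ) ≤ n.choose i := Nat.cast_nonneg _
  rw [abs_of_nonneg (mul_nonneg (mul_nonneg h7 h5) h6), mul_assoc]
  calc (n.choose i : ℝ) * ((1 - θ) ^ (n - i) * θ ^ i) ≤ (n.choose i : ℝ) * 1 :=
        mul_le_mul_of_nonneg_left (mul_le_one₀ h3 h6 h4) h7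
    _ = _ := mul_one _

private lemma asy_Fc {n κ : ℕ} {θ : ℝ} (h0 : 0 ≤ θ) (h1 : θ ≤ 1) :
    |Fc n κ θ| ≤ ∑ i ∈ range (κ+1), (n.choose i : ℝ) := by
  unfold Fc
  exact (abs_sum_le_sum_abs _ _).trans (sum_le_sum fun i _ => asy_bn h0 h1)

private lemma asy_dn {m d κ : ℕ} {θ : ℝ} (h0 : 0 ≤ θ) (h1 : θ ≤ 1) :
    |dn m d κ θ| ≤ ∑ b ∈ range m, ((m-1).choose b : ℝ) := by
  unfold dn
  refine (abs_sum_le_sum_abs _ _).trans (sum_le_sum fun b _ => ?_)
  split_ifs
  · exact asy_bn h0 h1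
  · rw [abs_zero]
    exact Nat.cast_nonneg _

theorem pASY : StMMA → StVEA → StRAS → StZET → StASY := by
  intro hMMA hVEA hRAS hZET m d Θ C3 ε hm hd hΘ hε
  obtain ⟨c0, hc0, hZ⟩ := hZET m d Θ hm hd hΘ
  let T := {p : ℕ × ℕ × ℕ × (ℕ → ℤ) // TB Θ p.1 p.2.1 1 ∧ Crit p.1 p.2.1 m d p.2.2.1 ∧
    RecP p.1 p.2.1 m d (p.2.2.1 : ℤ) ((C3 * (p.1+p.2.1)^m : ℕ) : ℤ) p.2.2.2}
  let S : T → ℕ := fun p => p.1.1 + p.1.2.1
  let L : Filter T := comap S atTop
  have hLb : ∀ P : T → Prop, (∃ s0 : ℕ, ∀ p : T, s0 ≤ S p → P p) → ∀ᶠ p in L, P p := by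
    rintro P ⟨s0, h⟩
    exact (atTop_basis.comap S).eventually_iff.2 ⟨s0, trivial, fun p hp => h p hp⟩
  have hLc : ∀ P : T → Prop, (∀ᶠ p in L, P p) → ∃ s0 : ℕ, ∀ p : T, s0 ≤ S p → P p := by
    intro P h
    obtain ⟨s0, _, h'⟩ := (atTop_basis.comap S).eventually_iff.1 h
    exact ⟨s0, fun p hp => h' hp⟩
  have h0 : ∀ f : T → ℝ, (∀ ε > 0, ∃ s0 : ℕ, ∀ p : T, s0 ≤ S p → |f p| ≤ ε) →
      Tendsto f L (𝓝 0) := by
    intro f hf
    rw [Metric.tendsto_nhds]
    intro e he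
    obtain ⟨s0, h⟩ := hf (e/2) (half_pos he)
    refine hLb _ ⟨s0, fun p hp => ?_⟩
    rw [Real.dist_eq, sub_zero]
    exact (h p hp).trans_lt (half_lt_self he)
  -- the functions
  let s : T → ℝ := fun p => (p.1.1 : ℝ) + p.1.2.1
  let θ : T → ℝ := fun p => th p.1.1 p.1.2.1
  let r : T → ℝ := fun p => (p.1.2.2.1 : ℝ)
  have hTB : ∀ (p : T) (s0 : ℕ), s0 ≤ S p → TB Θ p.1.1 p.1.2.1 s0 := fun p s0 h =>
    ⟨h, p.2.1.2.1, p.2.1.2.2⟩
  have hs1 : ∀ p : T, 1 ≤ s p := fun p => by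
    have := p.2.1.1
    simp only [s]
    exact_mod_cast this
  have hsS : ∀ p : T, s p = (S p : ℝ) := fun p => by simp [s, S]
  have hs0 : Tendsto (fun p => (s p)⁻¹) L (𝓝 0) := by
    refine h0 _ fun e he => ?_
    obtain ⟨n, hn⟩ := exists_nat_gt e⁻¹
    refine ⟨n, fun p hp => ?_⟩
    have h1 : e⁻¹ ≤ s p := by
      rw [hsS]
      exact hn.le.trans (by exact_mod_cast hp)
    have h2 : 0 < s p := lt_of_lt_of_le one_pos (hs1 p)
    rw [abs_of_pos (inv_pos.2 h2)]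
    exact inv_le_of_inv_le₀ he h1
  have hΘ0 : (0:ℝ) < Θ := by
    have : (2:ℝ) ≤ Θ := by exact_mod_cast hΘ
    linarith
  have hθ : ∀ p : T, 1 / (Θ:ℝ) ≤ θ p ∧ θ p ≤ 1 - 1 / (Θ:ℝ) := by
    intro p
    have h1 : ((p.1.1 : ℝ) + p.1.2.1) ≤ Θ * p.1.1 := by exact_mod_cast p.2.1.2.1
    have h2 : ((p.1.1 : ℝ) + p.1.2.1) ≤ Θ * p.1.2.1 := by exact_mod_cast p.2.1.2.2
    have h3 : 0 < (p.1.1 : ℝ) + p.1.2.1 := lt_of_lt_of_le one_pos (hs1 p)
    simp only [θ, th]
    constructor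
    · rw [div_le_div_iff₀ hΘ0 h3]
      linarith
    · have e : 1 - 1 / (Θ:ℝ) = (Θ - 1) / Θ := by field_simp
      rw [e, div_le_div_iff₀ h3 hΘ0]
      nlinarith
  have hθ0 : ∀ p : T, 0 ≤ θ p := fun p => (by positivity : (0:ℝ) ≤ 1 / Θ).trans (hθ p).1
  have hθ1 : ∀ p : T, θ p ≤ 1 := fun p => by
    have h1 := (hθ p).2
    have h2 : (0:ℝ) ≤ 1 / Θ := by positivity
    linarith
  set q : ℝ := ((m-1).factorial : ℝ) with hq
  have hq0 : 0 < q := by positivity
  have hd0 : (0:ℝ) < (d.factorial : ℝ) := by positivity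
  let ρ : T → ℝ := fun p => r p * d.factorial / (s p ^ (d+1-m) * q)
  have hρ : Tendsto ρ L (𝓝 1) := by
    have : Tendsto (fun p => ρ p - 1) L (𝓝 0) := by
      refine h0 _ fun e he => ?_
      obtain ⟨s0, h⟩ := hRAS m d Θ e hm (by omega) he
      exact ⟨s0, fun p hp => h _ _ (hTB p s0 hp) _ p.2.2.1⟩
    simpa using this.add_const 1
  have hρi : Tendsto (fun p => (ρ p)⁻¹) L (𝓝 1) := by
    simpa using hρ.inv₀ one_ne_zero
  have hr0 : ∀ᶠ p in L, 0 < r p := by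
    filter_upwards [hρ.eventually_const_lt (by norm_num : (0:ℝ) < 1)] with p hp
    have h1 : 0 ≤ r p := Nat.cast_nonneg _
    rcases h1.eq_or_lt with h2 | h2
    · exfalso
      simp only [ρ] at hp
      rw [← h2] at hp
      simp at hp
    · exact h2
  have hV : ∀ κ ≤ d, Tendsto (fun p => (∑ κ' ∈ range (κ+1), (v0 p.1.1 p.1.2.1 m κ' : ℝ)) * q /
      s p ^ (m-1) - Fc (m-1) κ (θ p)) L (𝓝 0) := by
    intro κ hκ
    refine h0 _ fun e he => ?_
    obtain ⟨s0, h⟩ := hVEA m d Θ e hm (by omega) he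
    exact ⟨s0, fun p hp => (h _ _ (hTB p s0 hp)).1 κ hκ⟩
  have hEE : ∀ κ ≤ d, Tendsto (fun p => (∑ κ' ∈ range (κ+1), (EE p.1.1 p.1.2.1 d κ' : ℝ)) *
      d.factorial / s p ^ d - Fc d κ (θ p)) L (𝓝 0) := by
    intro κ hκ
    refine h0 _ fun e he => ?_
    obtain ⟨s0, h⟩ := hVEA m d Θ e hm (by omega) he
    exact ⟨s0, fun p hp => (h _ _ (hTB p s0 hp)).2.1 κ hκ⟩
  let μ : ℕ → ℕ → T → ℝ := fun k j p => (Mm p.1.1 p.1.2.1 m d k (j+1) : ℝ) * q / s p ^ (m-1)
  have hμ0 : ∀ κ < d, Tendsto (fun p => μ κ 0 p - dn m d κ (θ p)) L (𝓝 0) := by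
    intro κ hκ
    refine h0 _ fun e he => ?_
    obtain ⟨s0, h⟩ := hMMA m d Θ e hm he
    exact ⟨s0, fun p hp => (h _ _ (hTB p s0 hp)).1 κ hκ⟩
  have hμ1 : ∀ k < d, ∀ j, 1 ≤ j → j < m → Tendsto (μ k j) L (𝓝 0) := by
    intro k _ j hj hjm
    refine h0 _ fun e he => ?_
    obtain ⟨s0, h⟩ := hMMA m d Θ (e / q) hm (div_pos he hq0)
    refine ⟨s0, fun p hp => ?_⟩
    have h1 := (h _ _ (hTB p s0 hp)).2 k (j+1) (by omega) (by omega)
    have h2 : 0 < s p := lt_of_lt_of_le one_pos (hs1 p)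
    have h3 : 0 ≤ μ k j p := by
      simp only [μ]
      positivity
    rw [abs_of_nonneg h3]
    simp only [μ]
    rw [mul_div_right_comm]
    rwa [le_div_iff₀ hq0] at h1
  have hμb : ∀ κ < d, ∀ j < m, ∀ᶠ p in L, |μ κ j p| ≤
      (∑ b ∈ range m, ((m-1).choose b : ℝ)) + 1 := by
    intro κ hκ j hj
    rcases Nat.eq_zero_or_pos j with rfl | hj0
    · have h1 := (hμ0 κ hκ).abs
      rw [abs_zero] at h1
      filter_upwards [h1.eventually_lt_const one_pos] with p hp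
      have h2 := asy_dn (m := m) (d := d) (κ := κ) (hθ0 p) (hθ1 p)
      have h3 : μ κ 0 p = (μ κ 0 p - dn m d κ (θ p)) + dn m d κ (θ p) := by ring
      rw [h3]
      refine (abs_add_le _ _).trans ?_
      linarith
    · have h1 := (hμ1 κ hκ j hj0 hj).abs
      rw [abs_zero] at h1
      filter_upwards [h1.eventually_lt_const one_pos] with p hp
      have h2 : (0:ℝ) ≤ ∑ b ∈ range m, ((m-1).choose b : ℝ) :=
        sum_nonneg fun b _ => Nat.cast_nonneg _
      linarith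
  -- the inverse of `r`
  have hRs : Tendsto (fun p => s p ^ m * (r p)⁻¹) L (𝓝 0) := by
    have h1 : Tendsto (fun p => (ρ p)⁻¹ * (d.factorial / q) * (s p)⁻¹ ^ (d+1-2*m)) L (𝓝 0) := by
      have h2 : Tendsto (fun p => (s p)⁻¹ ^ (d+1-2*m)) L (𝓝 0) := by
        have := hs0.pow (d+1-2*m)
        rwa [zero_pow (by omega)] at this
      simpa using (hρi.mul_const (d.factorial / q)).mul h2
    refine h1.congr' ?_
    filter_upwards [hr0] with p hp
    have h2 : 0 < s p := lt_of_lt_of_le one_pos (hs1 p)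
    have e1 : s p ^ (d+1-m) = s p ^ m * s p ^ (d+1-2*m) := by
      rw [← pow_add]
      congr 1
      omega
    simp only [ρ]
    rw [e1, inv_pow]
    field_simp
  have hR : Tendsto (fun p => (r p)⁻¹) L (𝓝 0) := by
    refine squeeze_zero (fun p => inv_nonneg.2 (Nat.cast_nonneg _)) (fun p => ?_) hRs
    have h1 : 1 ≤ s p ^ m := one_le_pow₀ (hs1 p)
    have h2 : 0 ≤ (r p)⁻¹ := inv_nonneg.2 (Nat.cast_nonneg _)
    nlinarith
  have hrec : ∀ (κ : ℕ) (p : T), ∃ t : ℝ, κ < d → 0 ≤ t ∧ t ≤ Mh p.1.1 p.1.2.1 m d κ ∧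
      (∑ j ∈ range m, (Mm p.1.1 p.1.2.1 m d κ (j+1) : ℝ)) * (p.1.2.2.2 κ : ℝ) =
        (Bk p.1.1 p.1.2.1 m d (p.1.2.2.1 : ℤ) κ : ℝ) +
        (∑ j ∈ range m, (j : ℝ) * (Mm p.1.1 p.1.2.1 m d κ (j+1) : ℝ)) *
          (((C3 * (p.1.1+p.1.2.1)^m : ℕ) : ℤ) : ℝ) -
        (∑ k ∈ range κ, ∑ j ∈ range m, if κ ≤ k + j then
          (Mm p.1.1 p.1.2.1 m d k (j+1) : ℝ) * ((p.1.2.2.2 k : ℝ) -
            j * (((C3 * (p.1.1+p.1.2.1)^m : ℕ) : ℤ) : ℝ)) else 0) - t := by
    intro κ p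
    by_cases hκ : κ < d
    · obtain ⟨t, ht⟩ := asy_rec hm p.2.2.2 hκ
      exact ⟨t, fun _ => ht⟩
    · exact ⟨0, fun h => absurd h hκ⟩
  choose t ht using hrec
  have key := asy_core (T := T) (L := L) (m := m) (d := d) hm μ
    (fun κ p => (p.1.2.2.2 κ : ℝ) * (r p)⁻¹)
    (fun κ p => (Bk p.1.1 p.1.2.1 m d (p.1.2.2.1 : ℤ) κ : ℝ) * (q / s p ^ (m-1)) * (r p)⁻¹)
    (fun κ p => t κ p * (q / s p ^ (m-1)) * (r p)⁻¹)
    (fun κ p => dn m d κ (θ p)) (fun κ p => zt m d κ (θ p))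
    (fun p => (((C3 * (p.1.1+p.1.2.1)^m : ℕ) : ℤ) : ℝ) * (r p)⁻¹) c0 hc0 hμ0 hμ1 ?_ ?_ ?_ ?_ ?_ ?_
  · -- conclusion
    have h1 : ∀ᶠ p in L, (∀ κ ∈ range d, |(p.1.2.2.2 κ : ℝ) * (r p)⁻¹ - zt m d κ (θ p)| < ε) ∧
        0 < r p := by
      refine Eventually.and ?_ hr0
      rw [eventually_all_finset]
      intro κ hκ
      have := (key κ (mem_range.1 hκ)).abs
      rw [abs_zero] at this
      exact this.eventually_lt_const hε
    obtain ⟨s0, h2⟩ := hLc _ h1
    refine ⟨max s0 1, fun x y hxy r' hr' z hz κ hκ => ?_⟩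
    obtain ⟨h3, h4⟩ := h2 ⟨(x, y, r', z), ⟨(le_max_right _ _).trans hxy.1, hxy.2⟩, hr', hz⟩
      ((le_max_left _ _).trans hxy.1)
    have h5 := h3 κ (mem_range.2 hκ)
    simp only [r, θ] at h4 h5
    have h6 : (z κ : ℝ) - zt m d κ (th x y) * r' =
        ((z κ : ℝ) * (r' : ℝ)⁻¹ - zt m d κ (th x y)) * r' := by
      field_simp
    rw [h6, abs_mul, abs_of_pos h4]
    exact mul_le_mul_of_nonneg_right h5.le h4.le
  · -- η
    have e : ∀ p : T, (((C3 * (p.1.1+p.1.2.1)^m : ℕ) : ℤ) : ℝ) * (r p)⁻¹ =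
        C3 * (s p ^ m * (r p)⁻¹) := by
      intro p
      simp only [s]
      push_cast
      ring
    simp_rw [e]
    simpa using hRs.const_mul (C3:ℝ)
  · -- τ
    intro κ hκ
    have h1 : Tendsto (fun p => ∑ j ∈ range m, (r p)⁻¹ * μ κ j p) L (𝓝 0) := by
      have := tendsto_finsetSum (f := fun (j:ℕ) p => (r p)⁻¹ * μ κ j p) (a := fun _ => (0:ℝ))
        (x := L) (range m) (fun j hj => asy_zb hR (hμb κ hκ j (mem_range.1 hj)))
      simpa using this
    refine squeeze_zero (fun p => ?_) (fun p => ?_) h1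
    · have h2 := (ht κ p hκ).1
      have h3 : 0 < s p := lt_of_lt_of_le one_pos (hs1 p)
      have h4 : 0 ≤ (r p)⁻¹ := inv_nonneg.2 (Nat.cast_nonneg _)
      positivity
    · have h2 := (ht κ p hκ).2.1
      have h3 : 0 < s p := lt_of_lt_of_le one_pos (hs1 p)
      have h4 : 0 ≤ (r p)⁻¹ := inv_nonneg.2 (Nat.cast_nonneg _)
      have h5 : ∑ j ∈ range m, (r p)⁻¹ * μ κ j p =
          (Mh p.1.1 p.1.2.1 m d κ : ℝ) * (q / s p ^ (m-1)) * (r p)⁻¹ := by
        simp only [μ, Mh]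
        push_cast
        rw [sum_mul, sum_mul]
        refine sum_congr rfl fun j _ => ?_
        ring
      rw [h5]
      have h6 : 0 ≤ q / s p ^ (m-1) := by positivity
      exact mul_le_mul_of_nonneg_right (mul_le_mul_of_nonneg_right h2 h6) h4
  · -- β
    intro κ hκ
    have h1 : Tendsto (fun p => ((∑ κ' ∈ range (κ+1), (v0 p.1.1 p.1.2.1 m κ' : ℝ)) * q /
        s p ^ (m-1) - Fc (m-1) κ (θ p)) -
        (((∑ κ' ∈ range (κ+1), (EE p.1.1 p.1.2.1 d κ' : ℝ)) *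
      d.factorial / s p ^ d - Fc d κ (θ p)) * (ρ p)⁻¹ + ((ρ p)⁻¹ - 1) * Fc d κ (θ p)))
        L (𝓝 0) := by
      have h2 : Tendsto (fun p => (ρ p)⁻¹ - 1) L (𝓝 0) := by
        simpa using hρi.sub_const 1
      have h3 := asy_zb (g := fun p => Fc d κ (θ p)) h2
        (Eventually.of_forall fun p => asy_Fc (n := d) (κ := κ) (hθ0 p) (hθ1 p))
      have h4 := (hEE κ (by omega)).mul hρi
      simpa using (hV κ (by omega)).sub (h4.add h3)
    refine h1.congr' ?_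
    filter_upwards [hr0] with p hp
    have h2 : 0 < s p := lt_of_lt_of_le one_pos (hs1 p)
    have h3 := (hZ (θ p) (hθ p).1 (hθ p).2).2.2.2 κ hκ
    have h4 : dn m d κ (θ p) * zt m d κ (θ p) = Fc (m-1) κ (θ p) - Fc d κ (θ p) := by
      unfold zt
      rw [mul_div_cancel₀]
      exact (lt_of_lt_of_le hc0 h3).ne'
    rw [h4]
    have e1 : s p ^ d = s p ^ (d+1-m) * s p ^ (m-1) := by
      rw [← pow_add]
      congr 1
      omega
    have e2 : (Bk p.1.1 p.1.2.1 m d (p.1.2.2.1 : ℤ) κ : ℝ) =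
        r p * (∑ κ' ∈ range (κ+1), (v0 p.1.1 p.1.2.1 m κ' : ℝ)) -
        ∑ κ' ∈ range (κ+1), (EE p.1.1 p.1.2.1 d κ' : ℝ) := by
      unfold Bk
      push_cast
      rfl
    rw [e1, e2]
    simp only [ρ]
    field_simp
    ring
  · -- ζ
    intro κ hκ p
    obtain ⟨h1, h2, h3, _⟩ := hZ (θ p) (hθ p).1 (hθ p).2
    have h4 : ∀ k, k < d → zt m d k (θ p) ≤ zt m d 0 (θ p) := by
      intro k
      induction k with
      | zero => intro _; exact le_rfl
      | succ k ih =>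
        intro hk
        have := h3 k hk
        have := ih (by omega)
        linarith
    have h5 : ∀ k, k < d → zt m d (d-1) (θ p) ≤ zt m d (d-1-k) (θ p) := by
      intro k
      induction k with
      | zero => intro _; exact le_rfl
      | succ k ih =>
        intro hk
        have h6 := h3 (d-1-(k+1)) (by omega)
        have e : d-1-(k+1)+1 = d-1-k := by omega
        rw [e] at h6
        have := ih (by omega)
        linarith
    have h6 := h4 κ hκ
    have h7 := h5 (d-1-κ) (by omega)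
    have e : d-1-(d-1-κ) = κ := by omega
    rw [e] at h7
    rw [abs_le]
    constructor <;> linarith
  · intro κ hκ p
    exact (hZ (θ p) (hθ p).1 (hθ p).2).2.2.2 κ hκ
  · -- equation
    intro κ hκ p
    have h1 := (ht κ p hκ).2.2
    have e1 : ∑ j ∈ range m, μ κ j p = (∑ j ∈ range m, (Mm p.1.1 p.1.2.1 m d κ (j+1) : ℝ)) *
        (q / s p ^ (m-1)) := by
      simp only [μ]
      rw [sum_mul]
      exact sum_congr rfl fun j _ => by ring
    have e2 : ∑ j ∈ range m, (j:ℝ) * μ κ j p =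
        (∑ j ∈ range m, (j:ℝ) * (Mm p.1.1 p.1.2.1 m d κ (j+1) : ℝ)) * (q / s p ^ (m-1)) := by
      simp only [μ]
      rw [sum_mul]
      exact sum_congr rfl fun j _ => by ring
    have e3 : (∑ k ∈ range κ, ∑ j ∈ range m, if κ ≤ k + j then μ k j p *
        ((p.1.2.2.2 k : ℝ) * (r p)⁻¹ - j * ((((C3 * (p.1.1+p.1.2.1)^m : ℕ) : ℤ) : ℝ) * (r p)⁻¹))
        else 0) = (∑ k ∈ range κ, ∑ j ∈ range m, if κ ≤ k + j then
          (Mm p.1.1 p.1.2.1 m d k (j+1) : ℝ) * ((p.1.2.2.2 k : ℝ) -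
            j * (((C3 * (p.1.1+p.1.2.1)^m : ℕ) : ℤ) : ℝ)) else 0) *
          (q / s p ^ (m-1)) * (r p)⁻¹ := by
      rw [sum_mul, sum_mul]
      refine sum_congr rfl fun k _ => ?_
      rw [sum_mul, sum_mul]
      refine sum_congr rfl fun j _ => ?_
      split_ifs
      · simp only [μ]
        ring
      · ring
    rw [e1, e2, e3]
    linear_combination (q / s p ^ (m-1)) * (r p)⁻¹ * h1

end Pool.Agent.Helper44.LN
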