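import Pool.Agent.Helper44.LN.StG

/-! Project LN, module AUT: left multiplication of generic pairs of matrices by a constant pair
(written by helper95). -/

set_option autoImplicit false

namespace Pool.Agent.Helper44.LN

open Finset MvPolynomial

/-- the substitution -/
private noncomputable def au {x y : ℕ} (h : Mt x y ℂ) (A : Finset ℕ) :
    Pf x y →ₐ[ℂ] Pf x y := by
  classical
  exact aeval (fun v : ℕ × Ix x y =>
    if v.1 ∈ A then
      Sum.elim (fun jl => ∑ l', C (h.1 jl.1 l') * (X (v.1, Sum.inl (l', jl.2)) : Pf x y))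
        (fun jl => ∑ l', C (h.2 jl.1 l') * (X (v.1, Sum.inr (l', jl.2)) : Pf x y)) v.2
    else X v)

private lemma au_inl {x y : ℕ} (h : Mt x y ℂ) (A : Finset ℕ) (i : ℕ) (hi : i ∈ A)
    (j l : Fin (x+1)) : au h A (X (i, Sum.inl (j, l))) =
      ∑ l', C (h.1 j l') * (X (i, Sum.inl (l', l)) : Pf x y) := by
  simp [au, hi]

private lemma au_inr {x y : ℕ} (h : Mt x y ℂ) (A : Finset ℕ) (i : ℕ) (hi : i ∈ A)
    (j l : Fin (y+1)) : au h A (X (i, Sum.inr (j, l))) =
      ∑ l', C (h.2 j l') * (X (i, Sum.inr (l', l)) : Pf x y) := by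
  simp [au, hi]

private lemma au_not {x y : ℕ} (h : Mt x y ℂ) (A : Finset ℕ) (i : ℕ) (hi : i ∉ A)
    (v : Ix x y) : au h A (X (i, v)) = X (i, v) := by
  simp [au, hi]

private lemma au_comp {x y : ℕ} (h h' : Mt x y ℂ) (A : Finset ℕ) (h1 : h'.1 * h.1 = 1)
    (h2 : h'.2 * h.2 = 1) : (au h A).comp (au h' A) = AlgHom.id ℂ (Pf x y) := by
  apply MvPolynomial.algHom_ext
  rintro ⟨i, v⟩
  rw [AlgHom.comp_apply, AlgHom.id_apply]
  by_cases hi : i ∈ A
  · rcases v with ⟨j, l⟩ | ⟨j, l⟩
    · rw [au_inl h' A i hi, map_sum]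
      have e : ∀ l' : Fin (x+1), au h A (C (h'.1 j l') * (X (i, Sum.inl (l', l)) : Pf x y)) =
          ∑ l'', C (h'.1 j l' * h.1 l' l'') * (X (i, Sum.inl (l'', l)) : Pf x y) := by
        intro l'
        rw [map_mul, au_inl h A i hi, Finset.mul_sum]
        refine Finset.sum_congr rfl fun l'' _ => ?_
        rw [C_mul, mul_assoc]
        congr 1
        exact (au h A).commutes (h'.1 j l')
      simp only [e]
      rw [Finset.sum_comm]
      have e2 : ∀ l'' : Fin (x+1), ∑ l', C (h'.1 j l' * h.1 l' l'') *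
          (X (i, Sum.inl (l'', l)) : Pf x y) =
          C ((1 : Matrix (Fin (x+1)) (Fin (x+1)) ℂ) j l'') * X (i, Sum.inl (l'', l)) := by
        intro l''
        rw [← Finset.sum_mul, ← map_sum, ← h1, Matrix.mul_apply]
      simp only [e2]
      rw [Finset.sum_eq_single j]
      · simp
      · intro b _ hb
        rw [Matrix.one_apply_ne (Ne.symm hb)]
        simp
      · simp
    · rw [au_inr h' A i hi, map_sum]
      have e : ∀ l' : Fin (y+1), au h A (C (h'.2 j l') * (X (i, Sum.inr (l', l)) : Pf x y)) =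
          ∑ l'', C (h'.2 j l' * h.2 l' l'') * (X (i, Sum.inr (l'', l)) : Pf x y) := by
        intro l'
        rw [map_mul, au_inr h A i hi, Finset.mul_sum]
        refine Finset.sum_congr rfl fun l'' _ => ?_
        rw [C_mul, mul_assoc]
        congr 1
        exact (au h A).commutes (h'.2 j l')
      simp only [e]
      rw [Finset.sum_comm]
      have e2 : ∀ l'' : Fin (y+1), ∑ l', C (h'.2 j l' * h.2 l' l'') *
          (X (i, Sum.inr (l'', l)) : Pf x y) =
          C ((1 : Matrix (Fin (y+1)) (Fin (y+1)) ℂ) j l'') * X (i, Sum.inr (l'', l)) := by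
        intro l''
        rw [← Finset.sum_mul, ← map_sum, ← h2, Matrix.mul_apply]
      simp only [e2]
      rw [Finset.sum_eq_single j]
      · simp
      · intro b _ hb
        rw [Matrix.one_apply_ne (Ne.symm hb)]
        simp
      · simp
  · rw [au_not h' A i hi, au_not h A i hi]

/-- **AUT.** -/
theorem pAUT : StAUT := by
  intro x y h hu1 hu2 A
  set h' : Mt x y ℂ := (h.1⁻¹, h.2⁻¹) with hh'
  have a1 : h'.1 * h.1 = 1 := Matrix.nonsing_inv_mul _ hu1
  have a2 : h'.2 * h.2 = 1 := Matrix.nonsing_inv_mul _ hu2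
  have b1 : h.1 * h'.1 = 1 := Matrix.mul_nonsing_inv _ hu1
  have b2 : h.2 * h'.2 = 1 := Matrix.mul_nonsing_inv _ hu2
  set e : Pf x y ≃ₐ[ℂ] Pf x y := AlgEquiv.ofAlgHom (au h A) (au h' A)
    (au_comp h h' A a1 a2) (au_comp h' h A b1 b2) with he
  have he1 : ∀ f, e.toRingEquiv f = au h A f := fun f => rfl
  set θ : Kf x y ≃+* Kf x y :=
    IsFractionRing.ringEquivOfRingEquiv (K := Kf x y) (L := Kf x y) e.toRingEquiv with hθ
  have hθ1 : ∀ f : Pf x y, θ (algebraMap (Pf x y) (Kf x y) f) =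
      algebraMap (Pf x y) (Kf x y) (au h A f) := by
    intro f
    rw [hθ, IsFractionRing.ringEquivOfRingEquiv_algebraMap, he1]
  have hc : ∀ c : ℂ, algebraMap ℂ (Kf x y) c = algebraMap (Pf x y) (Kf x y) (C c) := by
    intro c
    rw [IsScalarTower.algebraMap_apply ℂ (Pf x y) (Kf x y)]
    rfl
  refine ⟨θ, ?_, ?_, ?_⟩
  · intro c
    rw [hc, hθ1]
    congr 1
    exact (au h A).commutes c
  · intro i hi
    refine Prod.ext ?_ ?_
    · ext j l
      change θ (algebraMap (Pf x y) (Kf x y) (X (i, Sum.inl (j, l)))) = _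
      rw [hθ1, au_inl h A i hi, map_sum]
      simp only [mp, gn, Prod.fst_mul, Matrix.mul_apply, Matrix.map_apply, Matrix.of_apply]
      refine Finset.sum_congr rfl fun l' _ => ?_
      rw [map_mul, hc]
    · ext j l
      change θ (algebraMap (Pf x y) (Kf x y) (X (i, Sum.inr (j, l)))) = _
      rw [hθ1, au_inr h A i hi, map_sum]
      simp only [mp, gn, Prod.snd_mul, Matrix.mul_apply, Matrix.map_apply, Matrix.of_apply]
      refine Finset.sum_congr rfl fun l' _ => ?_
      rw [map_mul, hc]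
  · intro i hi
    refine Prod.ext ?_ ?_
    · ext j l
      change θ (algebraMap (Pf x y) (Kf x y) (X (i, Sum.inl (j, l)))) = _
      rw [hθ1, au_not h A i hi]
      rfl
    · ext j l
      change θ (algebraMap (Pf x y) (Kf x y) (X (i, Sum.inr (j, l)))) = _
      rw [hθ1, au_not h A i hi]
      rfl

end Pool.Agent.Helper44.LN
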