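import Pool.Agent.Helper44.LN.StD

/-! Project LN, module BIN (written by helper2): solving the binomial equations. -/

set_option autoImplicit false

namespace Pool.Agent.Helper44.LN

open Finset

/-- Newton interpolation for a polynomial of degree below `l` -/
private theorem bin_newton (P : Polynomial ℚ) (l : ℕ) (hP : P.natDegree < l) (n : ℕ) :
    P.eval (n : ℚ) = ∑ p ∈ range l, ((fwdDiff (1 : ℚ))^[p] (fun x => P.eval x)) 0 * (n.choose p : ℚ) := by
  have h1 := shift_eq_sum_fwdDiff_iter (1 : ℚ) (fun x => P.eval x) n 0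
  have h2 : ((0 : ℚ) + n • (1 : ℚ)) = (n : ℚ) := by simp
  rw [h2] at h1
  have h3 : P.eval (n : ℚ) = ∑ k ∈ range (n + 1), ((fwdDiff (1 : ℚ))^[k] (fun x => P.eval x)) 0 * (n.choose k : ℚ) := by
    rw [h1]
    apply Finset.sum_congr rfl
    intro k _
    rw [nsmul_eq_mul, mul_comm]
  rw [h3]
  have hz : ∀ k, l ≤ k → ((fwdDiff (1 : ℚ))^[k] (fun x => P.eval x)) 0 = 0 := by
    intro k hk
    have := congrFun (Polynomial.fwdDiff_iter_eq_zero_of_degree_lt (P := P) (n := k)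
      (lt_of_lt_of_le hP hk)) 0
    exact this
  have hA : ∑ k ∈ range (n + 1), ((fwdDiff (1 : ℚ))^[k] (fun x => P.eval x)) 0 * (n.choose k : ℚ)
      = ∑ k ∈ range (max (n + 1) l), ((fwdDiff (1 : ℚ))^[k] (fun x => P.eval x)) 0 * (n.choose k : ℚ) := by
    apply Finset.sum_subset
    · exact range_subset_range.2 (le_max_left _ _)
    · intro k _ hk
      rw [mem_range, not_lt] at hk
      rw [Nat.choose_eq_zero_of_lt (by omega), Nat.cast_zero, mul_zero]
  have hB : ∑ k ∈ range l, ((fwdDiff (1 : ℚ))^[k] (fun x => P.eval x)) 0 * (n.choose k : ℚ)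
      = ∑ k ∈ range (max (n + 1) l), ((fwdDiff (1 : ℚ))^[k] (fun x => P.eval x)) 0 * (n.choose k : ℚ) := by
    apply Finset.sum_subset
    · exact range_subset_range.2 (le_max_right _ _)
    · intro k _ hk
      rw [mem_range, not_lt] at hk
      rw [hz k hk, zero_mul]
  rw [hA, hB]

theorem pBIN : StBIN := by
  intro A Λ hΛ
  have hinj : Set.InjOn (fun n : ℕ => (n : ℚ)) (Λ : Set ℕ) := Nat.cast_injective.injOn
  refine ⟨fun κ0 κ => (Lagrange.basis Λ (fun n : ℕ => (n : ℚ)) κ0).eval (κ : ℚ), ?_⟩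
  intro L _ _ c hc κ0 hκ0
  set P := Lagrange.basis Λ (fun n : ℕ => (n : ℚ)) κ0 with hPdef
  have hcard : 0 < Λ.card := Finset.card_pos.2 ⟨κ0, hκ0⟩
  have hdeg : P.natDegree < Λ.card := by
    have h1 : P.degree = ((Λ.card - 1 : ℕ) : WithBot ℕ) := Lagrange.degree_basis hinj hκ0
    have h2 : P.natDegree = Λ.card - 1 := Polynomial.natDegree_eq_of_degree_eq_some h1
    omega
  have hself : P.eval (κ0 : ℚ) = 1 := Lagrange.eval_basis_self hinj hκ0
  have hne : ∀ κ ∈ Λ, κ ≠ κ0 → P.eval (κ : ℚ) = 0 := by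
    intro κ hκ hn
    exact Lagrange.eval_basis_of_ne (v := fun n : ℕ => (n : ℚ)) (Ne.symm hn) hκ
  -- total sum
  have htot : ∑ κ ∈ A, ((P.eval (κ : ℚ) : ℚ) : L) * c κ = 0 := by
    have e1 : ∀ κ ∈ A, ((P.eval (κ : ℚ) : ℚ) : L) * c κ
        = ∑ p ∈ range Λ.card, ((((fwdDiff (1 : ℚ))^[p] (fun x => P.eval x)) 0 : ℚ) : L)
            * ((κ.choose p : L) * c κ) := by
      intro κ _
      rw [bin_newton P Λ.card hdeg κ]
      push_cast
      rw [Finset.sum_mul]
      apply Finset.sum_congr rfl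
      intro p _
      ring
    rw [Finset.sum_congr rfl e1, Finset.sum_comm]
    apply Finset.sum_eq_zero
    intro p hp
    rw [← Finset.mul_sum, hc p (mem_range.1 hp), mul_zero]
  have hsplit : ∑ κ ∈ A, ((P.eval (κ : ℚ) : ℚ) : L) * c κ
      = ∑ κ ∈ A \ Λ, ((P.eval (κ : ℚ) : ℚ) : L) * c κ + ∑ κ ∈ Λ, ((P.eval (κ : ℚ) : ℚ) : L) * c κ :=
    (Finset.sum_sdiff hΛ).symm
  have hΛsum : ∑ κ ∈ Λ, ((P.eval (κ : ℚ) : ℚ) : L) * c κ = c κ0 := by
    rw [Finset.sum_eq_single_of_mem κ0 hκ0]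
    · rw [hself, Rat.cast_one, one_mul]
    · intro κ hκ hn
      rw [hne κ hκ hn, Rat.cast_zero, zero_mul]
  rw [hsplit, hΛsum] at htot
  rw [add_comm]
  exact htot

end Pool.Agent.Helper44.LN
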