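import Pool.Agent.Helper44.LN.StL

/-! Project LN, module BMP (written by helper84). -/

set_option autoImplicit false

namespace Pool.Agent.Helper44.LN

open Finset

private theorem bmp_lucas (p : ℕ) (hp : p.Prime) (e : ℕ) : ∀ a b c f : ℕ, b < p ^ e → f < p ^ e →
    (p ^ e * a + b).choose (p ^ e * c + f) ≡ a.choose c * b.choose f [MOD p] := by
  haveI : Fact p.Prime := ⟨hp⟩
  induction e with
  | zero =>
    intro a b c f hb hf
    simp only [pow_zero, Nat.lt_one_iff] at hb hf
    subst hb hf
    simp only [pow_zero, one_mul, add_zero, Nat.choose_self, mul_one]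
    exact Nat.ModEq.refl _
  | succ e ih =>
    intro a b c f hb hf
    have hp0 : 0 < p := hp.pos
    have hb1 : b / p < p ^ e := by
      rw [Nat.div_lt_iff_lt_mul hp0, ← pow_succ]; exact hb
    have hf1 : f / p < p ^ e := by
      rw [Nat.div_lt_iff_lt_mul hp0, ← pow_succ]; exact hf
    have key : ∀ u v : ℕ, (p ^ (e+1) * u + v) % p = v % p ∧
        (p ^ (e+1) * u + v) / p = p ^ e * u + v / p := by
      intro u v
      have : p ^ (e+1) * u + v = v + p * (p ^ e * u) := by ring
      rw [this]
      refine ⟨Nat.add_mul_mod_self_left _ _ _, ?_⟩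
      rw [Nat.add_mul_div_left _ _ hp0, add_comm]
    have h1 := Choose.choose_modEq_choose_mod_mul_choose_div_nat (p := p)
      (n := p ^ (e+1) * a + b) (k := p ^ (e+1) * c + f)
    have h2 := Choose.choose_modEq_choose_mod_mul_choose_div_nat (p := p) (n := b) (k := f)
    rw [(key a b).1, (key a b).2, (key c f).1, (key c f).2] at h1
    have h3 := ih a (b / p) c (f / p) hb1 hf1
    calc (p ^ (e+1) * a + b).choose (p ^ (e+1) * c + f)
        ≡ (b % p).choose (f % p) * (p ^ e * a + b / p).choose (p ^ e * c + f / p) [MOD p] := h1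
      _ ≡ (b % p).choose (f % p) * (a.choose c * (b / p).choose (f / p)) [MOD p] :=
          Nat.ModEq.mul_left _ h3
      _ = a.choose c * ((b % p).choose (f % p) * (b / p).choose (f / p)) := by ring
      _ ≡ a.choose c * b.choose f [MOD p] := Nat.ModEq.mul_left _ h2.symm

private theorem bmp_dvd (p m z q : ℕ) (hp : p.Prime) (hm : 2 * m ≤ p) (hq : q < m)
    (h : p ∣ hh z q) : ∃ i, i + 1 < m ∧ p ∣ z + i := by
  have h1 : p ∣ z.ascFactorial q := by
    rw [Nat.ascFactorial_eq_factorial_mul_choose']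
    exact Dvd.dvd.mul_left h _
  rw [Nat.ascFactorial_eq_prod_range] at h1
  obtain ⟨i, hi, hpi⟩ := (Prime.dvd_finset_prod_iff hp.prime _).1 h1
  rw [mem_range] at hi
  exact ⟨i, by omega, hpi⟩

theorem pBMP : StBMP := by
  refine ⟨?_, ?_, ?_, ?_⟩
  · intro p e y' hp he
    refine ⟨?_, ?_⟩
    · intro q hq
      have h := bmp_lucas p hp e y' q 0 q hq hq
      unfold hh
      rw [show p ^ e * y' + 1 + q - 1 = p ^ e * y' + q by omega]
      simpa using h
    · have hQ : 0 < p ^ e := pow_pos hp.pos _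
      have h := bmp_lucas p hp e (y' + 1) 0 1 0 hQ hQ
      unfold hh
      rw [show p ^ e * y' + 1 + p ^ e - 1 = p ^ e * (y' + 1) + 0 by
        have : p ^ e * (y' + 1) = p ^ e * y' + p ^ e := by ring
        omega]
      simpa using h
  · intro p e x x' hp he hx
    have hpQ : p ∣ p ^ e := dvd_pow_self _ (by omega)
    have hQ2 : 2 ≤ p ^ e := hp.two_le.trans (Nat.le_of_dvd (pow_pos hp.pos _) hpQ)
    refine ⟨?_, ?_, ?_⟩
    · unfold hh
      rw [Nat.choose_one_right, show x + 1 - 1 = x by omega, hx]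
      exact (Nat.modEq_zero_iff_dvd).2 (Dvd.dvd.mul_right hpQ _)
    · intro q hq2 hq
      have h := bmp_lucas p hp e x' (q - 2) 0 q (by omega) hq
      unfold hh
      rw [show x + q - 1 = p ^ e * x' + (q - 2) by omega]
      rw [mul_zero, zero_add, Nat.choose_zero_right, one_mul,
        Nat.choose_eq_zero_of_lt (show q - 2 < q by omega)] at h
      exact h
    · have h := bmp_lucas p hp e x' (p ^ e - 2) 1 0 (by omega) (by omega)
      unfold hh
      rw [show x + p ^ e - 1 = p ^ e * x' + (p ^ e - 2) by omega]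
      simpa using h
  · intro p e s' hp he
    have hQ : 0 < p ^ e := pow_pos hp.pos _
    have h := bmp_lucas p hp e s' (p ^ e - 1) 1 0 (by omega) hQ
    unfold hh
    rw [show p ^ e * s' + p ^ e - 1 = p ^ e * s' + (p ^ e - 1) by omega]
    simpa using h
  · intro p m x y hp hm hmp hxy hx hy
    by_contra hcon
    push Not at hcon
    obtain ⟨⟨q, hq, hpq⟩, ⟨q', hq', hpq'⟩⟩ := hcon
    obtain ⟨i, hi, hpi⟩ := bmp_dvd p m x q hp hmp hq hpq
    obtain ⟨j, hj, hpj⟩ := bmp_dvd p m y q' hp hmp hq' hpq'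
    have h1 : p ∣ (x + y) + (i + j) := by
      have := dvd_add hpi hpj
      rwa [show x + i + (y + j) = (x + y) + (i + j) by ring] at this
    have h2 : p ∣ i + j := (Nat.dvd_add_right hxy).1 h1
    have h3 : i + j = 0 := Nat.eq_zero_of_dvd_of_lt h2 (by omega)
    have hi0 : i = 0 := by omega
    rw [hi0, add_zero] at hpi
    exact hx hpi

end Pool.Agent.Helper44.LN
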