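import Pool.Agent.Helper44.LN.StL

/-! Project LN, modules CB1 and CB2. The relation with `y ≡ 1` and the periodicity suffice: neither
`p ∤ y'` nor `p ∤ x'` is needed. -/

set_option autoImplicit false

namespace Pool.Agent.Helper44.LN

open Finset

/-- Common strengthening of CB1 and CB2 (no hypothesis on `x'`, `y'`). -/
theorem pCBS (hM : StMMV) (hB : StBMP) :
    ∀ (x y m d p e y' s' : ℕ) (f : ℕ → ℕ), 1 ≤ m → 2 * m ≤ d → p.Prime → 1 ≤ e → p ^ e < m →
    y = p ^ e * y' + 1 → x + y = p ^ e * s' → ¬ p ∣ s' →
    Adj x y m d p f → ∀ k ≤ d, f k = f 0 := by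
  intro x y m d p e y' s' f hm hmd hp he hQm hy hxy hs hA
  obtain ⟨-, hM2, hM3, hM4, -, -⟩ := hM x y m d hm hmd
  obtain ⟨hB1, -, hB3, -⟩ := hB
  have hQ1 : 1 ≤ p ^ e := Nat.one_le_iff_ne_zero.mpr (pow_ne_zero _ hp.ne_zero)
  -- periodicity
  have hper : ∀ k, k + m ≤ d → f k = f (k + m) := by
    intro k hk
    apply hA k m hm le_rfl hk
    rw [hM3 k hk]
    exact hp.not_dvd_one
  -- relation (c)
  have hc : ∀ q < p ^ e, f (d - m + q) = f d := by
    intro q hq
    have h1 := hA (d - m + q) (m - q) (by omega) (by omega) (by omega) (by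
      rw [hM2 q (by omega), hy]
      intro hdvd
      have h2 := (hB1 p e y' hp he).1 q hq
      have h3 : p ∣ 1 := (Nat.ModEq.dvd_iff h2 (dvd_refl p)).mp hdvd
      exact hp.not_dvd_one h3)
    rw [h1]
    congr 1
    omega
  -- relation (b)
  have hb : ∀ k, p ^ e ≤ k → k + m ≤ d → f k = f (k + (m - p ^ e)) := by
    intro k hk1 hk2
    apply hA k (m - p ^ e) (by omega) (by omega) (by omega)
    rw [hM4 k (p ^ e) hQm hk1 hk2, hxy]
    intro hdvd
    exact hs ((Nat.ModEq.dvd_iff (hB3 p e s' hp he) (dvd_refl p)).mp hdvd)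
  -- the last block
  have hlast : ∀ j, j ≤ m → f (d - m + j) = f d := by
    intro j
    induction j using Nat.strong_induction_on with
    | _ j ih =>
      intro hj
      by_cases hjQ : j < p ^ e
      · exact hc j hjQ
      · have h1 := ih (j - p ^ e) (by omega) (by omega)
        have h2 := hb (d - 2 * m + j) (by omega) (by omega)
        have h3 := hper (d - 2 * m + j) (by omega)
        have e1 : d - 2 * m + j + (m - p ^ e) = d - m + (j - p ^ e) := by omega
        have e2 : d - 2 * m + j + m = d - m + j := by omega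
        rw [e1] at h2
        rw [e2] at h3
        rw [← h3, h2, h1]
  -- all levels
  have hall : ∀ n k, k ≤ d → d - k ≤ n → f k = f d := by
    intro n
    induction n with
    | zero =>
      intro k hk hn
      have : k = d := by omega
      rw [this]
    | succ n ih =>
      intro k hk hn
      by_cases hkm : d - m ≤ k
      · have h1 := hlast (k - (d - m)) (by omega)
        have e1 : d - m + (k - (d - m)) = k := by omega
        rwa [e1] at h1
      · rw [hper k (by omega)]
        exact ih (k + m) (by omega) (by omega)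
  intro k hk
  rw [hall d k hk (by omega), hall d 0 (Nat.zero_le _) (by omega)]

/-- **CB1.** -/
theorem pCB1 : StMMV → StBMP → StCB1 := by
  intro hM hB x y m d p e x' y' s' f hm hmd hp he hQm hy _ hxy hs _ hA
  exact pCBS hM hB x y m d p e y' s' f hm hmd hp he hQm hy hxy hs hA

end Pool.Agent.Helper44.LN
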