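import Pool.Agent.Helper44.LN.StL

/-! Project LN, module CB2 (written by helper34). -/

set_option autoImplicit false

namespace Pool.Agent.Helper44.LN

open Finset

private theorem cb2_dvd {p a b : ℕ} (h : a ≡ b [MOD p]) : p ∣ a ↔ p ∣ b := by
  rw [← Nat.modEq_zero_iff_dvd, ← Nat.modEq_zero_iff_dvd]
  exact ⟨fun h' => h.symm.trans h', fun h' => h.trans h'⟩

/-- CB2. -/
theorem pCB2 : StMMV → StBMP → StCB2 := by
  intro hMMV hBMP x y m d p e x' y' s' f hm hd hp he hQm hy hx hxy hs' hx' hA
  obtain ⟨-, -, M3, M4, M5, -⟩ := hMMV x y m d hm hd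
  obtain ⟨B1, B2, B3, -⟩ := hBMP
  obtain ⟨B1a, -⟩ := B1 p e y' hp he
  obtain ⟨B2a, B2b, B2c⟩ := B2 p e x x' hp he hx
  have B3' := B3 p e s' hp he
  rw [← hy] at B1a
  rw [← hxy] at B3'
  have hQ2 : 2 ≤ p ^ e := by
    calc 2 ≤ p := hp.two_le
      _ = p ^ 1 := (pow_one p).symm
      _ ≤ p ^ e := Nat.pow_le_pow_right hp.pos he
  set Q := p ^ e with hQ
  have hp1 : ¬ p ∣ 1 := hp.one_lt.ne' ∘ Nat.dvd_one.1
  -- periodicity
  have P : ∀ k, k + m ≤ d → f k = f (k + m) := by
    intro k hk
    refine hA k m hm le_rfl hk ?_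
    rw [M3 k hk]
    exact hp1
  -- (a)
  have hPa : ∀ k, k + 2 ≤ Q → f k = f (m - 1) := by
    intro k hk
    have h1 := hA k (m - (k + 1)) (by omega) (by omega) (by omega) (by
      rw [M5 k (k + 1) (by omega) (by omega) (by omega), Finset.sum_range_succ]
      intro hdiv
      have h2 : p ∣ ∑ b ∈ range k, hh x (k + 1 - b) * hh y b := by
        refine Finset.dvd_sum fun b hb => ?_
        have := Finset.mem_range.1 hb
        refine Dvd.dvd.mul_right ?_ _
        exact (Nat.modEq_zero_iff_dvd).1 (B2b (k + 1 - b) (by omega) (by omega))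
      have h3 : p ∣ hh x (k + 1 - k) * hh y k := (Nat.dvd_add_right h2).1 hdiv
      rw [show k + 1 - k = 1 by omega] at h3
      have h4 : hh x 1 * hh y k ≡ hh x 1 * 1 [MOD p] := (B1a k (by omega)).mul_left _
      rw [mul_one] at h4
      have h5 : p ∣ hh x 1 := (cb2_dvd h4).1 h3
      have h6 : p ∣ hh x 1 + 1 := (Nat.modEq_zero_iff_dvd).1 B2a
      exact hp1 ((Nat.dvd_add_right h5).1 h6))
    rw [h1]
    congr 1
    omega
  -- (b)
  have hPb : ∀ k, k + 2 ≤ Q → f k = f (k + (m - Q)) := by
    intro k hk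
    refine hA k (m - Q) (by omega) (by omega) (by omega) ?_
    rw [M5 k Q (by omega) (by omega) (by omega), Finset.sum_range_succ']
    intro hdiv
    have h2 : p ∣ ∑ b ∈ range k, hh x (Q - (b + 1)) * hh y (b + 1) := by
      refine Finset.dvd_sum fun b hb => ?_
      have := Finset.mem_range.1 hb
      refine Dvd.dvd.mul_right ?_ _
      exact (Nat.modEq_zero_iff_dvd).1 (B2b (Q - (b + 1)) (by omega) (by omega))
    have h3 : p ∣ hh x (Q - 0) * hh y 0 := (Nat.dvd_add_right h2).1 hdiv
    have h4 : hh y 0 = 1 := by simp [hh]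
    rw [h4, mul_one, Nat.sub_zero] at h3
    exact hx' ((cb2_dvd B2c).1 h3)
  -- (c)
  have hPc : ∀ k, Q ≤ k → k < m → f k = f (k - Q) := by
    intro k hk hkm
    have h1 := hA k (m - Q) (by omega) (by omega) (by omega) (by
      rw [M4 k Q (by omega) hk (by omega)]
      intro hdiv
      exact hs' ((cb2_dvd B3').1 hdiv))
    rw [h1, P (k - Q) (by omega)]
    congr 1
    omega
  have hAm : ∀ k, k < m → f k = f (k % Q) := by
    intro k
    induction k using Nat.strong_induction_on with
    | _ k ih =>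
      intro hk
      by_cases h : k < Q
      · rw [Nat.mod_eq_of_lt h]
      · push Not at h
        rw [hPc k h hk, ih (k - Q) (by omega) (by omega), Nat.mod_eq_sub_mod h]
  have hBm : ∀ k, k ≤ d → f k = f (k % m) := by
    intro k
    induction k using Nat.strong_induction_on with
    | _ k ih =>
      intro hk
      by_cases h : k < m
      · rw [Nat.mod_eq_of_lt h]
      · push Not at h
        have h1 := P (k - m) (by omega)
        rw [Nat.sub_add_cancel h] at h1
        rw [← h1, ih (k - m) (by omega) (by omega), Nat.mod_eq_sub_mod h]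
  -- the residue Q - 1
  have hlast : f (Q - 1) = f (m - 1) := by
    have hdm := Nat.div_add_mod m Q
    have hlt := Nat.mod_lt m (show 0 < Q by omega)
    have hdiv1 : 1 ≤ m / Q := (Nat.one_le_div_iff (by omega)).2 hQm.le
    have hQmul : Q ≤ Q * (m / Q) := Nat.le_mul_of_pos_right Q (by omega)
    have hK : f (Q * (m / Q) - 1) = f (Q - 1) := by
      rw [hAm (Q * (m / Q) - 1) (by omega)]
      congr 1
      have h1 : Q * (m / Q) - 1 = (Q - 1) + Q * (m / Q - 1) := by
        obtain ⟨j, hj⟩ : ∃ j, m / Q = j + 1 := ⟨m / Q - 1, by omega⟩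
        rw [hj, Nat.add_sub_cancel, Nat.mul_add, Nat.mul_one]
        omega
      rw [h1, Nat.add_mul_mod_self_left, Nat.mod_eq_of_lt (by omega)]
    rcases Nat.eq_zero_or_pos (m % Q) with h0 | h0
    · rw [← hK]
      congr 1
      omega
    · have h1 := hPb (Q * (m / Q) + Q - 1 - m) (by omega)
      have h2 := hPa (Q * (m / Q) + Q - 1 - m) (by omega)
      have h3 : Q * (m / Q) + Q - 1 - m + (m - Q) = Q * (m / Q) - 1 := by omega
      rw [h3] at h1
      rw [← hK, ← h1, h2]
  have hall : ∀ k, k < Q → f k = f (m - 1) := by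
    intro k hk
    by_cases h : k + 2 ≤ Q
    · exact hPa k h
    · have h1 : k = Q - 1 := by omega
      rw [h1]
      exact hlast
  have hfin : ∀ k ≤ d, f k = f (m - 1) := by
    intro k hk
    rw [hBm k hk, hAm (k % m) (Nat.mod_lt k (by omega))]
    exact hall _ (Nat.mod_lt _ (by omega))
  intro k hk
  rw [hfin k hk, hfin 0 (Nat.zero_le d)]

end Pool.Agent.Helper44.LN
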