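import Pool.Agent.Helper44.LN.StC

/-! Project LN, module CHN: consecutive classes differ by one kind of exchange. -/

set_option autoImplicit false

namespace Pool.Agent.Helper44.LN

open Finset

/-- rank of the level `κ` with abstract parameters -/
private def rkq (d k s κ : ℕ) : ℕ :=
  if κ < k then d - κ else if κ = k then s else if κ ≤ k + s then κ - k - 1 else κ - k

/-- number of levels in `[lo, hi]` before `κ` -/
private def pq (k s lo hi κ : ℕ) : ℕ :=
  if κ < k then hi - κ else if κ = k then min (k + s) hi - k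
  else if κ ≤ k + s then κ - max (k + 1) lo else κ - max k lo

private lemma rk_eq (m d t κ : ℕ) : rk m d t κ = rkq d (t / m) (min (t % m) (d - t / m)) κ := rfl

private lemma ps_q {d k s lo hi κ : ℕ} (hk : k ≤ d) (hs : s ≤ d - k) (hlo : lo ≤ κ) (hhi : κ ≤ hi)
    (hd : hi ≤ d) : ((Icc lo hi).filter (fun κ' => rkq d k s κ' < rkq d k s κ)).card =
      pq k s lo hi κ := by
  rcases lt_trichotomy κ k with h | h | h
  · have e : (Icc lo hi).filter (fun κ' => rkq d k s κ' < rkq d k s κ) = Ioc κ hi := by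
      ext z
      simp only [mem_filter, mem_Icc, mem_Ioc, rkq]
      split_ifs <;> omega
    rw [e, Nat.card_Ioc, pq, if_pos h]
  · have e : (Icc lo hi).filter (fun κ' => rkq d k s κ' < rkq d k s κ) = Ioc k (min (k + s) hi) := by
      ext z
      simp only [mem_filter, mem_Icc, mem_Ioc, rkq]
      split_ifs <;> omega
    rw [e, Nat.card_Ioc, pq, if_neg (by omega), if_pos h]
  · by_cases h' : κ ≤ k + s
    · have e : (Icc lo hi).filter (fun κ' => rkq d k s κ' < rkq d k s κ) = Ico (max (k + 1) lo) κ := by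
        ext z
        simp only [mem_filter, mem_Icc, mem_Ico, rkq]
        split_ifs <;> omega
      rw [e, Nat.card_Ico, pq, if_neg (by omega), if_neg (by omega), if_pos h']
    · have e : (Icc lo hi).filter (fun κ' => rkq d k s κ' < rkq d k s κ) = Ico (max k lo) κ := by
        ext z
        simp only [mem_filter, mem_Icc, mem_Ico, rkq]
        split_ifs <;> omega
      rw [e, Nat.card_Ico, pq, if_neg (by omega), if_neg (by omega), if_neg h']

private lemma ps_eq {m d t a b κ : ℕ} (hk : t / m ≤ d) (hlo : b ≤ κ) (hhi : a + κ ≤ d) :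
    ps m d t a b κ = pq (t / m) (min (t % m) (d - t / m)) b (d - a) κ := by
  unfold ps
  simp only [rk_eq]
  exact ps_q hk (min_le_right _ _) hlo (by omega) (by omega)

/-- step inside of a block -/
private lemma step1 {m d k s a b κ : ℕ} (hm : 2 * m ≤ d) (hk : k < d) (hs : s + 1 < m)
    (hab : a + b < m) (hlo : b ≤ κ) (hhi : a + κ ≤ d) :
    ((if pq k (min (s + 1) (d - k)) b (d - a) κ < m - a - b then (1 : ℤ) else 0) -
      (if pq k (min s (d - k)) b (d - a) κ < m - a - b then (1 : ℤ) else 0)) =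
    (if a + b = m - (s + 1) ∧ b ≤ k ∧ a + k + (s + 1) ≤ d then (1 : ℤ) else 0) *
      ((if κ = k + (s + 1) then 1 else 0) - (if κ = k then 1 else 0)) := by
  unfold pq
  split_ifs <;> simp <;> omega

/-- step to the next block -/
private lemma step2 {m d k a b κ : ℕ} (h1 : 1 ≤ m) (hm : 2 * m ≤ d) (hk : k < d)
    (hab : a + b < m) (hlo : b ≤ κ) (hhi : a + κ ≤ d) :
    ((if pq (k + 1) (min 0 (d - (k + 1))) b (d - a) κ < m - a - b then (1 : ℤ) else 0) -
      (if pq k (min (m - 1) (d - k)) b (d - a) κ < m - a - b then (1 : ℤ) else 0)) =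
    (if a + b = m - m ∧ b ≤ k ∧ a + k + m ≤ d then (1 : ℤ) else 0) *
      ((if κ = k + m then 1 else 0) - (if κ = k then 1 else 0)) := by
  unfold pq
  split_ifs <;> simp <;> omega

private lemma point {m d t a b κ : ℕ} (h1 : 1 ≤ m) (hm : 2 * m ≤ d) (ht : t < d * m)
    (ha : a < m) (hb : b < m) :
    ((if a + b < m ∧ b ≤ κ ∧ a + κ ≤ d ∧ ps m d (t+1) a b κ < m - a - b then (1 : ℤ) else 0) -
      (if a + b < m ∧ b ≤ κ ∧ a + κ ≤ d ∧ ps m d t a b κ < m - a - b then (1 : ℤ) else 0)) =
    (if a + b = m - (t % m + 1) ∧ b ≤ t / m ∧ a + t / m + (t % m + 1) ≤ d then (1 : ℤ) else 0) *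
      ((if κ = t / m + (t % m + 1) then 1 else 0) - (if κ = t / m then 1 else 0)) := by
  have hk : t / m < d := by
    rw [Nat.div_lt_iff_lt_mul (by omega)]; exact ht
  have hs : t % m < m := Nat.mod_lt _ (by omega)
  have htm : m * (t / m) + t % m = t := Nat.div_add_mod t m
  by_cases hc : a + b < m ∧ b ≤ κ ∧ a + κ ≤ d
  swap
  · have e1 : ¬ (a + b < m ∧ b ≤ κ ∧ a + κ ≤ d ∧ ps m d (t+1) a b κ < m - a - b) := by tauto
    have e2 : ¬ (a + b < m ∧ b ≤ κ ∧ a + κ ≤ d ∧ ps m d t a b κ < m - a - b) := by tauto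
    rw [if_neg e1, if_neg e2]
    by_cases h3 : a + b = m - (t % m + 1) ∧ b ≤ t / m ∧ a + t / m + (t % m + 1) ≤ d
    · rw [if_pos h3]
      have h4 : κ ≠ t / m + (t % m + 1) := by
        intro h; exact hc (by omega)
      have h5 : κ ≠ t / m := by
        intro h; exact hc (by omega)
      rw [if_neg h4, if_neg h5]
      ring
    · rw [if_neg h3]
      ring
  obtain ⟨hab, hlo, hhi⟩ := hc
  have e2 : (a + b < m ∧ b ≤ κ ∧ a + κ ≤ d ∧ ps m d t a b κ < m - a - b) ↔
      pq (t / m) (min (t % m) (d - t / m)) b (d - a) κ < m - a - b := by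
    rw [ps_eq hk.le hlo hhi]
    tauto
  have hk' : (t + 1) / m ≤ d := by
    rw [Nat.div_le_iff_le_mul_add_pred (by omega)]
    have : d * m = m * d := Nat.mul_comm _ _
    omega
  have e1 : (a + b < m ∧ b ≤ κ ∧ a + κ ≤ d ∧ ps m d (t+1) a b κ < m - a - b) ↔
      pq ((t+1) / m) (min ((t+1) % m) (d - (t+1) / m)) b (d - a) κ < m - a - b := by
    rw [ps_eq hk' hlo hhi]
    tauto
  simp only [e1, e2]
  by_cases hlast : t % m + 1 < m
  · have d1 : (t + 1) / m = t / m := by
      have : t + 1 = (t % m + 1) + m * (t / m) := by omega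
      rw [this, Nat.add_mul_div_left _ _ (by omega), Nat.div_eq_of_lt hlast, zero_add]
    have d2 : (t + 1) % m = t % m + 1 := by
      have : t + 1 = (t % m + 1) + m * (t / m) := by omega
      conv_lhs => rw [this]
      rw [Nat.add_mul_mod_self_left, Nat.mod_eq_of_lt hlast]
    rw [d1, d2]
    exact step1 hm hk hlast hab hlo hhi
  · have hsm : t % m + 1 = m := by omega
    have d0 : t + 1 = m * (t / m + 1) := by
      rw [Nat.mul_add, Nat.mul_one]; omega
    have d1 : (t + 1) / m = t / m + 1 := by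
      rw [d0, Nat.mul_div_cancel_left _ (by omega)]
    have d2 : (t + 1) % m = 0 := by
      rw [d0, Nat.mul_mod_right]
    rw [d1, d2, hsm]
    have d3 : t % m = m - 1 := by omega
    rw [d3]
    exact step2 h1 hm hk hab hlo hhi

private lemma sum_Mm (x y m d k σ : ℕ) (h1 : 1 ≤ σ) (h2 : σ ≤ m) :
    ∑ c ∈ range m ×ˢ range m, (if c.1 + c.2 = m - σ ∧ c.2 ≤ k ∧ c.1 + k + σ ≤ d then
      hh x c.1 * hh y c.2 else 0) = Mm x y m d k σ := by
  unfold Mm
  rw [Finset.sum_product_right]
  by_cases hkd : k + σ ≤ d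
  · rw [if_pos hkd]
    rw [← Finset.sum_subset (Finset.range_subset_range.2 (show m - σ + 1 ≤ m by omega))]
    · refine Finset.sum_congr rfl fun b hb => ?_
      have hb' := Finset.mem_range.1 hb
      rw [Finset.sum_eq_single (m - σ - b)]
      · simp only
        have e : (m - σ - b + b = m - σ ∧ b ≤ k ∧ m - σ - b + k + σ ≤ d) ↔
            (b ≤ k ∧ m - σ - b + k + σ ≤ d) := by
          constructor
          · exact fun h => h.2
          · exact fun h => ⟨by omega, h⟩
        simp only [e]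
      · intro a _ hne
        rw [if_neg]
        rintro ⟨h, -, -⟩
        apply hne
        simp only at h
        omega
      · intro h
        exact absurd (Finset.mem_range.2 (by omega)) h
    · intro b _ hb
      refine Finset.sum_eq_zero fun a _ => ?_
      rw [if_neg]
      rintro ⟨h, -, -⟩
      simp only at h
      exact hb (Finset.mem_range.2 (by omega))
  · rw [if_neg hkd]
    refine Finset.sum_eq_zero fun b _ => Finset.sum_eq_zero fun a _ => ?_
    rw [if_neg]
    rintro ⟨-, -, h⟩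
    simp only at h
    omega

theorem pCHN : StCHN := by
  intro x y m d t κ h1 hm ht _
  have hs : t % m < m := Nat.mod_lt _ (by omega)
  have hsz : ∀ t', (sz2 x y (TD m d t' m κ) : ℤ) = ∑ c ∈ range m ×ˢ range m,
      ((hh x c.1 : ℤ) * (hh y c.2 : ℤ)) *
        (if c.1 + c.2 < m ∧ c.2 ≤ κ ∧ c.1 + κ ≤ d ∧ ps m d t' c.1 c.2 κ < m - c.1 - c.2
          then (1 : ℤ) else 0) := by
    intro t'
    unfold sz2 TD
    rw [Finset.sum_filter]
    push_cast
    refine Finset.sum_congr rfl fun c _ => ?_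
    split_ifs <;> simp
  rw [hsz, hsz, ← Finset.sum_sub_distrib]
  have hM : (Mm x y m d (t / m) (t % m + 1) : ℤ) = ∑ c ∈ range m ×ˢ range m,
      ((hh x c.1 : ℤ) * (hh y c.2 : ℤ)) *
        (if c.1 + c.2 = m - (t % m + 1) ∧ c.2 ≤ t / m ∧ c.1 + t / m + (t % m + 1) ≤ d
          then (1 : ℤ) else 0) := by
    rw [← sum_Mm x y m d (t / m) (t % m + 1) (by omega) (by omega)]
    push_cast
    refine Finset.sum_congr rfl fun c _ => ?_
    split_ifs <;> simp
  rw [hM, Finset.sum_mul]
  refine Finset.sum_congr rfl fun c hc => ?_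
  obtain ⟨hc1, hc2⟩ := Finset.mem_product.1 hc
  have h := point (κ := κ) h1 hm ht (Finset.mem_range.1 hc1) (Finset.mem_range.1 hc2)
  rw [← mul_sub, h]
  ring

end Pool.Agent.Helper44.LN
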