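import Pool.Agent.Helper44.LN.StG

/-! Project LN, module CNT: cardinalities of the sets of exponents of bidegree `(p, q)`. -/

set_option autoImplicit false

namespace Pool.Agent.Helper44.LN

open Finset MvPolynomial

private theorem cnt_mem (x y p q : ℕ) (γ : Vr x y →₀ ℕ) :
    γ ∈ Cx x y p q ↔ (∑ i, γ (Sum.inl i) = p) ∧ (∑ j, γ (Sum.inr j) = q) := by
  unfold Cx
  rw [mem_filter, mem_finsuppAntidiag, Fintype.sum_sum_type]
  constructor
  · rintro ⟨⟨h1, -⟩, h2⟩
    exact ⟨h2, by omega⟩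
  · rintro ⟨h1, h2⟩
    exact ⟨⟨by omega, subset_univ _⟩, h1⟩

private theorem cnt_memE (n a : ℕ) (f : Fin n →₀ ℕ) :
    f ∈ (univ : Finset (Fin n)).finsuppAntidiag a ↔ ∑ i, f i = a := by
  rw [mem_finsuppAntidiag]
  exact ⟨fun h => h.1, fun h => ⟨h, subset_univ _⟩⟩

private theorem cnt_cardE (n a : ℕ) :
    ((univ : Finset (Fin n)).finsuppAntidiag a).card = (n + a - 1).choose a := by
  rw [card_finsuppAntidiag_nat_eq_choose, card_univ, Fintype.card_fin]

private theorem cnt_all (x y p q : ℕ) :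
    (Cx x y p q).card = (((univ : Finset (Fin (x + 1))).finsuppAntidiag p) ×ˢ
      ((univ : Finset (Fin (y + 1))).finsuppAntidiag q)).card := by
  refine card_nbij' (fun γ => Finsupp.sumFinsuppEquivProdFinsupp γ)
    (fun g => Finsupp.sumFinsuppEquivProdFinsupp.symm g) ?_ ?_ ?_ ?_
  · intro γ hγ
    have h := (cnt_mem x y p q γ).1 hγ
    refine mem_coe.2 (mem_product.2 ⟨(cnt_memE _ _ _).2 ?_, (cnt_memE _ _ _).2 ?_⟩)
    · simpa using h.1
    · simpa using h.2
  · intro g hg
    have h := mem_product.1 (mem_coe.1 hg)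
    have h1 := (cnt_memE _ _ _).1 h.1
    have h2 := (cnt_memE _ _ _).1 h.2
    refine mem_coe.2 ((cnt_mem x y p q _).2 ⟨?_, ?_⟩)
    · simpa using h1
    · simpa using h2
  · intro γ _
    exact Equiv.symm_apply_apply _ _
  · intro g _
    exact Equiv.apply_symm_apply _ _

private theorem cnt_fib (x y p q a b : ℕ) (ha : a ≤ p) (hb : b ≤ q) :
    ((Cx x y p q).filter
      (fun γ => (p - γ (Sum.inl 0), q - γ (Sum.inr 0)) = (a, b))).card = hh x a * hh y b := by
  have hE : (((univ : Finset (Fin x)).finsuppAntidiag a) ×ˢ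
      ((univ : Finset (Fin y)).finsuppAntidiag b)).card = hh x a * hh y b := by
    rw [card_product, cnt_cardE, cnt_cardE]
    rfl
  rw [← hE]
  refine card_nbij' (fun γ => ((Finsupp.sumFinsuppEquivProdFinsupp γ).1.tail,
      (Finsupp.sumFinsuppEquivProdFinsupp γ).2.tail))
    (fun g => Finsupp.sumFinsuppEquivProdFinsupp.symm
      (Finsupp.cons (p - a) g.1, Finsupp.cons (q - b) g.2)) ?_ ?_ ?_ ?_
  · intro γ hγ
    obtain ⟨h0, h3⟩ := mem_filter.1 (mem_coe.1 hγ)
    have h := (cnt_mem x y p q γ).1 h0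
    have h1 := h.1
    have h2 := h.2
    rw [Fin.sum_univ_succ] at h1 h2
    have h4 := (Prod.ext_iff.1 h3).1
    have h5 := (Prod.ext_iff.1 h3).2
    simp only at h4 h5
    refine mem_coe.2 (mem_product.2 ⟨(cnt_memE _ _ _).2 ?_, (cnt_memE _ _ _).2 ?_⟩)
    · simp only [Finsupp.tail_apply, Finsupp.fst_sumFinsuppEquivProdFinsupp]
      omega
    · simp only [Finsupp.tail_apply, Finsupp.snd_sumFinsuppEquivProdFinsupp]
      omega
  · intro g hg
    have h := mem_product.1 (mem_coe.1 hg)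
    have h1 := (cnt_memE _ _ _).1 h.1
    have h2 := (cnt_memE _ _ _).1 h.2
    refine mem_coe.2 (mem_filter.2 ⟨(cnt_mem x y p q _).2 ⟨?_, ?_⟩, ?_⟩)
    · rw [Fin.sum_univ_succ]
      simp only [Finsupp.sumFinsuppEquivProdFinsupp_symm_inl, Finsupp.cons_zero,
        Finsupp.cons_succ]
      omega
    · rw [Fin.sum_univ_succ]
      simp only [Finsupp.sumFinsuppEquivProdFinsupp_symm_inr, Finsupp.cons_zero,
        Finsupp.cons_succ]
      omega
    · simp only [Finsupp.sumFinsuppEquivProdFinsupp_symm_inl,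
        Finsupp.sumFinsuppEquivProdFinsupp_symm_inr, Finsupp.cons_zero]
      rw [Nat.sub_sub_self ha, Nat.sub_sub_self hb]
  · intro γ hγ
    obtain ⟨h0, h3⟩ := mem_filter.1 (mem_coe.1 hγ)
    have h := (cnt_mem x y p q γ).1 h0
    have h1 := h.1
    have h2 := h.2
    rw [Fin.sum_univ_succ] at h1 h2
    have h4 := (Prod.ext_iff.1 h3).1
    have h5 := (Prod.ext_iff.1 h3).2
    simp only at h4 h5
    have e1 : p - a = (Finsupp.sumFinsuppEquivProdFinsupp γ).1 0 := by
      rw [Finsupp.fst_sumFinsuppEquivProdFinsupp]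
      omega
    have e2 : q - b = (Finsupp.sumFinsuppEquivProdFinsupp γ).2 0 := by
      rw [Finsupp.snd_sumFinsuppEquivProdFinsupp]
      omega
    show Finsupp.sumFinsuppEquivProdFinsupp.symm
      (Finsupp.cons (p - a) (Finsupp.sumFinsuppEquivProdFinsupp γ).1.tail,
       Finsupp.cons (q - b) (Finsupp.sumFinsuppEquivProdFinsupp γ).2.tail) = γ
    rw [e1, e2, Finsupp.cons_tail, Finsupp.cons_tail]
    exact Equiv.symm_apply_apply _ _
  · intro g _
    show (((Finsupp.sumFinsuppEquivProdFinsupp (Finsupp.sumFinsuppEquivProdFinsupp.symm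
      (Finsupp.cons (p - a) g.1, Finsupp.cons (q - b) g.2))).1.tail),
      ((Finsupp.sumFinsuppEquivProdFinsupp (Finsupp.sumFinsuppEquivProdFinsupp.symm
      (Finsupp.cons (p - a) g.1, Finsupp.cons (q - b) g.2))).2.tail)) = g
    rw [Equiv.apply_symm_apply]
    simp only [Finsupp.tail_cons]

/-- project LN, module CNT -/
theorem pCNT : StCNT := by
  intro x y p q
  refine ⟨?_, ?_⟩
  · rw [cnt_all, card_product, cnt_cardE, cnt_cardE]
    have h1 : (x + 1 + p - 1).choose p = (x + p).choose x := by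
      rw [show x + 1 + p - 1 = x + p by omega]
      exact (Nat.choose_symm_add).symm
    have h2 : (y + 1 + q - 1).choose q = (y + q).choose y := by
      rw [show y + 1 + q - 1 = y + q by omega]
      exact (Nat.choose_symm_add).symm
    rw [h1, h2]
  · intro D hD
    rw [sz2]
    rw [card_eq_sum_card_fiberwise (f := fun γ : Vr x y →₀ ℕ =>
      (p - γ (Sum.inl 0), q - γ (Sum.inr 0))) (t := D)]
    · refine sum_congr rfl fun c hc => ?_
      have hc' := mem_product.1 (hD hc)
      have ha : c.1 ≤ p := Nat.lt_succ_iff.1 (mem_range.1 hc'.1)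
      have hb : c.2 ≤ q := Nat.lt_succ_iff.1 (mem_range.1 hc'.2)
      rw [← cnt_fib x y p q c.1 c.2 ha hb]
      congr 1
      ext γ
      simp only [mem_filter]
      constructor
      · rintro ⟨⟨h1, h2⟩, h3⟩
        exact ⟨h1, h3⟩
      · rintro ⟨h1, h3⟩
        exact ⟨⟨h1, by rw [h3]; exact hc⟩, h3⟩
    · intro γ hγ
      exact (mem_filter.1 (mem_coe.1 hγ)).2

end Pool.Agent.Helper44.LN
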