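import Pool.Agent.Helper44.LN.StG

/-! Project LN, module COD (helper98). -/

set_option autoImplicit false

namespace Pool.Agent.Helper44.LN

open Finset MvPolynomial

private lemma det_ne (x y i : ℕ) :
    (gn x y i).1.det ≠ 0 ∧ (gn x y i).2.det ≠ 0 := by
  obtain ⟨φ, hφ⟩ : ∃ φ : Pf x y →+* ℂ, ∀ z, φ (X z) =
      Sum.elim (fun jl : Fin (x+1) × Fin (x+1) => if jl.1 = jl.2 then (1 : ℂ) else 0)
        (fun jl : Fin (y+1) × Fin (y+1) => if jl.1 = jl.2 then (1 : ℂ) else 0) z.2 :=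
    ⟨eval _, fun z => eval_X z⟩
  constructor
  · have h1 : (gn x y i).1 = (algebraMap (Pf x y) (Kf x y)).mapMatrix
        (Matrix.of fun j l => (X (i, Sum.inl (j, l)) : Pf x y)) := by
      ext j l; rfl
    rw [h1, ← RingHom.map_det]
    intro h
    have h2 := (IsFractionRing.injective (Pf x y) (Kf x y)) (h.trans (map_zero _).symm)
    have h3 := congrArg φ h2
    rw [RingHom.map_det, map_zero] at h3
    have h4 : φ.mapMatrix (Matrix.of fun j l => (X (i, Sum.inl (j, l)) : Pf x y)) =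
        (1 : Matrix (Fin (x+1)) (Fin (x+1)) ℂ) := by
      ext j l
      rw [RingHom.mapMatrix_apply, Matrix.map_apply, Matrix.of_apply, hφ, Matrix.one_apply]
      rfl
    rw [h4, Matrix.det_one] at h3
    exact one_ne_zero h3
  · have h1 : (gn x y i).2 = (algebraMap (Pf x y) (Kf x y)).mapMatrix
        (Matrix.of fun j l => (X (i, Sum.inr (j, l)) : Pf x y)) := by
      ext j l; rfl
    rw [h1, ← RingHom.map_det]
    intro h
    have h2 := (IsFractionRing.injective (Pf x y) (Kf x y)) (h.trans (map_zero _).symm)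
    have h3 := congrArg φ h2
    rw [RingHom.map_det, map_zero] at h3
    have h4 : φ.mapMatrix (Matrix.of fun j l => (X (i, Sum.inr (j, l)) : Pf x y)) =
        (1 : Matrix (Fin (y+1)) (Fin (y+1)) ℂ) := by
      ext j l
      rw [RingHom.mapMatrix_apply, Matrix.map_apply, Matrix.of_apply, hφ, Matrix.one_apply]
      rfl
    rw [h4, Matrix.det_one] at h3
    exact one_ne_zero h3

private lemma lin_alg {K ι : Type} [Field K] [Fintype ι] [DecidableEq ι] (A B : Matrix ι ι K)
    (hAB : A * B = 1) (P : ι → Prop) [DecidablePred P] (W : Submodule K (ι → K))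
    (hW : ∀ v, v ∈ W ↔ ∀ γ, P γ → A.mulVec v γ = 0) :
    Module.finrank K W + Fintype.card {γ // P γ} = Fintype.card ι := by
  have hsurj1 : Function.Surjective (Matrix.mulVecLin A) := by
    intro w
    refine ⟨B.mulVec w, ?_⟩
    rw [Matrix.mulVecLin_apply, Matrix.mulVec_mulVec, hAB, Matrix.one_mulVec]
  obtain ⟨r, hr⟩ : ∃ r : (ι → K) →ₗ[K] ({γ // P γ} → K),
      r = (LinearMap.funLeft K K (Subtype.val : {γ // P γ} → ι)).comp
        (Matrix.mulVecLin A) := ⟨_, rfl⟩
  have hrs : Function.Surjective r := by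
    rw [hr, LinearMap.coe_comp]
    exact (LinearMap.funLeft_surjective_of_injective _ _ _ Subtype.val_injective).comp hsurj1
  have hker : LinearMap.ker r = W := by
    ext v
    rw [LinearMap.mem_ker, hW, hr]
    constructor
    · intro h0 γ hγ
      exact congrFun h0 ⟨γ, hγ⟩
    · intro h0
      funext γ
      exact h0 γ.1 γ.2
  have hrn := LinearMap.finrank_range_add_finrank_ker r
  rw [LinearMap.range_eq_top.mpr hrs, finrank_top, hker, Module.finrank_fintype_fun_eq_card,
    Module.finrank_fintype_fun_eq_card] at hrn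
  omega

private lemma cod_gen {K : Type} [Field K] (hRCM : StRCM) (x y p q : ℕ) (g : Mt x y K)
    (hd1 : g.1.det ≠ 0) (hd2 : g.2.det ≠ 0) (D : Finset (ℕ × ℕ)) :
    Module.finrank K (Wt K x y p q g D) +
      Fintype.card {γ : Cx x y p q // (p - γ.1 (Sum.inl 0), q - γ.1 (Sum.inr 0)) ∈ D} =
      Fintype.card (Cx x y p q) := by
  obtain ⟨hmul, hone, -⟩ := hRCM K x y p q
  obtain ⟨h, hh⟩ : ∃ h : Mt x y K, h = (g.1⁻¹, g.2⁻¹) := ⟨_, rfl⟩
  have hgh : h * g = 1 := by
    rw [hh]
    refine Prod.ext ?_ ?_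
    · exact Matrix.nonsing_inv_mul _ (isUnit_iff_ne_zero.mpr hd1)
    · exact Matrix.nonsing_inv_mul _ (isUnit_iff_ne_zero.mpr hd2)
  have hAB : RC p q g * RC p q h = 1 := by
    rw [← hmul, hgh, hone]
  exact lin_alg (RC p q g) (RC p q h) hAB
    (fun γ : Cx x y p q => (p - γ.1 (Sum.inl 0), q - γ.1 (Sum.inr 0)) ∈ D)
    (Wt K x y p q g D) (fun v => mem_Wt)

private lemma card_sub {α : Type} (C : Finset α) (P : α → Prop) [DecidablePred P]
    [Fintype {γ : C // P γ.1}] :
    Fintype.card {γ : C // P γ.1} = (C.filter P).card := by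
  classical
  rw [← Fintype.card_coe (C.filter P)]
  refine Fintype.card_congr ⟨fun γ => ⟨γ.1.1, Finset.mem_filter.mpr ⟨γ.1.2, γ.2⟩⟩,
    fun γ => ⟨⟨γ.1, (Finset.mem_filter.mp γ.2).1⟩, (Finset.mem_filter.mp γ.2).2⟩, ?_, ?_⟩
  · intro γ; rfl
  · intro γ; rfl

theorem pCOD : StRCM → StCNT → StCOD := by
  intro hRCM hCNT x y p q i D hD
  have hL := cod_gen hRCM x y p q (gn x y i) (det_ne x y i).1 (det_ne x y i).2 D
  rw [card_sub (Cx x y p q) (fun γ => (p - γ (Sum.inl 0), q - γ (Sum.inr 0)) ∈ D),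
    (hCNT x y p q).2 D hD, Fintype.card_coe] at hL
  exact hL

end Pool.Agent.Helper44.LN
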