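import Pool.Agent.Helper44.LN.StD

/-! Project LN, module COE: vanishing to order `μ` at a point in terms of coefficients. -/

namespace Pool.Agent.Helper44.LN

open Finset MvPolynomial

/-- polynomials whose coefficient at `e` is divisible by `π ^ (μ - |e|)` -/
private noncomputable def IvC {A σ : Type} [CommRing A] (π : A) (μ : ℕ) :
    Set (MvPolynomial σ A) := {h | ∀ e : σ →₀ ℕ, π ^ (μ - e.degree) ∣ coeff e h}

private lemma IvC_mul {A σ : Type} [CommRing A] (π : A) (a b : ℕ)
    (f h : MvPolynomial σ A) (hf : f ∈ IvC π a) (hh : h ∈ IvC π b) :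
    f * h ∈ IvC π (a + b) := by
  classical
  intro e
  rw [coeff_mul]
  refine Finset.dvd_sum fun ee hee => ?_
  rw [Finset.HasAntidiagonal.mem_antidiagonal] at hee
  have h1 := hf ee.1
  have h2 := hh ee.2
  have h3 : e.degree = ee.1.degree + ee.2.degree := by
    rw [← hee, map_add]
  refine (pow_dvd_pow π ?_).trans ((pow_add π _ _).symm ▸ mul_dvd_mul h1 h2)
  omega

/-- the same as an ideal -/
private noncomputable def Iv {A σ : Type} [CommRing A] (π : A) (μ : ℕ) :
    Ideal (MvPolynomial σ A) where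
  carrier := IvC π μ
  add_mem' := by
    intro f h hf hh e
    rw [coeff_add]
    exact dvd_add (hf e) (hh e)
  zero_mem' := by
    intro e
    rw [coeff_zero]
    exact dvd_zero _
  smul_mem' := by
    intro r f hf
    have h0 : r ∈ IvC π 0 := by
      intro e
      simp
    have := IvC_mul π 0 μ r f h0 hf
    rwa [zero_add] at this

private lemma Iv_pow {A σ : Type} [CommRing A] (π : A) (μ : ℕ) :
    (Iv π 1 : Ideal (MvPolynomial σ A)) ^ μ ≤ Iv π μ := by
  induction μ with
  | zero =>
    intro f _ e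
    simp
  | succ μ ih =>
    rw [pow_succ, Ideal.mul_le]
    intro f hf h hh
    exact IvC_mul π μ 1 f h (ih hf) hh

/-- the dehomogenised polynomial ring -/
private abbrev BB (L : Type) [Field L] (x y : ℕ) : Type :=
  MvPolynomial (Fin x ⊕ Fin y) (Polynomial L)

/-- images of the variables -/
private noncomputable def tv (L : Type) [Field L] (x y : ℕ) : Vr x y → BB L x y :=
  Sum.elim (Fin.cons 1 (fun l => X (Sum.inl l)))
    (Fin.cons (C Polynomial.X) (fun l => C Polynomial.X * X (Sum.inr l)))

/-- the dehomogenisation -/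
private noncomputable def th (L : Type) [Field L] (x y : ℕ) :
    MvPolynomial (Vr x y) L →ₐ[L] BB L x y := aeval (tv L x y)

/-- exponents without the zeroth entries -/
private noncomputable def tl {x y : ℕ} (γ : Vr x y →₀ ℕ) : (Fin x ⊕ Fin y) →₀ ℕ :=
  Finsupp.equivFunOnFinite.symm
    (Sum.elim (fun l => γ (Sum.inl l.succ)) (fun l => γ (Sum.inr l.succ)))

private lemma th_monomial (L : Type) [Field L] (x y : ℕ) (γ : Vr x y →₀ ℕ) (c : L) :
    th L x y (monomial γ c) = monomial (tl γ) (Polynomial.C c * Polynomial.X ^ s2 γ) := by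
  unfold th
  rw [aeval_monomial]
  have h1 : (γ.prod fun i k => tv L x y i ^ k) =
      monomial (tl γ) (Polynomial.X ^ s2 γ) := by
    rw [Finsupp.prod_fintype _ _ (fun i => pow_zero _), Fintype.prod_sum_type,
      Fin.prod_univ_succ, Fin.prod_univ_succ]
    simp only [tv, Sum.elim_inl, Sum.elim_inr, Fin.cons_zero, Fin.cons_succ, one_pow, one_mul]
    rw [monomial_eq, Finsupp.prod_fintype _ _ (fun i => pow_zero _), Fintype.prod_sum_type]
    simp only [mul_pow, Finset.prod_mul_distrib]
    have h2 : s2 γ = γ (Sum.inr 0) + ∑ l : Fin y, γ (Sum.inr l.succ) := by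
      unfold s2
      rw [Fin.sum_univ_succ]
    rw [h2, pow_add, map_mul, map_pow, Finset.prod_pow_eq_pow_sum, map_pow]
    simp only [tl, Finsupp.equivFunOnFinite_symm_apply_apply, Sum.elim_inl, Sum.elim_inr]
    ring
  rw [h1, IsScalarTower.algebraMap_apply L (Polynomial L) (BB L x y), MvPolynomial.algebraMap_eq,
    C_mul_monomial]
  rfl

private lemma tl_degree {x y : ℕ} (ε : Vr x y →₀ ℕ) (h1 : ε (Sum.inl 0) = 0)
    (h2 : ε (Sum.inr 0) = 0) : (tl ε).degree = s1 ε + s2 ε := by
  rw [Finsupp.degree_eq_sum, Fintype.sum_sum_type]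
  unfold s1 s2
  rw [Fin.sum_univ_succ, Fin.sum_univ_succ, h1, h2]
  simp only [tl, Finsupp.equivFunOnFinite_symm_apply_apply, Sum.elim_inl, Sum.elim_inr,
    zero_add]

/-- the coefficient at the point -/
private lemma th_eval {L : Type} [Field L] {x y : ℕ} (g : Mt x y L) (τ : L)
    (f : MvPolynomial (Vr x y) L) :
    Polynomial.eval τ (coeff 0 (th L x y (sb g f))) =
      eval (Sum.elim (fun i => g.1 i 0) (fun j => τ * g.2 j 0) : Vr x y → L) f := by
  have h : ((Polynomial.evalRingHom τ).comp
      ((constantCoeff : BB L x y →+* Polynomial L).comp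
        ((th L x y).comp (sb g)).toRingHom)) =
      (eval (Sum.elim (fun i => g.1 i 0) (fun j => τ * g.2 j 0) : Vr x y → L)) := by
    apply MvPolynomial.ringHom_ext
    · intro c
      have h1 : ((th L x y).comp (sb g)) (C c) = C (Polynomial.C c) := by
        have := ((th L x y).comp (sb g)).commutes c
        rw [MvPolynomial.algebraMap_eq] at this
        rw [this]
        rfl
      simp only [RingHom.comp_apply, AlgHom.toRingHom_eq_coe, RingHom.coe_coe]
      rw [h1]
      simp
    · intro v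
      have hc : ∀ c : L, algebraMap L (BB L x y) c = C (Polynomial.C c) := fun c => rfl
      rcases v with i | j
      · have h1 : ((th L x y).comp (sb g)) (X (Sum.inl i)) =
            ∑ j, C (Polynomial.C (g.1 i j)) * tv L x y (Sum.inl j) := by
          rw [AlgHom.comp_apply]
          unfold sb th
          rw [aeval_X]
          simp only [Sum.elim_inl, map_sum, map_mul, aeval_X, aeval_C, hc]
        simp only [RingHom.comp_apply, AlgHom.toRingHom_eq_coe, RingHom.coe_coe]
        rw [h1, Fin.sum_univ_succ]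
        simp [tv]
      · have h1 : ((th L x y).comp (sb g)) (X (Sum.inr j)) =
            ∑ l, C (Polynomial.C (g.2 j l)) * tv L x y (Sum.inr l) := by
          rw [AlgHom.comp_apply]
          unfold sb th
          rw [aeval_X]
          simp only [Sum.elim_inr, map_sum, map_mul, aeval_X, aeval_C, hc]
        simp only [RingHom.comp_apply, AlgHom.toRingHom_eq_coe, RingHom.coe_coe]
        rw [h1, Fin.sum_univ_succ]
        simp [tv]
        exact mul_comm _ _
  have := congrArg (fun φ => φ f) h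
  simpa [constantCoeff_eq] using this

private lemma mem_Iv {L : Type} [Field L] {x y : ℕ} (g : Mt x y L) (τ : L) (μ : ℕ)
    (F : MvPolynomial (Vr x y) L)
    (hF : F ∈ (ptJ (Sum.elim (fun i => g.1 i 0) (fun j => τ * g.2 j 0) : Vr x y → L)) ^ μ) :
    th L x y (sb g F) ∈ (Iv (Polynomial.X - Polynomial.C τ) μ : Ideal (BB L x y)) := by
  set ψ : MvPolynomial (Vr x y) L →+* BB L x y := ((th L x y).comp (sb g)).toRingHom with hψ
  have h1 : ptJ (Sum.elim (fun i => g.1 i 0) (fun j => τ * g.2 j 0) : Vr x y → L) ≤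
      Ideal.comap ψ (Iv (Polynomial.X - Polynomial.C τ) 1) := by
    unfold ptJ
    rw [Ideal.span_le]
    rintro f ⟨_, hf⟩
    rw [SetLike.mem_coe, Ideal.mem_comap]
    intro e
    by_cases he : e = 0
    · subst he
      have h2 := th_eval g τ f
      rw [hf] at h2
      rw [map_zero, Nat.sub_zero, pow_one]
      exact Polynomial.dvd_iff_isRoot.2 h2
    · have h3 : 1 - e.degree = 0 := by
        have : e.degree ≠ 0 := fun h => he ((Finsupp.degree_eq_zero_iff e).1 h)
        omega
      rw [h3, pow_zero]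
      exact one_dvd _
  have h2 := (Ideal.pow_right_mono h1 μ) hF
  have h3 := (Ideal.le_comap_pow ψ μ) h2
  exact Iv_pow _ μ (Ideal.mem_comap.1 h3)

private lemma gk_spec {x y : ℕ} (d : ℕ) (ε : Vr x y →₀ ℕ) (_h1 : ε (Sum.inl 0) = 0)
    (_h2 : ε (Sum.inr 0) = 0) (κ : ℕ) (hκ : κ ∈ Icc (s2 ε) (d - s1 ε)) :
    tl (gk d ε κ) = tl ε ∧ s2 (gk d ε κ) = κ := by
  rw [mem_Icc] at hκ
  constructor
  · unfold tl gk
    congr 1
    funext v
    rcases v with l | l
    · have e1 : (Sum.inl 0 : Vr x y) ≠ Sum.inl l.succ := by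
        intro h
        exact (Fin.succ_ne_zero l) (Sum.inl_injective h).symm
      have e2 : (Sum.inr 0 : Vr x y) ≠ Sum.inl l.succ := by simp
      simp [Finsupp.single_apply, e1, e2]
    · have e1 : (Sum.inl 0 : Vr x y) ≠ Sum.inr l.succ := by simp
      have e2 : (Sum.inr 0 : Vr x y) ≠ Sum.inr l.succ := by
        intro h
        exact (Fin.succ_ne_zero l) (Sum.inr_injective h).symm
      simp [Finsupp.single_apply, e1, e2]
  · have e3 : s2 (gk d ε κ) = s2 ε + (κ - s2 ε) := by
      unfold gk
      set A := κ - s2 ε with hA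
      set B := d - κ - s1 ε with hB
      unfold s2
      simp only [Finsupp.add_apply, Finset.sum_add_distrib]
      have e4 : ∑ j : Fin (y+1), (Finsupp.single (Sum.inl 0 : Vr x y) B) (Sum.inr j) = 0 := by
        refine Finset.sum_eq_zero fun j _ => ?_
        simp [Finsupp.single_apply]
      have e5 : ∑ j : Fin (y+1), (Finsupp.single (Sum.inr 0 : Vr x y) A) (Sum.inr j) = A := by
        rw [Fin.sum_univ_succ]
        have : ∑ j : Fin y, (Finsupp.single (Sum.inr 0 : Vr x y) A) (Sum.inr j.succ) = 0 := by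
          refine Finset.sum_eq_zero fun j _ => ?_
          have e1 : (Sum.inr 0 : Vr x y) ≠ Sum.inr j.succ := by
            intro h
            exact (Fin.succ_ne_zero j) (Sum.inr_injective h).symm
          rw [Finsupp.single_apply, if_neg e1]
        rw [this, Finsupp.single_eq_same, add_zero]
      rw [e4, e5, add_zero]
    rw [e3]
    omega

private lemma deg_eq {x y : ℕ} (γ : Vr x y →₀ ℕ) : γ.degree = s1 γ + s2 γ := by
  rw [Finsupp.degree_eq_sum, Fintype.sum_sum_type]
  rfl

/-- exponents of degree `d` with given entries at the nonzero indices -/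
private lemma gk_all {x y : ℕ} (d : ℕ) (ε : Vr x y →₀ ℕ) (h1 : ε (Sum.inl 0) = 0)
    (h2 : ε (Sum.inr 0) = 0) (γ : Vr x y →₀ ℕ) (hγ : γ.degree = d) (ht : tl γ = tl ε) :
    s2 γ ∈ Icc (s2 ε) (d - s1 ε) ∧ gk d ε (s2 γ) = γ := by
  have ha : ∀ l : Fin x, γ (Sum.inl l.succ) = ε (Sum.inl l.succ) := by
    intro l
    have := DFunLike.congr_fun ht (Sum.inl l)
    simpa [tl] using this
  have hb : ∀ l : Fin y, γ (Sum.inr l.succ) = ε (Sum.inr l.succ) := by
    intro l
    have := DFunLike.congr_fun ht (Sum.inr l)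
    simpa [tl] using this
  have hs1 : s1 γ = γ (Sum.inl 0) + s1 ε := by
    unfold s1
    rw [Fin.sum_univ_succ, Fin.sum_univ_succ (fun i => ε (Sum.inl i)), h1, zero_add]
    congr 1
    exact Finset.sum_congr rfl fun l _ => ha l
  have hs2 : s2 γ = γ (Sum.inr 0) + s2 ε := by
    unfold s2
    rw [Fin.sum_univ_succ, Fin.sum_univ_succ (fun i => ε (Sum.inr i)), h2, zero_add]
    congr 1
    exact Finset.sum_congr rfl fun l _ => hb l
  have hd := deg_eq γ
  rw [hγ] at hd
  refine ⟨?_, ?_⟩
  · rw [mem_Icc]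
    omega
  · unfold gk
    have e1 : d - s2 γ - s1 ε = γ (Sum.inl 0) := by omega
    have e2 : s2 γ - s2 ε = γ (Sum.inr 0) := by omega
    rw [e1, e2]
    ext v
    rcases v with i | i
    · refine Fin.cases ?_ (fun l => ?_) i
      · simp [h1]
      · have e3 : (Sum.inl 0 : Vr x y) ≠ Sum.inl l.succ := by
          intro h
          exact (Fin.succ_ne_zero l) (Sum.inl_injective h).symm
        simp [Finsupp.single_apply, e3, ha l]
    · refine Fin.cases ?_ (fun l => ?_) i
      · simp [h2]
      · have e3 : (Sum.inr 0 : Vr x y) ≠ Sum.inr l.succ := by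
          intro h
          exact (Fin.succ_ne_zero l) (Sum.inr_injective h).symm
        simp [Finsupp.single_apply, e3, hb l]

/-- coefficients of the dehomogenisation -/
private lemma th_coeff {L : Type} [Field L] {x y : ℕ} (d : ℕ) (G : MvPolynomial (Vr x y) L)
    (hG : G.IsHomogeneous d) (ε : Vr x y →₀ ℕ) (h1 : ε (Sum.inl 0) = 0)
    (h2 : ε (Sum.inr 0) = 0) :
    coeff (tl ε) (th L x y G) = ∑ κ ∈ Icc (s2 ε) (d - s1 ε),
      Polynomial.C (coeff (gk d ε κ) G) * Polynomial.X ^ κ := by
  classical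
  have e1 : coeff (tl ε) (th L x y G) =
      ∑ γ ∈ G.support.filter (fun γ => tl γ = tl ε),
        Polynomial.C (coeff γ G) * Polynomial.X ^ s2 γ := by
    conv_lhs => rw [G.as_sum]
    rw [map_sum, coeff_sum, Finset.sum_filter]
    refine Finset.sum_congr rfl fun γ _ => ?_
    rw [th_monomial, coeff_monomial]
  have e2 : ∑ κ ∈ Icc (s2 ε) (d - s1 ε),
      Polynomial.C (coeff (gk d ε κ) G) * Polynomial.X ^ κ =
      ∑ γ ∈ (Icc (s2 ε) (d - s1 ε)).image (gk d ε),
        Polynomial.C (coeff γ G) * Polynomial.X ^ s2 γ := by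
    rw [Finset.sum_image]
    · refine Finset.sum_congr rfl fun κ hκ => ?_
      rw [(gk_spec d ε h1 h2 κ hκ).2]
    · intro κ hκ κ' hκ' h
      rw [← (gk_spec d ε h1 h2 κ hκ).2, ← (gk_spec d ε h1 h2 κ' hκ').2, h]
  rw [e1, e2]
  refine Finset.sum_subset ?_ ?_
  · intro γ hγ
    rw [Finset.mem_filter] at hγ
    rw [Finset.mem_image]
    have hd : γ.degree = d := by
      have := hG (mem_support_iff.1 hγ.1)
      rw [Finsupp.degree_eq_weight_one]
      exact this
    obtain ⟨h3, h4⟩ := gk_all d ε h1 h2 γ hd hγ.2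
    exact ⟨s2 γ, h3, h4⟩
  · intro γ hγ hn
    rw [Finset.mem_image] at hγ
    obtain ⟨κ, hκ, rfl⟩ := hγ
    rw [Finset.mem_filter, not_and_or] at hn
    rcases hn with hn | hn
    · rw [notMem_support_iff.1 hn, map_zero, zero_mul]
    · exact absurd (gk_spec d ε h1 h2 κ hκ).1 hn

private lemma hasse {L : Type} [Field L] (A : Finset ℕ) (c : ℕ → L) (τ : L) (k p : ℕ)
    (hp : p < k) (h : (Polynomial.X - Polynomial.C τ) ^ k ∣
      ∑ κ ∈ A, Polynomial.C (c κ) * Polynomial.X ^ κ) :
    ∑ κ ∈ A, (κ.choose p : L) * τ ^ κ * c κ = 0 := by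
  rw [Polynomial.X_sub_C_pow_dvd_iff, Polynomial.X_pow_dvd_iff] at h
  have h1 := h p hp
  rw [← Polynomial.taylor_apply, Polynomial.taylor_coeff] at h1
  rw [map_sum, Polynomial.eval_finsetSum] at h1
  have h2 : ∀ κ ∈ A, Polynomial.eval τ ((Polynomial.hasseDeriv p)
      (Polynomial.C (c κ) * Polynomial.X ^ κ)) * τ ^ p = (κ.choose p : L) * τ ^ κ * c κ := by
    intro κ _
    rw [Polynomial.C_mul_X_pow_eq_monomial, Polynomial.hasseDeriv_monomial,
      Polynomial.eval_monomial]
    by_cases hk : p ≤ κ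
    · have : τ ^ κ = τ ^ (κ - p) * τ ^ p := by
        rw [← pow_add]
        congr 1
        omega
      rw [this]
      ring
    · rw [Nat.choose_eq_zero_of_lt (by omega)]
      simp
  rw [← Finset.sum_congr rfl h2, ← Finset.sum_mul, h1, zero_mul]

theorem pCOE : StCOE := by
  intro L _ x y d μ g τ F hF hμ hJ ε h1 h2 p hp
  have hG : (sb g F).IsHomogeneous d := by
    unfold sb
    have := hF.aeval (n := 1) (Sum.elim
      (fun i => ∑ j, C (g.1 i j) * (X (Sum.inl j) : MvPolynomial (Vr x y) L))
      (fun i => ∑ j, C (g.2 i j) * (X (Sum.inr j) : MvPolynomial (Vr x y) L))) ?_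
    · rwa [one_mul] at this
    · intro v
      rcases v with i | i
      · simp only [Sum.elim_inl]
        exact IsHomogeneous.sum _ _ _ fun j _ => by
          have := (isHomogeneous_C (Vr x y) (g.1 i j)).mul (isHomogeneous_X L (Sum.inl j))
          rwa [zero_add] at this
      · simp only [Sum.elim_inr]
        exact IsHomogeneous.sum _ _ _ fun j _ => by
          have := (isHomogeneous_C (Vr x y) (g.2 i j)).mul (isHomogeneous_X L (Sum.inr j))
          rwa [zero_add] at this
  have h3 := mem_Iv g τ μ F hJ (tl ε)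
  rw [th_coeff d (sb g F) hG ε h1 h2, tl_degree ε h1 h2] at h3
  exact hasse _ (fun κ => coeff (gk d ε κ) (sb g F)) τ _ p (by omega) h3

end Pool.Agent.Helper44.LN
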