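import Pool.Agent.Helper44.LN.StL

/-! Module CON of project LN: connectedness modulo every prime divisor of `x + y`. -/

namespace Pool.Agent.Helper44.LN

open Finset

theorem pCON : StBMP → StCSA → StCB1 → StCB2 → StCON := by
  intro hBMP hCSA hCB1 hCB2 x y m d p f hm hd hy hp hps hN hA
  obtain ⟨hB1, _, _, hB4⟩ := hBMP
  obtain ⟨hN1, hN2⟩ := hN p hp hps
  have hp2 : 2 ≤ p := hp.two_le
  by_cases hpm : 2 * m ≤ p
  · have hpy : ¬ p ∣ y := hN1 hpm
    have hpx : ¬ p ∣ x := by
      intro h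
      exact hpy ((Nat.dvd_add_right h).1 hps)
    exact hCSA x y m d p f hm hd hp hA (hB4 p m x y hp hm hpm hps hpx hpy)
  · have hlt : p < 2 * m := not_le.1 hpm
    have hm2 : 2 ≤ m := by omega
    have hxy : x + y ≠ 0 := by omega
    obtain ⟨v, s', hs', hv⟩ := Nat.exists_eq_pow_mul_and_not_dvd hxy p hp.ne_one
    have hv1 : 1 ≤ v := by
      rcases Nat.eq_zero_or_pos v with h0 | h0
      · exfalso
        rw [h0, pow_zero, one_mul] at hv
        exact hs' (hv ▸ hps)
      · exact h0
    have hdec : ∀ e : ℕ, y ≡ 1 [MOD p ^ e] → ∃ y' : ℕ, y = p ^ e * y' + 1 := by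
      intro e he
      have h1 : p ^ e ∣ y - 1 := (Nat.modEq_iff_dvd' hy).1 he.symm
      obtain ⟨y', h2⟩ := h1
      exact ⟨y', by omega⟩
    by_cases hmv : m ≤ p ^ v
    · have hex : ∃ e, m ≤ p ^ e := ⟨v, hmv⟩
      obtain ⟨e, he, hmin⟩ : ∃ e, m ≤ p ^ e ∧ ∀ e' < e, ¬ m ≤ p ^ e' :=
        ⟨Nat.find hex, Nat.find_spec hex, fun e' he' => Nat.find_min hex he'⟩
      have he1 : 1 ≤ e := by
        rcases Nat.eq_zero_or_pos e with h0 | h0
        · exfalso
          rw [h0, pow_zero] at he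
          omega
        · exact h0
      have hev : e ≤ v := by
        by_contra hcon
        exact hmin v (by omega) hmv
      have hem : p ^ (e - 1) < m := not_le.1 (hmin (e - 1) (by omega))
      have hdiv : p ^ e ∣ x + y := by
        rw [hv]
        exact Dvd.dvd.mul_right (pow_dvd_pow p hev) s'
      obtain ⟨y', hy'⟩ := hdec e (hN2 hlt e he1 hdiv hem)
      refine hCSA x y m d p f hm hd hp hA (Or.inr fun q hq hdvd => ?_)
      have h1 := (hB1 p e y' hp he1).1 q (lt_of_lt_of_le hq he)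
      rw [← hy'] at h1
      have h2 : hh y q ≡ 0 [MOD p] := (Nat.modEq_zero_iff_dvd).2 hdvd
      have h3 : 1 ≡ 0 [MOD p] := h1.symm.trans h2
      have h4 : p ∣ 1 := (Nat.modEq_zero_iff_dvd).1 h3
      exact hp.one_lt.ne' (Nat.dvd_one.1 h4)
    · have hvm : p ^ v < m := not_le.1 hmv
      have hvm' : p ^ (v - 1) < m :=
        lt_of_le_of_lt (Nat.pow_le_pow_right (by omega) (by omega)) hvm
      obtain ⟨y', hy'⟩ := hdec v (hN2 hlt v hv1 ⟨s', hv⟩ hvm')
      have hpv : 0 < p ^ v := pow_pos (by omega) v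
      have hle : y' ≤ s' := by
        have h1 : p ^ v * y' ≤ p ^ v * s' := by
          rw [← hv]
          omega
        exact Nat.le_of_mul_le_mul_left h1 hpv
      have hx : x + 1 = p ^ v * (s' - y') := by
        rw [Nat.mul_sub, ← hv]
        omega
      by_cases hpy' : p ∣ y'
      · have hpx' : ¬ p ∣ s' - y' := by
          intro h
          apply hs'
          have h1 := Nat.dvd_add h hpy'
          rwa [Nat.sub_add_cancel hle] at h1
        exact hCB2 x y m d p v (s' - y') y' s' f hm hd hp hv1 hvm hy' hx hv hs' hpx' hA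
      · exact hCB1 x y m d p v (s' - y') y' s' f hm hd hp hv1 hvm hy' hx hv hs' hpy' hA

end Pool.Agent.Helper44.LN
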