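import Pool.Agent.Helper44.LN.StL

/-! Project LN, module CSA: the star case. -/

set_option autoImplicit false

namespace Pool.Agent.Helper44.LN

open Finset

theorem pCSA : StMMV → StCSA := by
  intro hM x y m d p f hm hd hp hadj hcase k hk
  obtain ⟨h0, hend, hper, -, -, -⟩ := hM x y m d hm hd
  have hp1 : ¬ p ∣ 1 := fun h => hp.one_lt.ne' (Nat.dvd_one.1 h)
  have hP : ∀ k, k + m ≤ d → f k = f (k + m) := by
    intro k hk
    refine hadj k m hm le_rfl hk ?_
    rw [hper k hk]
    exact hp1
  rcases hcase with hx | hy
  · have hlow : ∀ σ, σ ≤ m → f σ = f 0 := by
      intro σ hσ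
      rcases Nat.eq_zero_or_pos σ with rfl | hpos
      · rfl
      · have h1 : m - (m - σ) = σ := by omega
        have h2 := h0 (m - σ) (by omega)
        rw [h1] at h2
        have h3 := hadj 0 σ hpos hσ (by omega) (by
          rw [h2]
          exact hx _ (by omega))
        rw [zero_add] at h3
        exact h3.symm
    induction k using Nat.strong_induction_on with
    | _ k ih =>
      by_cases hkm : k ≤ m
      · exact hlow k hkm
      · have h1 := hP (k - m) (by omega)
        have h2 : k - m + m = k := by omega
        rw [h2] at h1
        rw [← h1]
        exact ih (k - m) (by omega) (by omega)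
  · have hhigh : ∀ k, d - m ≤ k → k ≤ d → f k = f d := by
      intro k h1 h2
      rcases Nat.eq_or_lt_of_le h2 with rfl | h3
      · rfl
      · have h4 : d - m + (k - (d - m)) = k := by omega
        have h5 := hend (k - (d - m)) (by omega)
        rw [h4] at h5
        have h6 : k + (m - (k - (d - m))) = d := by omega
        have h7 := hadj k (m - (k - (d - m))) (by omega) (by omega) (by omega) (by
          rw [h5]
          exact hy _ (by omega))
        rw [h6] at h7
        exact h7
    have hall : ∀ j, ∀ k, k ≤ d → d - k ≤ j → f k = f d := by
      intro j
      induction j with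
      | zero =>
        intro k h1 h2
        have : k = d := by omega
        rw [this]
      | succ j ih =>
        intro k h1 h2
        by_cases hkm : d - m ≤ k
        · exact hhigh k hkm h1
        · rw [hP k (by omega)]
          exact ih (k + m) (by omega) (by omega)
    rw [hall d k hk (by omega), hall d 0 (by omega) (by omega)]

end Pool.Agent.Helper44.LN
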