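import Pool.Agent.Helper44.LN.StD

set_option autoImplicit false

/-! Project LN, module DEG: degeneration, assembly. -/

namespace Pool.Agent.Helper44.LN

open Finset MvPolynomial

private lemma mem_CxD {x y p q : ℕ} {γ : Vr x y →₀ ℕ} :
    γ ∈ Cx x y p q ↔ ∑ i : Fin (x+1), γ (Sum.inl i) = p ∧ ∑ j : Fin (y+1), γ (Sum.inr j) = q := by
  classical
  unfold Cx
  rw [Finset.mem_filter, Finset.mem_finsuppAntidiag, Fintype.sum_sum_type]
  constructor
  · rintro ⟨⟨h1, -⟩, h2⟩
    exact ⟨h2, by omega⟩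
  · rintro ⟨h1, h2⟩
    exact ⟨⟨by omega, Finset.subset_univ _⟩, h1⟩

private lemma deg_eqD {x y : ℕ} (γ : Vr x y →₀ ℕ) :
    γ.degree = ∑ i : Fin (x+1), γ (Sum.inl i) + ∑ j : Fin (y+1), γ (Sum.inr j) := by
  rw [Finsupp.degree_eq_sum, Fintype.sum_sum_type]

private lemma gk_memD {x y : ℕ} (d : ℕ) (ε : Vr x y →₀ ℕ) (κ : ℕ) (h1 : s1 ε ≤ d - κ) (h2 : s2 ε ≤ κ) :
    gk d ε κ ∈ Cx x y (d - κ) κ := by
  classical
  rw [mem_CxD]
  unfold gk
  unfold s1 at h1 ⊢
  unfold s2 at h2 ⊢
  simp only [Finsupp.add_apply, Finset.sum_add_distrib]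
  constructor
  · have e1 : ∑ i : Fin (x+1), (Finsupp.single (Sum.inl 0 : Vr x y)
        (d - κ - ∑ i : Fin (x+1), ε (Sum.inl i))) (Sum.inl i) = d - κ - ∑ i : Fin (x+1), ε (Sum.inl i) := by
      rw [Finset.sum_eq_single (0 : Fin (x+1))]
      · simp
      · intro b _ hb
        rw [Finsupp.single_apply, if_neg]
        intro h
        exact hb (Sum.inl.inj h).symm
      · intro h
        exact absurd (Finset.mem_univ _) h
    have e2 : ∑ i : Fin (x+1), (Finsupp.single (Sum.inr 0 : Vr x y)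
        (κ - ∑ j : Fin (y+1), ε (Sum.inr j))) (Sum.inl i) = 0 := by
      apply Finset.sum_eq_zero
      intro i _
      rw [Finsupp.single_apply, if_neg]
      simp
    rw [e1, e2]
    omega
  · have e1 : ∑ j : Fin (y+1), (Finsupp.single (Sum.inr 0 : Vr x y)
        (κ - ∑ j : Fin (y+1), ε (Sum.inr j))) (Sum.inr j) = κ - ∑ j : Fin (y+1), ε (Sum.inr j) := by
      rw [Finset.sum_eq_single (0 : Fin (y+1))]
      · simp
      · intro b _ hb
        rw [Finsupp.single_apply, if_neg]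
        intro h
        exact hb (Sum.inr.inj h).symm
      · intro h
        exact absurd (Finset.mem_univ _) h
    have e2 : ∑ j : Fin (y+1), (Finsupp.single (Sum.inl 0 : Vr x y)
        (d - κ - ∑ i : Fin (x+1), ε (Sum.inl i))) (Sum.inr j) = 0 := by
      apply Finset.sum_eq_zero
      intro i _
      rw [Finsupp.single_apply, if_neg]
      simp
    rw [e1, e2]
    omega

private lemma coeff_sbD (hRCM : StRCM) {L : Type} [Field L] {x y d κ : ℕ} (_hκ : κ ≤ d) (g : Mt x y L)
    (F : MvPolynomial (Vr x y) L) (hF : F.IsHomogeneous d) (γ : Vr x y →₀ ℕ)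
    (hγ : γ ∈ Cx x y (d - κ) κ) :
    coeff γ (sb g F) = ∑ γ' ∈ Cx x y (d - κ) κ, rc g γ γ' * coeff γ' F := by
  classical
  have h1 : coeff γ (sb g F) = ∑ γ' ∈ F.support, rc g γ γ' * coeff γ' F := by
    conv_lhs => rw [F.as_sum]
    rw [map_sum, coeff_sum]
    apply Finset.sum_congr rfl
    intro γ' _
    have : (monomial γ' (coeff γ' F) : MvPolynomial (Vr x y) L) = coeff γ' F • monomial γ' 1 := by
      rw [smul_monomial, smul_eq_mul, mul_one]
    rw [this, map_smul, coeff_smul, smul_eq_mul, mul_comm]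
    rfl
  have h2 : ∑ γ' ∈ F.support, rc g γ γ' * coeff γ' F =
      ∑ γ' ∈ F.support ∪ Cx x y (d - κ) κ, rc g γ γ' * coeff γ' F := by
    apply Finset.sum_subset Finset.subset_union_left
    intro γ' _ h
    rw [notMem_support_iff.1 h, mul_zero]
  have h3 : ∑ γ' ∈ Cx x y (d - κ) κ, rc g γ γ' * coeff γ' F =
      ∑ γ' ∈ F.support ∪ Cx x y (d - κ) κ, rc g γ γ' * coeff γ' F := by
    apply Finset.sum_subset Finset.subset_union_right
    intro γ' h4 h5
    have h6 : γ' ∈ F.support := by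
      rcases Finset.mem_union.1 h4 with h | h
      · exact h
      · exact absurd h h5
    have h7 : γ'.degree = d := by
      by_contra hne
      exact (mem_support_iff.1 h6) (hF.coeff_eq_zero hne)
    rw [deg_eqD] at h7
    have h8 : γ' ∈ Cx x y (∑ i : Fin (x+1), γ' (Sum.inl i)) (∑ j : Fin (y+1), γ' (Sum.inr j)) :=
      mem_CxD.2 ⟨rfl, rfl⟩
    have h9 : γ ∉ Cx x y (∑ i : Fin (x+1), γ' (Sum.inl i)) (∑ j : Fin (y+1), γ' (Sum.inr j)) := by
      intro h
      apply h5
      rw [mem_CxD] at h hγ ⊢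
      omega
    rw [(hRCM L x y _ _).2.2 g γ γ' h8 h9, zero_mul]
  rw [h1, h2, h3]

theorem pDEG : StCOE → StWGT → StTMX → StRCN → StRCM → StDEG := by
  intro hCOE hWGT hTMX hRCN hRCM K _ _ x y m d S g t μ hm ht hμ hlev
  classical
  obtain ⟨lam, hlam⟩ := hWGT m d hm
  obtain ⟨w, hw⟩ : ∃ w : ℕ → ℕ, ∀ i ∈ S, ∀ κ κ' : ℕ, κ ≤ d → κ' ≤ d →
      rk m d (t i) κ < rk m d (t i) κ' → w i * κ + lam κ < w i * κ' + lam κ' := by
    refine ⟨fun i => if h : t i ≤ d * m then (hlam (t i) h).choose else 0, ?_⟩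
    intro i hi κ κ' h1 h2 h3
    have h := ht i hi
    simp only [dif_pos h]
    exact (hlam (t i) h).choose_spec κ κ' h1 h2 h3
  set L := FractionRing (Polynomial K) with hL
  set φ : K →+* L := (algebraMap (Polynomial K) L).comp Polynomial.C with hφ
  set T : L := algebraMap (Polynomial K) L Polynomial.X with hT
  have hinj : Function.Injective φ :=
    (IsFractionRing.injective (Polynomial K) L).comp Polynomial.C_injective
  refine ⟨fun i => Sum.elim (fun a => φ ((g i).1 a 0)) (fun b => T ^ (w i) * φ ((g i).2 b 0)), ?_, ?_⟩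
  · intro i hi h
    apply hi
    simp only [Sum.elim_inl] at h
    exact hinj (h.trans (map_zero φ).symm)
  · intro F hF hFS
    have key := hTMX K x y m d S g t μ w lam hm ht hμ hw hlev (fun γ => coeff γ F) (by
      intro i hi ε hε0 hε1 p hp
      have h1 := hCOE L x y d (μ i) (mp φ (g i)) (T ^ (w i)) F hF (hμ i hi) (hFS i hi) ε hε0 hε1 p hp
      rw [← h1]
      apply Finset.sum_congr rfl
      intro κ hκ
      obtain ⟨hκ1, hκ2⟩ := Finset.mem_Icc.1 hκ
      have hμi := hμ i hi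
      have hs1 : s1 ε ≤ d - κ := by omega
      have hκd : κ ≤ d := by omega
      rw [coeff_sbD hRCM hκd (mp φ (g i)) F hF _ (gk_memD d ε κ hs1 hκ1), ← pow_mul]
      congr 1
      apply Finset.sum_congr rfl
      intro γ' _
      rw [hRCN K L φ x y (g i)]
      rfl)
    ext γ
    rw [coeff_zero]
    by_cases hd : γ.degree = d
    · rw [deg_eqD] at hd
      refine key (∑ j : Fin (y+1), γ (Sum.inr j)) (by omega) γ ?_
      rw [mem_CxD]
      omega
    · exact hF.coeff_eq_zero hd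

end Pool.Agent.Helper44.LN
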