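import Pool.Agent.Helper44.LN.StG

/-!
# Project LN, module DEN
-/

set_option autoImplicit false

namespace Pool.Agent.Helper44.LN

open Finset MvPolynomial

theorem pDEN : StDEN := by
  intro K _ _ ι _ P hP
  have hinf : (Set.range (algebraMap ℂ K)).Infinite :=
    Set.infinite_range_of_injective (algebraMap ℂ K).injective
  refine MvPolynomial.funext_set (fun _ => Set.range (algebraMap ℂ K)) (fun _ => hinf) ?_
  intro x hx
  have h : ∀ i, ∃ c : ℂ, algebraMap ℂ K c = x i := fun i => hx i (Set.mem_univ i)
  choose c hc using h
  have hx' : x = fun i => algebraMap ℂ K (c i) := funext fun i => (hc i).symm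
  rw [hx', hP c, map_zero]

end Pool.Agent.Helper44.LN
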