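import Pool.Agent.Helper44.LN.StC

set_option autoImplicit false

namespace Pool.Agent.Helper44.LN

open Finset

private lemma DGB_rk_lt (m d k κ' : ℕ) (hm : 0 < m) (h : κ' < k) :
    rk m d (k * m) κ' = d - κ' := by
  unfold rk
  rw [Nat.mul_div_cancel _ hm, if_pos h]

private lemma DGB_rk_ge (m d k κ' : ℕ) (hm : 0 < m) (h : k ≤ κ') :
    rk m d (k * m) κ' = κ' - k := by
  unfold rk
  rw [Nat.mul_div_cancel _ hm, Nat.mul_mod_left, if_neg (by omega)]
  by_cases h1 : κ' = k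
  · rw [if_pos h1]; omega
  · rw [if_neg h1, if_neg (by omega)]

private lemma DGB_ps (m d k a b κ : ℕ) (hm : 0 < m) (hk : k ≤ κ) (hd : κ ≤ d) (ha : a + κ ≤ d) :
    ps m d (k * m) a b κ = min (κ - k) (κ - b) := by
  unfold ps
  have : (Icc b (d - a)).filter (fun κ' => rk m d (k * m) κ' < rk m d (k * m) κ) =
      Ico (max k b) κ := by
    ext κ'
    rw [mem_filter, mem_Icc, mem_Ico, DGB_rk_ge m d k κ hm hk]
    rcases Nat.lt_or_ge κ' k with h | h
    · rw [DGB_rk_lt m d k κ' hm h]; omega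
    · rw [DGB_rk_ge m d k κ' hm h]; omega
  rw [this, Nat.card_Ico]
  omega

theorem pDGB : StDGB := by
  intro m d κ δ hmκ hκd hδ
  have hm : 0 < m := by omega
  obtain ⟨k, hk⟩ : ∃ k, k = κ - (m - 1 - δ) := ⟨_, rfl⟩
  rw [← hk]
  have hkκ : k ≤ κ := by omega
  have hmem : (0, δ) ∈ TD m d (k * m) m κ := by
    unfold TD
    rw [mem_filter, mem_product, mem_range, mem_range]
    refine ⟨⟨hm, hδ⟩, ?_, ?_, ?_, ?_⟩
    · show 0 + δ < m
      omega
    · show δ ≤ κ
      omega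
    · show 0 + κ ≤ d
      omega
    · show ps m d (k * m) 0 δ κ < m - 0 - δ
      rw [DGB_ps m d k 0 δ κ hm hkκ hκd (by omega)]
      omega
  refine ⟨?_, hmem⟩
  unfold dg
  apply le_antisymm
  · apply Finset.sup_le
    intro c hc
    unfold TD at hc
    rw [mem_filter] at hc
    obtain ⟨_, h1, h2, h3, h4⟩ := hc
    rw [DGB_ps m d k c.1 c.2 κ hm hkκ hκd h3] at h4
    omega
  · have := Finset.le_sup (f := fun p : ℕ × ℕ => p.1 + p.2) hmem
    simpa using this

end Pool.Agent.Helper44.LN
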