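import Pool.Agent.Helper44.LN.StA

/-! Project LN, module DSG: the design (numbers of points of each class). -/

namespace Pool.Agent.Helper44.LN

open Finset

private theorem cut_add (x y m d : ℕ) (f g : ℕ → ℤ) (κ : ℕ) :
    Cut x y m d (fun u => f u + g u) κ = Cut x y m d f κ + Cut x y m d g κ := by
  unfold Cut
  rw [← Finset.sum_add_distrib]
  refine Finset.sum_congr rfl fun u _ => ?_
  split_ifs
  · ring
  · simp

private theorem cut_congr (x y m d : ℕ) (f g : ℕ → ℤ) (κ : ℕ) (h : ∀ u < d * m, f u = g u) :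
    Cut x y m d f κ = Cut x y m d g κ := by
  unfold Cut
  refine Finset.sum_congr rfl fun u hu => ?_
  rw [h u (Finset.mem_range.1 hu)]

private theorem dn_le (m d κ : ℕ) (θ : ℝ) (h0 : 0 ≤ θ) (h1 : θ ≤ 1) :
    dn m d κ θ ≤ m * 2 ^ (m - 1) := by
  unfold dn
  have hb : ∀ b ∈ range m, (if b ≤ κ ∧ κ + m < b + d + 1 then bn (m-1) b θ else 0) ≤
      (2 : ℝ) ^ (m - 1) := by
    intro b _
    have h2 : bn (m-1) b θ ≤ (2 : ℝ) ^ (m - 1) := by
      unfold bn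
      have h3 : (((m-1).choose b : ℕ) : ℝ) ≤ 2 ^ (m - 1) := by
        exact_mod_cast Nat.choose_le_two_pow (m-1) b
      have h4 : (1 - θ) ^ (m - 1 - b) ≤ 1 := pow_le_one₀ (by linarith) (by linarith)
      have h5 : θ ^ b ≤ 1 := pow_le_one₀ h0 h1
      have h6 : 0 ≤ (1 - θ) ^ (m - 1 - b) := pow_nonneg (by linarith) _
      have h7 : 0 ≤ θ ^ b := pow_nonneg h0 _
      calc ((m-1).choose b : ℝ) * (1 - θ) ^ (m - 1 - b) * θ ^ b ≤ 2 ^ (m-1) * 1 * 1 := by
            gcongr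
        _ = 2 ^ (m - 1) := by ring
    split_ifs
    · exact h2
    · positivity
  calc ∑ b ∈ range m, (if b ≤ κ ∧ κ + m < b + d + 1 then bn (m-1) b θ else 0) ≤
      ∑ _b ∈ range m, (2 : ℝ) ^ (m - 1) := Finset.sum_le_sum hb
    _ = m * 2 ^ (m - 1) := by simp

private theorem Mh_le (hM : StMMA) (m d Θ : ℕ) (hm : 1 ≤ m) : ∃ A s0 : ℕ, 1 ≤ s0 ∧
    ∀ x y : ℕ, TB Θ x y s0 → ∀ κ < d, Mh x y m d κ ≤ A * (x + y) ^ (m - 1) := by
  obtain ⟨s1, h1⟩ := hM m d Θ 1 hm one_pos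
  refine ⟨m * (m * 2 ^ (m - 1) + 1), max 1 s1, le_max_left _ _, ?_⟩
  intro x y hTB κ hκ
  obtain ⟨hs, hx, hy⟩ := hTB
  have hs1 : 1 ≤ x + y := (le_max_left _ _).trans hs
  have hS : (1 : ℝ) ≤ (x : ℝ) + y := by exact_mod_cast hs1
  obtain ⟨g1, g2⟩ := h1 x y ⟨(le_max_right _ _).trans hs, hx, hy⟩
  have hθ0 : 0 ≤ th x y := by unfold th; positivity
  have hθ1 : th x y ≤ 1 := by
    unfold th
    rw [div_le_one (by linarith)]
    have : (0 : ℝ) ≤ x := Nat.cast_nonneg x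
    linarith
  have hP : (0 : ℝ) < ((x : ℝ) + y) ^ (m - 1) := by positivity
  have hB : ∀ σ ∈ range m, (Mm x y m d κ (σ + 1) : ℝ) ≤
      (m * 2 ^ (m - 1) + 1) * ((x : ℝ) + y) ^ (m - 1) := by
    intro σ hσ
    rw [Finset.mem_range] at hσ
    rcases Nat.eq_zero_or_pos σ with h0 | h0
    · subst h0
      have g3 := (abs_le.1 (g1 κ hκ)).2
      have g4 := dn_le m d κ (th x y) hθ0 hθ1
      have g5 : (Mm x y m d κ 1 : ℝ) * (m-1).factorial / ((x:ℝ) + y) ^ (m-1) ≤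
          m * 2 ^ (m - 1) + 1 := by linarith
      rw [div_le_iff₀ hP] at g5
      have g6 : (1 : ℝ) ≤ (m-1).factorial := by exact_mod_cast Nat.factorial_pos _
      have g7 : (0 : ℝ) ≤ (Mm x y m d κ 1 : ℝ) := Nat.cast_nonneg _
      calc (Mm x y m d κ (0 + 1) : ℝ) = (Mm x y m d κ 1 : ℝ) * 1 := by simp
        _ ≤ (Mm x y m d κ 1 : ℝ) * (m-1).factorial := by gcongr
        _ ≤ _ := g5
    · have g3 := g2 κ (σ + 1) (by omega) (by omega)
      rw [div_le_iff₀ hP] at g3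
      refine g3.trans ?_
      have g4 : (1 : ℝ) ≤ (m : ℝ) * 2 ^ (m - 1) + 1 := by
        have : (0 : ℝ) ≤ (m : ℝ) * 2 ^ (m - 1) := by positivity
        linarith
      gcongr
  have hsum : ((Mh x y m d κ : ℕ) : ℝ) ≤
      ((m * (m * 2 ^ (m - 1) + 1) * (x + y) ^ (m - 1) : ℕ) : ℝ) := by
    unfold Mh
    push_cast
    calc ∑ σ ∈ range m, (Mm x y m d κ (σ + 1) : ℝ) ≤
        ∑ _σ ∈ range m, ((m * 2 ^ (m - 1) + 1) * ((x : ℝ) + y) ^ (m - 1)) := Finset.sum_le_sum hB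
      _ = m * (m * 2 ^ (m - 1) + 1) * ((x : ℝ) + y) ^ (m - 1) := by
        rw [Finset.sum_const, Finset.card_range, nsmul_eq_mul]; ring
  exact_mod_cast hsum

/-- **DSG.** -/
theorem pDSG : StLBD → StREC → StASY → StZET → StRAS → StMMA → StDSG := by
  intro hLBD hREC hASY hZET hRAS hMMA m d Θ C1 hm hd hΘ
  obtain ⟨C2, hC2⟩ := hLBD m d hm hd
  obtain ⟨c0, hc0, hzt⟩ := hZET m d Θ hm hd hΘ
  obtain ⟨A, sA, hsA1, hA⟩ := Mh_le hMMA m d Θ hm
  obtain ⟨E, hE⟩ : ∃ E, E = C2 * (A + 1) := ⟨_, rfl⟩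
  obtain ⟨C3, hC3⟩ : ∃ C3, C3 = 2 * E + C1 := ⟨_, rfl⟩
  obtain ⟨s1, h1⟩ := hASY m d Θ C3 (c0/4) hm hd hΘ (by positivity)
  obtain ⟨s2, h2⟩ := hRAS m d Θ (1/2) hm (by omega) (by norm_num)
  obtain ⟨K, hK⟩ : ∃ K, K = m * C3 + 2 * E + C1 := ⟨_, rfl⟩
  obtain ⟨s3, hs3⟩ : ∃ s3 : ℕ, 4 * (d.factorial : ℝ) * K / c0 ≤ s3 := exists_nat_ge _
  refine ⟨max sA (max s1 (max s2 s3)), ?_⟩
  intro x y hTB hN r hr
  obtain ⟨hs0, hx, hy⟩ := hTB
  have gA : sA ≤ x + y := (le_max_left _ _).trans hs0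
  have g1 : s1 ≤ x + y := (le_max_left _ _).trans ((le_max_right _ _).trans hs0)
  have g2 : s2 ≤ x + y :=
    (le_max_left _ _).trans ((le_max_right _ _).trans ((le_max_right _ _).trans hs0))
  have g3 : s3 ≤ x + y :=
    (le_max_right _ _).trans ((le_max_right _ _).trans ((le_max_right _ _).trans hs0))
  have hs1 : 1 ≤ x + y := hsA1.trans gA
  have hx1 : 1 ≤ x := by
    rcases Nat.eq_zero_or_pos x with h | h
    · subst h; omega
    · exact h
  have hy1 : 1 ≤ y := by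
    rcases Nat.eq_zero_or_pos y with h | h
    · subst h; omega
    · exact h
  obtain ⟨S, hS⟩ : ∃ S : ℝ, S = (x : ℝ) + y := ⟨_, rfl⟩
  have hS1 : 1 ≤ S := by rw [hS]; exact_mod_cast hs1
  have hxr : (1 : ℝ) ≤ x := by exact_mod_cast hx1
  have hyr : (1 : ℝ) ≤ y := by exact_mod_cast hy1
  have hΘr : (2 : ℝ) ≤ Θ := by exact_mod_cast hΘ
  have hΘ0 : (0 : ℝ) < Θ := by linarith
  have hxΘ : (x : ℝ) + y ≤ Θ * x := by exact_mod_cast hx
  have hyΘ : (x : ℝ) + y ≤ Θ * y := by exact_mod_cast hy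
  have hxy0 : (0 : ℝ) < (x : ℝ) + y := by linarith
  have hθ1 : 1 / (Θ : ℝ) ≤ th x y := by
    unfold th
    rw [div_le_div_iff₀ hΘ0 hxy0]
    linarith
  have hθ2 : th x y ≤ 1 - 1 / (Θ : ℝ) := by
    have h5 : 1 / (Θ : ℝ) ≤ (x : ℝ) / ((x : ℝ) + y) := by
      rw [div_le_div_iff₀ hΘ0 hxy0]
      linarith
    have h6 : th x y + (x : ℝ) / ((x : ℝ) + y) = 1 := by
      unfold th
      rw [← add_div, div_eq_one_iff_eq hxy0.ne']
      ring
    linarith
  obtain ⟨z1, z2, z3, _⟩ := hzt (th x y) hθ1 hθ2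
  -- lower bound for `r`
  have hRr : (K : ℝ) * S ^ m ≤ c0 / 2 * r := by
    have h5 := (abs_le.1 (h2 x y ⟨g2, hx, hy⟩ r hr)).1
    rw [← hS] at h5
    have hf : (0 : ℝ) < (m-1).factorial := by exact_mod_cast Nat.factorial_pos _
    have hf1 : (1 : ℝ) ≤ (m-1).factorial := by exact_mod_cast Nat.factorial_pos _
    have hdf : (0 : ℝ) < d.factorial := by exact_mod_cast Nat.factorial_pos _
    have h6 : (1 : ℝ) / 2 ≤ (r : ℝ) * d.factorial / (S ^ (d+1-m) * (m-1).factorial) := by linarith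
    rw [le_div_iff₀ (by positivity)] at h6
    have h7 : S ^ (m + 1) ≤ S ^ (d + 1 - m) := pow_le_pow_right₀ hS1 (by omega)
    have h8 : S ^ (m + 1) ≤ S ^ (d+1-m) * (m-1).factorial := by
      have : 0 ≤ S ^ (d + 1 - m) := by positivity
      nlinarith
    have h9 : (1 : ℝ) / 2 * S ^ (m + 1) ≤ (r : ℝ) * d.factorial := by linarith
    have h10 : 4 * (d.factorial : ℝ) * K ≤ c0 * S := by
      have h11 : (s3 : ℝ) ≤ S := by rw [hS]; exact_mod_cast g3
      have h12 := hs3.trans h11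
      rw [div_le_iff₀ hc0] at h12
      linarith
    have h13 : (d.factorial : ℝ) * ((K : ℝ) * S ^ m) ≤ d.factorial * (c0 / 2 * r) := by
      have h14 : 4 * (d.factorial : ℝ) * K * S ^ m ≤ c0 * S * S ^ m := by
        have : 0 ≤ S ^ m := by positivity
        nlinarith
      have h15 : c0 * S * S ^ m = c0 * S ^ (m + 1) := by rw [pow_succ]; ring
      have h16 : c0 * ((1 : ℝ) / 2 * S ^ (m + 1)) ≤ c0 * ((r : ℝ) * d.factorial) :=
        mul_le_mul_of_nonneg_left h9 hc0.le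
      nlinarith
    exact le_of_mul_le_mul_left h13 hdf
  obtain ⟨z, hz⟩ := hREC x y m d r ((C3 * (x+y)^m : ℕ) : ℤ) hm (by omega) hx1 hy1
  have hzz := h1 x y ⟨g1, hx, hy⟩ r hr z hz
  obtain ⟨H, hH⟩ : ∃ H : ℤ, H = ((C3 * (x+y)^m : ℕ) : ℤ) := ⟨_, rfl⟩
  rw [← hH] at hz
  obtain ⟨t, ht⟩ : ∃ t : ℕ → ℤ, t = fun κ => Bk x y m d r κ - Cut x y m d (Zf m z H) κ := ⟨_, rfl⟩
  have hT : ∀ κ < d, |t κ| ≤ ((A * (x+y)^m : ℕ) : ℤ) := by
    intro κ hκ
    obtain ⟨h5, h6⟩ := hz κ hκ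
    have h7 : Mh x y m d κ ≤ A * (x+y)^m := by
      refine (hA x y ⟨gA, hx, hy⟩ κ hκ).trans ?_
      exact Nat.mul_le_mul_left _ (Nat.pow_le_pow_right hs1 (Nat.sub_le _ _))
    rw [ht]
    simp only
    rw [abs_of_nonneg h5]
    have h8 : ((Mh x y m d κ : ℕ) : ℤ) ≤ ((A * (x+y)^m : ℕ) : ℤ) := by exact_mod_cast h7
    linarith
  obtain ⟨c, hc1, hc2⟩ := hC2 x y hy1 hN (A * (x+y)^m) t hT
  have hc : ∀ u, |(c u : ℝ)| ≤ E * S ^ m := by
    intro u
    have h5 := hc2 u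
    have h6 : ((|c u| : ℤ) : ℝ) ≤ ((C2 * (((x+y)^m + A * (x+y)^m : ℕ) : ℤ) : ℤ) : ℝ) := by
      exact_mod_cast h5
    push_cast at h6
    rw [hE, hS]
    push_cast
    linarith
  obtain ⟨Z', hZ'⟩ : ∃ Z' : ℕ → ℤ, Z' = fun u => Zf m z H u + c u := ⟨_, rfl⟩
  have hCut : ∀ κ < d, Cut x y m d Z' κ = Bk x y m d r κ := by
    intro κ hκ
    rw [hZ', cut_add, hc1 κ hκ, ht]
    simp only
    ring
  have hZr : ∀ u, (Z' u : ℝ) = (z (u / m) : ℝ) - ((u % m : ℕ) : ℝ) * (C3 * S ^ m) + c u := by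
    intro u
    have h5 : Z' u = z (u / m) - ((u % m : ℕ) : ℤ) * H + c u := by rw [hZ']; rfl
    obtain ⟨ρ, hρ⟩ : ∃ ρ, ρ = u % m := ⟨_, rfl⟩
    rw [h5, ← hρ, hH, hS]
    push_cast
    ring
  have hSm : 0 ≤ S ^ m := by positivity
  have hr0 : (0 : ℝ) ≤ r := Nat.cast_nonneg r
  have hKr : (K : ℝ) = m * C3 + 2 * E + C1 := by rw [hK]; push_cast; ring
  have hC3r : (C3 : ℝ) = 2 * E + C1 := by rw [hC3]; push_cast; ring
  have hEn : (0 : ℝ) ≤ E * S ^ m := by positivity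
  have hC3n : (0 : ℝ) ≤ C3 * S ^ m := by positivity
  have hmr : (1 : ℝ) ≤ m := by exact_mod_cast hm
  have hm1 : ((m - 1 : ℕ) : ℝ) * (C3 * S ^ m) ≤ m * (C3 * S ^ m) := by
    have : ((m - 1 : ℕ) : ℝ) ≤ m := by exact_mod_cast Nat.sub_le m 1
    gcongr
  rw [hKr] at hRr
  have hRr' : m * (C3 * S ^ m) + 2 * (E * S ^ m) + C1 * S ^ m ≤ c0 / 2 * r := by
    calc m * (C3 * S ^ m) + 2 * (E * S ^ m) + C1 * S ^ m = (m * C3 + 2 * E + C1) * S ^ m := by ring
      _ ≤ _ := hRr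
  have hmC : 0 ≤ (m : ℝ) * (C3 * S ^ m) := by positivity
  have hcr : 0 ≤ c0 * r := by positivity
  -- gap at the beginning
  have hg0 : (Z' 0 : ℝ) + C1 * S ^ m ≤ r := by
    rw [hZr 0]
    have h5 := (abs_le.1 (hzz 0 (by omega))).2
    have h6 := (abs_le.1 (hc 0)).2
    have h7 : zt m d 0 (th x y) * r + c0 * r ≤ r := by
      calc zt m d 0 (th x y) * r + c0 * r = (zt m d 0 (th x y) + c0) * r := by ring
        _ ≤ 1 * r := by gcongr
        _ = r := one_mul _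
    simp only [Nat.zero_div, Nat.zero_mod, Nat.cast_zero, zero_mul, sub_zero]
    linarith
  have hgi : ∀ u, u + 1 < d * m → (Z' (u+1) : ℝ) + C1 * S ^ m ≤ Z' u := by
    intro u hu
    have h6 := abs_le.1 (hc u)
    have h7 := abs_le.1 (hc (u+1))
    rw [hZr u, hZr (u+1)]
    obtain ⟨q, hq⟩ : ∃ q, q = u / m := ⟨_, rfl⟩
    obtain ⟨ρ, hρ⟩ : ∃ ρ, ρ = u % m := ⟨_, rfl⟩
    have hqρ : ρ + m * q = u := by rw [hq, hρ]; exact Nat.mod_add_div u m
    have hρm : ρ < m := by rw [hρ]; exact Nat.mod_lt _ (by omega)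
    rw [← hq, ← hρ]
    rcases Nat.lt_or_ge (ρ + 1) m with hlt | hge
    · have h8 : (u + 1) / m = q ∧ (u + 1) % m = ρ + 1 :=
        (Nat.div_mod_unique (by omega)).2 ⟨by omega, hlt⟩
      rw [h8.1, h8.2]
      push_cast
      have h9 : C3 * S ^ m = 2 * (E * S ^ m) + C1 * S ^ m := by rw [hC3r]; ring
      have h10 : ((ρ : ℝ) + 1) * (C3 * S ^ m) = (ρ : ℝ) * (C3 * S ^ m) + C3 * S ^ m := by ring
      linarith
    · have hρ1 : ρ = m - 1 := by omega
      have h8 : (u + 1) / m = q + 1 ∧ (u + 1) % m = 0 := by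
        refine (Nat.div_mod_unique (by omega)).2 ⟨?_, by omega⟩
        rw [Nat.mul_add, Nat.mul_one]
        omega
      have hqd : q + 1 < d := by
        by_contra hcon
        have h9 : d * m ≤ (q + 1) * m := Nat.mul_le_mul_right _ (by omega)
        have h10 : (q + 1) * m = u + 1 := by
          rw [Nat.add_mul, Nat.mul_comm q m]
          omega
        omega
      rw [h8.1, h8.2, hρ1]
      have h9 := (abs_le.1 (hzz q (by omega))).1
      have h10 := (abs_le.1 (hzz (q + 1) hqd)).2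
      have h11 : zt m d (q+1) (th x y) * r + c0 * r ≤ zt m d q (th x y) * r := by
        calc zt m d (q+1) (th x y) * r + c0 * r = (zt m d (q+1) (th x y) + c0) * r := by ring
          _ ≤ zt m d q (th x y) * r := mul_le_mul_of_nonneg_right (z3 q hqd) hr0
      simp only [Nat.cast_zero, zero_mul, sub_zero]
      linarith
  have hdm : 1 ≤ d * m := Nat.mul_pos (by omega) hm
  have hge : (C1 : ℝ) * S ^ m ≤ Z' (d * m - 1) := by
    rw [hZr]
    have h8 : (d * m - 1) / m = d - 1 ∧ (d * m - 1) % m = m - 1 := by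
      refine (Nat.div_mod_unique (by omega)).2 ⟨?_, by omega⟩
      obtain ⟨e, he⟩ : ∃ e, d = e + 1 := ⟨d - 1, by omega⟩
      rw [he, Nat.add_sub_cancel, Nat.add_mul, Nat.one_mul, Nat.mul_comm m e]
      omega
    rw [h8.1, h8.2]
    have h9 := (abs_le.1 (hzz (d-1) (by omega))).1
    have h6 := (abs_le.1 (hc (d * m - 1))).1
    have h10 : c0 * r ≤ zt m d (d-1) (th x y) * r := mul_le_mul_of_nonneg_right z2 hr0
    linarith
  have hall : ∀ j u : ℕ, u + 1 + j = d * m → (C1 : ℝ) * S ^ m ≤ Z' u := by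
    intro j
    induction j with
    | zero =>
      intro u hu
      have : u = d * m - 1 := by omega
      rw [this]; exact hge
    | succ j ih =>
      intro u hu
      have h5 := ih (u + 1) (by omega)
      have h6 := hgi u (by omega)
      have h7 : 0 ≤ (C1 : ℝ) * S ^ m := by positivity
      linarith
  have hSn : S ^ m = (((x + y) ^ m : ℕ) : ℝ) := by rw [hS]; push_cast; ring
  have hpos : ∀ u < d * m, ((C1 * (x + y) ^ m : ℕ) : ℤ) ≤ Z' u := by
    intro u hu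
    have h5 := hall (d * m - (u + 1)) u (by omega)
    rw [hSn] at h5
    exact_mod_cast h5
  refine ⟨fun t => if t = 0 then r else (Z' (t - 1)).toNat, ?_, ?_, ?_, ?_⟩
  · simp
  · intro t ht'
    have ht1 : (Z' t).toNat = Z' t := by
      apply Int.toNat_of_nonneg
      exact (Nat.cast_nonneg _).trans (hpos t ht')
    have h5 : (if t + 1 = 0 then r else (Z' (t + 1 - 1)).toNat) = (Z' t).toNat := by simp
    simp only
    rw [h5]
    rcases Nat.eq_zero_or_pos t with h0 | h0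
    · subst h0
      rw [if_pos rfl]
      rw [hSn] at hg0
      have h6 : Z' 0 + ((C1 * (x + y) ^ m : ℕ) : ℤ) ≤ (r : ℤ) := by
        have : (((Z' 0 + ((C1 * (x + y) ^ m : ℕ) : ℤ)) : ℤ) : ℝ) ≤ ((r : ℤ) : ℝ) := by
          push_cast
          push_cast at hg0
          exact hg0
        exact_mod_cast this
      omega
    · rw [if_neg (by omega)]
      have h6 := hgi (t - 1) (by omega)
      have h7 : t - 1 + 1 = t := by omega
      rw [h7, hSn] at h6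
      have h8 : Z' t + ((C1 * (x + y) ^ m : ℕ) : ℤ) ≤ Z' (t - 1) := by
        have : (((Z' t + ((C1 * (x + y) ^ m : ℕ) : ℤ)) : ℤ) : ℝ) ≤ ((Z' (t-1) : ℤ) : ℝ) := by
          push_cast
          push_cast at h6
          exact h6
        exact_mod_cast this
      omega
  · have h5 := hpos (d * m - 1) (by omega)
    simp only
    rw [if_neg (by omega)]
    omega
  · intro κ hκ
    rw [← hCut κ hκ]
    apply cut_congr
    intro u hu
    have h5 := hpos u hu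
    have h6 : (if u + 1 = 0 then r else (Z' (u + 1 - 1)).toNat) = (Z' u).toNat := by simp
    simp only
    rw [h6]
    exact Int.toNat_of_nonneg ((Nat.cast_nonneg _).trans h5)

end Pool.Agent.Helper44.LN
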