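import Pool.Agent.Helper44.LN.StD

/-! Project LN, module GEN: from the levels over the function field to the generic point. -/

namespace Pool.Agent.Helper44.LN

open Finset MvPolynomial Pool.Agent.Helper46.EAH

private theorem gn_ne (x y i : ℕ) : (gn x y i).1 0 0 ≠ 0 := by
  have h : (gn x y i).1 0 0 =
      algebraMap (Pf x y) (Kf x y) (X (i, Sum.inl (0, 0))) := rfl
  rw [h]
  intro h0
  have h1 : (X (i, Sum.inl (0, 0)) : Pf x y) = 0 :=
    IsFractionRing.injective (Pf x y) (Kf x y) (by rw [h0, map_zero])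
  exact X_ne_zero _ h1

/-- MODULE GEN. -/
theorem pGEN : StDEG → StTRF → StGEN := by
  intro hD hT x y m d S t μ hm ht hμ hlev
  have : CharZero (Kf x y) := charZero_of_injective_algebraMap
    (FaithfulSMul.algebraMap_injective ℂ (Kf x y))
  obtain ⟨P, hP, hF⟩ := hD (Kf x y) x y m d S (gn x y) t μ hm ht hμ (by
    intro κ hκ v hv
    have h1 : v ∈ (⨅ i ∈ S, Wt (Kf x y) x y (d-κ) κ (gn x y i) (TD m d (t i) (μ i) κ) :
        Submodule (Kf x y) (Vc (Kf x y) x y (d-κ) κ)) := by
      simp only [Submodule.mem_iInf]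
      exact hv
    rw [hlev κ hκ, Submodule.mem_bot] at h1
    exact h1)
  exact hT (FractionRing (Polynomial (Kf x y))) x y d S μ P (fun i _ => hP i (gn_ne x y i)) hF

end Pool.Agent.Helper44.LN
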