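import Pool.Agent.Helper44.LN.StG

/-! Project LN (MP_b56c98_ag, leader helper44), module GRO: growth with one test point. -/

set_option autoImplicit false

namespace Pool.Agent.Helper44.LN

open Finset

section
variable {K V T : Type} [Field K] [AddCommGroup V] [Module K V] [FiniteDimensional K V]
  (W : T → ℕ → Submodule K V)

/-- invariance of the dimensions -/
private def GInv : Prop :=
  ∀ (π : Equiv.Perm ℕ) (S : Finset ℕ) (τ : ℕ → T),
    Module.finrank K (⨅ i ∈ S, W (τ i) (π i) : Submodule K V) =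
      Module.finrank K (⨅ i ∈ S, W (τ i) i : Submodule K V)

omit [FiniteDimensional K V] in
private lemma ginv2 (h2 : GInv W) (τ : ℕ → T) (S : Finset ℕ) (u : ℕ) (D : T) (hu : u ∉ S)
    (σ : Equiv.Perm ℕ) :
    Module.finrank K ((⨅ i ∈ S, W (τ i) (σ i)) ⊓ W D (σ u) : Submodule K V) =
      Module.finrank K ((⨅ i ∈ S, W (τ i) i) ⊓ W D u : Submodule K V) := by
  have h := h2 σ (insert u S) (Function.update τ u D)
  rw [Finset.iInf_insert, Finset.iInf_insert] at h
  have e1 : (⨅ i ∈ S, W (Function.update τ u D i) (σ i) : Submodule K V) =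
      ⨅ i ∈ S, W (τ i) (σ i) := by
    refine iInf_congr fun i => iInf_congr fun hi => ?_
    rw [Function.update_of_ne (fun h : i = u => hu (h ▸ hi))]
  have e2 : (⨅ i ∈ S, W (Function.update τ u D i) i : Submodule K V) =
      ⨅ i ∈ S, W (τ i) i := by
    refine iInf_congr fun i => iInf_congr fun hi => ?_
    rw [Function.update_of_ne (fun h : i = u => hu (h ▸ hi))]
  rw [e1, e2, Function.update_self] at h
  rw [inf_comm, h, inf_comm]

omit [FiniteDimensional K V] in
private lemma ginv3 (h2 : GInv W) (τ : ℕ → T) (S : Finset ℕ) (u z : ℕ) (D M : T) (hu : u ∉ S)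
    (hz : z ∉ S) (hzu : z ≠ u) (σ : Equiv.Perm ℕ) :
    Module.finrank K (((⨅ i ∈ S, W (τ i) (σ i)) ⊓ W M (σ z)) ⊓ W D (σ u) : Submodule K V) =
      Module.finrank K (((⨅ i ∈ S, W (τ i) i) ⊓ W M z) ⊓ W D u : Submodule K V) := by
  have h := ginv2 W h2 (Function.update τ z M) (insert z S) u D
    (by simp only [Finset.mem_insert, not_or]; exact ⟨hzu.symm, hu⟩) σ
  rw [Finset.iInf_insert, Finset.iInf_insert] at h
  have e1 : (⨅ i ∈ S, W (Function.update τ z M i) (σ i) : Submodule K V) =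
      ⨅ i ∈ S, W (τ i) (σ i) := by
    refine iInf_congr fun i => iInf_congr fun hi => ?_
    rw [Function.update_of_ne (fun h : i = z => hz (h ▸ hi))]
  have e2 : (⨅ i ∈ S, W (Function.update τ z M i) i : Submodule K V) =
      ⨅ i ∈ S, W (τ i) i := by
    refine iInf_congr fun i => iInf_congr fun hi => ?_
    rw [Function.update_of_ne (fun h : i = z => hz (h ▸ hi))]
  rw [e1, e2, Function.update_self] at h
  rw [inf_comm (⨅ i ∈ S, W (τ i) (σ i)) (W M (σ z)), h, inf_comm (W M z)]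

/-- step (A) -/
private lemma gstepA (h2 : GInv W) (τ : ℕ → T) (S : Finset ℕ) (u z : ℕ) (D M : T) (hu : u ∉ S)
    (hz : z ∉ S) (hzu : z ≠ u)
    (hfail : Module.finrank K (((⨅ i ∈ S, W (τ i) i) ⊓ W M z) ⊓ W D u : Submodule K V) +
          Module.finrank K (⨅ i ∈ S, W (τ i) i : Submodule K V) ≤
      Module.finrank K ((⨅ i ∈ S, W (τ i) i) ⊓ W M z : Submodule K V) +
          Module.finrank K ((⨅ i ∈ S, W (τ i) i) ⊓ W D u : Submodule K V))
    (π : Equiv.Perm ℕ) (hπu : π u = u) (z1 : ℕ) (hz1 : ∀ i ∈ S, π i ≠ z1) (hz1u : z1 ≠ u) :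
    (⨅ i ∈ S, W (τ i) (π i) : Submodule K V) ⊔ W D u =
      ((⨅ i ∈ S, W (τ i) (π i)) ⊓ W M z1) ⊔ W D u := by
  set σ : Equiv.Perm ℕ := Equiv.swap (π z) z1 * π with hσ
  have hσS : ∀ i ∈ S, σ i = π i := by
    intro i hi
    rw [hσ, Equiv.Perm.mul_apply]
    refine Equiv.swap_apply_of_ne_of_ne (fun h => ?_) (hz1 i hi)
    exact hz (π.injective h ▸ hi)
  have hσu : σ u = u := by
    rw [hσ, Equiv.Perm.mul_apply, hπu]
    refine Equiv.swap_apply_of_ne_of_ne (fun h => ?_) hz1u.symm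
    exact hzu (π.injective (by rw [hπu]; exact h.symm))
  have hσz : σ z = z1 := by rw [hσ, Equiv.Perm.mul_apply, Equiv.swap_apply_left]
  have eJ : (⨅ i ∈ S, W (τ i) (σ i) : Submodule K V) = ⨅ i ∈ S, W (τ i) (π i) :=
    iInf_congr fun i => iInf_congr fun hi => by rw [hσS i hi]
  have d0 := h2 σ S τ
  have d1 := ginv2 W h2 τ S u D hu σ
  have d2 := ginv2 W h2 τ S z M hz σ
  have d3 := ginv3 W h2 τ S u z D M hu hz hzu σ
  rw [eJ] at d0 d1 d2 d3
  rw [hσu] at d1 d3
  rw [hσz] at d2 d3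
  set J : Submodule K V := ⨅ i ∈ S, W (τ i) (π i) with hJ
  have s1 := Submodule.finrank_sup_add_finrank_inf_eq J (W D u)
  have s2 := Submodule.finrank_sup_add_finrank_inf_eq (J ⊓ W M z1) (W D u)
  refine (Submodule.eq_of_le_of_finrank_le (sup_le_sup_right inf_le_left _) ?_).symm
  omega

/-- step (B): exchange -/
private lemma gstepB (h2 : GInv W) (τ : ℕ → T) (S : Finset ℕ) (u z : ℕ)
    (D M : T) (hM : ∀ τ i, W M i ≤ W τ i) (hu : u ∉ S)
    (hz : z ∉ S) (hzu : z ≠ u)
    (hfail : Module.finrank K (((⨅ i ∈ S, W (τ i) i) ⊓ W M z) ⊓ W D u : Submodule K V) +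
          Module.finrank K (⨅ i ∈ S, W (τ i) i : Submodule K V) ≤
      Module.finrank K ((⨅ i ∈ S, W (τ i) i) ⊓ W M z : Submodule K V) +
          Module.finrank K ((⨅ i ∈ S, W (τ i) i) ⊓ W D u : Submodule K V))
    (π : Equiv.Perm ℕ) (hπu : π u = u) (r z1 : ℕ) (hr : r ∈ S) (hz1 : ∀ i ∈ S, π i ≠ z1)
    (hz1u : z1 ≠ u) :
    (⨅ i ∈ S, W (τ i) (π i) : Submodule K V) ⊔ W D u =
      (⨅ i ∈ S, W (τ i) ((Equiv.swap (π r) z1 * π) i)) ⊔ W D u := by
  have hA := gstepA W h2 τ S u z D M hu hz hzu hfail π hπu z1 hz1 hz1u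
  set σ : Equiv.Perm ℕ := Equiv.swap (π r) z1 * π with hσ
  have hru : r ≠ u := fun h => hu (h ▸ hr)
  have hσu : σ u = u := by
    rw [hσ, Equiv.Perm.mul_apply, hπu]
    refine Equiv.swap_apply_of_ne_of_ne (fun h => ?_) hz1u.symm
    exact hru (π.injective (by rw [hπu]; exact h.symm))
  have hle : (⨅ i ∈ S, W (τ i) (π i) : Submodule K V) ⊓ W M z1 ≤ ⨅ i ∈ S, W (τ i) (σ i) := by
    refine le_iInf fun i => le_iInf fun hi => ?_
    by_cases hir : i = r
    · subst hir
      have e : σ i = z1 := by rw [hσ, Equiv.Perm.mul_apply, Equiv.swap_apply_left]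
      rw [e]
      exact inf_le_right.trans (hM _ _)
    · have e : σ i = π i := by
        rw [hσ, Equiv.Perm.mul_apply]
        exact Equiv.swap_apply_of_ne_of_ne (fun h => hir (π.injective h)) (hz1 i hi)
      rw [e]
      exact inf_le_left.trans (iInf₂_le i hi)
  have a0 := h2 π S τ
  have a1 := ginv2 W h2 τ S u D hu π
  have b0 := h2 σ S τ
  have b1 := ginv2 W h2 τ S u D hu σ
  rw [hπu] at a1
  rw [hσu] at b1
  have s1 := Submodule.finrank_sup_add_finrank_inf_eq
    (⨅ i ∈ S, W (τ i) (π i) : Submodule K V) (W D u)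
  have s2 := Submodule.finrank_sup_add_finrank_inf_eq
    (⨅ i ∈ S, W (τ i) (σ i) : Submodule K V) (W D u)
  refine Submodule.eq_of_le_of_finrank_le ?_ (by omega)
  rw [hA]
  exact sup_le_sup_right hle _

end

theorem pGRO : StGRO := by
  intro K V T _ _ _ _ W M hW τ S u z D hu hz hzu hdef hne
  obtain ⟨hM, h2, h3⟩ := hW
  by_contra hcon
  rw [not_le] at hcon
  have hfail : Module.finrank K (((⨅ i ∈ S, W (τ i) i) ⊓ W M z) ⊓ W D u : Submodule K V) +
          Module.finrank K (⨅ i ∈ S, W (τ i) i : Submodule K V) ≤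
      Module.finrank K ((⨅ i ∈ S, W (τ i) i) ⊓ W M z : Submodule K V) +
          Module.finrank K ((⨅ i ∈ S, W (τ i) i) ⊓ W D u : Submodule K V) := by omega
  set N : ℕ := S.sup id + u + 1 with hN
  have hSN : ∀ i ∈ S, i < N := fun i hi => by
    have : i ≤ S.sup id := Finset.le_sup (f := id) hi
    omega
  have key : ∀ A : Finset ℕ, A ⊆ S → ∃ π : Equiv.Perm ℕ, π u = u ∧ (∀ i ∈ A, π i = i + N) ∧
      (∀ i ∈ S, i ∉ A → π i = i) ∧
      (⨅ i ∈ S, W (τ i) i : Submodule K V) ⊔ W D u =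
        (⨅ i ∈ S, W (τ i) (π i)) ⊔ W D u := by
    intro A
    induction A using Finset.induction_on with
    | empty =>
      intro _
      exact ⟨1, rfl, fun i hi => by simp at hi, fun i _ _ => rfl, rfl⟩
    | insert a A haA ih =>
      intro hAS
      obtain ⟨π, hπu, hπA, hπS, hπ⟩ := ih fun i hi => hAS (Finset.mem_insert_of_mem hi)
      have haS : a ∈ S := hAS (Finset.mem_insert_self a A)
      have haN := hSN a haS
      have hau : a ≠ u := fun h => hu (h ▸ haS)
      have hπa : π a = a := hπS a haS haA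
      have hz1 : ∀ i ∈ S, π i ≠ a + N := by
        intro i hi
        by_cases hiA : i ∈ A
        · rw [hπA i hiA]
          intro h
          exact haA ((by omega : i = a) ▸ hiA)
        · rw [hπS i hi hiA]
          have := hSN i hi
          omega
      have hz1u : a + N ≠ u := by omega
      have hB := gstepB W h2 τ S u z D M hM hu hz hzu hfail π hπu a (a + N) haS
        hz1 hz1u
      refine ⟨Equiv.swap (π a) (a + N) * π, ?_, ?_, ?_, hπ.trans hB⟩
      · rw [Equiv.Perm.mul_apply, hπu, hπa]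
        exact Equiv.swap_apply_of_ne_of_ne hau.symm hz1u.symm
      · intro i hi
        rw [Equiv.Perm.mul_apply]
        rcases Finset.mem_insert.1 hi with rfl | hiA
        · rw [Equiv.swap_apply_left]
        · rw [hπA i hiA, hπa]
          refine Equiv.swap_apply_of_ne_of_ne (by omega) ?_
          intro h
          exact haA ((by omega : i = a) ▸ hiA)
      · intro i hi hiA
        rw [Finset.mem_insert, not_or] at hiA
        rw [Equiv.Perm.mul_apply, hπS i hi hiA.2, hπa]
        have := hSN i hi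
        exact Equiv.swap_apply_of_ne_of_ne hiA.1 (by omega)
  obtain ⟨π, hπu, hπA, -, hπ⟩ := key S (Finset.Subset.refl S)
  set S2 : Finset ℕ := S.image (fun i => i + N) with hS2
  set τ' : ℕ → T := fun j => if N ≤ j then τ (j - N) else τ j with hτ'
  have e1 : (⨅ i ∈ S2, W (τ' i) i : Submodule K V) = ⨅ i ∈ S, W (τ i) (π i) := by
    rw [hS2, Finset.iInf_finset_image]
    refine iInf_congr fun i => iInf_congr fun hi => ?_
    rw [hπA i hi, hτ']
    simp
  have e2 : (⨅ i ∈ S, W (τ' i) i : Submodule K V) = ⨅ i ∈ S, W (τ i) i := by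
    refine iInf_congr fun i => iInf_congr fun hi => ?_
    have := hSN i hi
    rw [hτ']
    simp only
    rw [if_neg (by omega)]
  have hdisj : Disjoint S2 S := by
    rw [Finset.disjoint_left]
    intro j hj hjS
    rw [hS2, Finset.mem_image] at hj
    obtain ⟨i, _, rfl⟩ := hj
    have := hSN _ hjS
    omega
  have huS2 : u ∉ S2 := by
    intro h
    rw [hS2, Finset.mem_image] at h
    obtain ⟨i, _, h⟩ := h
    omega
  have hne2 : (⨅ i ∈ S2, W (τ' i) i : Submodule K V) ≠ ⊥ := by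
    rw [e1]
    intro h
    have h4 := h2 π S τ
    rw [h, finrank_bot] at h4
    exact hne (Submodule.finrank_eq_zero.1 h4.symm)
  have htop := h3 τ' S2 S u D hdisj huS2 (by rw [e1, e2, hπ]; exact le_sup_left) hne2
  rw [e2] at htop
  have s1 := Submodule.finrank_sup_add_finrank_inf_eq
    (⨅ i ∈ S, W (τ i) i : Submodule K V) (W D u)
  rw [htop, finrank_top] at s1
  omega

end Pool.Agent.Helper44.LN
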