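import Pool.Agent.Helper44.LN.StA

/-! Project LN, module HHA: asymptotics of the numbers of monomials. -/

set_option autoImplicit false

namespace Pool.Agent.Helper44.LN

open Finset

/-- `v ^ a - u ^ a ≤ a 2 ^ a (v - u)` for `0 ≤ u ≤ v ≤ 2`. -/
private lemma hha_pow (a : ℕ) (u v : ℝ) (hu : 0 ≤ u) (huv : u ≤ v) (hv : v ≤ 2) :
    v ^ a - u ^ a ≤ a * 2 ^ a * (v - u) := by
  induction a with
  | zero => simp
  | succ a ih =>
    have hv0 : 0 ≤ v := hu.trans huv
    have h1 : v ^ (a + 1) - u ^ (a + 1) = v * (v ^ a - u ^ a) + u ^ a * (v - u) := by ring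
    have h2 : u ^ a ≤ 2 ^ a := pow_le_pow_left₀ hu (huv.trans hv) a
    have h3 : 0 ≤ v - u := sub_nonneg.mpr huv
    have h4 : 0 ≤ v ^ a - u ^ a := sub_nonneg.mpr (pow_le_pow_left₀ hu huv a)
    have h5 : v * (v ^ a - u ^ a) ≤ 2 * (a * 2 ^ a * (v - u)) :=
      mul_le_mul hv ih h4 (by norm_num)
    have h6 : u ^ a * (v - u) ≤ 2 ^ a * (v - u) := mul_le_mul_of_nonneg_right h2 h3
    have h7 : 0 ≤ (2 : ℝ) ^ a * (v - u) := mul_nonneg (by positivity) h3
    rw [h1]
    push_cast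
    have h8 : ((a : ℝ) + 1) * 2 ^ (a + 1) * (v - u)
        = 2 * (a * 2 ^ a * (v - u)) + 2 ^ a * (v - u) + 2 ^ a * (v - u) := by ring
    rw [h8]
    linarith

private lemma hha_core (a : ℕ) (x s h : ℝ) (hs : 1 ≤ s) (has : (a : ℝ) ≤ s) (hx0 : 0 ≤ x)
    (hxs : x ≤ s) (h1 : x ^ a ≤ a.factorial * h) (h2 : a.factorial * h ≤ (x + a) ^ a) :
    |h / s ^ a - (x / s) ^ a / a.factorial| ≤ a * 2 ^ a * (a / s) := by
  have hs0 : 0 < s := by linarith
  have hf : (1 : ℝ) ≤ a.factorial := by exact_mod_cast Nat.succ_le_of_lt a.factorial_pos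
  have hf0 : (0 : ℝ) < a.factorial := by linarith
  have hsa : 0 < s ^ a := pow_pos hs0 a
  have e1 : h / s ^ a - (x / s) ^ a / a.factorial
      = (a.factorial * h - x ^ a) / (a.factorial * s ^ a) := by
    rw [div_pow]; field_simp
  have p1 : 0 ≤ (a.factorial * h - x ^ a) / (a.factorial * s ^ a) :=
    div_nonneg (by linarith) (by positivity)
  rw [e1, abs_of_nonneg p1]
  have p2 : (a.factorial * h - x ^ a) / (a.factorial * s ^ a) ≤ ((x + a) ^ a - x ^ a) / s ^ a := by
    apply div_le_div₀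
    · have : x ^ a ≤ (x + a) ^ a := h1.trans h2
      linarith
    · linarith
    · exact hsa
    · nlinarith
  have e2 : ((x + a) ^ a - x ^ a) / s ^ a = ((x + a) / s) ^ a - (x / s) ^ a := by
    rw [div_pow, div_pow, sub_div]
  have p3 := hha_pow a (x / s) ((x + a) / s) (div_nonneg hx0 hs0.le)
    (div_le_div_of_nonneg_right (by linarith [(Nat.cast_nonneg a : (0:ℝ) ≤ a)]) hs0.le)
    (by rw [div_le_iff₀ hs0]; linarith)
  have e3 : (x + a) / s - x / s = a / s := by rw [← sub_div]; congr 1; ring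
  rw [e3] at p3
  rw [e2] at p2
  exact p2.trans p3

private lemma hha_mono (x a : ℕ) : x.ascFactorial a ≤ (x + 1).ascFactorial a := by
  induction a with
  | zero => simp
  | succ a ih =>
    rw [Nat.ascFactorial_succ, Nat.ascFactorial_succ]
    exact Nat.mul_le_mul (by omega) ih

private lemma hha_hh (x a : ℕ) : x ^ a ≤ a.factorial * hh x a ∧
    a.factorial * hh x a ≤ (x + a) ^ a := by
  have h : a.factorial * hh x a = x.ascFactorial a :=
    (Nat.ascFactorial_eq_factorial_mul_choose' x a).symm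
  rw [h]
  exact ⟨Nat.pow_succ_le_ascFactorial x a,
    (hha_mono x a).trans (Nat.ascFactorial_le_pow_add x a)⟩

private lemma hha_ch (x a : ℕ) : x ^ a ≤ a.factorial * (x + a).choose x ∧
    a.factorial * (x + a).choose x ≤ (x + a) ^ a := by
  have h : a.factorial * (x + a).choose x = (x + 1).ascFactorial a := by
    rw [Nat.ascFactorial_eq_factorial_mul_choose, Nat.choose_symm_add]
  rw [h]
  exact ⟨(Nat.pow_le_pow_left (Nat.le_succ x) a).trans (Nat.pow_succ_le_ascFactorial (x + 1) a),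
    Nat.ascFactorial_le_pow_add x a⟩

theorem pHHA : StHHA := by
  intro a Θ ε hε
  refine ⟨max (max a 1) (Nat.ceil ((a : ℝ) * 2 ^ a * a / ε)), ?_⟩
  intro x y hT
  obtain ⟨hs0, -, -⟩ := hT
  have has : a ≤ x + y := le_trans (le_trans (le_max_left _ _) (le_max_left _ _)) hs0
  have h1s : 1 ≤ x + y := le_trans (le_trans (le_max_right _ _) (le_max_left _ _)) hs0
  have hcs : Nat.ceil ((a : ℝ) * 2 ^ a * a / ε) ≤ x + y := le_trans (le_max_right _ _) hs0
  have has' : (a : ℝ) ≤ (x : ℝ) + y := by exact_mod_cast has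
  have h1s' : (1 : ℝ) ≤ (x : ℝ) + y := by exact_mod_cast h1s
  have hcs' : (a : ℝ) * 2 ^ a * a / ε ≤ (x : ℝ) + y := by
    have := Nat.ceil_le.mp hcs
    push_cast at this
    exact this
  have hspos : 0 < (x : ℝ) + y := by linarith
  have hb : (a : ℝ) * 2 ^ a * (a / ((x : ℝ) + y)) ≤ ε := by
    rw [div_le_iff₀ hε] at hcs'
    rw [← mul_div_assoc, div_le_iff₀ hspos]
    linarith
  have ex : 1 - th x y = (x : ℝ) / ((x : ℝ) + y) := by
    unfold th
    field_simp
    ring
  have ey : th x y = (y : ℝ) / ((x : ℝ) + y) := rfl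
  have hx0 : (0 : ℝ) ≤ x := Nat.cast_nonneg x
  have hy0 : (0 : ℝ) ≤ y := Nat.cast_nonneg y
  rw [ex, ey]
  refine ⟨?_, ?_, ?_, ?_⟩
  · obtain ⟨q1, q2⟩ := hha_hh x a
    exact (hha_core a x _ _ h1s' has' hx0 (by linarith) (by exact_mod_cast q1)
      (by exact_mod_cast q2)).trans hb
  · obtain ⟨q1, q2⟩ := hha_hh y a
    exact (hha_core a y _ _ h1s' has' hy0 (by linarith) (by exact_mod_cast q1)
      (by exact_mod_cast q2)).trans hb
  · obtain ⟨q1, q2⟩ := hha_ch x a
    exact (hha_core a x _ _ h1s' has' hx0 (by linarith) (by exact_mod_cast q1)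
      (by exact_mod_cast q2)).trans hb
  · obtain ⟨q1, q2⟩ := hha_ch y a
    exact (hha_core a y _ _ h1s' has' hy0 (by linarith) (by exact_mod_cast q1)
      (by exact_mod_cast q2)).trans hb

end Pool.Agent.Helper44.LN
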