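import Pool.Agent.Helper44.LN.StF

/-! Project LN, module HIL: Hilbert functions (proof by helper78). -/

namespace Pool.Agent.Helper44.LN

open Finset MvPolynomial Pool.Agent.Helper46.EAH

theorem pHIL : StTQQ → StHIL := by
  intro hTQQ m hm
  have hex : ∀ d : ℕ, ∃ n0 : ℕ, 2 * m ≤ d → ∀ n ≥ n0, ∀ r : ℕ, ∃ q,
      q ≤ N n (d+1) - r * N n m ∧ TInj ℂ n d (range (r+q)) (exm (fun _ : Fin r => m)) := by
    intro d
    by_cases hd : 2 * m ≤ d
    · obtain ⟨n0, h⟩ := hTQQ m d hm hd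
      exact ⟨n0, fun _ => h⟩
    · exact ⟨0, fun h => absurd h hd⟩
  choose f hf using hex
  refine ⟨27 ^ m + 1 + ∑ d ∈ range (4 * m + 1), f d, fun n hn r => ?_⟩
  have hn27 : 27 ^ m < n := by
    have h0 : 0 < 27 ^ m := Nat.pos_of_ne_zero (by positivity)
    have h1 : 27 ^ m + 1 ≤ 27 ^ m + 1 + ∑ d ∈ range (4 * m + 1), f d := Nat.le_add_right _ _
    exact lt_of_lt_of_le (Nat.lt_succ_self _) (h1.trans hn)
  have hn1 : 1 ≤ n := Nat.one_le_of_lt hn27
  have hnf : ∀ d, d ≤ 4 * m → f d ≤ n := by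
    intro d hd
    have h1 : f d ≤ ∑ d ∈ range (4 * m + 1), f d :=
      Finset.single_le_sum (f := f) (fun _ _ => Nat.zero_le _) (mem_range.2 (by omega))
    exact h1.trans ((Nat.le_add_left _ _).trans hn)
  have hsum : ∑ i : Fin r, N n ((fun _ => m) i) = r * N n m := by
    rw [Finset.sum_const, Finset.card_univ, Fintype.card_fin, smul_eq_mul]
  have hNm : N n m = (n + m - 1).choose n := by
    unfold N
    rw [if_neg (by omega)]
  have hEX := Pool.Agent.Helper98.UAH.ex_Ib ℂ n m hm hn27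
  obtain ⟨G, hG0, hG⟩ := Pool.Agent.Helper98.UAH.hilbert_good (F := ℂ) n m r hn1 hm
    (fun _ => m) (fun _ => hm) (fun _ => le_rfl) (4 * m - 3) hEX (fun d => 2 * m ≤ d) (by
      intro d hd
      rw [hsum]
      by_cases hd4 : d ≤ 4 * m
      · exact hf d hd n (hnf d hd4) r
      · have h1 := tinj_big (F := ℂ) (n := n) (m := m) (r := r) hm
          (fun _ => m) (fun _ => le_rfl) hEX (d := d) (by omega)
        rw [hsum] at h1
        exact ⟨_, le_rfl, h1⟩)
  refine ⟨G, hG0, fun P hP d hd => ?_⟩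
  have key := (hG P hP).2 d hd
  rw [hsum, hNm, N_succ] at key
  have e : Pool.Agent.Helper65.HF.hilb (Pool.Agent.Helper65.HF.fatIdeal P m) d
      = ((hilbert (fatI P (fun _ => m)) d : ℤ) : ℝ) := by
    unfold Pool.Agent.Helper65.HF.hilb hilbert
    push_cast
    rfl
  rw [e, key]
  push_cast
  rfl

end Pool.Agent.Helper44.LN
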