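import Pool.Agent.Helper44.LN.StG

/-! Project LN, module IRR: irreducibility (by helper8). -/

namespace Pool.Agent.Helper44.LN

open Finset MvPolynomial

/-- the pair of matrices of variables -/
private noncomputable def gv (K : Type) [Field K] (x y : ℕ) : Mt x y (MvPolynomial (Ix x y) K) :=
  (Matrix.of fun j l => X (Sum.inl (j, l)), Matrix.of fun j l => X (Sum.inr (j, l)))

private theorem coeff_sum_mono {K : Type} [Field K] {x y p q : ℕ} (c : Cx x y p q → K)
    (γ : Cx x y p q) :
    coeff γ.1 (∑ γ' : Cx x y p q, monomial γ'.1 (c γ') : MvPolynomial (Vr x y) K) = c γ := by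
  classical
  rw [coeff_sum, Finset.sum_eq_single γ]
  · rw [coeff_monomial, if_pos rfl]
  · intro b _ hb
    rw [coeff_monomial, if_neg (fun h => hb (Subtype.ext h))]
  · intro h
    exact absurd (Finset.mem_univ _) h

private theorem eval_sum_mono {K : Type} [Field K] {x y p q : ℕ} (c : Cx x y p q → K)
    (w : Vr x y → K) :
    eval w (∑ γ' : Cx x y p q, monomial γ'.1 (c γ') : MvPolynomial (Vr x y) K) =
      ∑ γ' : Cx x y p q, c γ' * ((∏ i, w (Sum.inl i) ^ γ'.1 (Sum.inl i)) *
        ∏ j, w (Sum.inr j) ^ γ'.1 (Sum.inr j)) := by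
  rw [map_sum]
  refine Finset.sum_congr rfl fun γ _ => ?_
  rw [eval_monomial, Finsupp.prod_fintype _ _ (fun i => pow_zero _), Fintype.prod_sum_type]

theorem pIRR : StDEN → StROK → StRCN → StIRR := by
  intro hDEN hROK hRCN K _ _ x y p q Z hZ hbot
  by_contra htop
  have hinj : Function.Injective (algebraMap ℂ K) := (algebraMap ℂ K).injective
  have : Infinite K := Infinite.of_injective _ hinj
  have : CharZero K := charZero_of_injective_algebraMap hinj
  obtain ⟨f, hf0, hf⟩ := Submodule.exists_le_ker_of_lt_top Z (lt_top_iff_ne_top.2 htop)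
  obtain ⟨v, hvZ, hv0⟩ := Submodule.exists_mem_ne_zero_of_ne_bot hbot
  classical
  set lam : Cx x y p q → K := fun γ => f (Pi.single γ 1) with hlam
  have hfs : ∀ w, f w = ∑ γ, lam γ * w γ := by
    intro w
    rw [LinearMap.pi_apply_eq_sum_univ f w]
    refine Finset.sum_congr rfl fun γ _ => ?_
    rw [smul_eq_mul, mul_comm]
    congr 2
    ext j
    simp [Pi.single_apply, eq_comm]
  set P : MvPolynomial (Ix x y) K := ∑ γ : Cx x y p q, ∑ γ' : Cx x y p q,
    C (lam γ) * rc (gv K x y) γ.1 γ'.1 * C (v γ') with hP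
  have hevP : ∀ c : Ix x y → K, eval c P = ∑ γ : Cx x y p q, ∑ γ' : Cx x y p q,
      lam γ * rc (mp (eval c) (gv K x y)) γ.1 γ'.1 * v γ' := by
    intro c
    rw [hP, map_sum]
    refine Finset.sum_congr rfl fun γ _ => ?_
    rw [map_sum]
    refine Finset.sum_congr rfl fun γ' _ => ?_
    rw [map_mul, map_mul, eval_C, eval_C, hRCN _ _ (eval c) x y (gv K x y) γ.1 γ'.1]
  have hd1 : (gv K x y).1.det ≠ 0 := by
    intro h
    have h1 := congrArg (eval (Sum.elim (fun a : Fin (x+1) × Fin (x+1) => if a.1 = a.2 then (1 : K) else 0)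
      (fun _ => 0))) h
    rw [RingHom.map_det, map_zero] at h1
    have h2 : (eval (Sum.elim (fun a : Fin (x+1) × Fin (x+1) => if a.1 = a.2 then (1 : K) else 0)
      (fun _ => 0))).mapMatrix (gv K x y).1 = 1 := by
      ext i j
      simp [gv, Matrix.one_apply]
    rw [h2, Matrix.det_one] at h1
    exact one_ne_zero h1
  have hd2 : (gv K x y).2.det ≠ 0 := by
    intro h
    have h1 := congrArg (eval (Sum.elim (fun _ => 0)
      (fun a : Fin (y+1) × Fin (y+1) => if a.1 = a.2 then (1 : K) else 0))) h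
    rw [RingHom.map_det, map_zero] at h1
    have h2 : (eval (Sum.elim (fun _ => 0)
      (fun a : Fin (y+1) × Fin (y+1) => if a.1 = a.2 then (1 : K) else 0))).mapMatrix
        (gv K x y).2 = 1 := by
      ext i j
      simp [gv, Matrix.one_apply]
    rw [h2, Matrix.det_one] at h1
    exact one_ne_zero h1
  have hP0 : P = 0 := by
    have h0 : (gv K x y).1.det * (gv K x y).2.det * P = 0 := by
      refine hDEN K (Ix x y) _ fun c => ?_
      set cK : Ix x y → K := fun i => algebraMap ℂ K (c i) with hcK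
      set h : Mt x y ℂ := (Matrix.of fun j l => c (Sum.inl (j, l)),
        Matrix.of fun j l => c (Sum.inr (j, l))) with hh
      have hmp : mp (eval cK) (gv K x y) = mp (algebraMap ℂ K) h := by
        apply Prod.ext <;> ext i j <;> simp [mp, gv, hh, hcK]
      rw [map_mul, map_mul]
      by_cases h1 : h.1.det = 0
      · have : eval cK (gv K x y).1.det = 0 := by
          rw [RingHom.map_det]
          have e1 : (eval cK).mapMatrix (gv K x y).1 = (algebraMap ℂ K).mapMatrix h.1 :=
            congrArg Prod.fst hmp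
          rw [e1, ← RingHom.map_det, h1, map_zero]
        rw [this, zero_mul, zero_mul]
      by_cases h2 : h.2.det = 0
      · have : eval cK (gv K x y).2.det = 0 := by
          rw [RingHom.map_det]
          have e1 : (eval cK).mapMatrix (gv K x y).2 = (algebraMap ℂ K).mapMatrix h.2 :=
            congrArg Prod.snd hmp
          rw [e1, ← RingHom.map_det, h2, map_zero]
        rw [this, mul_zero, zero_mul]
      have hmem := hZ h (isUnit_iff_ne_zero.2 h1) (isUnit_iff_ne_zero.2 h2) v hvZ
      have hfz : f ((RC p q (mp (algebraMap ℂ K) h)).mulVec v) = 0 := hf hmem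
      have : eval cK P = 0 := by
        rw [hevP, hmp, ← hfz, hfs]
        refine Finset.sum_congr rfl fun γ _ => ?_
        rw [Matrix.mulVec, dotProduct, Finset.mul_sum]
        refine Finset.sum_congr rfl fun γ' _ => ?_
        rw [mul_assoc]
        rfl
      rw [this, mul_zero]
    exact (mul_eq_zero.1 h0).resolve_left (mul_ne_zero hd1 hd2)
  set F : MvPolynomial (Vr x y) K := ∑ γ' : Cx x y p q, monomial γ'.1 (v γ') with hF
  set mu : Cx x y p q → K := fun γ => ((Nat.multinomial univ (fun i => γ.1 (Sum.inl i)) *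
        Nat.multinomial univ (fun j => γ.1 (Sum.inr j)) : ℕ) : K) with hmu
  set Q : MvPolynomial (Vr x y) K := ∑ γ' : Cx x y p q, monomial γ'.1 (lam γ' * mu γ') with hQ
  have hFQ : ∀ w g : Vr x y → K, eval w F * eval g Q = 0 := by
    intro w g
    set cc : Ix x y → K := Sum.elim (fun a => w (Sum.inl a.1) * g (Sum.inl a.2))
      (fun a => w (Sum.inr a.1) * g (Sum.inr a.2)) with hcc
    have h1 := hevP cc
    have hmp : mp (eval cc) (gv K x y) =
        ((Matrix.vecMulVec (fun i => w (Sum.inl i)) (fun i => g (Sum.inl i)),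
          Matrix.vecMulVec (fun i => w (Sum.inr i)) (fun i => g (Sum.inr i))) : Mt x y K) := by
      apply Prod.ext <;> ext i j <;> simp [mp, gv, hcc, Matrix.vecMulVec_apply]
    rw [hP0, map_zero, hmp] at h1
    rw [hF, hQ, eval_sum_mono, eval_sum_mono, Finset.sum_mul_sum, Finset.sum_comm, h1]
    refine Finset.sum_congr rfl fun γ _ => Finset.sum_congr rfl fun γ' _ => ?_
    rw [hROK K x y p q _ _ _ _ γ.1 γ'.1 γ.2 γ'.2]
    simp only [hmu]
    ring
  have hF0 : F ≠ 0 := by
    intro h
    apply hv0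
    ext γ
    rw [← coeff_sum_mono v γ, ← hF, h, coeff_zero, Pi.zero_apply]
  obtain ⟨w, hw⟩ : ∃ w, eval w F ≠ 0 := by
    by_contra hcon
    push Not at hcon
    exact hF0 (MvPolynomial.funext fun w => by rw [hcon w, map_zero])
  have hQ0 : Q = 0 := MvPolynomial.funext fun g => by
    rw [map_zero]
    exact (mul_eq_zero.1 (hFQ w g)).resolve_left hw
  apply hf0
  refine LinearMap.ext fun v' => ?_
  rw [LinearMap.zero_apply, hfs]
  refine Finset.sum_eq_zero fun γ _ => ?_
  have h1 : lam γ * mu γ = 0 := by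
    rw [← coeff_sum_mono (fun γ => lam γ * mu γ) γ, ← hQ, hQ0, coeff_zero]
  have h2 : mu γ ≠ 0 := by
    rw [hmu]
    exact Nat.cast_ne_zero.2 (Nat.mul_ne_zero (Nat.multinomial_pos _ _).ne' (Nat.multinomial_pos _ _).ne')
  rw [(mul_eq_zero.1 h1).resolve_right h2, zero_mul]

end Pool.Agent.Helper44.LN
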