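import Pool.Agent.Helper44.LN.StG

/-! Project LN, module KEY (written by helper34). -/

set_option autoImplicit false

namespace Pool.Agent.Helper44.LN

open Finset MvPolynomial

private theorem key_mp_mul {R S : Type*} [CommRing R] [CommRing S] (φ : R →+* S) {x y : ℕ}
    (g h : Mt x y R) : mp φ (g * h) = mp φ g * mp φ h := by
  unfold mp
  refine Prod.ext ?_ ?_
  · simp only [Prod.fst_mul]
    exact Matrix.map_mul
  · simp only [Prod.snd_mul]
    exact Matrix.map_mul

private theorem key_mp_one {R S : Type*} [CommRing R] [CommRing S] (φ : R →+* S) {x y : ℕ} :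
    mp φ (1 : Mt x y R) = 1 := by
  unfold mp
  refine Prod.ext ?_ ?_
  · simp only [Prod.fst_one]
    exact Matrix.map_one φ (map_zero φ) (map_one φ)
  · simp only [Prod.snd_one]
    exact Matrix.map_one φ (map_zero φ) (map_one φ)

private theorem key_mp_mp {R S T : Type*} [CommRing R] [CommRing S] [CommRing T] (φ : R →+* S)
    (ψ : S →+* T) {x y : ℕ} (g : Mt x y R) : mp ψ (mp φ g) = mp (ψ.comp φ) g := by
  unfold mp
  refine Prod.ext ?_ ?_
  · ext i j
    simp
  · ext i j
    simp

private theorem key_mulVec (hRCN : StRCN) {R S : Type} [CommRing R] [CommRing S] (φ : R →+* S)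
    {x y p q : ℕ} (g : Mt x y R) (v : Cx x y p q → R) (γ : Cx x y p q) :
    (RC p q (mp φ g)).mulVec (fun γ' => φ (v γ')) γ = φ ((RC p q g).mulVec v γ) := by
  unfold Matrix.mulVec dotProduct
  rw [map_sum]
  refine Finset.sum_congr rfl fun γ' _ => ?_
  rw [map_mul]
  congr 1
  exact hRCN R S φ x y g γ.1 γ'.1

private theorem key_Wt (hRCN : StRCN) {K : Type} [Field K] (θ : K →+* K) {x y p q : ℕ}
    {g g' : Mt x y K} (hg : mp θ g = g') {D : Finset (ℕ × ℕ)} {v : Vc K x y p q}
    (hv : v ∈ Wt K x y p q g D) : (fun γ => θ (v γ)) ∈ Wt K x y p q g' D := by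
  rw [mem_Wt] at hv ⊢
  intro γ hγ
  rw [← hg, key_mulVec hRCN θ g v γ, hv γ hγ, map_zero]

/-- KEY. -/
theorem pKEY : StRCN → StRCM → StAUT → StIRR → StKEY := by
  intro hRCN hRCM hAUT hIRR x y p q τ S'' S u D hdisj hu hUZ hUne
  set K := Kf x y with hK
  set al : ℂ →+* K := algebraMap ℂ K with hal
  set U : Submodule K (Vc K x y p q) := ⨅ i ∈ S'', Wt K x y p q (gn x y i) (τ i) with hU
  set Z : Submodule K (Vc K x y p q) :=
    (⨅ i ∈ S, Wt K x y p q (gn x y i) (τ i)) ⊔ Wt K x y p q (gn x y u) D with hZ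
  -- multiplication rule
  have hmul : ∀ (h g : Mt x y K) (v : Vc K x y p q),
      (RC p q g).mulVec ((RC p q h).mulVec v) = (RC p q (h * g)).mulVec v := by
    intro h g v
    rw [Matrix.mulVec_mulVec, (hRCM K x y p q).1 h g]
  -- stability of Z
  have hθZ : ∀ θ : K →+* K, (∀ i, i ∉ S'' → mp θ (gn x y i) = gn x y i) → ∀ z ∈ Z,
      (fun γ => θ (z γ)) ∈ Z := by
    intro θ hθ z hz
    rw [hZ, Submodule.mem_sup] at hz
    obtain ⟨z1, hz1, z2, hz2, rfl⟩ := hz
    have e : (fun γ => θ ((z1 + z2) γ)) = (fun γ => θ (z1 γ)) + fun γ => θ (z2 γ) := by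
      funext γ
      rw [Pi.add_apply, Pi.add_apply, map_add]
    rw [e, hZ]
    refine Submodule.add_mem_sup ?_ ?_
    · simp only [Submodule.mem_iInf] at hz1 ⊢
      intro i hi
      have hi' : i ∉ S'' := fun h => Finset.disjoint_left.1 hdisj h hi
      exact key_Wt hRCN θ (hθ i hi') (hz1 i hi)
    · exact key_Wt hRCN θ (hθ u hu) hz2
  -- the submodule N
  let N : Submodule K (Vc K x y p q) :=
    { carrier := {v | ∀ h : Mt x y ℂ, IsUnit h.1.det → IsUnit h.2.det →
        (RC p q (mp al h)).mulVec v ∈ Z}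
      add_mem' := by
        intro v w hv hw h h1 h2
        rw [Matrix.mulVec_add]
        exact Z.add_mem (hv h h1 h2) (hw h h1 h2)
      zero_mem' := by
        intro h _ _
        rw [Matrix.mulVec_zero]
        exact Z.zero_mem
      smul_mem' := by
        intro r v hv h h1 h2
        rw [Matrix.mulVec_smul]
        exact Z.smul_mem r (hv h h1 h2) }
  have hNmem : ∀ v, v ∈ N ↔ ∀ h : Mt x y ℂ, IsUnit h.1.det → IsUnit h.2.det →
      (RC p q (mp al h)).mulVec v ∈ Z := fun v => Iff.rfl
  have hNst : ∀ h : Mt x y ℂ, IsUnit h.1.det → IsUnit h.2.det → ∀ v ∈ N,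
      (RC p q (mp al h)).mulVec v ∈ N := by
    intro h' h1 h2 v hv
    rw [hNmem] at hv ⊢
    intro h h3 h4
    rw [hmul, ← key_mp_mul]
    refine hv (h' * h) ?_ ?_
    · rw [Prod.fst_mul, Matrix.det_mul]
      exact h1.mul h3
    · rw [Prod.snd_mul, Matrix.det_mul]
      exact h2.mul h4
  have hUN : U ≤ N := by
    intro v hv
    rw [hNmem]
    intro h h1 h2
    -- the inverse pair
    set hi : Mt x y ℂ := (h.1⁻¹, h.2⁻¹) with hhi
    have hh : h * hi = 1 := by
      refine Prod.ext ?_ ?_
      · exact Matrix.mul_nonsing_inv h.1 h1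
      · exact Matrix.mul_nonsing_inv h.2 h2
    have hi1 : IsUnit hi.1.det := by
      have : h.1 * hi.1 = 1 := congrArg Prod.fst hh
      have h3 := congrArg Matrix.det this
      rw [Matrix.det_mul, Matrix.det_one] at h3
      exact IsUnit.of_mul_eq_one_right _ h3
    have hi2 : IsUnit hi.2.det := by
      have : h.2 * hi.2 = 1 := congrArg Prod.snd hh
      have h3 := congrArg Matrix.det this
      rw [Matrix.det_mul, Matrix.det_one] at h3
      exact IsUnit.of_mul_eq_one_right _ h3
    obtain ⟨θ, hθc, hθ1, hθ2⟩ := hAUT x y hi hi1 hi2 S''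
    set θr : K →+* K := (θ : K →+* K) with hθr
    set σ : K →+* K := (θ.symm : K →+* K) with hσ
    have hσθ : σ.comp θr = RingHom.id K := by
      ext z
      exact θ.symm_apply_apply z
    have hσal : σ.comp al = al := by
      ext c
      have h3 := hθc c
      show θ.symm (al c) = al c
      rw [RingEquiv.symm_apply_eq]
      exact h3.symm
    have hmpid : ∀ g : Mt x y K, mp (RingHom.id K) g = g := by
      intro g
      unfold mp
      refine Prod.ext ?_ ?_
      · ext i j
        simp
      · ext i j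
        simp
    have hσ1 : ∀ i ∈ S'', mp σ (gn x y i) = mp al h * gn x y i := by
      intro i hiS
      have h3 : mp σ (mp θr (gn x y i)) = gn x y i := by
        rw [key_mp_mp, hσθ, hmpid]
      rw [hθ1 i hiS, key_mp_mul, key_mp_mp] at h3
      change mp (σ.comp al) hi * mp σ (gn x y i) = gn x y i at h3
      rw [hσal] at h3
      rw [← h3, ← mul_assoc, ← key_mp_mul, hh, key_mp_one, one_mul]
      rw [h3]
    set w : Vc K x y p q := (RC p q (mp al h)).mulVec (fun γ => σ (v γ)) with hw
    have hwσ : w = fun γ => σ ((RC p q (mp al h)).mulVec v γ) := by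
      funext γ
      have h3 := key_mulVec hRCN σ (mp al h) v γ
      rw [key_mp_mp, hσal] at h3
      rw [hw, h3]
    have hwU : w ∈ U := by
      rw [hU] at hv ⊢
      simp only [Submodule.mem_iInf] at hv ⊢
      intro i hiS
      have h3 := key_Wt hRCN σ (hσ1 i hiS) (hv i hiS)
      rw [mem_Wt] at h3 ⊢
      intro γ hγ
      rw [hw, hmul]
      exact h3 γ hγ
    have hwZ : w ∈ Z := hUZ hwU
    have h4 := hθZ θr hθ2 w hwZ
    have h5 : (fun γ => θr (w γ)) = (RC p q (mp al h)).mulVec v := by
      funext γ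
      rw [hwσ]
      exact θ.apply_symm_apply _
    rw [h5] at h4
    exact h4
  have hNne : N ≠ ⊥ := by
    intro h
    rw [h] at hUN
    exact hUne (le_bot_iff.1 hUN)
  have hNtop : N = ⊤ := hIRR K x y p q N hNst hNne
  rw [eq_top_iff]
  intro v _
  have hv : v ∈ N := by rw [hNtop]; exact Submodule.mem_top
  have h1 := (hNmem v).1 hv 1 (by rw [Prod.fst_one, Matrix.det_one]; exact isUnit_one)
    (by rw [Prod.snd_one, Matrix.det_one]; exact isUnit_one)
  rw [key_mp_one, (hRCM K x y p q).2.1, Matrix.one_mulVec] at h1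
  exact h1

end Pool.Agent.Helper44.LN
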