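import Pool.Agent.Helper44.LN.StL

/-! Project LN, module LAT: every integer vector is a cut vector. -/

namespace Pool.Agent.Helper44.LN

open Finset

namespace MLAT

/-- the cut vector as a linear map -/
private def cutL (x y m d : ℕ) : (ℕ → ℤ) →ₗ[ℤ] (Fin d → ℤ) where
  toFun c := fun κ => Cut x y m d c κ
  map_add' c c' := by
    funext κ
    simp only [Cut, Pi.add_apply]
    rw [← Finset.sum_add_distrib]
    refine Finset.sum_congr rfl fun u _ => ?_
    split_ifs
    · ring
    · ring
  map_smul' a c := by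
    funext κ
    simp only [Cut, Pi.smul_apply, smul_eq_mul, RingHom.id_apply]
    rw [Finset.mul_sum]
    refine Finset.sum_congr rfl fun u _ => ?_
    split_ifs
    · ring
    · ring

private lemma cutL_apply (x y m d : ℕ) (c : ℕ → ℤ) (κ : Fin d) :
    cutL x y m d c κ = Cut x y m d c κ := rfl

private lemma cut_single (x y m d k σ : ℕ) (h1 : 1 ≤ σ) (h2 : σ ≤ m) (h3 : k + σ ≤ d) (κ : ℕ) :
    Cut x y m d (Pi.single (k * m + (σ - 1)) 1) κ =
      if k ≤ κ ∧ κ < k + σ then (Mm x y m d k σ : ℤ) else 0 := by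
  have hm : 0 < m := by omega
  have hu : k * m + (σ - 1) < d * m := by
    have : (k + 1) * m ≤ d * m := Nat.mul_le_mul_right m (by omega)
    have h4 : (k + 1) * m = k * m + m := by ring
    omega
  have hdiv : (k * m + (σ - 1)) / m = k := by
    rw [mul_comm k m, Nat.mul_add_div hm, Nat.div_eq_of_lt (by omega), add_zero]
  have hmod : (k * m + (σ - 1)) % m = σ - 1 := by
    rw [mul_comm k m, Nat.mul_add_mod, Nat.mod_eq_of_lt (by omega)]
  unfold Cut
  rw [Finset.sum_eq_single (k * m + (σ - 1))]
  · rw [hdiv, hmod, Pi.single_eq_same, mul_one]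
    have : σ - 1 + 1 = σ := by omega
    rw [this]
  · intro u _ hne
    rw [Pi.single_eq_of_ne hne]
    simp
  · intro h
    exact absurd (Finset.mem_range.2 hu) h

end MLAT

open MLAT

theorem pLAT : StCON → StSMU → StLAT := by
  intro hCON hSMU x y m d hm hd hy hN t
  classical
  set s : ℕ := x + y with hs
  have hs1 : 1 ≤ s := by omega
  set G : Submodule ℤ (Fin d → ℤ) := LinearMap.range (cutL x y m d) with hG
  -- the multiples of `s` are in `G`
  have hsG : ∀ v : Fin d → ℤ, (s : ℤ) • v ∈ G := by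
    intro v
    have hv : (s : ℤ) • v = ∑ κ : Fin d, v κ • (Pi.single κ (s : ℤ) : Fin d → ℤ) := by
      funext κ
      rw [Finset.sum_apply, Finset.sum_eq_single κ]
      · simp only [Pi.smul_apply, smul_eq_mul, Pi.single_eq_same]
        ring
      · intro b _ hb
        simp only [Pi.smul_apply, smul_eq_mul]
        rw [Pi.single_eq_of_ne (Ne.symm hb), mul_zero]
      · intro h
        exact absurd (Finset.mem_univ κ) h
    rw [hv]
    refine Submodule.sum_mem _ fun κ _ => Submodule.smul_mem _ _ ?_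
    obtain ⟨c, -, hc⟩ := hSMU x y m d κ hm hd κ.2
    refine ⟨c, ?_⟩
    funext κ'
    rw [cutL_apply, hc κ' κ'.2]
    by_cases h : κ' = κ
    · subst h
      rw [if_pos rfl, Pi.single_eq_same, hs]
      push_cast
      rfl
    · rw [Pi.single_eq_of_ne h, if_neg]
      intro h'
      exact h (Fin.ext h')
  suffices hTop : G = ⊤ by
    have : (fun κ : Fin d => t κ) ∈ G := by rw [hTop]; trivial
    obtain ⟨c, hc⟩ := this
    refine ⟨c, fun κ hκ => ?_⟩
    have := congrFun hc ⟨κ, hκ⟩
    rw [cutL_apply] at this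
    exact this
  by_contra hne
  have hex : ∃ e : ℕ, 0 < e ∧ ∀ v : Fin d → ℤ, (e : ℤ) • v ∈ G := ⟨s, by omega, hsG⟩
  set e := Nat.find hex with he
  obtain ⟨he0, heG⟩ := Nat.find_spec hex
  have hmin : ∀ e' : ℕ, e' < e → 0 < e' → ¬ ∀ v : Fin d → ℤ, (e' : ℤ) • v ∈ G := by
    intro e' h1 h2 h3
    exact Nat.find_min hex h1 ⟨h2, h3⟩
  have he1 : e ≠ 1 := by
    intro h
    apply hne
    rw [eq_top_iff]
    intro v _
    have := heG v
    rw [← he, h] at this
    simpa using this
  obtain ⟨p, hp, hpe⟩ := Nat.exists_prime_and_dvd he1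
  have : Fact p.Prime := ⟨hp⟩
  -- reduction mod `p`
  let red : (Fin d → ℤ) →+ (Fin d → ZMod p) :=
    { toFun := fun v κ => (v κ : ZMod p)
      map_zero' := by funext κ; simp
      map_add' := by intro v w; funext κ; simp }
  let Gp : Submodule (ZMod p) (Fin d → ZMod p) :=
    AddSubgroup.toZModSubmodule p (G.toAddSubgroup.map red)
  have hmemGp : ∀ v ∈ G, red v ∈ Gp := by
    intro v hv
    change red v ∈ G.toAddSubgroup.map red
    exact ⟨v, hv, rfl⟩
  have hredsurj : ∀ w : Fin d → ZMod p, ∃ v : Fin d → ℤ, red v = w := by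
    intro w
    refine ⟨fun κ => ((w κ).val : ℤ), ?_⟩
    funext κ
    change (((w κ).val : ℤ) : ZMod p) = w κ
    push_cast
    exact ZMod.natCast_zmod_val (w κ)
  have hGp : Gp < ⊤ := by
    rw [lt_top_iff_ne_top]
    intro htop
    obtain ⟨e', he'⟩ := hpe
    have he'0 : 0 < e' := by
      rcases Nat.eq_zero_or_pos e' with h | h
      · rw [h, mul_zero] at he'
        omega
      · exact h
    have hlt : e' < e := by
      rw [he']
      have := hp.two_le
      nlinarith
    refine hmin e' hlt he'0 fun v => ?_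
    have hv : red v ∈ Gp := by rw [htop]; trivial
    change red v ∈ G.toAddSubgroup.map red at hv
    obtain ⟨g, hg, hgv⟩ := hv
    have hdiv : ∀ κ, ∃ w : ℤ, v κ = g κ + p * w := by
      intro κ
      have h1 : ((g κ : ℤ) : ZMod p) = ((v κ : ℤ) : ZMod p) := congrFun hgv κ
      have h2 : (p : ℤ) ∣ v κ - g κ := by
        rw [← ZMod.intCast_zmod_eq_zero_iff_dvd]
        push_cast
        rw [h1]
        ring
      obtain ⟨w, hw⟩ := h2
      exact ⟨w, by linarith⟩
    choose w hw using hdiv
    have hvg : v = g + (p : ℤ) • w := by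
      funext κ
      rw [hw κ]
      simp
    have h3 : (e' : ℤ) • v = (e' : ℤ) • g + (e : ℤ) • w := by
      rw [hvg, smul_add, smul_smul, he']
      congr 2
      push_cast
      ring
    rw [h3]
    exact Submodule.add_mem _ (Submodule.smul_mem _ _ hg) (heG w)
  obtain ⟨φ, hφ0, hφG⟩ := Submodule.exists_le_ker_of_lt_top Gp hGp
  have hφ : ∀ v ∈ G, φ (red v) = 0 := fun v hv => hφG (hmemGp v hv)
  -- `p` divides `s`
  have hps : p ∣ s := by
    rw [← ZMod.natCast_eq_zero_iff]
    by_contra hs0
    apply hφ0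
    apply LinearMap.ext
    intro w
    obtain ⟨v, rfl⟩ := hredsurj w
    have h1 := hφ _ (hsG v)
    have h2 : red ((s : ℤ) • v) = (s : ZMod p) • red v := by
      funext κ
      change (((s : ℤ) • v) κ : ZMod p) = (s : ZMod p) • ((v κ : ℤ) : ZMod p)
      simp
    rw [h2, map_smul, smul_eq_mul, mul_eq_zero] at h1
    rcases h1 with h1 | h1
    · exact absurd h1 hs0
    · rw [h1]; rfl
  -- the potential
  let ph : ℕ → ZMod p := fun κ => if h : κ < d then φ (Pi.single ⟨κ, h⟩ 1) else 0
  let F : ℕ → ZMod p := fun k => ∑ κ ∈ range k, ph κ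
  have hφsum : ∀ v : Fin d → ℤ, φ (red v) = ∑ κ : Fin d, ((v κ : ℤ) : ZMod p) * ph κ := by
    intro v
    have h1 : red v = ∑ κ : Fin d, ((v κ : ℤ) : ZMod p) • (Pi.single κ 1 : Fin d → ZMod p) := by
      funext κ
      rw [Finset.sum_apply, Finset.sum_eq_single κ]
      · simp only [Pi.smul_apply, smul_eq_mul, Pi.single_eq_same, mul_one]
        rfl
      · intro b _ hb
        simp only [Pi.smul_apply, smul_eq_mul]
        rw [Pi.single_eq_of_ne (Ne.symm hb), mul_zero]
      · intro h
        exact absurd (Finset.mem_univ κ) h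
    rw [h1, map_sum]
    refine Finset.sum_congr rfl fun κ _ => ?_
    rw [map_smul, smul_eq_mul]
    congr 1
    simp only [ph, κ.2, dif_pos]
  have hAdj : Adj x y m d p (fun k => (F k).val) := by
    intro k σ h1 h2 h3 h4
    have hmem : cutL x y m d (Pi.single (k * m + (σ - 1)) 1) ∈ G := ⟨_, rfl⟩
    have h5 := hφ _ hmem
    rw [hφsum] at h5
    have h6 : ∑ κ : Fin d, ((cutL x y m d (Pi.single (k * m + (σ - 1)) 1) κ : ℤ) : ZMod p) * ph κ
        = (Mm x y m d k σ : ZMod p) * (F (k + σ) - F k) := by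
      have h7 : ∀ κ : Fin d, ((cutL x y m d (Pi.single (k * m + (σ - 1)) 1) κ : ℤ) : ZMod p) * ph κ
          = (fun κ : ℕ => (if k ≤ κ ∧ κ < k + σ then (Mm x y m d k σ : ZMod p) * ph κ else 0)) κ := by
        intro κ
        rw [cutL_apply, cut_single x y m d k σ h1 h2 h3]
        by_cases hc : k ≤ (κ : ℕ) ∧ (κ : ℕ) < k + σ
        · simp only [hc, and_self, if_true]
          push_cast
          rfl
        · simp only [hc, if_false]
          push_cast
          ring
      rw [Finset.sum_congr rfl fun κ _ => h7 κ, Fin.sum_univ_eq_sum_range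
        (fun κ : ℕ => (if k ≤ κ ∧ κ < k + σ then (Mm x y m d k σ : ZMod p) * ph κ else 0)) d,
        ← Finset.sum_filter]
      have h8 : (range d).filter (fun κ => k ≤ κ ∧ κ < k + σ) = Ico k (k + σ) := by
        ext κ
        simp only [mem_filter, mem_range, mem_Ico]
        omega
      rw [h8, ← Finset.mul_sum]
      congr 1
      have h9 : F (k + σ) = F k + ∑ κ ∈ Ico k (k + σ), ph κ := by
        simp only [F]
        rw [Finset.range_eq_Ico, Finset.range_eq_Ico,
          Finset.sum_Ico_consecutive _ (Nat.zero_le k) (by omega)]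
      rw [h9]
      ring
    rw [h6, mul_eq_zero] at h5
    rcases h5 with h5 | h5
    · exact absurd ((ZMod.natCast_eq_zero_iff _ _).1 h5) h4
    · have : F (k + σ) = F k := by
        rw [sub_eq_zero] at h5
        exact h5
      change (F k).val = (F (k + σ)).val
      rw [this]
  have hconst := hCON x y m d p (fun k => (F k).val) hm hd hy hp hps hN hAdj
  have hF : ∀ k ≤ d, F k = 0 := by
    intro k hk
    have h1 : (F k).val = (F 0).val := hconst k hk
    have h2 : F k = F 0 := ZMod.val_injective p h1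
    rw [h2]
    simp [F]
  apply hφ0
  apply LinearMap.ext
  intro w
  obtain ⟨v, rfl⟩ := hredsurj w
  rw [hφsum]
  have : ∀ κ : Fin d, ph κ = 0 := by
    intro κ
    have h1 := hF (κ + 1) (by omega)
    have h2 := hF κ (by omega)
    have h3 : F ((κ : ℕ) + 1) = F κ + ph κ := by
      simp only [F]
      rw [Finset.sum_range_succ]
    rw [h1, h2, zero_add] at h3
    exact h3.symm
  simp [this]

end Pool.Agent.Helper44.LN
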