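import Pool.Agent.Helper44.LN.StC

/-! Project LN, module LSM: from the cut equations to the level sums. -/

set_option autoImplicit false

namespace Pool.Agent.Helper44.LN

open Finset

private lemma lsm_abel (Z f : ℕ → ℤ) (N : ℕ) :
    ∑ t ∈ range (N+1), (Z t - (if t = N then 0 else Z (t+1))) * f t =
      Z 0 * f 0 + ∑ u ∈ range N, Z (u+1) * (f (u+1) - f u) := by
  have h1 : ∀ N : ℕ, ∑ t ∈ range N, (Z t - Z (t+1)) * f t + Z N * f N =
      Z 0 * f 0 + ∑ u ∈ range N, Z (u+1) * (f (u+1) - f u) := by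
    intro N
    induction N with
    | zero => simp
    | succ N ih =>
      rw [Finset.sum_range_succ, Finset.sum_range_succ, ← add_assoc, ← ih]
      ring
  rw [← h1 N, Finset.sum_range_succ]
  congr 1
  · apply Finset.sum_congr rfl
    intro t ht
    rw [if_neg (Nat.ne_of_lt (Finset.mem_range.mp ht))]
  · rw [if_pos rfl, sub_zero]

private lemma lsm_ind (κ a : ℕ) :
    ∑ κ' ∈ range (κ+1), (if κ' = a then (1:ℤ) else 0) = if a ≤ κ then 1 else 0 := by
  rw [Finset.sum_ite_eq']
  simp only [Finset.mem_range, Nat.lt_succ_iff]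

private lemma lsm_Mm (x y m d k σ : ℕ) (h : d < k + σ) : Mm x y m d k σ = 0 := by
  unfold Mm
  rw [if_neg (by omega)]

/-- **LSM.** From the cut equations to the level sums. -/
theorem pLSM : StCHN → StVZE → StLSM := by
  intro hC hV x y m d r Z hm hmd hZ0 hZm hcut
  obtain ⟨hv0, hvs, -⟩ := hV x y m d hm (by omega)
  -- level sums
  have hL : ∀ κ ≤ d, ((∑ t ∈ range (d*m+1), (Z t - (if t = d*m then 0 else Z (t+1))) *
      sz2 x y (TD m d t m κ) : ℕ) : ℤ) = (r : ℤ) * (v0 x y m κ : ℤ) +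
      ∑ u ∈ range (d*m), (Z (u+1) : ℤ) * ((Mm x y m d (u / m) (u % m + 1) : ℤ) *
        ((if κ = u / m + (u % m + 1) then 1 else 0) - (if κ = u / m then 1 else 0))) := by
    intro κ hκ
    have h1 := lsm_abel (fun t => (Z t : ℤ)) (fun t => (sz2 x y (TD m d t m κ) : ℤ)) (d*m)
    have h2 : ((∑ t ∈ range (d*m+1), (Z t - (if t = d*m then 0 else Z (t+1))) *
      sz2 x y (TD m d t m κ) : ℕ) : ℤ) = ∑ t ∈ range (d*m+1),
        ((Z t : ℤ) - (if t = d*m then 0 else (Z (t+1) : ℤ))) * (sz2 x y (TD m d t m κ) : ℤ) := by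
      rw [Nat.cast_sum]
      apply Finset.sum_congr rfl
      intro t ht
      rw [Nat.cast_mul]
      congr 1
      by_cases htd : t = d*m
      · rw [if_pos htd, if_pos htd, Nat.sub_zero, sub_zero]
      · rw [if_neg htd, if_neg htd, Nat.cast_sub]
        have := Finset.mem_range.mp ht
        exact hZm t (by omega)
    rw [h2, h1]
    congr 1
    · rw [hv0 κ hκ, hZ0]
    · apply Finset.sum_congr rfl
      intro u hu
      rw [hC x y m d u κ hm hmd (Finset.mem_range.mp hu) hκ]
  -- cumulative sums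
  have hcum : ∀ κ ≤ d, ∑ κ' ∈ range (κ+1), ((∑ t ∈ range (d*m+1),
      (Z t - (if t = d*m then 0 else Z (t+1))) * sz2 x y (TD m d t m κ') : ℕ) : ℤ) =
      (r : ℤ) * ∑ κ' ∈ range (κ+1), (v0 x y m κ' : ℤ) +
      ∑ u ∈ range (d*m), (Z (u+1) : ℤ) * ((Mm x y m d (u / m) (u % m + 1) : ℤ) *
        ((if u / m + (u % m + 1) ≤ κ then 1 else 0) - (if u / m ≤ κ then 1 else 0))) := by
    intro κ hκ
    rw [Finset.sum_congr rfl (fun κ' hκ' => hL κ' (by
      have := Finset.mem_range.mp hκ'
      omega))]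
    rw [Finset.sum_add_distrib, Finset.mul_sum, Finset.sum_comm]
    congr 1
    apply Finset.sum_congr rfl
    intro u _
    rw [← Finset.mul_sum, ← Finset.mul_sum, Finset.sum_sub_distrib, lsm_ind, lsm_ind]
  -- the cumulative sums below d
  have hlt : ∀ κ < d, ∑ κ' ∈ range (κ+1), ((∑ t ∈ range (d*m+1),
      (Z t - (if t = d*m then 0 else Z (t+1))) * sz2 x y (TD m d t m κ') : ℕ) : ℤ) =
      ∑ κ' ∈ range (κ+1), (EE x y d κ' : ℤ) := by
    intro κ hκ
    rw [hcum κ hκ.le]
    have h1 : ∑ u ∈ range (d*m), (Z (u+1) : ℤ) * ((Mm x y m d (u / m) (u % m + 1) : ℤ) *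
        ((if u / m + (u % m + 1) ≤ κ then 1 else 0) - (if u / m ≤ κ then 1 else 0))) =
        - Cut x y m d (fun u => (Z (u+1) : ℤ)) κ := by
      unfold Cut
      rw [← Finset.sum_neg_distrib]
      apply Finset.sum_congr rfl
      intro u _
      by_cases h2 : u / m ≤ κ
      · by_cases h3 : κ < u / m + (u % m + 1)
        · rw [if_neg (by omega), if_pos h2, if_pos ⟨h2, h3⟩]
          ring
        · rw [if_pos (by omega), if_pos h2, if_neg (by
            rintro ⟨-, h4⟩
            exact h3 h4)]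
          ring
      · rw [if_neg (by omega), if_neg h2, if_neg (by
          rintro ⟨h4, -⟩
          exact h2 h4)]
        ring
    rw [h1, hcut κ hκ]
    unfold Bk
    ring
  -- the cumulative sum at d
  have hd : ∑ κ' ∈ range (d+1), ((∑ t ∈ range (d*m+1),
      (Z t - (if t = d*m then 0 else Z (t+1))) * sz2 x y (TD m d t m κ') : ℕ) : ℤ) =
      (r : ℤ) * (am x y m : ℤ) := by
    rw [hcum d le_rfl, ← hvs, Nat.cast_sum]
    have h1 : ∑ u ∈ range (d*m), (Z (u+1) : ℤ) * ((Mm x y m d (u / m) (u % m + 1) : ℤ) *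
        ((if u / m + (u % m + 1) ≤ d then 1 else 0) - (if u / m ≤ d then 1 else 0))) = 0 := by
      apply Finset.sum_eq_zero
      intro u _
      by_cases h2 : u / m + (u % m + 1) ≤ d
      · rw [if_pos h2, if_pos (by omega)]
        ring
      · rw [lsm_Mm x y m d (u / m) (u % m + 1) (by omega)]
        push_cast
        ring
    rw [h1, add_zero]
  have hmain : ∀ κ < d, ((∑ t ∈ range (d*m+1), (Z t - (if t = d*m then 0 else Z (t+1))) *
      sz2 x y (TD m d t m κ) : ℕ) : ℤ) = (EE x y d κ : ℤ) := by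
    intro κ hκ
    rcases Nat.eq_zero_or_pos κ with h0 | h0
    · subst h0
      have h1 := hlt 0 hκ
      rw [Finset.sum_range_one, Finset.sum_range_one] at h1
      exact h1
    · obtain ⟨k, rfl⟩ : ∃ k, κ = k + 1 := ⟨κ - 1, by omega⟩
      have h1 := hlt (k+1) hκ
      have h2 := hlt k (by omega)
      rw [Finset.sum_range_succ, Finset.sum_range_succ _ (k+1), h2] at h1
      exact add_left_cancel h1
  constructor
  · intro κ hκ
    exact_mod_cast hmain κ hκ
  · have h1 : (((∑ t ∈ range (d*m+1), (Z t - (if t = d*m then 0 else Z (t+1))) *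
        sz2 x y (TD m d t m d)) + ∑ κ ∈ range d, EE x y d κ : ℕ) : ℤ) =
        ((r * am x y m : ℕ) : ℤ) := by
      rw [Nat.cast_mul, ← hd, Finset.sum_range_succ _ d,
        Finset.sum_congr rfl (fun κ hκ => hmain κ (Finset.mem_range.mp hκ)), Nat.cast_add,
        Nat.cast_sum (range d), add_comm]
    exact_mod_cast h1

end Pool.Agent.Helper44.LN
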