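import Pool.Agent.Helper44.LN.StF

/-! Project LN, module LVN: the conditions of one level are enough. -/

namespace Pool.Agent.Helper44.LN

open Finset MvPolynomial Pool.Agent.Helper46.EAH

private theorem hh_zero' (x : ℕ) : hh x 0 = 1 := by simp [hh]

private theorem pow_bd (hSZB : StSZB) (m Θ s x Δ : ℕ) (hΘ : 1 ≤ Θ) (hs : s ≤ Θ * x) (hΔ : Δ < m) :
    s ^ Δ ≤ m.factorial * Θ ^ m * hh x Δ := by
  have h1 : s ^ Δ ≤ (Θ * x) ^ Δ := Nat.pow_le_pow_left hs Δ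
  have h2 : Θ ^ Δ ≤ Θ ^ m := Nat.pow_le_pow_right hΘ hΔ.le
  have h3 : x ^ Δ ≤ Δ.factorial * hh x Δ := hSZB.2.1 x Δ
  have h4 : Δ.factorial ≤ m.factorial := Nat.factorial_le hΔ.le
  calc s ^ Δ ≤ (Θ * x) ^ Δ := h1
    _ = Θ ^ Δ * x ^ Δ := mul_pow _ _ _
    _ ≤ Θ ^ m * (Δ.factorial * hh x Δ) := Nat.mul_le_mul h2 h3
    _ ≤ Θ ^ m * (m.factorial * hh x Δ) :=
        Nat.mul_le_mul_left _ (Nat.mul_le_mul_right _ h4)
    _ = m.factorial * Θ ^ m * hh x Δ := by ring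

private theorem ex_u (hDGA : StDGA) (hDGB : StDGB) (hSZB : StSZB) (m d Θ x y κ Δ : ℕ)
    (hm : 1 ≤ m) (hd : 2 * m ≤ d) (hΘ : 1 ≤ Θ) (hx : x + y ≤ Θ * x) (hy : x + y ≤ Θ * y)
    (hκ : κ ≤ d) (hΔ : Δ < m) :
    ∃ u ≤ d * m, dg (TD m d u m κ) = Δ ∧
      (x + y) ^ Δ ≤ m.factorial * Θ ^ m * sz2 x y (TD m d u m κ) := by
  rcases Nat.lt_or_ge d (κ + m) with hlt | hge
  · obtain ⟨h1, h2⟩ := hDGB m d κ Δ (by omega) hκ hΔ
    refine ⟨(κ - (m - 1 - Δ)) * m, Nat.mul_le_mul_right _ (by omega), h1, ?_⟩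
    have h3 := hSZB.2.2.2.2 x y _ _ h2
    simp only [hh_zero', one_mul] at h3
    exact (pow_bd hSZB m Θ (x + y) y Δ hΘ hy hΔ).trans (Nat.mul_le_mul_left _ h3)
  · obtain ⟨h1, h2⟩ := hDGA m d κ Δ hge hΔ
    refine ⟨κ * m + (m - 1 - Δ), ?_, h1, ?_⟩
    · have h4 : (κ + 1) * m ≤ d * m := Nat.mul_le_mul_right _ (by omega)
      have h5 : (κ + 1) * m = κ * m + m := by ring
      omega
    · have h3 := hSZB.2.2.2.2 x y _ _ h2
      simp only [hh_zero', mul_one] at h3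
      exact (pow_bd hSZB m Θ (x + y) x Δ hΘ hx hΔ).trans (Nat.mul_le_mul_left _ h3)

/-- **LVN.** -/
theorem pLVN : StLVT → StDGA → StDGB → StSZB → StLVN := by
  intro hLVT hDGA hDGB hSZB m d Θ hm hd hΘ
  refine ⟨m ^ 4 * 4 ^ m * m.factorial * Θ ^ m, ?_⟩
  intro x y hTB r q t hcard κ hκ hEE
  obtain ⟨hms, hx, hy⟩ := hTB
  refine hLVT x y (d - κ) κ m (range (r+q))
    (fun i => TD m d (t i) (if i < r then m else 1) κ) ?_ hEE ?_
  · intro i _
    refine hSZB.2.2.1 m _ d (t i) κ ?_ hκ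
    split_ifs
    · exact le_rfl
    · exact hm
  · intro i hi hδ1
    obtain ⟨Di, hDi⟩ : ∃ D, D = TD m d (t i) (if i < r then m else 1) κ := ⟨_, rfl⟩
    rw [← hDi] at hδ1 ⊢
    have hsub : Di ⊆ TM m (d-κ) κ := by
      rw [hDi]
      refine hSZB.2.2.1 m _ d (t i) κ ?_ hκ
      split_ifs
      · exact le_rfl
      · exact hm
    obtain ⟨hTM1, hTM2⟩ := hSZB.2.2.2.1 m (d-κ) κ
    have hδ2 : dg Di ≤ m - 1 := by
      refine le_trans ?_ hTM2
      unfold dg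
      exact Finset.sup_mono hsub
    obtain ⟨Δ, hΔ⟩ : ∃ Δ, dg Di = Δ + 1 := ⟨dg Di - 1, by omega⟩
    have hΔm : Δ < m := by omega
    obtain ⟨u, hu, hu1, hu2⟩ := ex_u hDGA hDGB hSZB m d Θ x y κ Δ hm hd hΘ hx hy hκ hΔm
    have hb1 : sz2 x y Di ≤ m ^ 2 * (x + y + m) ^ (Δ + 1) :=
      hSZB.1 x y m (Δ + 1) Di hm (hsub.trans hTM1) hΔ.le
    have hb2 : sz2 x y (TM m (d-κ) κ) ≤ m ^ 2 * (x + y + m) ^ (m - 1) :=
      hSZB.1 x y m (m - 1) _ hm hTM1 hTM2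
    have hprod : sz2 x y Di * sz2 x y (TM m (d-κ) κ) ≤
        m ^ 4 * 4 ^ m * ((x + y) ^ m * (x + y) ^ Δ) := by
      have h1 : (x + y + m) ^ (Δ + m) ≤ (2 * (x + y)) ^ (Δ + m) :=
        Nat.pow_le_pow_left (by omega) _
      have h2 : 2 ^ (Δ + m) ≤ 2 ^ (2 * m) := Nat.pow_le_pow_right (by norm_num) (by omega)
      have h3 : 2 ^ (2 * m) = 4 ^ m := by rw [pow_mul]; norm_num
      calc sz2 x y Di * sz2 x y (TM m (d-κ) κ) ≤
          (m ^ 2 * (x + y + m) ^ (Δ + 1)) * (m ^ 2 * (x + y + m) ^ (m - 1)) :=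
            Nat.mul_le_mul hb1 hb2
        _ = m ^ 4 * (x + y + m) ^ (Δ + m) := by
            have h4 : Δ + m = (Δ + 1) + (m - 1) := by omega
            rw [h4, pow_add]
            ring
        _ ≤ m ^ 4 * (2 * (x + y)) ^ (Δ + m) := Nat.mul_le_mul_left _ h1
        _ = m ^ 4 * (2 ^ (Δ + m) * (x + y) ^ (Δ + m)) := by rw [mul_pow]
        _ ≤ m ^ 4 * (2 ^ (2 * m) * (x + y) ^ (Δ + m)) :=
            Nat.mul_le_mul_left _ (Nat.mul_le_mul_right _ h2)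
        _ = m ^ 4 * 4 ^ m * ((x + y) ^ m * (x + y) ^ Δ) := by
            rw [h3, pow_add]
            ring
    refine hprod.trans ?_
    have hsubF : (range r).filter (fun j => t j = u) ⊆ (range (r+q)).filter
        (fun j => dg (TD m d (t j) (if j < r then m else 1) κ) + 1 = dg Di) := by
      intro j hj
      rw [Finset.mem_filter, Finset.mem_range] at hj
      rw [Finset.mem_filter, Finset.mem_range]
      refine ⟨by omega, ?_⟩
      rw [if_pos hj.1, hj.2, hu1, hΔ]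
    have hsum : ((range r).filter (fun j => t j = u)).card * sz2 x y (TD m d u m κ) ≤
        ∑ j ∈ (range (r+q)).filter
          (fun j => dg (TD m d (t j) (if j < r then m else 1) κ) + 1 = dg Di),
          sz2 x y (TD m d (t j) (if j < r then m else 1) κ) := by
      refine le_trans ?_ (Finset.sum_le_sum_of_subset hsubF)
      rw [← smul_eq_mul, ← Finset.sum_const]
      refine Finset.sum_le_sum fun j hj => ?_
      rw [Finset.mem_filter, Finset.mem_range] at hj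
      rw [if_pos hj.1, hj.2]
    refine le_trans ?_ hsum
    calc m ^ 4 * 4 ^ m * ((x + y) ^ m * (x + y) ^ Δ) ≤
        m ^ 4 * 4 ^ m * ((x + y) ^ m * (m.factorial * Θ ^ m * sz2 x y (TD m d u m κ))) :=
          Nat.mul_le_mul_left _ (Nat.mul_le_mul_left _ hu2)
      _ = (m ^ 4 * 4 ^ m * m.factorial * Θ ^ m * (x + y) ^ m) * sz2 x y (TD m d u m κ) := by ring
      _ ≤ ((range r).filter (fun j => t j = u)).card * sz2 x y (TD m d u m κ) :=
          Nat.mul_le_mul_right _ (hcard u hu)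

end Pool.Agent.Helper44.LN
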