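import Pool.Agent.Helper44.LN.StF

/-! Project LN, module LVS: level sums. -/

set_option autoImplicit false

namespace Pool.Agent.Helper44.LN

open Finset

/-- **LVS.** Level sums. -/
theorem pLVS : StSIM → StLVS := by
  intro hS x y m d r q t hm ht htr κ hκ
  obtain ⟨-, hS2, hS3⟩ := hS x y m d hm
  rw [Finset.sum_range_add]
  congr 1
  · have h1 : ∑ i ∈ range r, sz2 x y (TD m d (t i) (if i < r then m else 1) κ) =
        ∑ i ∈ range r, sz2 x y (TD m d (t i) m κ) := by
      apply Finset.sum_congr rfl
      intro i hi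
      rw [if_pos (Finset.mem_range.mp hi)]
    rw [h1, ← Finset.sum_fiberwise_of_maps_to (s := range r) (t := range (d*m+1)) (g := t)
      (fun i _ => Finset.mem_range.mpr (Nat.lt_succ_of_le (ht i)))]
    apply Finset.sum_congr rfl
    intro u _
    rw [Finset.sum_congr rfl (g := fun _ => sz2 x y (TD m d u m κ)) (by
      intro i hi
      rw [(Finset.mem_filter.mp hi).2]), Finset.sum_const, smul_eq_mul]
  · have h1 : ∀ i ∈ range q, sz2 x y (TD m d (t (r+i)) (if r+i < r then m else 1) κ) =
        if κ = d then 1 else 0 := by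
      intro i _
      rw [if_neg (by omega), htr (r+i) (by omega)]
      by_cases hκd : κ = d
      · rw [hκd, if_pos rfl, hS2]
      · rw [if_neg hκd, hS3 κ (lt_of_le_of_ne hκ hκd)]
        rfl
    rw [Finset.sum_congr rfl h1, Finset.sum_const, Finset.card_range, smul_eq_mul]
    by_cases hκd : κ = d
    · rw [if_pos hκd, if_pos hκd, mul_one]
    · rw [if_neg hκd, if_neg hκd, mul_zero]

end Pool.Agent.Helper44.LN
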