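import Pool.Agent.Helper44.LN.StG

/-! Project LN, module LVT (written by helper2): the level theorem. -/

set_option autoImplicit false

namespace Pool.Agent.Helper44.LN

open Finset MvPolynomial

theorem pLVT : StCNT → StCOD → StSYM → StKEY → StABS → StLVT := by
  classical
  intro hCNT hCOD hSYM hKEY hABS x y p q m S D hD hsum hcond
  let T : Type := {E : Finset (ℕ × ℕ) // E ⊆ TM m p q}
  let M : T := ⟨TM m p q, subset_rfl⟩
  let W : T → ℕ → Submodule (Kf x y) (Vc (Kf x y) x y p q) :=
    fun t i => Wt (Kf x y) x y p q (gn x y i) t.1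
  have hTM : TM m p q ⊆ range (p + 1) ×ˢ range (q + 1) := Finset.filter_subset _ _
  have hSys : SysOK W M := by
    refine ⟨?_, ?_, ?_⟩
    · intro t i v hv
      have hv' : v ∈ Wt (Kf x y) x y p q (gn x y i) (TM m p q) := hv
      show v ∈ Wt (Kf x y) x y p q (gn x y i) t.1
      rw [mem_Wt] at hv' ⊢
      intro γ hγ
      exact hv' γ (t.2 hγ)
    · intro π S' τ
      exact hSYM x y p q π S' (fun i => (τ i).1)
    · intro τ S'' S' u E h1 h2 h3 h4
      exact hKEY x y p q (fun i => (τ i).1) S'' S' u E.1 h1 h2 h3 h4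
  have hfin : Module.finrank (Kf x y) (Vc (Kf x y) x y p q) = (Cx x y p q).card := by
    rw [Module.finrank_fintype_fun_eq_card, Fintype.card_coe]
  let τ : ℕ → T := fun i => if h : D i ⊆ TM m p q then ⟨D i, h⟩ else ⟨∅, Finset.empty_subset _⟩
  have hτ : ∀ i ∈ S, (τ i).1 = D i := by
    intro i hi
    have h := hD i hi
    show (if h : D i ⊆ TM m p q then (⟨D i, h⟩ : T) else ⟨∅, Finset.empty_subset _⟩).1 = D i
    rw [dif_pos h]
  have main := hABS (Kf x y) (Vc (Kf x y) x y p q) T W M hSys (fun t => sz2 x y t.1)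
    (fun t => dg t.1)
    (by
      intro t i
      rw [hfin]
      exact (hCOD x y p q i t.1 (t.2.trans hTM)).symm)
    (by
      intro t ht
      have hsub : t.1 ⊆ {((0 : ℕ), (0 : ℕ))} := by
        intro c hc
        have h1 : c.1 + c.2 ≤ dg t.1 := Finset.le_sup (f := fun c : ℕ × ℕ => c.1 + c.2) hc
        have ht' : dg t.1 = 0 := ht
        rw [ht'] at h1
        rw [Finset.mem_singleton]
        apply Prod.ext
        · show c.1 = 0
          omega
        · show c.2 = 0
          omega
      show sz2 x y t.1 ≤ 1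
      have h2 : sz2 x y t.1 ≤ sz2 x y {((0 : ℕ), (0 : ℕ))} := by
        unfold sz2
        exact Finset.sum_le_sum_of_subset hsub
      have h3 : sz2 x y {((0 : ℕ), (0 : ℕ))} = 1 := by
        unfold sz2 hh
        simp
      omega)
    τ S
    (by
      rw [hfin, (hCNT x y p q).1]
      refine hsum.trans (le_of_eq ?_)
      apply Finset.sum_congr rfl
      intro i hi
      show _ = sz2 x y (τ i).1
      rw [hτ i hi])
    (by
      intro i hi h1
      have h1' : 1 ≤ dg (τ i).1 := h1
      rw [hτ i hi] at h1'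
      have h2 := hcond i hi h1'
      show sz2 x y (τ i).1 * sz2 x y (TM m p q)
        ≤ ∑ j ∈ S.filter (fun j => dg (τ j).1 + 1 = dg (τ i).1), sz2 x y (τ j).1
      rw [hτ i hi]
      refine h2.trans (le_of_eq ?_)
      have h3 : S.filter (fun j => dg (D j) + 1 = dg (D i))
          = S.filter (fun j => dg (τ j).1 + 1 = dg (D i)) := by
        apply Finset.filter_congr
        intro j hj
        rw [hτ j hj]
      rw [← h3]
      apply Finset.sum_congr rfl
      intro j hj
      rw [hτ j (Finset.mem_filter.1 hj).1])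
  rw [← main]
  apply iInf_congr
  intro i
  apply iInf_congr
  intro hi
  show Wt (Kf x y) x y p q (gn x y i) (D i) = Wt (Kf x y) x y p q (gn x y i) (τ i).1
  rw [hτ i hi]

end Pool.Agent.Helper44.LN
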