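import Pool.Agent.Helper44.LN.StA

/-! Project LN, module MMA: limits of the normalised exchange numbers. -/

namespace Pool.Agent.Helper44.LN

open Finset

private lemma mma_prod {u v U V η : ℝ} (hu : |u - U| ≤ η) (hv : |v - V| ≤ η)
    (hU0 : 0 ≤ U) (hU1 : U ≤ 1) (hV0 : 0 ≤ V) (hV1 : V ≤ 1) (h1 : η ≤ 1) :
    |u * v - U * V| ≤ 3 * η := by
  have e : u * v - U * V = (u - U) * (v - V) + U * (v - V) + (u - U) * V := by ring
  have hη : 0 ≤ η := (abs_nonneg _).trans hu
  rw [e]
  have a1 : |(u - U) * (v - V)| ≤ η := by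
    rw [abs_mul]
    calc |u - U| * |v - V| ≤ η * η := mul_le_mul hu hv (abs_nonneg _) hη
      _ ≤ η * 1 := mul_le_mul_of_nonneg_left h1 hη
      _ = η := mul_one _
  have a2 : |U * (v - V)| ≤ η := by
    rw [abs_mul, abs_of_nonneg hU0]
    calc U * |v - V| ≤ 1 * η := mul_le_mul hU1 hv (abs_nonneg _) zero_le_one
      _ = η := one_mul _
  have a3 : |(u - U) * V| ≤ η := by
    rw [abs_mul, abs_of_nonneg hV0]
    calc |u - U| * V ≤ η * 1 := mul_le_mul hu hV1 hV0 hη
      _ = η := mul_one _
  calc |(u - U) * (v - V) + U * (v - V) + (u - U) * V|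
      ≤ |(u - U) * (v - V) + U * (v - V)| + |(u - U) * V| := abs_add_le _ _
    _ ≤ |(u - U) * (v - V)| + |U * (v - V)| + |(u - U) * V| := by
        gcongr; exact abs_add_le _ _
    _ ≤ 3 * η := by linarith

private lemma mma_th (x y : ℕ) : 0 ≤ th x y ∧ th x y ≤ 1 := by
  have hx : (0:ℝ) ≤ x := Nat.cast_nonneg x
  have hy : (0:ℝ) ≤ y := Nat.cast_nonneg y
  refine ⟨div_nonneg hy (by positivity), ?_⟩
  exact div_le_one_of_le₀ (by linarith) (by positivity)

private lemma mma_pw {t : ℝ} (h0 : 0 ≤ t) (h1 : t ≤ 1) (a : ℕ) :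
    0 ≤ t ^ a / a.factorial ∧ t ^ a / a.factorial ≤ 1 := by
  have hf : (1:ℝ) ≤ a.factorial := by exact_mod_cast a.factorial_pos
  refine ⟨by positivity, ?_⟩
  rw [div_le_one (by linarith)]
  exact (pow_le_one₀ h0 h1).trans hf

theorem pMMA : StHHA → StMMA := by
  intro hH m d Θ ε hm hε
  have hmf : (0:ℝ) < m.factorial := by exact_mod_cast m.factorial_pos
  set η : ℝ := min 1 (ε / (3 * m.factorial)) with hη
  have hη0 : 0 < η := lt_min one_pos (by positivity)
  have hη1 : η ≤ 1 := min_le_left _ _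
  have hη2 : 3 * m.factorial * η ≤ ε := by
    have : η ≤ ε / (3 * m.factorial) := min_le_right _ _
    rw [le_div_iff₀ (by positivity)] at this
    linarith
  have hHa := fun a => hH a Θ η hη0
  choose S hS using hHa
  refine ⟨(Finset.range m).sup S + ⌈4 * (m:ℝ) / ε⌉₊ + 1, ?_⟩
  intro x y hT
  obtain ⟨hT1, hT2, hT3⟩ := hT
  have hTa : ∀ a, a < m → TB Θ x y (S a) := by
    intro a ha
    have : S a ≤ (Finset.range m).sup S := Finset.le_sup (f := S) (Finset.mem_range.2 ha)
    exact ⟨by omega, hT2, hT3⟩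
  have hs1 : (1:ℝ) ≤ (x:ℝ) + y := by
    have : 1 ≤ x + y := by omega
    exact_mod_cast this
  have hs2 : 4 * (m:ℝ) / ε ≤ (x:ℝ) + y := by
    have h1 : ⌈4 * (m:ℝ) / ε⌉₊ ≤ x + y := by omega
    have h2 : ((⌈4 * (m:ℝ) / ε⌉₊ : ℕ) : ℝ) ≤ ((x + y : ℕ) : ℝ) := by exact_mod_cast h1
    push_cast at h2
    exact (Nat.le_ceil _).trans h2
  set s : ℝ := (x:ℝ) + y with hs
  have hs0 : 0 < s := by linarith
  obtain ⟨ht0, ht1⟩ := mma_th x y
  set θ := th x y with hθ
  have hX : ∀ a, a < m → |(hh x a : ℝ) / s ^ a - (1 - θ) ^ a / a.factorial| ≤ η :=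
    fun a ha => (hS a x y (hTa a ha)).1
  have hY : ∀ a, a < m → |(hh y a : ℝ) / s ^ a - θ ^ a / a.factorial| ≤ η :=
    fun a ha => (hS a x y (hTa a ha)).2.1
  constructor
  · intro κ hκ
    have hM : (Mm x y m d κ 1 : ℝ) = ∑ b ∈ range m,
        if b ≤ κ ∧ κ + m < b + d + 1 then (hh x (m - 1 - b) : ℝ) * hh y b else 0 := by
      unfold Mm
      rw [if_pos (by omega : κ + 1 ≤ d), Nat.sub_add_cancel hm]
      push_cast
      refine Finset.sum_congr rfl fun b hb => ?_
      rw [Finset.mem_range] at hb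
      have : (b ≤ κ ∧ m - 1 - b + κ + 1 ≤ d) ↔ (b ≤ κ ∧ κ + m < b + d + 1) := by omega
      simp only [this]
    rw [hM, Finset.sum_mul, Finset.sum_div, dn, ← Finset.sum_sub_distrib]
    refine (Finset.abs_sum_le_sum_abs _ _).trans ?_
    have hterm : ∀ b ∈ range m, |(if b ≤ κ ∧ κ + m < b + d + 1 then (hh x (m - 1 - b) : ℝ) * hh y b
        else 0) * (m-1).factorial / s ^ (m-1) -
        (if b ≤ κ ∧ κ + m < b + d + 1 then bn (m-1) b θ else 0)| ≤ (m-1).factorial * (3 * η) := by
      intro b hb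
      rw [Finset.mem_range] at hb
      split_ifs with hc
      · have hab : m - 1 - b + b = m - 1 := by omega
        have h1 := hX (m-1-b) (by omega)
        have h2 := hY b hb
        obtain ⟨p1, p2⟩ := mma_pw (by linarith : (0:ℝ) ≤ 1 - θ) (by linarith) (m-1-b)
        obtain ⟨q1, q2⟩ := mma_pw ht0 ht1 b
        have h3 := mma_prod h1 h2 p1 p2 q1 q2 hη1
        have hF : ((m-1).choose b : ℝ) = (m-1).factorial / ((m-1-b).factorial * b.factorial) := by
          rw [Nat.cast_choose ℝ (by omega : b ≤ m - 1), mul_comm ((b.factorial : ℝ))]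
        have e : (hh x (m-1-b) : ℝ) * hh y b * (m-1).factorial / s ^ (m-1) - bn (m-1) b θ
            = (m-1).factorial * ((hh x (m-1-b) : ℝ) / s ^ (m-1-b) * (hh y b / s ^ b) -
              (1 - θ) ^ (m-1-b) / (m-1-b).factorial * (θ ^ b / b.factorial)) := by
          have hsp : s ^ (m-1) = s ^ (m-1-b) * s ^ b := by rw [← pow_add, hab]
          rw [hsp, bn, hF]
          have f1 : ((m-1-b).factorial : ℝ) ≠ 0 := by exact_mod_cast (Nat.factorial_ne_zero _)
          have f2 : (b.factorial : ℝ) ≠ 0 := by exact_mod_cast (Nat.factorial_ne_zero _)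
          have f3 : s ^ (m-1-b) ≠ 0 := by positivity
          have f4 : s ^ b ≠ 0 := by positivity
          field_simp
        rw [e, abs_mul, abs_of_nonneg (by positivity : (0:ℝ) ≤ (m-1).factorial)]
        exact mul_le_mul_of_nonneg_left h3 (by positivity)
      · simp only [zero_mul, zero_div, sub_zero, abs_zero]
        positivity
    refine (Finset.sum_le_sum hterm).trans ?_
    rw [Finset.sum_const, Finset.card_range, nsmul_eq_mul]
    have hfac : (m:ℝ) * (m-1).factorial = m.factorial := by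
      have := Nat.mul_factorial_pred (by omega : m ≠ 0)
      exact_mod_cast this
    calc (m:ℝ) * ((m-1).factorial * (3 * η)) = 3 * m.factorial * η := by rw [← hfac]; ring
      _ ≤ ε := hη2
  · intro k σ hσ hσm
    have hup : ∀ a, a < m → (hh x a : ℝ) ≤ 2 * s ^ a ∧ (hh y a : ℝ) ≤ 2 * s ^ a := by
      intro a ha
      have h1 := (abs_le.1 (hX a ha)).2
      have h2 := (abs_le.1 (hY a ha)).2
      obtain ⟨p1, p2⟩ := mma_pw (by linarith : (0:ℝ) ≤ 1 - θ) (by linarith) a
      obtain ⟨q1, q2⟩ := mma_pw ht0 ht1 a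
      have hsa : 0 < s ^ a := by positivity
      constructor
      · rw [← div_le_iff₀ hsa]; linarith
      · rw [← div_le_iff₀ hsa]; linarith
    have hMn : (Mm x y m d k σ : ℝ) ≤ m * (4 * s ^ (m - 2)) := by
      have hnn : (0:ℝ) ≤ m * (4 * s ^ (m - 2)) := by positivity
      unfold Mm
      split_ifs with hc
      · push_cast
        have : ∀ b ∈ range (m - σ + 1), (if b ≤ k ∧ m - σ - b + k + σ ≤ d then
            (hh x (m - σ - b) : ℝ) * hh y b else 0) ≤ 4 * s ^ (m - 2) := by
          intro b hb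
          rw [Finset.mem_range] at hb
          split_ifs with hc2
          · have h1 := (hup (m - σ - b) (by omega)).1
            have h2 := (hup b (by omega)).2
            calc (hh x (m - σ - b) : ℝ) * hh y b
                ≤ (2 * s ^ (m - σ - b)) * (2 * s ^ b) :=
                  mul_le_mul h1 h2 (Nat.cast_nonneg _) (by positivity)
              _ = 4 * s ^ (m - σ) := by
                  have : m - σ = (m - σ - b) + b := by omega
                  conv_rhs => rw [this, pow_add]
                  ring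
              _ ≤ 4 * s ^ (m - 2) := by
                  have : s ^ (m - σ) ≤ s ^ (m - 2) := pow_le_pow_right₀ hs1 (by omega)
                  linarith
          · positivity
        refine (Finset.sum_le_sum this).trans ?_
        rw [Finset.sum_const, Finset.card_range, nsmul_eq_mul]
        have hcard : ((m - σ + 1 : ℕ) : ℝ) ≤ m := by
          have : m - σ + 1 ≤ m := by omega
          exact_mod_cast this
        exact mul_le_mul_of_nonneg_right hcard (by positivity)
      · simpa using hnn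
    have hsp : s ^ (m-1) = s * s ^ (m-2) := by
      rw [← pow_succ']
      congr 1
      omega
    rw [hsp, div_le_iff₀ (by positivity)]
    refine hMn.trans ?_
    have h4 : 4 * (m:ℝ) ≤ ε * s := by
      rw [div_le_iff₀ hε] at hs2
      linarith
    calc (m:ℝ) * (4 * s ^ (m-2)) = (4 * (m:ℝ)) * s ^ (m-2) := by ring
      _ ≤ (ε * s) * s ^ (m-2) := mul_le_mul_of_nonneg_right h4 (by positivity)
      _ = ε * (s * s ^ (m-2)) := by ring

end Pool.Agent.Helper44.LN
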