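import Pool.Agent.Helper44.LN.StL

/-! Project LN, module MMV (written by helper34). -/

set_option autoImplicit false

namespace Pool.Agent.Helper44.LN

open Finset

private theorem mmv_hh (x a : ℕ) : hh x a = Nat.multichoose x a := by
  unfold hh
  rw [Nat.multichoose_eq]

private theorem mmv_hh0 (x : ℕ) : hh x 0 = 1 := by
  simp [hh]

/-- convolution -/
private theorem mmv_conv (x y q : ℕ) :
    ∑ b ∈ range (q + 1), hh x (q - b) * hh y b = hh (x + y) q := by
  simp only [mmv_hh]
  induction x generalizing q with
  | zero =>
    rw [Finset.sum_eq_single q]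
    · simp
    · intro b hb hbq
      have h1 : b < q := by
        have := Finset.mem_range.1 hb
        omega
      obtain ⟨c, hc⟩ : ∃ c, q - b = c + 1 := ⟨q - b - 1, by omega⟩
      rw [hc, Nat.multichoose_zero_succ, zero_mul]
    · intro h
      exact absurd (Finset.mem_range.2 (Nat.lt_succ_self q)) h
  | succ x ih =>
    induction q with
    | zero => simp
    | succ q ihq =>
      rw [Finset.sum_range_succ]
      have h1 : ∑ b ∈ range (q + 1), Nat.multichoose (x + 1) (q + 1 - b) * Nat.multichoose y b
          = ∑ b ∈ range (q + 1), Nat.multichoose x (q + 1 - b) * Nat.multichoose y b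
            + ∑ b ∈ range (q + 1), Nat.multichoose (x + 1) (q - b) * Nat.multichoose y b := by
        rw [← Finset.sum_add_distrib]
        refine Finset.sum_congr rfl fun b hb => ?_
        have h2 : q + 1 - b = (q - b) + 1 := by
          have := Finset.mem_range.1 hb
          omega
        rw [h2, Nat.multichoose_succ_succ, add_mul]
      rw [h1, ihq]
      have h3 := ih (q + 1)
      rw [Finset.sum_range_succ] at h3
      have e1 : x + 1 + y = (x + y) + 1 := by ring
      rw [e1, Nat.multichoose_succ_succ, ← h3, Nat.sub_self, Nat.multichoose_zero_right,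
        Nat.multichoose_zero_right]
      ring

private theorem mmv_exp {x y m d k q : ℕ} (hq : q ≤ m) (hk : k + (m - q) ≤ d) :
    Mm x y m d k (m - q) = ∑ b ∈ range (q + 1),
      if b ≤ k ∧ (q - b) + k + (m - q) ≤ d then hh x (q - b) * hh y b else 0 := by
  unfold Mm
  rw [if_pos hk, show m - (m - q) = q by omega]

/-- MMV. -/
theorem pMMV : StMMV := by
  intro x y m d hm hd
  refine ⟨?_, ?_, ?_, ?_, ?_, ?_⟩
  · intro q hq
    rw [mmv_exp hq.le (by omega), Finset.sum_eq_single 0]
    · rw [if_pos ⟨le_rfl, by omega⟩, mmv_hh0, mul_one, Nat.sub_zero]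
    · intro b _ hb
      rw [if_neg]
      rintro ⟨h1, -⟩
      omega
    · intro h
      exact absurd (Finset.mem_range.2 (Nat.succ_pos q)) h
  · intro q hq
    rw [mmv_exp hq.le (by omega), Finset.sum_eq_single q]
    · rw [if_pos ⟨by omega, by omega⟩, Nat.sub_self, mmv_hh0, one_mul]
    · intro b hb hbq
      rw [if_neg]
      rintro ⟨-, h1⟩
      have := Finset.mem_range.1 hb
      omega
    · intro h
      exact absurd (Finset.mem_range.2 (Nat.lt_succ_self q)) h
  · intro k hk
    have h1 := mmv_exp (x := x) (y := y) (m := m) (d := d) (k := k) (q := 0) (Nat.zero_le m)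
      (by omega)
    rw [Nat.sub_zero] at h1
    rw [h1, Finset.sum_range_one, if_pos ⟨Nat.zero_le _, by omega⟩, mmv_hh0, mmv_hh0]
  · intro k q hq hqk hk
    rw [mmv_exp hq.le (by omega), ← mmv_conv x y q]
    refine Finset.sum_congr rfl fun b hb => ?_
    have := Finset.mem_range.1 hb
    rw [if_pos ⟨by omega, by omega⟩]
  · intro k q hq hqk hk
    rw [mmv_exp hq.le (by omega)]
    symm
    have hsub : range (k + 1) ⊆ range (q + 1) := Finset.range_subset_range.2 (by omega)
    rw [← Finset.sum_subset hsub]
    · refine Finset.sum_congr rfl fun b hb => ?_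
      have := Finset.mem_range.1 hb
      rw [if_pos ⟨by omega, by omega⟩]
    · intro b hb hb'
      rw [Finset.mem_range] at hb hb'
      rw [if_neg]
      rintro ⟨h1, -⟩
      omega
  · intro i q hq hiq
    rw [mmv_exp hq.le (by omega)]
    rw [← Finset.sum_range_reflect]
    symm
    have hsub : range (i + 1) ⊆ range (q + 1) := Finset.range_subset_range.2 (by omega)
    rw [← Finset.sum_subset hsub]
    · refine Finset.sum_congr rfl fun a ha => ?_
      have := Finset.mem_range.1 ha
      have e1 : q + 1 - 1 - a = q - a := by omega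
      have e2 : q - (q - a) = a := by omega
      rw [e1, e2, if_pos ⟨by omega, by omega⟩]
    · intro a ha ha'
      rw [Finset.mem_range] at ha ha'
      rw [if_neg]
      rintro ⟨-, h1⟩
      omega

end Pool.Agent.Helper44.LN
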