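import Pool.Agent.Helper44.LN.StA

/-! Project LN, module MON. -/

namespace Pool.Agent.Helper44.LN

open Finset

namespace MON

lemma choose_lt_aux {a b f : ℕ} (h1 : a < b) (h2 : f ≤ b) (h3 : 1 ≤ f) :
    a.choose f < b.choose f := by
  obtain ⟨e, rfl⟩ : ∃ e, b = e + 1 := ⟨b - 1, by omega⟩
  obtain ⟨g, rfl⟩ : ∃ g, f = g + 1 := ⟨f - 1, by omega⟩
  rw [Nat.choose_succ_succ' e g]
  have h4 : a.choose (g+1) ≤ e.choose (g+1) := Nat.choose_le_choose _ (by omega)
  have h5 : 0 < e.choose g := Nat.choose_pos (by omega)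
  omega

lemma choose_lt {d n i k : ℕ} (hn : n < d) (hi : i ≤ n) (hik : i < k) (hk : k ≤ d) :
    d.choose i * n.choose k < d.choose k * n.choose i := by
  by_cases hkn : k ≤ n
  · have h1 : d.choose k * k.choose i = d.choose i * (d - i).choose (k - i) :=
      Nat.choose_mul hik.le
    have h2 : n.choose k * k.choose i = n.choose i * (n - i).choose (k - i) :=
      Nat.choose_mul hik.le
    have h3 : (n - i).choose (k - i) < (d - i).choose (k - i) :=
      choose_lt_aux (by omega) (by omega) (by omega)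
    have h6 : 0 < k.choose i := Nat.choose_pos hik.le
    have h7 : 0 < d.choose i := Nat.choose_pos (by omega)
    have h8 : 0 < n.choose i := Nat.choose_pos hi
    have h9 : (d.choose i * n.choose k) * k.choose i < (d.choose k * n.choose i) * k.choose i := by
      calc (d.choose i * n.choose k) * k.choose i
          = d.choose i * (n.choose k * k.choose i) := by ring
        _ = (d.choose i * n.choose i) * (n - i).choose (k - i) := by rw [h2]; ring
        _ < (d.choose i * n.choose i) * (d - i).choose (k - i) :=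
            Nat.mul_lt_mul_of_pos_left h3 (Nat.mul_pos h7 h8)
        _ = n.choose i * (d.choose k * k.choose i) := by rw [h1]; ring
        _ = (d.choose k * n.choose i) * k.choose i := by ring
    exact lt_of_mul_lt_mul_right h9 (Nat.zero_le _)
  · rw [Nat.choose_eq_zero_of_lt (not_le.mp hkn), mul_zero]
    exact Nat.mul_pos (Nat.choose_pos hk) (Nat.choose_pos hi)

lemma bn_nonneg (n i : ℕ) {θ : ℝ} (h0 : 0 < θ) (h1 : θ < 1) : 0 ≤ bn n i θ := by
  have : 0 < 1 - θ := by linarith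
  unfold bn; positivity

lemma bn_pos {n i : ℕ} {θ : ℝ} (h0 : 0 < θ) (h1 : θ < 1) (hi : i ≤ n) : 0 < bn n i θ := by
  have h2 : 0 < 1 - θ := by linarith
  have h3 : (0:ℝ) < n.choose i := by exact_mod_cast Nat.choose_pos hi
  unfold bn; positivity

lemma bn_zero {n i : ℕ} (θ : ℝ) (hi : n < i) : bn n i θ = 0 := by
  unfold bn; rw [Nat.choose_eq_zero_of_lt hi]; simp

lemma bn_lt {d n i k : ℕ} {θ : ℝ} (h0 : 0 < θ) (h1 : θ < 1) (hn : n < d) (hi : i ≤ n)
    (hik : i < k) (hk : k ≤ d) : bn d i θ * bn n k θ < bn d k θ * bn n i θ := by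
  have h2 : 0 < 1 - θ := by linarith
  by_cases hkn : k ≤ n
  · have e : bn d i θ * bn n k θ = ((d.choose i * n.choose k : ℕ) : ℝ) *
        ((1-θ)^((d-i)+(n-k)) * θ^(i+k)) := by
      unfold bn; push_cast; rw [pow_add, pow_add]; ring
    have e' : bn d k θ * bn n i θ = ((d.choose k * n.choose i : ℕ) : ℝ) *
        ((1-θ)^((d-i)+(n-k)) * θ^(i+k)) := by
      have : (d-i)+(n-k) = (d-k)+(n-i) := by omega
      rw [this]
      unfold bn; push_cast; rw [pow_add, pow_add]; ring
    rw [e, e']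
    apply mul_lt_mul_of_pos_right _ (by positivity)
    exact_mod_cast choose_lt hn hi hik hk
  · rw [bn_zero θ (not_le.mp hkn), mul_zero]
    exact mul_pos (bn_pos h0 h1 hk) (bn_pos h0 h1 hi)

lemma bn_le {d n i k : ℕ} {θ : ℝ} (h0 : 0 < θ) (h1 : θ < 1) (hn : n < d)
    (hik : i < k) (hk : k ≤ d) : bn d i θ * bn n k θ ≤ bn d k θ * bn n i θ := by
  by_cases hi : i ≤ n
  · exact (bn_lt h0 h1 hn hi hik hk).le
  · rw [bn_zero θ (show n < k by omega), bn_zero θ (not_le.mp hi)]; simp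

lemma bn_symm {n i : ℕ} (θ : ℝ) (hi : i ≤ n) : bn n i θ = bn n (n - i) (1 - θ) := by
  unfold bn
  rw [Nat.choose_symm hi, show n - (n - i) = i by omega]
  rw [show (1:ℝ) - (1 - θ) = θ by ring]; ring

lemma Fc_pos (n κ : ℕ) {θ : ℝ} (h0 : 0 < θ) (h1 : θ < 1) : 0 < Fc n κ θ := by
  unfold Fc
  apply Finset.sum_pos' (fun i _ => bn_nonneg n i h0 h1)
  exact ⟨0, by simp, bn_pos h0 h1 (Nat.zero_le _)⟩

lemma Fc_succ (n κ : ℕ) (θ : ℝ) : Fc n (κ+1) θ = Fc n κ θ + bn n (κ+1) θ := by
  unfold Fc; rw [Finset.sum_range_succ]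

lemma Fc_self (n : ℕ) (θ : ℝ) : Fc n n θ = 1 := by
  unfold Fc bn
  have h := add_pow θ (1-θ) n
  rw [show θ + (1 - θ) = 1 by ring, one_pow] at h
  refine Eq.trans ?_ h.symm
  apply Finset.sum_congr rfl
  intro i _
  ring

lemma Fc_one {n κ : ℕ} (θ : ℝ) (h : n ≤ κ) : Fc n κ θ = 1 := by
  induction κ, h using Nat.le_induction with
  | base => exact Fc_self n θ
  | succ k hk ih => rw [Fc_succ, ih, bn_zero θ (by omega), add_zero]

/-- reflection -/
lemma Fc_refl {d κ : ℕ} (θ : ℝ) (h : κ < d) : 1 - Fc d κ θ = Fc d (d-1-κ) (1-θ) := by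
  have h1 : Fc d d θ = Fc d κ θ + ∑ i ∈ Finset.Ico (κ+1) (d+1), bn d i θ := by
    unfold Fc
    rw [← Finset.sum_range_add_sum_Ico _ (show κ+1 ≤ d+1 by omega)]
  rw [Fc_self] at h1
  have h2 : ∑ i ∈ Finset.Ico (κ+1) (d+1), bn d i θ = Fc d (d-1-κ) (1-θ) := by
    unfold Fc
    rw [show d - 1 - κ + 1 = d - κ by omega]
    refine Finset.sum_nbij' (fun i => d - i) (fun i => d - i) ?_ ?_ ?_ ?_ ?_
    · intro i hi; simp only [Finset.mem_Ico, Finset.mem_range] at *; omega
    · intro i hi; simp only [Finset.mem_Ico, Finset.mem_range] at *; omega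
    · intro i hi; simp only [Finset.mem_Ico] at *; omega
    · intro i hi; simp only [Finset.mem_range] at *; omega
    · intro i hi
      simp only [Finset.mem_Ico] at hi
      exact bn_symm θ (by omega)
  rw [← h2]; linarith

lemma dn_lo {m d κ : ℕ} (θ : ℝ) (hm : 1 ≤ m) (h : κ + m < d + 1) :
    dn m d κ θ = Fc (m-1) κ θ := by
  unfold dn Fc
  have h1 : ∀ b ∈ range m, (if b ≤ κ ∧ κ + m < b + d + 1 then bn (m-1) b θ else 0) =
      if b ≤ κ then bn (m-1) b θ else 0 := by
    intro b _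
    have : (b ≤ κ ∧ κ + m < b + d + 1) ↔ b ≤ κ := by
      constructor
      · exact fun h => h.1
      · intro h; exact ⟨h, by omega⟩
    simp only [this]
  rw [Finset.sum_congr rfl h1]
  rw [← Finset.sum_filter]
  by_cases hk : κ + 1 ≤ m
  · have : (range m).filter (fun b => b ≤ κ) = range (κ+1) := by
      ext b; simp only [Finset.mem_filter, Finset.mem_range]; omega
    rw [this]
  · have : (range m).filter (fun b => b ≤ κ) = range m := by
      ext b; simp only [Finset.mem_filter, Finset.mem_range]; omega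
    rw [this]
    apply Finset.sum_subset
    · intro b hb; simp only [Finset.mem_range] at *; omega
    · intro b _ hb
      apply bn_zero
      simp only [Finset.mem_range] at hb; omega

lemma dn_hi {m d κ : ℕ} (θ : ℝ) (hm : 1 ≤ m) (hd : 2 * m ≤ d) (h : m ≤ κ + 1) (hκ : κ < d) :
    dn m d κ θ = Fc (m-1) (d-1-κ) (1-θ) := by
  unfold dn
  have h1 : ∀ b ∈ range m, (if b ≤ κ ∧ κ + m < b + d + 1 then bn (m-1) b θ else 0) =
      if κ + m < b + d + 1 then bn (m-1) b θ else 0 := by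
    intro b hb
    simp only [Finset.mem_range] at hb
    have : (b ≤ κ ∧ κ + m < b + d + 1) ↔ κ + m < b + d + 1 := by
      constructor
      · exact fun h => h.2
      · intro h; exact ⟨by omega, h⟩
    simp only [this]
  rw [Finset.sum_congr rfl h1, ← Finset.sum_filter]
  have h2 : ∑ b ∈ (range m).filter (fun b => κ + m < b + d + 1), bn (m-1) b θ =
      ∑ b ∈ (range m).filter (fun b => b < d - κ), bn (m-1) b (1-θ) := by
    refine Finset.sum_nbij' (fun i => m - 1 - i) (fun i => m - 1 - i) ?_ ?_ ?_ ?_ ?_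
    · intro i hi; simp only [Finset.mem_filter, Finset.mem_range] at *; omega
    · intro i hi; simp only [Finset.mem_filter, Finset.mem_range] at *; omega
    · intro i hi; simp only [Finset.mem_filter, Finset.mem_range] at *; omega
    · intro i hi; simp only [Finset.mem_filter, Finset.mem_range] at *; omega
    · intro i hi
      simp only [Finset.mem_filter, Finset.mem_range] at hi
      exact bn_symm θ (by omega)
  rw [h2]
  unfold Fc
  rw [show d - 1 - κ + 1 = d - κ by omega]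
  apply Finset.sum_subset
  · intro b hb; simp only [Finset.mem_filter, Finset.mem_range] at *; omega
  · intro b hb hb'
    apply bn_zero
    simp only [Finset.mem_filter, Finset.mem_range] at *; omega

/-- the ratio -/
noncomputable def rho (d n κ : ℕ) (θ : ℝ) : ℝ := Fc d κ θ / Fc n κ θ

lemma rho_pos (d n κ : ℕ) {θ : ℝ} (h0 : 0 < θ) (h1 : θ < 1) : 0 < rho d n κ θ :=
  div_pos (Fc_pos _ _ h0 h1) (Fc_pos _ _ h0 h1)

lemma rho_lt {d n κ : ℕ} {θ : ℝ} (h0 : 0 < θ) (h1 : θ < 1) (hn : n < d) (hκ : κ + 1 ≤ d) :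
    rho d n κ θ < rho d n (κ+1) θ := by
  unfold rho
  rw [div_lt_div_iff₀ (Fc_pos _ _ h0 h1) (Fc_pos _ _ h0 h1)]
  rw [Fc_succ, Fc_succ]
  have key : Fc d κ θ * bn n (κ+1) θ < bn d (κ+1) θ * Fc n κ θ := by
    unfold Fc
    rw [Finset.sum_mul, Finset.mul_sum]
    apply Finset.sum_lt_sum
    · intro i hi
      simp only [Finset.mem_range] at hi
      exact bn_le h0 h1 hn hi hκ
    · exact ⟨0, by simp, bn_lt h0 h1 hn (Nat.zero_le _) (by omega) hκ⟩
  nlinarith [key]

lemma zt_lo {m d κ : ℕ} {θ : ℝ} (h0 : 0 < θ) (h1 : θ < 1) (hm : 1 ≤ m) (h : κ + m < d + 1) :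
    zt m d κ θ = 1 - rho d (m-1) κ θ := by
  unfold zt rho
  rw [dn_lo θ hm h, sub_div, div_self (Fc_pos _ _ h0 h1).ne']

lemma zt_hi {m d κ : ℕ} {θ : ℝ} (hm : 1 ≤ m) (hd : 2 * m ≤ d) (h : m ≤ κ + 1) (hκ : κ < d) :
    zt m d κ θ = rho d (m-1) (d-1-κ) (1-θ) := by
  unfold zt rho
  rw [dn_hi θ hm hd h hκ, Fc_one θ (show m - 1 ≤ κ by omega), Fc_refl θ hκ]

end MON

open MON in
theorem pMON : StMON := by
  intro m d θ hm hd h0 h1
  have h0' : 0 < 1 - θ := by linarith
  have h1' : 1 - θ < 1 := by linarith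
  refine ⟨?_, ?_, ?_, ?_⟩
  · rw [zt_lo h0 h1 hm (by omega)]
    have := rho_pos d (m-1) 0 h0 h1
    linarith
  · rw [zt_hi hm hd (by omega) (by omega)]
    exact rho_pos _ _ _ h0' h1'
  · intro κ hκ
    by_cases h : κ + 1 + m < d + 1
    · rw [zt_lo h0 h1 hm h, zt_lo h0 h1 hm (by omega)]
      have := rho_lt (d := d) (n := m-1) (κ := κ) h0 h1 (by omega) (by omega)
      linarith
    · rw [zt_hi hm hd (by omega) (by omega), zt_hi hm hd (by omega) (by omega)]
      have := rho_lt (d := d) (n := m-1) (κ := d-1-(κ+1)) h0' h1' (by omega) (by omega)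
      rw [show d - 1 - κ = d - 1 - (κ+1) + 1 by omega]
      exact this
  · intro κ hκ
    by_cases h : κ + m < d + 1
    · rw [dn_lo θ hm h]; exact Fc_pos _ _ h0 h1
    · rw [dn_hi θ hm hd (by omega) hκ]; exact Fc_pos _ _ h0' h1'

end Pool.Agent.Helper44.LN
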