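import Pool.Agent.Helper44.LN.StL

/-! Project LN, module NTL. -/

namespace Pool.Agent.Helper44.LN

open Finset

private lemma ntl_split (F : ℕ) : ∀ s : ℕ, 1 ≤ s → ∃ s' s1 : ℕ, s = s' * s1 ∧
    Nat.Coprime s1 F ∧ ∀ p : ℕ, p.Prime → p ∣ s' → p ∣ F := by
  intro s
  induction s using Nat.strong_induction_on with
  | _ s ih =>
    intro hs
    by_cases h : Nat.Coprime s F
    · exact ⟨1, s, by rw [one_mul], h, fun p hp hp1 => absurd (Nat.dvd_one.1 hp1) hp.one_lt.ne'⟩
    · obtain ⟨p, hp, hps, hpF⟩ := Nat.Prime.not_coprime_iff_dvd.1 h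
      obtain ⟨t, rfl⟩ := hps
      have ht : 1 ≤ t := Nat.pos_of_ne_zero (by rintro rfl; simp at hs)
      have htlt : t < p * t := by
        have := hp.two_le
        nlinarith
      obtain ⟨t', s1, h1, h2, h3⟩ := ih t htlt ht
      refine ⟨p * t', s1, by rw [h1]; ring, h2, fun l hl hlp => ?_⟩
      rcases (Nat.Prime.dvd_mul hl).1 hlp with h4 | h4
      · rw [(Nat.prime_dvd_prime_iff_eq hl hp).1 h4]
        exact hpF
      · exact h3 l hl h4

private lemma ntl_mid (s : ℕ) : ∃ y : ℕ, Nat.Coprime y s ∧ s ≤ 2 * y ∧ 2 * y ≤ s + 4 := by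
  have key : ∀ y c : ℕ, 2 * y = s + c → (c = 1 ∨ ((c = 2 ∨ c = 4) ∧ y % 2 = 1)) →
      Nat.Coprime y s := by
    intro y c h1 h2
    by_contra h
    obtain ⟨p, hp, hpy, hps⟩ := Nat.Prime.not_coprime_iff_dvd.1 h
    have h3 : p ∣ c := by
      have h4 : p ∣ s + c := h1 ▸ Dvd.dvd.mul_left hpy 2
      exact (Nat.dvd_add_right hps).1 h4
    rcases h2 with rfl | ⟨h2, h5⟩
    · exact hp.one_lt.ne' (Nat.dvd_one.1 h3)
    · have h6 : p ∣ 2 := by
        rcases h2 with rfl | rfl
        · exact h3
        · exact hp.dvd_of_dvd_pow (show p ∣ 2 ^ 2 by norm_num; exact h3)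
      have h7 : p = 2 := (Nat.prime_dvd_prime_iff_eq hp Nat.prime_two).1 h6
      subst h7
      omega
  rcases Nat.even_or_odd s with h | h
  · by_cases h4 : s % 4 = 0
    · exact ⟨s / 2 + 1, key _ 2 (by omega) (Or.inr ⟨Or.inl rfl, by omega⟩), by omega, by omega⟩
    · obtain ⟨a, ha⟩ := h
      exact ⟨s / 2 + 2, key _ 4 (by omega) (Or.inr ⟨Or.inr rfl, by omega⟩), by omega, by omega⟩
  · obtain ⟨a, ha⟩ := h
    exact ⟨a + 1, key _ 1 (by omega) (Or.inl rfl), by omega, by omega⟩

private lemma ntl_inv {g s1 : ℕ} (hg : 1 < g) (h : Nat.Coprime s1 g) :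
    ∃ k : ℕ, 1 ≤ k ∧ k ≤ g - 1 ∧ g ∣ s1 * k + 1 := by
  obtain ⟨a0, ha0⟩ := Nat.exists_mul_mod_eq_one_of_coprime h hg
  have ha : s1 * (a0 % g) % g = 1 := by
    rw [← ha0.2, Nat.mul_mod, Nat.mod_mod, ← Nat.mul_mod]
  set a := a0 % g with hadef
  have hlt : a < g := Nat.mod_lt _ (by omega)
  have hpos : 1 ≤ a := by
    rcases Nat.eq_zero_or_pos a with h0 | h0
    · rw [h0, mul_zero, Nat.zero_mod] at ha
      omega
    · exact h0
  refine ⟨g - a, by omega, by omega, ?_⟩
  have h1 : s1 * (g - a) + s1 * a = g * s1 := by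
    rw [← mul_add, Nat.sub_add_cancel hlt.le, mul_comm]
  have h2 : s1 * (g - a) + 1 ≡ s1 * (g - a) + s1 * a [MOD g] := by
    refine Nat.ModEq.add_left _ ?_
    unfold Nat.ModEq
    rw [ha, Nat.mod_eq_of_lt hg]
  rw [h1] at h2
  exact (Nat.modEq_zero_iff_dvd.1 (h2.trans (Nat.modEq_zero_iff_dvd.2 (dvd_mul_right _ _))))

theorem pNTL : StNTL := by
  intro m hm
  set F : ℕ := (2*m-1).factorial with hF
  set Lm : ℕ := F ^ m with hLm
  have hF0 : 0 < F := Nat.factorial_pos _
  have hL0 : 0 < Lm := pow_pos hF0 _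
  have hpF : ∀ p : ℕ, p.Prime → (p ∣ F ↔ p < 2 * m) := by
    intro p hp
    rw [hF, hp.dvd_factorial]
    omega
  refine ⟨6 * Lm + 6, 6 * Lm + 6, by omega, fun s hs => ?_⟩
  set g : ℕ := Nat.gcd s Lm with hg
  have hg0 : 0 < g := Nat.gcd_pos_of_pos_right _ hL0
  have hgL : g ≤ Lm := Nat.gcd_le_right _ hL0
  have hgs : g ∣ s := Nat.gcd_dvd_left _ _
  -- the second condition
  have hsec : ∀ y : ℕ, y ≡ 1 [MOD g] → ∀ p : ℕ, p.Prime → p < 2 * m → ∀ e : ℕ, 1 ≤ e →
      p ^ e ∣ s → p ^ (e-1) < m → y ≡ 1 [MOD p ^ e] := by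
    intro y hy p hp hpm e he hes hem
    have h1 : e ≤ m := by
      have h2 : e - 1 < p ^ (e-1) := Nat.lt_pow_self hp.one_lt
      omega
    have h3 : p ^ e ∣ Lm := by
      rw [hLm]
      exact (pow_dvd_pow p h1).trans (pow_dvd_pow_of_dvd ((hpF p hp).2 hpm) m)
    exact hy.of_dvd (Nat.dvd_gcd hes h3)
  rcases Nat.lt_or_ge 1 g with hg1 | hg1
  · -- `g > 1`
    have hm2 : 2 ≤ m := by
      rcases Nat.lt_or_ge m 2 with h | h
      · exfalso
        have h1 : m = 1 := by omega
        have h2 : Lm = 1 := by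
          rw [hLm, hF, h1]
          norm_num
        omega
      · exact h
    obtain ⟨s', s1, h1, h2, h3⟩ := ntl_split F s (by omega)
    have hgs1 : Nat.Coprime g s1 := by
      have h4 : Nat.Coprime Lm s1 := by
        rw [hLm]
        exact (Nat.Coprime.pow_left m h2.symm)
      exact Nat.Coprime.coprime_dvd_left (Nat.gcd_dvd_right _ _) h4
    have hgs' : g ∣ s' := by
      refine hgs1.dvd_of_dvd_mul_right ?_
      rw [← h1]
      exact hgs
    obtain ⟨u, hu⟩ := hgs'
    have hs1pos : 0 < s1 := Nat.pos_of_ne_zero (by rintro rfl; simp at h1; omega)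
    have hupos : 0 < u := Nat.pos_of_ne_zero (by rintro rfl; simp at hu; rw [hu] at h1; omega)
    have hfirst : ∀ p : ℕ, p.Prime → p ∣ s → 2 * m ≤ p → p ∣ s1 := by
      intro p hp hps hpm
      rw [h1] at hps
      rcases (Nat.Prime.dvd_mul hp).1 hps with h4 | h4
      · have := (hpF p hp).1 (h3 p hp h4)
        omega
      · exact h4
    rcases Nat.lt_or_ge 1 s1 with hs1 | hs1
    · -- `s1 > 1`
      have hs13 : 3 ≤ s1 := by
        have h4 := Nat.exists_prime_and_dvd (n := s1) (by omega)
        obtain ⟨p, hp, hps⟩ := h4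
        have h5 : ¬ p ∣ F := fun h => by
          have h6 : p ∣ Nat.gcd s1 F := Nat.dvd_gcd hps h
          rw [h2] at h6
          exact hp.one_lt.ne' (Nat.dvd_one.1 h6)
        rw [hpF p hp] at h5
        have := Nat.le_of_dvd hs1pos hps
        omega
      obtain ⟨h, hh1, hh2, hh3⟩ := ntl_inv hg1 hgs1.symm
      obtain ⟨v, hv⟩ := hh3
      have hP : s = g * s1 * u := by rw [h1, hu]; ring
      have hh4 : s1 * h + s1 ≤ g * s1 := by
        have : s1 * (h + 1) ≤ s1 * g := Nat.mul_le_mul_left _ (by omega)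
        nlinarith
      have hh5 : s1 ≤ s1 * h := Nat.le_mul_of_pos_right _ hh1
      set P : ℕ := g * s1 with hPdef
      set k : ℕ := u / 2 with hk
      have hk1 : 2 * k ≤ u := by omega
      have hk2 : u ≤ 2 * k + 1 := by omega
      set y : ℕ := 2 + s1 * h + P * k with hy
      have hPk : P * (k + 1) ≤ P * u ∨ u = 1 ∨ u = 2 := by
        by_cases h6 : u ≤ 2
        · right; omega
        · left; exact Nat.mul_le_mul_left _ (by omega)
      have hgP : s1 ≤ P := Nat.le_mul_of_pos_left _ hg0
      have hP1 : P * (k+1) = P * k + P := by ring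
      -- lower bound for the complement
      have hxs : y + (s1 - 2) ≤ P * (k + 1) := by
        rw [hy, hP1]
        omega
      have hku : k + 1 ≤ u := by omega
      have hys : y ≤ s := by
        rw [hP]
        have := Nat.mul_le_mul_left P hku
        omega
      refine ⟨s - y, y, by omega, ?_, ?_, ?_⟩
      · -- `s ≤ Θ x`
        have h7 : s ≤ 6 * g * (s - y) := by
          have h8 : P * u - P * (k+1) + (s1 - 2) ≤ s - y := by
            rw [hP]
            have := Nat.mul_le_mul_left P hku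
            omega
          rcases Nat.lt_or_ge 2 u with h9 | h9
          · have h10 : P * u ≤ 6 * (P * u - P * (k+1)) := by
              have h11 : u ≤ 6 * (u - (k+1)) := by omega
              calc P * u ≤ P * (6 * (u - (k+1))) := Nat.mul_le_mul_left _ h11
                _ = 6 * (P * (u - (k+1))) := by ring
                _ = 6 * (P * u - P * (k+1)) := by rw [Nat.mul_sub]
            calc s = P * u := hP
              _ ≤ 6 * (P * u - P * (k+1)) := h10
              _ ≤ 6 * (s - y) := by omega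
              _ ≤ 6 * g * (s - y) := by
                have : 6 * 1 ≤ 6 * g := by omega
                calc 6 * (s - y) = 6 * 1 * (s - y) := by ring
                  _ ≤ 6 * g * (s - y) := Nat.mul_le_mul_right _ this
          · have h10 : s1 - 2 ≤ s - y := by omega
            calc s = P * u := hP
              _ ≤ P * 2 := Nat.mul_le_mul_left _ h9
              _ = g * (2 * s1) := by rw [hPdef]; ring
              _ ≤ g * (6 * (s1 - 2)) := Nat.mul_le_mul_left _ (by omega)
              _ ≤ g * (6 * (s - y)) := Nat.mul_le_mul_left _ (by omega)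
              _ = 6 * g * (s - y) := by ring
        calc s ≤ 6 * g * (s - y) := h7
          _ ≤ (6 * Lm + 6) * (s - y) := Nat.mul_le_mul_right _ (by omega)
      · -- `s ≤ Θ y`
        rcases Nat.lt_or_ge 1 u with h9 | h9
        · have h10 : u ≤ 3 * k := by omega
          calc s = P * u := hP
            _ ≤ P * (3 * k) := Nat.mul_le_mul_left _ h10
            _ = 3 * (P * k) := by ring
            _ ≤ 3 * y := Nat.mul_le_mul_left _ (by omega)
            _ ≤ (6 * Lm + 6) * y := Nat.mul_le_mul_right _ (by omega)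
        · calc s = P * u := hP
            _ ≤ P * 1 := Nat.mul_le_mul_left _ h9
            _ = g * s1 := by rw [mul_one]
            _ ≤ g * y := Nat.mul_le_mul_left _ (by omega)
            _ ≤ (6 * Lm + 6) * y := Nat.mul_le_mul_right _ (by omega)
      · intro p hp hps
        refine ⟨fun hpm hpy => ?_, hsec y ?_ p hp⟩
        · have h9 := hfirst p hp hps hpm
          have h10 : p ∣ s1 * h + P * k :=
            dvd_add (Dvd.dvd.mul_right h9 _) (Dvd.dvd.mul_right (Dvd.dvd.mul_left h9 _) _)
          have h11 : y = 2 + (s1 * h + P * k) := by rw [hy]; ring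
          rw [h11] at hpy
          have h12 : p ∣ 2 := (Nat.dvd_add_left h10).1 hpy
          have := Nat.le_of_dvd (by omega) h12
          omega
        · have h9 : y = 1 + g * (v + s1 * k) := by
            rw [hy, hPdef]
            have : 2 + s1 * h + g * s1 * k = 1 + (s1 * h + 1) + g * s1 * k := by ring
            rw [this, hv]
            ring
          rw [h9]
          unfold Nat.ModEq
          rw [Nat.add_mul_mod_self_left]
    · -- `s1 = 1`
      have hs11 : s1 = 1 := by omega
      set k : ℕ := s / (2 * g) with hk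
      have hk1 : 2 * g * k ≤ s := Nat.mul_div_le _ _
      have hk2 : s < 2 * g * k + 2 * g := by
        have := Nat.lt_mul_div_succ s (show 0 < 2 * g by omega)
        rw [← hk] at this
        nlinarith
      set y : ℕ := 1 + g * k with hy
      have hgk : 2 * g * k = 2 * (g * k) := by ring
      have hys : y ≤ s := by omega
      have h2x : s ≤ 2 * (s - y) + 2 := by omega
      have h2y : s ≤ 2 * y + 2 * g := by omega
      refine ⟨s - y, y, by omega, ?_, ?_, ?_⟩
      · calc s ≤ 4 * (s - y) := by omega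
          _ ≤ (6 * Lm + 6) * (s - y) := Nat.mul_le_mul_right _ (by omega)
      · calc s ≤ 4 * y := by omega
          _ ≤ (6 * Lm + 6) * y := Nat.mul_le_mul_right _ (by omega)
      · intro p hp hps
        refine ⟨fun hpm _ => ?_, hsec y ?_ p hp⟩
        · have h9 := hfirst p hp hps hpm
          rw [hs11] at h9
          exact hp.one_lt.ne' (Nat.dvd_one.1 h9)
        · rw [hy]
          unfold Nat.ModEq
          rw [Nat.add_mul_mod_self_left]
  · -- `g = 1`
    have hg11 : g = 1 := by omega
    obtain ⟨y, hy1, hy2, hy3⟩ := ntl_mid s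
    refine ⟨s - y, y, by omega, ?_, ?_, ?_⟩
    · calc s ≤ 4 * (s - y) := by omega
        _ ≤ (6 * Lm + 6) * (s - y) := Nat.mul_le_mul_right _ (by omega)
    · calc s ≤ 4 * y := by omega
        _ ≤ (6 * Lm + 6) * y := Nat.mul_le_mul_right _ (by omega)
    · intro p hp hps
      refine ⟨fun _ hpy => ?_, hsec y ?_ p hp⟩
      · have h6 : p ∣ Nat.gcd y s := Nat.dvd_gcd hpy hps
        rw [hy1] at h6
        exact hp.one_lt.ne' (Nat.dvd_one.1 h6)
      · rw [hg11]
        exact Nat.modEq_one

end Pool.Agent.Helper44.LN
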