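import Pool.Agent.Helper44.LN.StD

/-! Project LN, module PSC (written by helper15). -/

set_option autoImplicit false

namespace Pool.Agent.Helper44.LN

open Finset

/-- the ranks of the elements of a finite set with respect to an injective function -/
private lemma rank_card {I : Finset ℕ} {f : ℕ → ℕ}
    (hf : ∀ x ∈ I, ∀ y ∈ I, f x = f y → x = y) {l : ℕ} (hl : l ≤ I.card) :
    (I.filter fun κ => (I.filter fun κ' => f κ' < f κ).card < l).card = l := by
  set g : ℕ → ℕ := fun κ => (I.filter fun κ' => f κ' < f κ).card with hg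
  have h1 : ∀ x ∈ I, ∀ y ∈ I, f x < f y → g x < g y := by
    intro x hx y hy hxy
    apply card_lt_card
    rw [ssubset_iff_of_subset]
    · exact ⟨x, mem_filter.2 ⟨hx, hxy⟩, fun h => lt_irrefl _ (mem_filter.1 h).2⟩
    · intro z hz
      rw [mem_filter] at hz ⊢
      exact ⟨hz.1, hz.2.trans hxy⟩
  have h2 : Set.InjOn g (I : Set ℕ) := by
    intro x hx y hy hxy
    rw [mem_coe] at hx hy
    rcases lt_trichotomy (f x) (f y) with h | h | h
    · exact absurd hxy (h1 x hx y hy h).ne
    · exact hf x hx y hy h
    · exact absurd hxy.symm (h1 y hy x hx h).ne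
  have h3 : I.image g = range I.card := by
    apply eq_of_subset_of_card_le
    · intro z hz
      rw [mem_image] at hz
      obtain ⟨x, hx, rfl⟩ := hz
      rw [mem_range]
      apply card_lt_card
      rw [ssubset_iff_of_subset (filter_subset _ _)]
      exact ⟨x, hx, fun h => lt_irrefl _ (mem_filter.1 h).2⟩
    · rw [card_range, card_image_of_injOn h2]
  have h4 : (I.filter fun κ => g κ < l).image g = range l := by
    ext z
    rw [mem_image, mem_range]
    constructor
    · rintro ⟨x, hx, rfl⟩
      exact (mem_filter.1 hx).2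
    · intro hz
      have h5 : z ∈ I.image g := by
        rw [h3, mem_range]
        omega
      rw [mem_image] at h5
      obtain ⟨x, hx, rfl⟩ := h5
      exact ⟨x, mem_filter.2 ⟨hx, hz⟩, rfl⟩
  have h5 := card_image_of_injOn (s := I.filter fun κ => g κ < l) (f := g)
    (h2.mono (by
      intro x hx
      exact (mem_filter.1 (mem_coe.1 hx)).1))
  rw [h4, card_range] at h5
  exact h5.symm

private lemma rk_inj {m d t : ℕ} (hm : 1 ≤ m) (ht : t ≤ d * m) {κ κ' : ℕ} (hκ : κ ≤ d)
    (hκ' : κ' ≤ d) (h : rk m d t κ = rk m d t κ') : κ = κ' := by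
  have hk : t / m ≤ d := by
    rw [Nat.div_le_iff_le_mul_add_pred (by omega), mul_comm]
    omega
  have hs : min (t % m) (d - t / m) ≤ d - t / m := min_le_right _ _
  unfold rk at h
  generalize t / m = k at *
  generalize min (t % m) (d - k) = s at *
  split_ifs at h <;> omega

theorem pPSC : StPSC := by
  intro m d t hm ht
  refine ⟨fun κ κ' hκ hκ' h => rk_inj hm ht hκ hκ' h, ?_⟩
  intro a b l habl hl
  apply rank_card (f := rk m d t)
  · intro x hx y hy hxy
    rw [mem_Icc] at hx hy
    exact rk_inj hm ht (by omega) (by omega) hxy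
  · rw [Nat.card_Icc]
    omega

end Pool.Agent.Helper44.LN
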