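import Pool.Agent.Helper44.LN.StA

/-! Project LN, module RAS: size of the critical number. -/

set_option autoImplicit false

namespace Pool.Agent.Helper44.LN

open Finset

private theorem ras_key (R A B e : ℝ) (he : 0 < e) (he2 : e ≤ 1 / 2) (hA : |A - 1| ≤ e)
    (hB : |B - 1| ≤ e) (h : |R * A - B| ≤ A * e) : |R - 1| ≤ 5 * e := by
  obtain ⟨a1, a2⟩ := abs_le.1 hA
  obtain ⟨b1, b2⟩ := abs_le.1 hB
  obtain ⟨h1, h2⟩ := abs_le.1 h
  have hA0 : 1 / 2 ≤ A := by linarith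
  have hp : 0 ≤ e * (A - 1 / 2) := mul_nonneg he.le (by linarith)
  rw [abs_le]
  constructor
  · by_contra hc
    push Not at hc
    have h3 : (R - 1 + 5 * e) * A < 0 := mul_neg_of_neg_of_pos (by linarith) (by linarith)
    nlinarith
  · by_contra hc
    push Not at hc
    have h3 : 0 < (R - 1 - 5 * e) * A := mul_pos (by linarith) (by linarith)
    nlinarith

private theorem ras_alg (s a E r D M e : ℝ) (j k : ℕ) (hs : 1 ≤ s) (hk : 1 ≤ k) (ha : 0 ≤ a)
    (hD : 0 ≤ D) (hM : 1 ≤ M) (hDs : D ≤ e * s) (hr : |r * a - E| ≤ a) :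
    |(r * D / (s ^ k * M)) * (a * M / s ^ j) - E * D / s ^ (j + k)| ≤ (a * M / s ^ j) * e := by
  have hs0 : 0 < s := by linarith
  have hM0 : 0 < M := by linarith
  have hj : 0 < s ^ j := pow_pos hs0 j
  have hkp : 0 < s ^ k := pow_pos hs0 k
  have e1 : (r * D / (s ^ k * M)) * (a * M / s ^ j) - E * D / s ^ (j + k)
      = (r * a - E) * (D / (s ^ j * s ^ k)) := by
    rw [pow_add]
    field_simp
  rw [e1, abs_mul, abs_of_nonneg (div_nonneg hD (mul_pos hj hkp).le)]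
  have hsk : s ≤ s ^ k := by
    calc s = s ^ 1 := (pow_one s).symm
      _ ≤ s ^ k := pow_le_pow_right₀ hs hk
  have he0 : 0 ≤ e := by
    by_contra hc
    push Not at hc
    have : e * s < 0 := mul_neg_of_neg_of_pos hc hs0
    linarith
  have h2 : D / (s ^ j * s ^ k) ≤ e / s ^ j := by
    rw [div_le_div_iff₀ (mul_pos hj hkp) hj]
    have h3 : D ≤ e * s ^ k := hDs.trans (mul_le_mul_of_nonneg_left hsk he0)
    calc D * s ^ j ≤ (e * s ^ k) * s ^ j := mul_le_mul_of_nonneg_right h3 hj.le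
      _ = e * (s ^ j * s ^ k) := by ring
  calc |r * a - E| * (D / (s ^ j * s ^ k))
      ≤ a * (D / (s ^ j * s ^ k)) :=
        mul_le_mul_of_nonneg_right hr (div_nonneg hD (mul_pos hj hkp).le)
    _ ≤ a * (e / s ^ j) := mul_le_mul_of_nonneg_left h2 ha
    _ ≤ (a * M) * (e / s ^ j) := by
        apply mul_le_mul_of_nonneg_right _ (div_nonneg he0 hj.le)
        nlinarith
    _ = (a * M / s ^ j) * e := by ring

/-- **RAS.** -/
theorem pRAS : StVEA → StRAS := by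
  intro hV m d Θ ε hm hmd hε
  have he : 0 < min (1 / 2 : ℝ) (ε / 5) := lt_min (by norm_num) (by positivity)
  obtain ⟨s0, hs0⟩ := hV m d Θ (min (1 / 2 : ℝ) (ε / 5)) hm hmd he
  obtain ⟨N, hN⟩ := exists_nat_ge ((d.factorial : ℝ) / min (1 / 2 : ℝ) (ε / 5))
  refine ⟨max s0 (max N 1), ?_⟩
  intro x y hT r hr
  obtain ⟨t1, t2, t3⟩ := hT
  have hTB : TB Θ x y s0 := ⟨(le_max_left _ _).trans t1, t2, t3⟩
  obtain ⟨-, -, hA, hB⟩ := hs0 x y hTB
  have hN1 : N ≤ x + y := ((le_max_left _ _).trans (le_max_right _ _)).trans t1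
  have h11 : 1 ≤ x + y := ((le_max_right _ _).trans (le_max_right _ _)).trans t1
  have hs1 : (1 : ℝ) ≤ (x : ℝ) + y := by exact_mod_cast h11
  have hNs : (N : ℝ) ≤ (x : ℝ) + y := by exact_mod_cast hN1
  have hDs : (d.factorial : ℝ) ≤ min (1 / 2 : ℝ) (ε / 5) * ((x : ℝ) + y) := by
    have := hN.trans hNs
    rw [div_le_iff₀ he] at this
    linarith
  have hM1 : (1 : ℝ) ≤ ((m - 1).factorial : ℝ) := by
    exact_mod_cast Nat.one_le_iff_ne_zero.2 (Nat.factorial_ne_zero _)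
  have hrr : |(r : ℝ) * (am x y m : ℝ) - ∑ κ' ∈ range (d + 1), (EE x y d κ' : ℝ)|
      ≤ (am x y m : ℝ) := by
    have h := hr
    unfold Crit at h
    have h' : ((|(r : ℤ) * am x y m - ∑ κ ∈ range (d + 1), (EE x y d κ : ℤ)| : ℤ) : ℝ)
        ≤ (((am x y m : ℕ) : ℤ) : ℝ) := by
      exact_mod_cast h
    push_cast at h'
    exact h'
  have hk : 1 ≤ d + 1 - m := by omega
  have hjk : (m - 1) + (d + 1 - m) = d := by omega
  have h1 := ras_alg ((x : ℝ) + y) (am x y m : ℝ)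
    (∑ κ' ∈ range (d + 1), (EE x y d κ' : ℝ)) (r : ℝ) (d.factorial : ℝ)
    ((m - 1).factorial : ℝ) (min (1 / 2 : ℝ) (ε / 5)) (m - 1) (d + 1 - m) hs1 hk
    (Nat.cast_nonneg _) (Nat.cast_nonneg _) hM1 hDs hrr
  rw [hjk] at h1
  have h2 := ras_key _ _ _ _ he (min_le_left _ _) hA hB h1
  refine h2.trans ?_
  have := min_le_right (1 / 2 : ℝ) (ε / 5)
  linarith

end Pool.Agent.Helper44.LN
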