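import Pool.Agent.Helper44.LN.StG

/-! Project LN, module RCM: the substitution matrices are multiplicative. -/

namespace Pool.Agent.Helper44.LN

open Finset MvPolynomial

private lemma mem_Cx {x y p q : ℕ} {γ : Vr x y →₀ ℕ} :
    γ ∈ Cx x y p q ↔ (∑ i : Fin (x+1), γ (Sum.inl i) = p) ∧ (∑ j : Fin (y+1), γ (Sum.inr j) = q) := by
  classical
  unfold Cx
  rw [Finset.mem_filter, Finset.mem_finsuppAntidiag]
  constructor
  · rintro ⟨⟨h1, -⟩, h2⟩
    refine ⟨h2, ?_⟩
    rw [Fintype.sum_sum_type, h2] at h1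
    omega
  · rintro ⟨h1, h2⟩
    refine ⟨⟨?_, Finset.subset_univ _⟩, h1⟩
    rw [Fintype.sum_sum_type, h1, h2]

private lemma sb_X_inl {R : Type*} [CommRing R] {x y : ℕ} (g : Mt x y R) (i : Fin (x+1)) :
    sb g (X (Sum.inl i)) = ∑ j, C (g.1 i j) * (X (Sum.inl j) : MvPolynomial (Vr x y) R) := by
  simp [sb]

private lemma sb_X_inr {R : Type*} [CommRing R] {x y : ℕ} (g : Mt x y R) (i : Fin (y+1)) :
    sb g (X (Sum.inr i)) = ∑ j, C (g.2 i j) * (X (Sum.inr j) : MvPolynomial (Vr x y) R) := by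
  simp [sb]

private lemma sb_mul {R : Type*} [CommRing R] {x y : ℕ} (h g : Mt x y R) :
    sb (h * g) = (sb g).comp (sb h) := by
  apply MvPolynomial.algHom_ext
  rintro (i | i)
  · rw [AlgHom.comp_apply, sb_X_inl, sb_X_inl, map_sum]
    have : ∀ l, sb g (C (h.1 i l) * (X (Sum.inl l) : MvPolynomial (Vr x y) R)) =
        ∑ j, C (h.1 i l * g.1 l j) * X (Sum.inl j) := by
      intro l
      rw [map_mul, sb_X_inl, Finset.mul_sum]
      refine Finset.sum_congr rfl fun j _ => ?_
      rw [C_mul, mul_assoc]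
      congr 1
      exact AlgHom.commutes (sb g) (h.1 i l)
    simp_rw [this]
    rw [Finset.sum_comm]
    refine Finset.sum_congr rfl fun j _ => ?_
    rw [← Finset.sum_mul, ← map_sum]
    rfl
  · rw [AlgHom.comp_apply, sb_X_inr, sb_X_inr, map_sum]
    have : ∀ l, sb g (C (h.2 i l) * (X (Sum.inr l) : MvPolynomial (Vr x y) R)) =
        ∑ j, C (h.2 i l * g.2 l j) * X (Sum.inr j) := by
      intro l
      rw [map_mul, sb_X_inr, Finset.mul_sum]
      refine Finset.sum_congr rfl fun j _ => ?_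
      rw [C_mul, mul_assoc]
      congr 1
      exact AlgHom.commutes (sb g) (h.2 i l)
    simp_rw [this]
    rw [Finset.sum_comm]
    refine Finset.sum_congr rfl fun j _ => ?_
    rw [← Finset.sum_mul, ← map_sum]
    rfl

private lemma sb_one {R : Type*} [CommRing R] {x y : ℕ} :
    sb (1 : Mt x y R) = AlgHom.id R (MvPolynomial (Vr x y) R) := by
  apply MvPolynomial.algHom_ext
  rintro (i | i)
  · rw [sb_X_inl, AlgHom.id_apply, Finset.sum_eq_single i]
    · simp
    · intro j _ hj
      have : (1 : Mt x y R).1 i j = 0 := Matrix.one_apply_ne hj.symm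
      rw [this, C_0, zero_mul]
    · intro h; exact absurd (Finset.mem_univ i) h
  · rw [sb_X_inr, AlgHom.id_apply, Finset.sum_eq_single i]
    · simp
    · intro j _ hj
      have : (1 : Mt x y R).2 i j = 0 := Matrix.one_apply_ne hj.symm
      rw [this, C_0, zero_mul]
    · intro h; exact absurd (Finset.mem_univ i) h

/-- the bidegree weight -/
private def wt (x y : ℕ) : Vr x y → ℕ × ℕ := Sum.elim (fun _ => (1, 0)) (fun _ => (0, 1))

private lemma weight_wt {x y : ℕ} (γ : Vr x y →₀ ℕ) :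
    Finsupp.weight (wt x y) γ =
      (∑ i : Fin (x+1), γ (Sum.inl i), ∑ j : Fin (y+1), γ (Sum.inr j)) := by
  classical
  rw [Finsupp.weight_apply, Finsupp.sum_fintype _ _ (fun i => by simp), Fintype.sum_sum_type]
  ext
  · simp [wt, Prod.fst_sum]
  · simp [wt, Prod.snd_sum]

private lemma wh_sb_X {R : Type*} [CommRing R] {x y : ℕ} (g : Mt x y R) (v : Vr x y) :
    IsWeightedHomogeneous (wt x y) (sb g (X v)) (wt x y v) := by
  classical
  rcases v with i | i
  · rw [sb_X_inl]
    refine IsWeightedHomogeneous.sum _ _ _ fun j _ => ?_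
    have h1 := (isWeightedHomogeneous_C (wt x y) (g.1 i j)).mul
      (isWeightedHomogeneous_X R (wt x y) (Sum.inl j))
    rw [zero_add] at h1
    exact h1
  · rw [sb_X_inr]
    refine IsWeightedHomogeneous.sum _ _ _ fun j _ => ?_
    have h1 := (isWeightedHomogeneous_C (wt x y) (g.2 i j)).mul
      (isWeightedHomogeneous_X R (wt x y) (Sum.inr j))
    rw [zero_add] at h1
    exact h1

private lemma wh_sb {R : Type*} [CommRing R] {x y : ℕ} (g : Mt x y R) (γ' : Vr x y →₀ ℕ) :
    IsWeightedHomogeneous (wt x y) (sb g (monomial γ' 1)) (Finsupp.weight (wt x y) γ') := by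
  classical
  have h1 : sb g (monomial γ' 1) = ∏ v : Vr x y, sb g (X v) ^ γ' v := by
    rw [monomial_eq, C_1, one_mul, Finsupp.prod_fintype _ _ (fun i => by simp), map_prod]
    simp_rw [map_pow]
  have h2 : Finsupp.weight (wt x y) γ' = ∑ v : Vr x y, γ' v • wt x y v := by
    rw [Finsupp.weight_apply, Finsupp.sum_fintype _ _ (fun i => by simp)]
  rw [h1, h2]
  exact IsWeightedHomogeneous.prod _ _ _ fun v _ => (wh_sb_X g v).pow _

theorem pRCM : StRCM := by
  classical
  intro R _ x y p q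
  have key : ∀ (g : Mt x y R) (γ γ' : Vr x y →₀ ℕ), γ' ∈ Cx x y p q → γ ∉ Cx x y p q →
      rc g γ γ' = 0 := by
    intro g γ γ' h1 h2
    by_contra h3
    have h4 := wh_sb g γ' h3
    rw [weight_wt, weight_wt] at h4
    rw [mem_Cx] at h1 h2
    apply h2
    rw [← h1.1, ← h1.2]
    exact ⟨congrArg Prod.fst h4, congrArg Prod.snd h4⟩
  refine ⟨?_, ?_, key⟩
  · intro h g
    ext γ γ''
    rw [Matrix.mul_apply]
    have h0 : RC p q (h * g) γ γ'' = coeff γ.1 (sb g (sb h (monomial γ''.1 1))) := by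
      unfold RC rc
      rw [sb_mul, AlgHom.comp_apply]
    have h1 : sb h (monomial γ''.1 1) =
        ∑ γ' ∈ Cx x y p q, monomial γ' (rc h γ' γ''.1) := by
      ext δ
      rw [coeff_sum]
      simp_rw [coeff_monomial]
      rw [Finset.sum_ite_eq' (Cx x y p q) δ]
      split_ifs with h2
      · rfl
      · exact key h δ γ''.1 γ''.2 h2
    rw [h0, h1, map_sum, coeff_sum, ← Finset.sum_coe_sort (Cx x y p q)]
    refine Finset.sum_congr rfl fun γ' _ => ?_
    have h2 : (monomial γ'.1 (rc h γ'.1 γ''.1) : MvPolynomial (Vr x y) R) =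
        C (rc h γ'.1 γ''.1) * monomial γ'.1 1 := by
      rw [C_mul_monomial, mul_one]
    rw [h2, map_mul]
    have h3 : sb g (C (rc h γ'.1 γ''.1)) = C (rc h γ'.1 γ''.1) := AlgHom.commutes (sb g) _
    rw [h3, coeff_C_mul, mul_comm]
    rfl
  · ext γ γ'
    unfold RC rc
    rw [sb_one, AlgHom.id_apply, coeff_monomial, Matrix.one_apply]
    by_cases h : γ = γ'
    · rw [if_pos h, if_pos (congrArg Subtype.val h).symm]
    · rw [if_neg h, if_neg (fun h' => h (Subtype.ext h'.symm))]

end Pool.Agent.Helper44.LN
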