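import Pool.Agent.Helper44.LN.StA

/-! Project LN, module REC (helper63): existence of approximate solutions. -/

set_option autoImplicit false

namespace Pool.Agent.Helper44.LN

open Finset

private lemma rec_hh_pos {x : ℕ} (hx : 1 ≤ x) (a : ℕ) : 0 < hh x a := by
  unfold hh
  exact Nat.choose_pos (by omega)

private lemma rec_Mh_pos {x y m d κ : ℕ} (hm : 1 ≤ m) (hmd : m ≤ d) (hx : 1 ≤ x) (hy : 1 ≤ y)
    (hκ : κ < d) : 0 < Mh x y m d κ := by
  unfold Mh
  have h1 : 0 < Mm x y m d κ (0 + 1) := by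
    unfold Mm
    rw [if_pos (by omega)]
    have hb : min κ (m - 1) ∈ range (m - (0 + 1) + 1) := by
      rw [mem_range]; omega
    refine Finset.sum_pos' (fun _ _ => Nat.zero_le _) ⟨min κ (m - 1), hb, ?_⟩
    have h2 : min κ (m - 1) ≤ κ ∧ (m - (0 + 1) - min κ (m - 1)) + κ + (0 + 1) ≤ d := by
      constructor
      · exact min_le_left _ _
      · rcases le_total κ (m - 1) with h | h
        · rw [min_eq_left h]; omega
        · rw [min_eq_right h]; omega
    rw [if_pos h2]
    exact Nat.mul_pos (rec_hh_pos hx _) (rec_hh_pos hy _)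
  exact Finset.sum_pos' (fun _ _ => Nat.zero_le _) ⟨0, mem_range.mpr (by omega), h1⟩

private lemma rec_Cut_congr {x y m d κ : ℕ} {z z' : ℕ → ℤ} {H : ℤ} (h : ∀ j ≤ κ, z j = z' j) :
    Cut x y m d (Zf m z H) κ = Cut x y m d (Zf m z' H) κ := by
  unfold Cut
  refine sum_congr rfl fun u _ => ?_
  split_ifs with h1
  · unfold Zf
    rw [h _ h1.1]
  · rfl

private lemma rec_diag {m d κ : ℕ} (hm : 1 ≤ m) (hκ : κ < d) (g : ℕ → ℤ) :
    ∑ u ∈ range (d * m), (if u / m = κ then g (u % m) else 0) = ∑ σ ∈ range m, g σ := by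
  rw [← Finset.sum_filter]
  symm
  refine Finset.sum_bij (fun σ _ => κ * m + σ) ?_ ?_ ?_ ?_
  · intro σ hσ
    rw [mem_range] at hσ
    rw [mem_filter, mem_range]
    constructor
    · calc κ * m + σ < κ * m + m := by omega
        _ = (κ + 1) * m := by ring
        _ ≤ d * m := Nat.mul_le_mul_right _ hκ
    · rw [Nat.add_comm, Nat.add_mul_div_right _ _ (by omega), Nat.div_eq_of_lt hσ, Nat.zero_add]
  · intro a _ b _ h
    omega
  · intro u hu
    rw [mem_filter, mem_range] at hu
    refine ⟨u % m, mem_range.mpr (Nat.mod_lt _ (by omega)), ?_⟩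
    show κ * m + u % m = u
    rw [← hu.2, Nat.mul_comm]
    exact Nat.div_add_mod u m
  · intro σ hσ
    rw [mem_range] at hσ
    show g σ = g ((κ * m + σ) % m)
    rw [Nat.add_comm, Nat.add_mul_mod_self_right, Nat.mod_eq_of_lt hσ]

private lemma rec_Cut_update {x y m d κ : ℕ} (hm : 1 ≤ m) (hκ : κ < d) (z : ℕ → ℤ) (H v : ℤ) :
    Cut x y m d (Zf m (Function.update z κ v) H) κ =
      Cut x y m d (Zf m (Function.update z κ 0) H) κ + Mh x y m d κ * v := by
  have h1 : (Mh x y m d κ : ℤ) * v =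
      ∑ u ∈ range (d * m), (if u / m = κ then (Mm x y m d κ (u % m + 1) : ℤ) * v else 0) := by
    rw [rec_diag hm hκ (fun σ => (Mm x y m d κ (σ + 1) : ℤ) * v), ← Finset.sum_mul]
    unfold Mh
    push_cast
    rfl
  rw [h1]
  unfold Cut
  rw [← Finset.sum_add_distrib]
  refine sum_congr rfl fun u _ => ?_
  unfold Zf
  by_cases hu : u / m = κ
  · subst hu
    have h2 : u / m ≤ u / m ∧ u / m < u / m + (u % m + 1) := ⟨le_rfl, by omega⟩
    rw [if_pos h2, if_pos h2, if_pos rfl, Function.update_self, Function.update_self]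
    ring
  · rw [if_neg hu, Function.update_of_ne hu, Function.update_of_ne hu, add_zero]

theorem pREC : StREC := by
  intro x y m d r H hm hmd hx hy
  have key : ∀ N : ℕ, ∃ z : ℕ → ℤ, ∀ κ < N, κ < d →
      0 ≤ Bk x y m d r κ - Cut x y m d (Zf m z H) κ ∧
        Bk x y m d r κ - Cut x y m d (Zf m z H) κ < Mh x y m d κ := by
    intro N
    induction N with
    | zero => exact ⟨fun _ => 0, fun κ h => absurd h (by omega)⟩
    | succ N ih =>
      obtain ⟨z, hz⟩ := ih
      set w : ℤ := Bk x y m d r N - Cut x y m d (Zf m (Function.update z N 0) H) N with hw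
      refine ⟨Function.update z N (w / Mh x y m d N), fun κ hκ hκd => ?_⟩
      rcases Nat.lt_succ_iff_lt_or_eq.mp hκ with h | h
      · have h1 : Cut x y m d (Zf m (Function.update z N (w / Mh x y m d N)) H) κ =
            Cut x y m d (Zf m z H) κ :=
          rec_Cut_congr fun j hj => Function.update_of_ne (by omega) _ _
        rw [h1]
        exact hz κ h hκd
      · subst h
        have hpos : (0 : ℤ) < Mh x y m d κ := by exact_mod_cast rec_Mh_pos hm hmd hx hy hκd
        rw [rec_Cut_update hm hκd]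
        have h2 : Bk x y m d r κ - (Cut x y m d (Zf m (Function.update z κ 0) H) κ +
            Mh x y m d κ * (w / Mh x y m d κ)) = w % Mh x y m d κ := by
          have h3 := Int.emod_add_mul_ediv w (Mh x y m d κ)
          rw [hw] at h3 ⊢
          linarith
        rw [h2]
        exact ⟨Int.emod_nonneg _ hpos.ne', Int.emod_lt_of_pos _ hpos⟩
  obtain ⟨z, hz⟩ := key d
  exact ⟨z, fun κ hκ => hz κ hκ hκ⟩

end Pool.Agent.Helper44.LN
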