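import Pool.Agent.Helper44.LN.StG

/-! Project LN, module ROK: substitution by matrices of rank one (helper33). -/

set_option autoImplicit false

namespace Pool.Agent.Helper44.LN

open Finset MvPolynomial

namespace ROKaux

/-- exponent with given blocks -/
private noncomputable def ee {x y : ℕ} (k : Fin (x+1) → ℕ) (l : Fin (y+1) → ℕ) : Vr x y →₀ ℕ :=
  Finsupp.equivFunOnFinite.symm (Sum.elim k l)

private lemma ee_inl {x y : ℕ} (k : Fin (x+1) → ℕ) (l : Fin (y+1) → ℕ) (i : Fin (x+1)) :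
    ee k l (Sum.inl i) = k i := rfl

private lemma ee_inr {x y : ℕ} (k : Fin (x+1) → ℕ) (l : Fin (y+1) → ℕ) (j : Fin (y+1)) :
    ee k l (Sum.inr j) = l j := rfl

private lemma ee_eq_iff {x y : ℕ} (k : Fin (x+1) → ℕ) (l : Fin (y+1) → ℕ) (γ : Vr x y →₀ ℕ) :
    ee k l = γ ↔ (k = fun i => γ (Sum.inl i)) ∧ l = fun j => γ (Sum.inr j) := by
  constructor
  · rintro rfl
    exact ⟨funext fun i => (ee_inl k l i).symm, funext fun j => (ee_inr k l j).symm⟩
  · rintro ⟨rfl, rfl⟩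
    ext v
    rcases v with i | j
    · rfl
    · rfl

variable {R : Type} [CommRing R] {x y : ℕ}

private lemma monomial_ee (k : Fin (x+1) → ℕ) (l : Fin (y+1) → ℕ) (a : R) :
    (monomial (ee k l) a : MvPolynomial (Vr x y) R) =
      C a * ((∏ i, X (Sum.inl i) ^ k i) * ∏ j, X (Sum.inr j) ^ l j) := by
  rw [monomial_eq, Finsupp.prod_fintype _ _ (fun v => pow_zero _), Fintype.prod_sum_type]
  rfl

private lemma mem_Cx {p q : ℕ} {γ : Vr x y →₀ ℕ} (h : γ ∈ Cx x y p q) :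
    ∑ i, γ (Sum.inl i) = p ∧ ∑ j, γ (Sum.inr j) = q := by
  unfold Cx at h
  obtain ⟨h1, h2⟩ := Finset.mem_filter.mp h
  rw [Finset.mem_finsuppAntidiag] at h1
  have h3 := h1.1
  rw [Fintype.sum_sum_type] at h3
  exact ⟨h2, by omega⟩

private lemma expandL (p q : ℕ) (f1 : Fin (x+1) → R) (f2 : Fin (y+1) → R) :
    ((∑ i, C (f1 i) * (X (Sum.inl i) : MvPolynomial (Vr x y) R)) ^ p *
      (∑ j, C (f2 j) * (X (Sum.inr j) : MvPolynomial (Vr x y) R)) ^ q) =
    ∑ k ∈ piAntidiag univ p, ∑ l ∈ piAntidiag univ q,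
      monomial (ee k l) (((Nat.multinomial univ k * Nat.multinomial univ l : ℕ) : R) *
        ((∏ i, f1 i ^ k i) * ∏ j, f2 j ^ l j)) := by
  rw [Finset.sum_pow_eq_sum_piAntidiag, Finset.sum_pow_eq_sum_piAntidiag, sum_mul_sum]
  refine sum_congr rfl fun k _ => sum_congr rfl fun l _ => ?_
  rw [monomial_ee]
  simp only [mul_pow, prod_mul_distrib, map_mul, map_prod, map_pow, map_natCast, Nat.cast_mul]
  ring

end ROKaux

open ROKaux in
theorem pROK : StROK := by
  intro R _ x y p q u1 f1 u2 f2 γ γ' hγ hγ'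
  obtain ⟨g1, g2⟩ := mem_Cx hγ
  obtain ⟨g1', g2'⟩ := mem_Cx hγ'
  unfold rc
  have h1 : sb ((Matrix.vecMulVec u1 f1, Matrix.vecMulVec u2 f2) : Mt x y R) (monomial γ' 1) =
      C ((∏ i, u1 i ^ γ' (Sum.inl i)) * (∏ j, u2 j ^ γ' (Sum.inr j))) *
      ((∑ i, C (f1 i) * (X (Sum.inl i) : MvPolynomial (Vr x y) R)) ^ p *
      (∑ j, C (f2 j) * (X (Sum.inr j) : MvPolynomial (Vr x y) R)) ^ q) := by
    unfold sb
    rw [aeval_monomial, map_one, one_mul, Finsupp.prod_fintype _ _ (fun v => pow_zero _),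
      Fintype.prod_sum_type]
    have e1 : ∀ i : Fin (x+1), (∑ j, C (Matrix.vecMulVec u1 f1 i j) *
        (X (Sum.inl j) : MvPolynomial (Vr x y) R)) =
        C (u1 i) * ∑ j, C (f1 j) * X (Sum.inl j) := by
      intro i
      rw [mul_sum]
      refine sum_congr rfl fun j _ => ?_
      rw [Matrix.vecMulVec_apply, map_mul, mul_assoc]
    have e2 : ∀ i : Fin (y+1), (∑ j, C (Matrix.vecMulVec u2 f2 i j) *
        (X (Sum.inr j) : MvPolynomial (Vr x y) R)) =
        C (u2 i) * ∑ j, C (f2 j) * X (Sum.inr j) := by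
      intro i
      rw [mul_sum]
      refine sum_congr rfl fun j _ => ?_
      rw [Matrix.vecMulVec_apply, map_mul, mul_assoc]
    simp only [Sum.elim_inl, Sum.elim_inr, e1, e2, mul_pow, prod_mul_distrib,
      prod_pow_eq_pow_sum, g1', g2', map_mul, map_prod, map_pow]
    ring
  rw [h1, coeff_C_mul, expandL, coeff_sum, sum_eq_single (fun i => γ (Sum.inl i)), coeff_sum,
    sum_eq_single (fun j => γ (Sum.inr j)), coeff_monomial,
    if_pos ((ee_eq_iff _ _ _).mpr ⟨rfl, rfl⟩)]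
  · intro l _ hl
    rw [coeff_monomial, if_neg]
    intro h
    exact hl ((ee_eq_iff _ _ _).mp h).2
  · intro h
    exfalso
    apply h
    rw [mem_piAntidiag]
    exact ⟨g2, fun i _ => mem_univ i⟩
  · intro k _ hk
    rw [coeff_sum]
    refine sum_eq_zero fun l _ => ?_
    rw [coeff_monomial, if_neg]
    intro h
    exact hk ((ee_eq_iff _ _ _).mp h).1
  · intro h
    exfalso
    apply h
    rw [mem_piAntidiag]
    exact ⟨g1, fun i _ => mem_univ i⟩

end Pool.Agent.Helper44.LN
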