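import Pool.Agent.Helper44.LN.StC

/-! Project LN, module SIM (written by helper34). -/

set_option autoImplicit false

namespace Pool.Agent.Helper44.LN

open Finset

private theorem sim_rk {m d κ : ℕ} (hm : 1 ≤ m) (hκ : κ ≤ d) : rk m d (d * m) κ = d - κ := by
  unfold rk
  rw [Nat.mul_div_cancel d (by omega), Nat.mul_mod_left, Nat.zero_min]
  split_ifs with h1 h2 h3
  · rfl
  · omega
  · omega
  · omega

private theorem sim_ps {m d κ : ℕ} (hm : 1 ≤ m) (hκ : κ ≤ d) :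
    ps m d (d * m) 0 0 κ < 1 ↔ κ = d := by
  unfold ps
  rw [Nat.lt_one_iff, Finset.card_eq_zero, Finset.filter_eq_empty_iff]
  constructor
  · intro h
    have h1 := h (x := d) (Finset.mem_Icc.2 ⟨Nat.zero_le _, by omega⟩)
    rw [sim_rk hm le_rfl, sim_rk hm hκ] at h1
    omega
  · rintro rfl κ' _
    rw [sim_rk hm le_rfl]
    omega

private theorem sim_mem {m d κ : ℕ} (hm : 1 ≤ m) (hκ : κ ≤ d) (c : ℕ × ℕ) :
    c ∈ TD m d (d * m) 1 κ ↔ c = (0, 0) ∧ κ = d := by
  unfold TD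
  rw [Finset.mem_filter, Finset.mem_product, Finset.mem_range, Finset.mem_range]
  constructor
  · rintro ⟨⟨h1, h2⟩, -, -, -, h3⟩
    have h4 : c.1 = 0 := by omega
    have h5 : c.2 = 0 := by omega
    rw [h4, h5] at h3
    exact ⟨Prod.ext h4 h5, (sim_ps hm hκ).1 h3⟩
  · rintro ⟨rfl, h⟩
    refine ⟨⟨by norm_num, by norm_num⟩, by norm_num, Nat.zero_le _, by simpa using hκ, ?_⟩
    exact (sim_ps hm hκ).2 h

/-- SIM. -/
theorem pSIM : StSIM := by
  intro x y m d hm
  have h1 : TD m d (d * m) 1 d = {(0, 0)} := by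
    ext c
    rw [sim_mem hm le_rfl, Finset.mem_singleton]
    exact ⟨fun h => h.1, fun h => ⟨h, rfl⟩⟩
  refine ⟨h1, ?_, ?_⟩
  · rw [h1]
    simp [sz2, hh]
  · intro κ hκ
    rw [Finset.eq_empty_iff_forall_notMem]
    intro c hc
    rw [sim_mem hm hκ.le] at hc
    omega

end Pool.Agent.Helper44.LN
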