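import Pool.Agent.Helper44.LN.StL

/-! Project LN, module SMU (written by helper15). -/

set_option autoImplicit false

namespace Pool.Agent.Helper44.LN

open Finset

private lemma cut_add (x y m d : ℕ) (c c' : ℕ → ℤ) (κ : ℕ) :
    Cut x y m d (fun u => c u + c' u) κ = Cut x y m d c κ + Cut x y m d c' κ := by
  unfold Cut
  rw [← sum_add_distrib]
  refine sum_congr rfl fun u _ => ?_
  split_ifs <;> ring

private lemma cut_single (x y : ℕ) {m d k σ : ℕ} (hk : k < d) (h1 : 1 ≤ σ) (hσ : σ ≤ m) (v : ℤ)
    (κ : ℕ) :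
    Cut x y m d (fun u => if u = k * m + (σ - 1) then v else 0) κ =
      if k ≤ κ ∧ κ < k + σ then (Mm x y m d k σ : ℤ) * v else 0 := by
  have hm : 0 < m := by omega
  have e1 : (k * m + (σ - 1)) / m = k := by
    rw [mul_comm, Nat.mul_add_div hm, Nat.div_eq_of_lt (by omega), add_zero]
  have e2 : (k * m + (σ - 1)) % m + 1 = σ := by
    rw [mul_comm, Nat.mul_add_mod, Nat.mod_eq_of_lt (by omega)]
    omega
  unfold Cut
  rw [sum_eq_single (k * m + (σ - 1))]
  · rw [e1, e2]
    dsimp only
    rw [if_pos rfl]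
  · intro u _ hu
    dsimp only
    rw [if_neg hu, mul_zero, ite_self]
  · intro hu
    exfalso
    apply hu
    rw [mem_range]
    calc k * m + (σ - 1) < k * m + m := by omega
      _ = (k + 1) * m := by ring
      _ ≤ d * m := Nat.mul_le_mul_right _ hk

private lemma abs_two {s : ℕ} (P Q : Prop) [Decidable P] [Decidable Q] :
    |(if P then (s : ℤ) else 0) + (if Q then (-1 : ℤ) else 0)| ≤ (s : ℤ) + 1 := by
  have h : (0 : ℤ) ≤ s := Int.natCast_nonneg s
  rw [abs_le]
  split_ifs <;> constructor <;> omega

theorem pSMU : StMMV → StSMU := by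
  intro hM x y m d κ0 hm hd hκ
  obtain ⟨-, -, h3, h4, -, -⟩ := hM x y m d hm hd
  have hh1 : hh (x + y) 1 = x + y := by
    unfold hh
    rw [Nat.add_sub_cancel, Nat.choose_one_right]
  rcases Nat.lt_or_ge 1 m with hm2 | hm1
  · -- the case `2 ≤ m`
    rcases Nat.lt_or_ge (κ0 + m) d with hc | hc
    · have e3 := h3 κ0 hc.le
      have e4 := h4 (κ0 + 1) 1 hm2 (by omega) (by omega)
      rw [hh1] at e4
      refine ⟨fun u => (if u = κ0 * m + (m - 1) then ((x + y : ℕ) : ℤ) else 0) +
        (if u = (κ0 + 1) * m + ((m - 1) - 1) then -1 else 0), fun u => ?_, fun κ _ => ?_⟩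
      · have := abs_two (s := x + y) (u = κ0 * m + (m - 1))
          (u = (κ0 + 1) * m + ((m - 1) - 1))
        push_cast at this ⊢
        exact this
      · rw [cut_add, cut_single x y hκ hm le_rfl, cut_single x y (by omega) (by omega) (by omega),
          e3, e4]
        push_cast
        split_ifs <;> first | omega | ring
    · have hk1 : κ0 + 1 - m + m = κ0 + 1 := by omega
      have e3 := h3 (κ0 + 1 - m) (by omega)
      have e4 := h4 (κ0 + 1 - m) 1 hm2 (by omega) (by omega)
      rw [hh1] at e4
      refine ⟨fun u => (if u = (κ0 + 1 - m) * m + (m - 1) then ((x + y : ℕ) : ℤ) else 0) +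
        (if u = (κ0 + 1 - m) * m + ((m - 1) - 1) then -1 else 0), fun u => ?_, fun κ _ => ?_⟩
      · have := abs_two (s := x + y) (u = (κ0 + 1 - m) * m + (m - 1))
          (u = (κ0 + 1 - m) * m + ((m - 1) - 1))
        push_cast at this ⊢
        exact this
      · rw [cut_add, cut_single x y (by omega) hm le_rfl,
          cut_single x y (by omega) (by omega) (by omega), e3, e4]
        push_cast
        split_ifs <;> first | omega | ring
  · -- the case `m = 1`
    obtain rfl : m = 1 := by omega
    have e3 := h3 κ0 (by omega)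
    refine ⟨fun u => (if u = κ0 * 1 + (1 - 1) then ((x + y : ℕ) : ℤ) else 0), fun u => ?_,
      fun κ _ => ?_⟩
    · dsimp only
      rw [abs_le]
      split_ifs <;> constructor <;> omega
    · rw [cut_single x y hκ le_rfl le_rfl, e3]
      push_cast
      split_ifs <;> first | omega | ring

end Pool.Agent.Helper44.LN
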