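import Pool.Agent.Helper44.LN.StG

/-! Project LN, module SYM: symmetry. -/

namespace Pool.Agent.Helper44.LN

open Finset MvPolynomial

private lemma sym_aut (x y : ℕ) (π : Equiv.Perm ℕ) :
    ∃ θ : Kf x y ≃+* Kf x y, ∀ i, mp (θ : Kf x y →+* Kf x y) (gn x y i) = gn x y (π i) := by
  let r : Pf x y ≃ₐ[ℂ] Pf x y :=
    MvPolynomial.renameEquiv ℂ (Equiv.prodCongr π (Equiv.refl (Ix x y)))
  refine ⟨IsFractionRing.ringEquivOfRingEquiv r.toRingEquiv, fun i => ?_⟩
  have h : ∀ v : Ix x y,
      (IsFractionRing.ringEquivOfRingEquiv (K := Kf x y) (L := Kf x y) r.toRingEquiv)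
        (algebraMap (Pf x y) (Kf x y) (X (i, v))) =
      algebraMap (Pf x y) (Kf x y) (X (π i, v)) := by
    intro v
    rw [IsFractionRing.ringEquivOfRingEquiv_algebraMap]
    congr 1
    exact MvPolynomial.rename_X _ _
  unfold mp gn
  apply Prod.ext
  · ext a b
    exact h (Sum.inl (a, b))
  · ext a b
    exact h (Sum.inr (a, b))

private lemma sym_Wt (hR : StRCN) {x y p q : ℕ} (θ : Kf x y ≃+* Kf x y) (g g' : Mt x y (Kf x y))
    (h : mp (θ : Kf x y →+* Kf x y) g = g') (D : Finset (ℕ × ℕ)) (v : Vc (Kf x y) x y p q) :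
    v ∈ Wt (Kf x y) x y p q g D ↔
      (fun γ => θ (v γ) : Vc (Kf x y) x y p q) ∈ Wt (Kf x y) x y p q g' D := by
  rw [mem_Wt, mem_Wt]
  have key : ∀ γ : Cx x y p q, (RC p q g').mulVec (fun γ => θ (v γ)) γ =
      θ ((RC p q g).mulVec v γ) := by
    intro γ
    unfold Matrix.mulVec dotProduct
    rw [map_sum]
    refine Finset.sum_congr rfl fun γ' _ => ?_
    rw [map_mul, ← h]
    congr 1
    exact hR (Kf x y) (Kf x y) (θ : Kf x y →+* Kf x y) x y g γ.1 γ'.1
  refine forall_congr' fun γ => ?_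
  refine forall_congr' fun _ => ?_
  rw [key]
  simp

theorem pSYM (hR : StRCN) : StSYM := by
  intro x y p q π S τ
  obtain ⟨θ, hθ⟩ := sym_aut x y π
  have key : ∀ v : Vc (Kf x y) x y p q,
      v ∈ (⨅ i ∈ S, Wt (Kf x y) x y p q (gn x y i) (τ i) : Submodule (Kf x y) (Vc _ x y p q)) ↔
      (fun γ => θ (v γ) : Vc (Kf x y) x y p q) ∈
        (⨅ i ∈ S, Wt (Kf x y) x y p q (gn x y (π i)) (τ i) :
          Submodule (Kf x y) (Vc _ x y p q)) := by
    intro v
    simp only [Submodule.mem_iInf]
    refine forall_congr' fun i => ?_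
    refine forall_congr' fun _ => ?_
    exact sym_Wt hR θ (gn x y i) (gn x y (π i)) (hθ i) (τ i) v
  let j : (⨅ i ∈ S, Wt (Kf x y) x y p q (gn x y i) (τ i) : Submodule (Kf x y) (Vc _ x y p q)) ≃+
      (⨅ i ∈ S, Wt (Kf x y) x y p q (gn x y (π i)) (τ i) :
          Submodule (Kf x y) (Vc _ x y p q)) :=
    { toFun := fun v => ⟨fun γ => θ (v.1 γ), (key v.1).1 v.2⟩
      invFun := fun w => ⟨fun γ => θ.symm (w.1 γ), (key _).2 (by
        have : (fun γ => θ (θ.symm (w.1 γ))) = w.1 := by
          funext γ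
          simp
        rw [this]
        exact w.2)⟩
      left_inv := by
        intro v
        apply Subtype.ext
        funext γ
        simp
      right_inv := by
        intro v
        apply Subtype.ext
        funext γ
        simp
      map_add' := by
        intro v w
        apply Subtype.ext
        funext γ
        simp }
  have hr := rank_eq_of_equiv_equiv (R := Kf x y) (R' := Kf x y) (fun z => θ z) j θ.bijective (by
    intro r m
    apply Subtype.ext
    funext γ
    simp [j])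
  unfold Module.finrank
  rw [hr]

end Pool.Agent.Helper44.LN
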