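import Pool.Agent.Helper44.LN.StC

/-! Project LN: module SZB (size bounds). -/

namespace Pool.Agent.Helper44.LN

open Finset

private lemma szb_hh_le (x y m a : ℕ) (ha : a < m) : hh x a ≤ (x + y + m) ^ a := by
  unfold hh
  have h1 : (x + a - 1).choose a ≤ (x + a - 1) ^ a := by
    rw [Nat.choose_eq_descFactorial_div_factorial]
    exact (Nat.div_le_self _ _).trans (Nat.descFactorial_le_pow _ _)
  exact h1.trans (Nat.pow_le_pow_left (by omega) a)

private lemma szb_hh_le' (x y m a : ℕ) (ha : a < m) : hh y a ≤ (x + y + m) ^ a := by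
  have h := szb_hh_le y x m a ha
  rwa [Nat.add_comm y x] at h

private lemma szb_one (x y m δ : ℕ) (D : Finset (ℕ × ℕ)) (hm : 1 ≤ m)
    (hD : D ⊆ range m ×ˢ range m) (hd : dg D ≤ δ) :
    sz2 x y D ≤ m ^ 2 * (x + y + m) ^ δ := by
  unfold sz2
  have hterm : ∀ p ∈ D, hh x p.1 * hh y p.2 ≤ (x + y + m) ^ δ := by
    intro p hp
    have hpm := hD hp
    rw [mem_product, mem_range, mem_range] at hpm
    have hdp : p.1 + p.2 ≤ δ := by
      have : p.1 + p.2 ≤ dg D := by
        unfold dg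
        exact Finset.le_sup (f := fun p : ℕ × ℕ => p.1 + p.2) hp
      omega
    calc hh x p.1 * hh y p.2 ≤ (x + y + m) ^ p.1 * (x + y + m) ^ p.2 :=
          Nat.mul_le_mul (szb_hh_le x y m p.1 hpm.1) (szb_hh_le' x y m p.2 hpm.2)
      _ = (x + y + m) ^ (p.1 + p.2) := (pow_add _ _ _).symm
      _ ≤ (x + y + m) ^ δ := Nat.pow_le_pow_right (by omega) hdp
  have hcard : D.card ≤ m ^ 2 := by
    calc D.card ≤ (range m ×ˢ range m).card := Finset.card_le_card hD
      _ = m ^ 2 := by rw [card_product, card_range, sq]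
  calc ∑ p ∈ D, hh x p.1 * hh y p.2 ≤ D.card • (x + y + m) ^ δ :=
        Finset.sum_le_card_nsmul _ _ _ hterm
    _ = D.card * (x + y + m) ^ δ := smul_eq_mul _ _
    _ ≤ m ^ 2 * (x + y + m) ^ δ := Nat.mul_le_mul_right _ hcard

private lemma szb_two (x a : ℕ) : x ^ a ≤ a.factorial * hh x a := by
  unfold hh
  rw [← Nat.ascFactorial_eq_factorial_mul_choose']
  exact Nat.pow_succ_le_ascFactorial x a

private lemma szb_three (m μ d t κ : ℕ) (hμ : μ ≤ m) (hκ : κ ≤ d) :
    TD m d t μ κ ⊆ TM m (d-κ) κ := by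
  intro c hc
  unfold TD at hc
  rw [mem_filter] at hc
  obtain ⟨_, h1, h2, h3, _⟩ := hc
  unfold TM
  rw [mem_filter, mem_product, mem_range, mem_range]
  refine ⟨⟨?_, ?_⟩, ?_⟩ <;> omega

private lemma szb_four (m p q : ℕ) :
    TM m p q ⊆ range m ×ˢ range m ∧ dg (TM m p q) ≤ m - 1 := by
  constructor
  · intro c hc
    unfold TM at hc
    rw [mem_filter] at hc
    rw [mem_product, mem_range, mem_range]
    constructor <;> omega
  · unfold dg
    refine Finset.sup_le ?_
    intro c hc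
    unfold TM at hc
    rw [mem_filter] at hc
    have := hc.2
    show c.1 + c.2 ≤ m - 1
    omega

private lemma szb_five (x y : ℕ) (D : Finset (ℕ × ℕ)) (c : ℕ × ℕ) (hc : c ∈ D) :
    hh x c.1 * hh y c.2 ≤ sz2 x y D := by
  unfold sz2
  exact Finset.single_le_sum (f := fun p : ℕ × ℕ => hh x p.1 * hh y p.2)
    (fun _ _ => Nat.zero_le _) hc

/-- module SZB of project LN -/
theorem pSZB : StSZB :=
  ⟨szb_one, szb_two, szb_three, szb_four, szb_five⟩

end Pool.Agent.Helper44.LN
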