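import Pool.Agent.Helper44.LN.StD

/-! Project LN, module TMX: the degeneration. -/

namespace Pool.Agent.Helper44.LN

open Finset MvPolynomial Pool.Agent.Helper46.EAH

private lemma mem_Cx_lev {x y p q : ℕ} {γ : Vr x y →₀ ℕ} (h : γ ∈ Cx x y p q) :
    s1 γ = p ∧ s2 γ = q := by
  classical
  unfold Cx at h
  rw [mem_filter, mem_finsuppAntidiag] at h
  obtain ⟨⟨h1, _⟩, h2⟩ := h
  have h3 : s1 γ = p := h2
  have h4 : s1 γ + s2 γ = p + q := by
    rw [← h1]; simp [s1, s2, Fintype.sum_sum_type]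
  exact ⟨h3, by omega⟩

private noncomputable def colset (x y d : ℕ) : Finset (Vr x y →₀ ℕ) := by
  classical
  exact (range (d+1)).biUnion (fun κ => Cx x y (d-κ) κ)

private lemma sum_colset {M : Type*} [AddCommMonoid M] (x y d : ℕ) (f : (Vr x y →₀ ℕ) → M) :
    ∑ γ ∈ colset x y d, f γ = ∑ κ ∈ range (d+1), ∑ γ ∈ Cx x y (d-κ) κ, f γ := by
  classical
  unfold colset
  rw [sum_biUnion]
  intro κ _ κ' _ hne
  rw [Function.onFun, disjoint_left]
  intro γ h1 h2
  exact hne ((mem_Cx_lev h1).2.symm.trans (mem_Cx_lev h2).2)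

private lemma mem_colset {x y d κ : ℕ} (hκ : κ ≤ d) {γ : Vr x y →₀ ℕ}
    (h : γ ∈ Cx x y (d-κ) κ) : γ ∈ colset x y d := by
  classical
  unfold colset
  exact mem_biUnion.2 ⟨κ, mem_range.2 (by omega), h⟩

private lemma row_sum {M : Type*} [AddCommMonoid M] (x y d κ0 : ℕ) (B : Finset ℕ)
    (hB : ∀ κ ∈ B, κ ≤ d) (h0 : κ0 ≤ d) (h0B : κ0 ∉ B) (F0 : (Vr x y →₀ ℕ) → M)
    (F1 : ℕ → (Vr x y →₀ ℕ) → M) :
    ∑ γ ∈ colset x y d, (if s2 γ = κ0 then F0 γ else if s2 γ ∈ B then F1 (s2 γ) γ else 0) =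
      ∑ γ ∈ Cx x y (d-κ0) κ0, F0 γ + ∑ κ ∈ B, ∑ γ ∈ Cx x y (d-κ) κ, F1 κ γ := by
  classical
  rw [sum_colset]
  have h1 : ∀ κ ∈ range (d+1), ∑ γ ∈ Cx x y (d-κ) κ,
      (if s2 γ = κ0 then F0 γ else if s2 γ ∈ B then F1 (s2 γ) γ else 0) =
      if κ = κ0 then ∑ γ ∈ Cx x y (d-κ0) κ0, F0 γ else
        if κ ∈ B then ∑ γ ∈ Cx x y (d-κ) κ, F1 κ γ else 0 := by
    intro κ _
    by_cases e1 : κ = κ0
    · subst e1
      rw [if_pos rfl]
      exact sum_congr rfl fun γ hγ => by rw [if_pos (mem_Cx_lev hγ).2]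
    · rw [if_neg e1]
      by_cases e2 : κ ∈ B
      · rw [if_pos e2]
        refine sum_congr rfl fun γ hγ => ?_
        rw [(mem_Cx_lev hγ).2, if_neg e1, if_pos e2]
      · rw [if_neg e2]
        refine sum_eq_zero fun γ hγ => ?_
        rw [(mem_Cx_lev hγ).2, if_neg e1, if_neg e2]
  rw [sum_congr rfl h1, ← add_sum_erase (range (d+1)) _ (mem_range.2 (by omega : κ0 < d+1)),
    if_pos rfl]
  congr 1
  have h2 : ∀ κ ∈ (range (d+1)).erase κ0,
      (if κ = κ0 then ∑ γ ∈ Cx x y (d-κ0) κ0, F0 γ else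
        if κ ∈ B then ∑ γ ∈ Cx x y (d-κ) κ, F1 κ γ else 0) =
      if κ ∈ B then ∑ γ ∈ Cx x y (d-κ) κ, F1 κ γ else 0 := by
    intro κ hκ
    rw [if_neg (ne_of_mem_erase hκ)]
  rw [sum_congr rfl h2, ← sum_filter]
  refine sum_congr ?_ fun _ _ => rfl
  ext κ
  rw [mem_filter, mem_erase, mem_range]
  constructor
  · exact fun h => h.2
  · intro h
    refine ⟨⟨?_, ?_⟩, h⟩
    · rintro rfl; exact h0B h
    · have := hB κ h; omega

private lemma ps_mono {m d t a b κ κ' : ℕ} (h : rk m d t κ ≤ rk m d t κ') :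
    ps m d t a b κ ≤ ps m d t a b κ' := by
  unfold ps
  refine card_le_card fun z hz => ?_
  rw [mem_filter] at hz ⊢
  exact ⟨hz.1, lt_of_lt_of_le hz.2 h⟩

private noncomputable def strip {x y : ℕ} (γ : Vr x y →₀ ℕ) : Vr x y →₀ ℕ :=
  (γ.erase (Sum.inl 0)).erase (Sum.inr 0)

private lemma strip_l {x y : ℕ} (γ : Vr x y →₀ ℕ) : strip γ (Sum.inl 0) = 0 := by
  classical
  simp [strip]

private lemma strip_r {x y : ℕ} (γ : Vr x y →₀ ℕ) : strip γ (Sum.inr 0) = 0 := by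
  classical
  simp [strip]

private lemma strip_other {x y : ℕ} (γ : Vr x y →₀ ℕ) (z : Vr x y) (h1 : z ≠ Sum.inl 0)
    (h2 : z ≠ Sum.inr 0) : strip γ z = γ z := by
  classical
  simp [strip, h1, h2]

private lemma s1_strip {x y : ℕ} (γ : Vr x y →₀ ℕ) : s1 γ = γ (Sum.inl 0) + s1 (strip γ) := by
  unfold s1
  rw [Fin.sum_univ_succ, Fin.sum_univ_succ (fun i => strip γ (Sum.inl i)), strip_l, zero_add]
  congr 1
  refine sum_congr rfl fun i _ => ?_
  rw [strip_other]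
  · intro h; exact Fin.succ_ne_zero i (Sum.inl_injective h)
  · intro h; exact Sum.inl_ne_inr h

private lemma s2_strip {x y : ℕ} (γ : Vr x y →₀ ℕ) : s2 γ = γ (Sum.inr 0) + s2 (strip γ) := by
  unfold s2
  rw [Fin.sum_univ_succ, Fin.sum_univ_succ (fun i => strip γ (Sum.inr i)), strip_r, zero_add]
  congr 1
  refine sum_congr rfl fun i _ => ?_
  rw [strip_other]
  · intro h; exact Sum.inr_ne_inl h
  · intro h; exact Fin.succ_ne_zero i (Sum.inr_injective h)

private lemma gk_strip {x y d κ : ℕ} {γ : Vr x y →₀ ℕ} (h : γ ∈ Cx x y (d-κ) κ) :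
    gk d (strip γ) κ = γ := by
  classical
  obtain ⟨e1, e2⟩ := mem_Cx_lev h
  have f1 := s1_strip γ
  have f2 := s2_strip γ
  have g1 : d - κ - s1 (strip γ) = γ (Sum.inl 0) := by omega
  have g2 : κ - s2 (strip γ) = γ (Sum.inr 0) := by omega
  ext z
  unfold gk
  rw [g1, g2, Finsupp.add_apply, Finsupp.add_apply]
  by_cases h1 : z = Sum.inl 0
  · subst h1
    rw [strip_l]
    simp
  · by_cases h2 : z = Sum.inr 0
    · subst h2
      rw [strip_r]
      simp
    · rw [strip_other γ z h1 h2, Finsupp.single_apply, Finsupp.single_apply,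
        if_neg (Ne.symm h1), if_neg (Ne.symm h2)]
      simp

theorem pTMX : StBIN → StPSC → StTMX := by
  classical
  intro hBIN hPSC K _ _ x y m d S g t μ w lam hm ht hμ hw hlev v hv
  choose β hβ using hBIN
  -- the index sets
  let A : (Vr x y →₀ ℕ) → Finset ℕ := fun ε => Icc (s2 ε) (d - s1 ε)
  let Λ : ℕ → (Vr x y →₀ ℕ) → Finset ℕ := fun i ε =>
    (A ε).filter (fun κ => ps m d (t i) (s1 ε) (s2 ε) κ < μ i - s1 ε - s2 ε)
  have hΛA : ∀ i ε, Λ i ε ⊆ A ε := fun i ε => filter_subset _ _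
  let b : ℕ → (Vr x y →₀ ℕ) → ℕ → ℕ → ℚ := fun i ε => β (A ε) (Λ i ε) (hΛA i ε)
  have hAd : ∀ ε, ∀ κ ∈ A ε, κ ≤ d := by
    intro ε κ hκ
    have := (mem_Icc.1 hκ).2
    omega
  -- strict inequality of the weights
  have hlt : ∀ i ∈ S, ∀ ε, ∀ κ0 ∈ Λ i ε, ∀ κ ∈ A ε \ Λ i ε,
      w i * κ0 + lam κ0 < w i * κ + lam κ := by
    intro i hi ε κ0 h0 κ hκ
    rw [mem_sdiff] at hκ
    have h0' := mem_filter.1 h0
    refine hw i hi κ0 κ (hAd ε κ0 h0'.1) (hAd ε κ hκ.1) ?_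
    by_contra hcon
    rw [not_lt] at hcon
    exact hκ.2 (mem_filter.2 ⟨hκ.1, lt_of_le_of_lt (ps_mono hcon) h0'.2⟩)
  -- the rows
  let R : Type := {r : ℕ × (Vr x y →₀ ℕ) × ℕ // r.1 ∈ S ∧ r.2.1 (Sum.inl 0) = 0 ∧
    r.2.1 (Sum.inr 0) = 0 ∧ s1 r.2.1 + s2 r.2.1 < μ r.1 ∧ r.2.2 ∈ Λ r.1 r.2.1}
  let F0 : R → (Vr x y →₀ ℕ) → Polynomial K := fun r γ =>
    Polynomial.C (rc (g r.1.1) (gk d r.1.2.1 r.1.2.2) γ)
  let F1 : R → ℕ → (Vr x y →₀ ℕ) → Polynomial K := fun r κ γ =>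
    Polynomial.C ((b r.1.1 r.1.2.1 r.1.2.2 κ : K) * rc (g r.1.1) (gk d r.1.2.1 κ) γ) *
      Polynomial.X ^ ((w r.1.1 * κ + lam κ) - (w r.1.1 * r.1.2.2 + lam r.1.2.2))
  let Mr : R → (Vr x y →₀ ℕ) → Polynomial K := fun r γ =>
    if s2 γ = r.1.2.2 then F0 r γ else
      if s2 γ ∈ A r.1.2.1 \ Λ r.1.1 r.1.2.1 then F1 r (s2 γ) γ else 0
  -- sums over a row
  have hrow : ∀ (L' : Type) [Field L'] (ψ : Polynomial K →+* L') (f : (Vr x y →₀ ℕ) → L') (r : R),
      ∑ c : {γ // γ ∈ colset x y d}, ψ (Mr r c.1) * f c.1 =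
        ∑ γ ∈ Cx x y (d - r.1.2.2) r.1.2.2, ψ (F0 r γ) * f γ +
          ∑ κ ∈ A r.1.2.1 \ Λ r.1.1 r.1.2.1, ∑ γ ∈ Cx x y (d-κ) κ, ψ (F1 r κ γ) * f γ := by
    intro L' _ ψ f r
    rw [Finset.sum_coe_sort (colset x y d) (fun γ => ψ (Mr r γ) * f γ)]
    rw [← row_sum x y d r.1.2.2 (A r.1.2.1 \ Λ r.1.1 r.1.2.1)
      (fun κ hκ => hAd _ κ (mem_sdiff.1 hκ).1) (hAd _ _ (hΛA _ _ r.2.2.2.2.2))
      (fun h => (mem_sdiff.1 h).2 r.2.2.2.2.2) (fun γ => ψ (F0 r γ) * f γ)
      (fun κ γ => ψ (F1 r κ γ) * f γ)]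
    refine sum_congr rfl fun γ _ => ?_
    simp only [Mr]
    split_ifs
    · rfl
    · rfl
    · rw [map_zero, zero_mul]
  -- the kernel at zero
  have hker : ∀ h : {γ // γ ∈ colset x y d} → K,
      (∀ r : R, ∑ c, (Polynomial.evalRingHom (0:K)) (Mr r c.1) * h c = 0) → h = 0 := by
    intro h hh
    let h' : (Vr x y →₀ ℕ) → K := fun γ => if hγ : γ ∈ colset x y d then h ⟨γ, hγ⟩ else 0
    have hh' : ∀ c : {γ // γ ∈ colset x y d}, h c = h' c.1 := by
      intro c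
      simp only [h']
      rw [dif_pos c.2]
    have key : ∀ κ ≤ d, ∀ γ ∈ Cx x y (d-κ) κ, h' γ = 0 := by
      intro κ hκ
      have h1 := hlev κ hκ (fun γ => h' γ.1) ?_
      · intro γ hγ
        exact congrFun h1 ⟨γ, hγ⟩
      · intro i hi
        rw [mem_Wt]
        intro γ hγ
        obtain ⟨e1, e2⟩ := mem_Cx_lev γ.2
        have f1 := s1_strip γ.1
        have f2 := s2_strip γ.1
        have g1 : d - κ - γ.1 (Sum.inl 0) = s1 (strip γ.1) := by omega
        have g2 : κ - γ.1 (Sum.inr 0) = s2 (strip γ.1) := by omega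
        rw [g1, g2] at hγ
        unfold TD at hγ
        rw [mem_filter] at hγ
        obtain ⟨_, t1, t2, t3, t4⟩ := hγ
        simp only at t1 t2 t3 t4
        have t5 : κ ≤ d - s1 (strip γ.1) := by omega
        let r : R := ⟨(i, strip γ.1, κ), hi, strip_l _, strip_r _, t1,
          mem_filter.2 ⟨mem_Icc.2 ⟨t2, t5⟩, t4⟩⟩
        have h2 := hh r
        have h3 : ∑ c : {γ // γ ∈ colset x y d},
            (Polynomial.evalRingHom (0:K)) (Mr r c.1) * h' c.1 = 0 := by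
          have h3' : ∀ c ∈ (univ : Finset {γ // γ ∈ colset x y d}),
              (Polynomial.evalRingHom (0:K)) (Mr r c.1) * h c =
              (Polynomial.evalRingHom (0:K)) (Mr r c.1) * h' c.1 := fun c _ => by rw [hh' c]
          rw [← sum_congr rfl h3']
          exact h2
        rw [hrow K (Polynomial.evalRingHom (0:K)) h' r] at h3
        have h4 : ∑ κ' ∈ A r.1.2.1 \ Λ r.1.1 r.1.2.1, ∑ γ ∈ Cx x y (d-κ') κ',
            (Polynomial.evalRingHom (0:K)) (F1 r κ' γ) * h' γ = 0 := by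
          refine sum_eq_zero fun κ' hκ' => sum_eq_zero fun γ' _ => ?_
          have h5 := hlt r.1.1 r.2.1 r.1.2.1 r.1.2.2 r.2.2.2.2.2 κ' hκ'
          have h6 : (w r.1.1 * κ' + lam κ') - (w r.1.1 * r.1.2.2 + lam r.1.2.2) ≠ 0 := by omega
          simp only [F1, Polynomial.coe_evalRingHom, Polynomial.eval_mul, Polynomial.eval_C,
            Polynomial.eval_pow, Polynomial.eval_X]
          rw [zero_pow h6, mul_zero, zero_mul]
        rw [h4, add_zero] at h3
        have h7 : gk d (strip γ.1) κ = γ.1 := gk_strip γ.2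
        change ∑ γ' : Cx x y (d-κ) κ, rc (g i) γ.1 γ'.1 * h' γ'.1 = 0
        rw [Finset.sum_coe_sort (Cx x y (d-κ) κ) (fun γ' => rc (g i) γ.1 γ' * h' γ')]
        rw [← h3]
        refine sum_congr rfl fun γ' _ => ?_
        simp only [F0, r, Polynomial.coe_evalRingHom, Polynomial.eval_C, h7]
    ext c
    rw [hh' c, Pi.zero_apply]
    have hc := c.2
    unfold colset at hc
    obtain ⟨κ, hκ, hc'⟩ := mem_biUnion.1 hc
    exact key κ (by have := mem_range.1 hκ; omega) c.1 hc'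
  -- the fraction field
  let ι : Polynomial K →+* FractionRing (Polynomial K) :=
    algebraMap (Polynomial K) (FractionRing (Polynomial K))
  have hι : Function.Injective ι := IsFractionRing.injective _ _
  have hT : ι Polynomial.X ≠ 0 := by
    intro h
    exact Polynomial.X_ne_zero (hι (h.trans (map_zero ι).symm))
  let f : (Vr x y →₀ ℕ) → FractionRing (Polynomial K) := fun γ =>
    v γ / (ι Polynomial.X) ^ (lam (s2 γ))
  have hmain : (fun c : {γ // γ ∈ colset x y d} => f c.1) = 0 := by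
    refine kernel_generic (C := {γ // γ ∈ colset x y d}) (Polynomial.evalRingHom (0:K)) ι hι
      (fun (r : R) c => Mr r c.1) hker
      (fun c => f c.1) ?_
    intro r
    obtain ⟨⟨i, ε, κ0⟩, hi, z1, z2, hab, h0⟩ := r
    simp only at hi z1 z2 hab h0
    have h1 := hrow (FractionRing (Polynomial K)) ι f ⟨(i, ε, κ0), hi, z1, z2, hab, h0⟩
    refine h1.trans ?_
    simp only [F0, F1]
    -- the equations
    have hcard : (Λ i ε).card = μ i - s1 ε - s2 ε := by
      refine (hPSC m d (t i) hm (ht i hi)).2 (s1 ε) (s2 ε) (μ i - s1 ε - s2 ε) ?_ ?_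
      · have := hμ i hi; omega
      · omega
    have h2 := hβ (A ε) (Λ i ε) (hΛA i ε) (FractionRing (Polynomial K))
      (fun κ => (ι Polynomial.X) ^ (w i * κ) *
        (∑ γ' ∈ Cx x y (d-κ) κ, ι (Polynomial.C (rc (g i) (gk d ε κ) γ')) * v γ')) ?_ κ0 h0
    · -- conclude
      have h3 : (ι Polynomial.X) ^ (w i * κ0 + lam κ0) ≠ 0 := pow_ne_zero _ hT
      refine (mul_eq_zero.1 ?_).resolve_left h3
      rw [← h2, mul_add]
      have hinner : ∀ κ, (ι Polynomial.X) ^ (lam κ) *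
          ∑ γ ∈ Cx x y (d-κ) κ, ι (Polynomial.C (rc (g i) (gk d ε κ) γ)) * f γ =
          ∑ γ ∈ Cx x y (d-κ) κ, ι (Polynomial.C (rc (g i) (gk d ε κ) γ)) * v γ := by
        intro κ
        rw [mul_sum]
        refine sum_congr rfl fun γ hγ => ?_
        simp only [f]
        rw [(mem_Cx_lev hγ).2]
        field_simp
      congr 1
      · rw [pow_add, mul_assoc, hinner]
      · rw [mul_sum]
        refine sum_congr rfl fun κ hκ => ?_
        have h5 := hlt i hi ε κ0 h0 κ hκ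
        have h6 : (ι Polynomial.X) ^ (w i * κ) * (ι Polynomial.X) ^ (lam κ) =
            (ι Polynomial.X) ^ (w i * κ0 + lam κ0) *
              (ι Polynomial.X) ^ ((w i * κ + lam κ) - (w i * κ0 + lam κ0)) := by
          rw [← pow_add, ← pow_add]
          congr 1
          omega
        rw [← hinner κ]
        have h7 : ∑ γ ∈ Cx x y (d-κ) κ,
            ι (Polynomial.C ((b i ε κ0 κ : K) * rc (g i) (gk d ε κ) γ) *
              Polynomial.X ^ ((w i * κ + lam κ) - (w i * κ0 + lam κ0))) * f γ =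
            (b i ε κ0 κ : FractionRing (Polynomial K)) *
              (ι Polynomial.X) ^ ((w i * κ + lam κ) - (w i * κ0 + lam κ0)) *
              ∑ γ ∈ Cx x y (d-κ) κ, ι (Polynomial.C (rc (g i) (gk d ε κ) γ)) * f γ := by
          rw [mul_sum]
          refine sum_congr rfl fun γ _ => ?_
          rw [map_mul, map_mul Polynomial.C, map_mul ι, map_pow]
          have h8 : ι (Polynomial.C ((b i ε κ0 κ : ℚ) : K)) =
              (b i ε κ0 κ : FractionRing (Polynomial K)) := by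
            rw [← RingHom.comp_apply, map_ratCast]
          rw [h8]
          ring
        rw [h7]
        have h9 : (ι Polynomial.X) ^ (w i * κ0 + lam κ0) *
            ((b i ε κ0 κ : FractionRing (Polynomial K)) *
              (ι Polynomial.X) ^ ((w i * κ + lam κ) - (w i * κ0 + lam κ0)) *
              ∑ γ ∈ Cx x y (d-κ) κ, ι (Polynomial.C (rc (g i) (gk d ε κ) γ)) * f γ) =
            (b i ε κ0 κ : FractionRing (Polynomial K)) *
              (((ι Polynomial.X) ^ (w i * κ0 + lam κ0) *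
              (ι Polynomial.X) ^ ((w i * κ + lam κ) - (w i * κ0 + lam κ0))) *
              ∑ γ ∈ Cx x y (d-κ) κ, ι (Polynomial.C (rc (g i) (gk d ε κ) γ)) * f γ) := by
          ring
        rw [h9, ← h6]
        simp only [b]
        ring
    · intro p hp
      rw [hcard] at hp
      have h4 := hv i hi ε z1 z2 p (by omega)
      rw [← h4]
      refine sum_congr rfl fun κ _ => ?_
      simp only [ι]
      ring
  intro κ hκ γ hγ
  have h1 := congrFun hmain ⟨γ, mem_colset hκ hγ⟩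
  simp only [f, Pi.zero_apply] at h1
  rcases div_eq_zero_iff.1 h1 with h2 | h2
  · exact h2
  · exact absurd h2 (pow_ne_zero _ hT)

end Pool.Agent.Helper44.LN
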