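import Pool.Agent.Helper44.LN.StF
import Pool.Agent.Helper98.UAH.Drop

/-! Project LN, module TQQ: all numbers of points. -/

namespace Pool.Agent.Helper44.LN

open Finset MvPolynomial Pool.Agent.Helper46.EAH Pool.Agent.Helper98.UAH

private lemma tqq_infs {K V : Type*} [Field K] [AddCommGroup V] [Module K V]
    [FiniteDimensional K V] (W : ℕ → Submodule K V) (a : ℕ → ℕ) (R : Finset ℕ)
    (h : ∀ i ∈ R, Module.finrank K V ≤ Module.finrank K (W i) + a i) :
    ∀ U : Submodule K V, Module.finrank K U ≤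
      Module.finrank K (U ⊓ ⨅ i ∈ R, W i : Submodule K V) + ∑ i ∈ R, a i := by
  classical
  induction R using Finset.induction with
  | empty =>
    intro U
    have h0 : (⨅ i ∈ (∅ : Finset ℕ), W i : Submodule K V) = ⊤ := by simp
    rw [h0, inf_top_eq]
    exact Nat.le_add_right _ _
  | insert i R hi ih =>
    intro U
    have h1 := m9_inf U (W i) (a i) (h i (mem_insert_self _ _))
    have h2 := ih (fun j hj => h j (mem_insert_of_mem hj)) (U ⊓ W i)
    rw [sum_insert hi, Finset.iInf_insert, ← inf_assoc]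
    omega

private lemma tqq_congr (n e : ℕ) (μ μ' : ℕ → ℕ) (S : Finset ℕ) (h : ∀ i ∈ S, μ i = μ' i) :
    WS ℂ n e μ S = WS ℂ n e μ' S := by
  unfold WS
  refine iInf_congr fun i => iInf_congr fun hi => ?_
  rw [h i hi]

private lemma tqq_exm {r : ℕ} (m i : ℕ) (hi : i < r) : exm (fun _ : Fin r => m) i = m := by
  unfold exm
  rw [dif_pos hi]

private lemma tqq_exm1 {r : ℕ} (m i : ℕ) (hi : r ≤ i) : exm (fun _ : Fin r => m) i = 1 := by
  unfold exm
  rw [dif_neg (by omega)]

theorem pTQQ : StCOR → StTQQ := by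
  intro hCOR m d hm hd
  obtain ⟨n0, hn0⟩ := hCOR m d hm hd
  refine ⟨max n0 1, fun n hn r => ?_⟩
  have hn1 : n0 ≤ n := (le_max_left _ _).trans hn
  have hn2 : 1 ≤ n := (le_max_right _ _).trans hn
  have ha : 0 < N n m := by
    unfold N
    rw [if_neg (by omega)]
    exact Nat.choose_pos (by omega)
  obtain ⟨T, hT⟩ : ∃ T, T = N n (d+1) := ⟨_, rfl⟩
  obtain ⟨a, haa⟩ : ∃ a, a = N n m := ⟨_, rfl⟩
  have hdm := Nat.div_add_mod T a
  have hml : T % a < a := Nat.mod_lt _ (haa ▸ ha)
  obtain ⟨r0, hr0⟩ : ∃ r0, r0 = T / a := ⟨_, rfl⟩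
  obtain ⟨q0, hq0⟩ : ∃ q0, q0 = T % a := ⟨_, rfl⟩
  rw [← hr0, ← hq0] at hdm
  rw [← hq0] at hml
  rw [← hT, ← haa]
  rcases le_or_gt r r0 with hr | hr
  · -- few points
    refine ⟨T - r * a, le_rfl, ?_⟩
    have h1 : TInj ℂ n d (range (r0+q0)) (exm (fun _ : Fin r0 => m)) := by
      refine hn0 n hn1 r0 q0 (Or.inl ⟨?_, ?_⟩)
      · rw [← hT, ← haa, ← hdm]; ring
      · rw [← haa]; exact hml.le
    rw [tinj_iff] at h1 ⊢
    have h2 : range (r + (T - r * a)) = range r ∪ Ico r (r + (T - r * a)) := by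
      ext i
      simp only [mem_range, mem_union, mem_Ico]
      omega
    have h3 : Disjoint (range r) (Ico r (r + (T - r * a))) := by
      rw [Finset.disjoint_left]
      intro i hi hi2
      rw [mem_range] at hi
      rw [mem_Ico] at hi2
      omega
    have h4 := simple_drop ℂ n d hn2 (exm (fun _ : Fin r => m)) (range r)
      (Ico r (r + (T - r * a))) h3 (fun i hi => tqq_exm1 m i (mem_Ico.1 hi).1)
    have h5 : Module.finrank (Gen ℂ) (WS ℂ n d (exm (fun _ : Fin r => m)) (range r)) ≤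
        T - r * a := by
      have h6 : WS ℂ n d (exm (fun _ : Fin r => m)) (range r) =
          WS ℂ n d (exm (fun _ : Fin r0 => m)) (range r) := by
        refine tqq_congr n d _ _ _ fun i hi => ?_
        rw [mem_range] at hi
        rw [tqq_exm m i hi, tqq_exm m i (by omega)]
      rw [h6]
      have h7 := tqq_infs (fun i => PS n d (gen ℂ i) (exm (fun _ : Fin r0 => m) i))
        (fun i => N n (exm (fun _ : Fin r0 => m) i)) (Ico r (r0 + q0))
        (fun i _ => cod n d (gen ℂ i) _) (WS ℂ n d (exm (fun _ : Fin r0 => m)) (range r))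
      have h8 : (WS ℂ n d (exm (fun _ : Fin r0 => m)) (range r) ⊓
          ⨅ i ∈ Ico r (r0 + q0), PS n d (gen ℂ i) (exm (fun _ : Fin r0 => m) i)) = ⊥ := by
        rw [eq_bot_iff, ← h1]
        intro v hv
        rw [Submodule.mem_inf, mem_WS, Submodule.mem_iInf] at hv
        rw [mem_WS]
        intro i hi
        rw [mem_range] at hi
        by_cases hir : i < r
        · exact hv.1 i (mem_range.2 hir)
        · have h9 := hv.2 i
          rw [Submodule.mem_iInf] at h9
          exact h9 (mem_Ico.2 ⟨by omega, hi⟩)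
      rw [h8, finrank_bot, zero_add] at h7
      refine h7.trans ?_
      have h10 : ∑ i ∈ Ico r (r0 + q0), N n (exm (fun _ : Fin r0 => m) i) =
          (r0 - r) * a + q0 := by
        rw [← Finset.sum_Ico_consecutive _ hr (Nat.le_add_right r0 q0)]
        congr 1
        · rw [Finset.sum_congr rfl (g := fun _ => a) fun i hi => by
            rw [tqq_exm m i (mem_Ico.1 hi).2, haa]]
          simp
        · rw [Finset.sum_congr rfl (g := fun _ => 1) fun i hi => by
            rw [tqq_exm1 m i (mem_Ico.1 hi).1, N_one]]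
          simp
      rw [h10]
      have h11 : (r0 - r) * a + r * a = a * r0 := by
        rw [← add_mul, Nat.sub_add_cancel hr, mul_comm]
      omega
    rw [← h2, Nat.card_Ico] at h4
    have h12 : Module.finrank (Gen ℂ)
        (WS ℂ n d (exm (fun _ : Fin r => m)) (range (r + (T - r * a)))) = 0 := by omega
    exact Submodule.finrank_eq_zero.1 h12
  · -- many points
    refine ⟨0, Nat.zero_le _, ?_⟩
    obtain ⟨r1, h1, h2, h3⟩ : ∃ r1, r1 ≤ r ∧ T ≤ r1 * a ∧ r1 * a ≤ T + a := by
      by_cases hq : q0 = 0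
      · refine ⟨r0, hr.le, ?_, ?_⟩
        · rw [← hdm, hq, mul_comm]; omega
        · rw [← hdm, hq, mul_comm]; omega
      · refine ⟨r0 + 1, hr, ?_, ?_⟩
        · rw [← hdm, add_mul, one_mul, mul_comm r0]; omega
        · rw [← hdm, add_mul, one_mul, mul_comm r0]; omega
    have h4 : TInj ℂ n d (range (r1+0)) (exm (fun _ : Fin r1 => m)) := by
      refine hn0 n hn1 r1 0 (Or.inr ⟨rfl, ?_, ?_⟩)
      · rw [← hT, ← haa]; exact h2
      · rw [← hT, ← haa]; exact h3
    rw [tinj_iff] at h4 ⊢
    rw [add_zero] at h4 ⊢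
    have h5 : WS ℂ n d (exm (fun _ : Fin r1 => m)) (range r1) =
        WS ℂ n d (exm (fun _ : Fin r => m)) (range r1) := by
      refine tqq_congr n d _ _ _ fun i hi => ?_
      rw [mem_range] at hi
      rw [tqq_exm m i hi, tqq_exm m i (by omega)]
    rw [h5] at h4
    rw [eq_bot_iff, ← h4]
    exact WS_anti (range_subset_range.2 h1)

end Pool.Agent.Helper44.LN
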