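import Pool.Agent.Helper44.LN.StD
import Pool.Agent.Helper46.EAH.State

/-! Project LN, module TRF: from special points to the generic point. -/

namespace Pool.Agent.Helper44.LN

open Finset MvPolynomial Pool.Agent.Helper46.EAH

private lemma trf_eval_smul {F σ : Type*} [Field F] (p : σ → F) (r : F) {f : MvPolynomial σ F}
    {k : ℕ} (hf : f.IsHomogeneous k) : eval (fun i => r * p i) f = r ^ k * eval p f := by
  rw [eval_eq, eval_eq, mul_sum]
  refine sum_congr rfl fun d hd => ?_
  have h1 : d.degree = k := by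
    have h2 := hf (mem_support_iff.1 hd)
    have h3 := DFunLike.congr_fun (Finsupp.degree_eq_weight_one (R := ℕ) (σ := σ)) d
    exact h3.trans h2
  have h2 : ∏ i ∈ d.support, (r * p i) ^ d i = r ^ k * ∏ i ∈ d.support, p i ^ d i := by
    simp_rw [mul_pow]
    rw [prod_mul_distrib, prod_pow_eq_pow_sum, ← h1]
    rfl
  rw [h2]
  ring

/-- the bijection of the variables -/
private noncomputable def trfE (x y : ℕ) : Fin (x+y+1+1) ≃ Vr x y :=
  (finCongr (by omega : x+y+1+1 = (x+1)+(y+1))).trans finSumFinEquiv.symm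

private lemma trfE_zero (x y : ℕ) : trfE x y 0 = Sum.inl 0 := by
  unfold trfE
  rw [Equiv.trans_apply, Equiv.symm_apply_eq]
  rfl

theorem pTRF : StTRF := by
  intro L _ _ x y d S μ P hP hF
  obtain ⟨Q, hQ⟩ : ∃ Q : ℕ → Fin (x+y+1+1) → L,
    Q = fun i v => P i (trfE x y v) / P i (Sum.inl 0) := ⟨_, rfl⟩
  have hQ0 : ∀ i ∈ S, Q i 0 = 1 := by
    intro i hi
    rw [hQ]
    change P i (trfE x y 0) / P i (Sum.inl 0) = 1
    rw [trfE_zero, div_self (hP i hi)]
  rw [show x + y + 1 = (x+y)+1 from rfl, TInj_succ_iff]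
  refine SInj_of_special (x+y) d S _ (fun i => pv (Q i)) ?_
  intro c hc
  have hmem : ∀ i ∈ S, pol (x+y+1) d c ∈ ptI (Q i) ^ (μ i) := by
    intro i hi
    rw [pol_mem_iff d (μ i) (Q i) (by rw [hQ0 i hi]; exact one_ne_zero) c]
    intro α hα
    have h1 : Phi (x+y+1) d (pv (Q i)) α c = 0 := hc i hi α hα
    unfold Phi at h1
    rw [← h1]
    refine sum_congr rfl fun a _ => ?_
    unfold row
    rw [hQ0 i hi, one_pow, one_mul]
  have hren : ∀ i ∈ S, rename (trfE x y) (pol (x+y+1) d c) ∈ ptJ (P i) ^ (μ i) := by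
    intro i hi
    have h1 : (ptI (Q i)).map (rename (trfE x y) : MvPolynomial _ L →ₐ[L] _).toRingHom ≤
        ptJ (P i) := by
      rw [Ideal.map_le_iff_le_comap]
      unfold ptI
      rw [Ideal.span_le]
      rintro f ⟨⟨k, hk⟩, hf⟩
      rw [SetLike.mem_coe, Ideal.mem_comap]
      apply Ideal.subset_span
      refine ⟨⟨k, ?_⟩, ?_⟩
      · exact IsHomogeneous.rename_isHomogeneous hk
      · change eval (P i) (rename (trfE x y) f) = 0
        rw [eval_rename]
        have h2 : P i ∘ trfE x y = fun v => P i (Sum.inl 0) * Q i v := by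
          funext v
          rw [hQ]
          change P i (trfE x y v) = P i (Sum.inl 0) * (P i (trfE x y v) / P i (Sum.inl 0))
          rw [mul_div_cancel₀ _ (hP i hi)]
        rw [h2, trf_eval_smul _ _ hk, hf, mul_zero]
    have h2 := Ideal.mem_map_of_mem (rename (trfE x y) : MvPolynomial _ L →ₐ[L] _).toRingHom
      (hmem i hi)
    rw [Ideal.map_pow] at h2
    exact Ideal.pow_right_mono h1 _ h2
  have h0 := hF _ (IsHomogeneous.rename_isHomogeneous (pol_homog (x+y+1) d c)) hren
  have h1 : pol (x+y+1) d c = 0 := by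
    apply rename_injective _ (trfE x y).injective
    rw [h0, map_zero]
  exact pol_inj d c h1

end Pool.Agent.Helper44.LN
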