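import Pool.Agent.Helper44.LN.StA

/-! Project LN, module VEA (written by helper21). -/

set_option autoImplicit false

namespace Pool.Agent.Helper44.LN

open Finset

private theorem vea_th0 (x y : ℕ) : 0 ≤ th x y := by
  unfold th
  positivity

private theorem vea_th1 (x y : ℕ) : th x y ≤ 1 := by
  unfold th
  apply div_le_one_of_le₀
  · have : (0:ℝ) ≤ x := Nat.cast_nonneg x
    linarith
  · positivity

private theorem vea_pw {t : ℝ} (h0 : 0 ≤ t) (h1 : t ≤ 1) (a : ℕ) :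
    0 ≤ t ^ a / (a.factorial : ℝ) ∧ t ^ a / (a.factorial : ℝ) ≤ 1 := by
  constructor
  · positivity
  · rw [div_le_one (by positivity)]
    have e1 : t ^ a ≤ 1 := pow_le_one₀ h0 h1
    have e2 : (1:ℝ) ≤ (a.factorial : ℝ) := by
      exact_mod_cast Nat.one_le_iff_ne_zero.2 (Nat.factorial_ne_zero a)
    linarith

private theorem vea_prod {A B al be δ : ℝ} (hA : |A - al| ≤ δ) (hB : |B - be| ≤ δ) (hδ : δ ≤ 1)
    (hal0 : 0 ≤ al) (hal1 : al ≤ 1) (hbe0 : 0 ≤ be) (hbe1 : be ≤ 1) :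
    |A * B - al * be| ≤ 3 * δ := by
  have hδ0 : 0 ≤ δ := le_trans (abs_nonneg _) hA
  have e1 : A * B - al * be = (A - al) * (B - be) + al * (B - be) + (A - al) * be := by ring
  rw [e1]
  have h1 : |(A - al) * (B - be)| ≤ δ * 1 := by
    rw [abs_mul]
    exact mul_le_mul hA (le_trans hB hδ) (abs_nonneg _) hδ0
  have h2 : |al * (B - be)| ≤ 1 * δ := by
    rw [abs_mul]
    exact mul_le_mul (by rw [abs_of_nonneg hal0]; exact hal1) hB (abs_nonneg _) zero_le_one
  have h3 : |(A - al) * be| ≤ δ * 1 := by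
    rw [abs_mul]
    exact mul_le_mul hA (by rw [abs_of_nonneg hbe0]; exact hbe1) (abs_nonneg _) hδ0
  have h4 := abs_add_le ((A - al) * (B - be) + al * (B - be)) ((A - al) * be)
  have h5 := abs_add_le ((A - al) * (B - be)) (al * (B - be))
  linarith

private theorem vea_mono {Θ x y s0 s1 : ℕ} (h : TB Θ x y s1) (hs : s0 ≤ s1) : TB Θ x y s0 :=
  ⟨le_trans hs h.1, h.2⟩

private theorem vea_term (hH : StHHA) (a b Θ : ℕ) (ε : ℝ) (hε : 0 < ε) :
    ∃ s0 : ℕ, ∀ x y : ℕ, TB Θ x y s0 →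
      |(((x + a).choose x : ℝ) * ((y + b).choose y : ℝ)) / ((x:ℝ) + y) ^ (a + b) -
        ((1 - th x y) ^ a / a.factorial) * ((th x y) ^ b / b.factorial)| ≤ ε := by
  have hδ : 0 < min 1 (ε / 3) := lt_min one_pos (by positivity)
  obtain ⟨s1, hs1⟩ := hH a Θ (min 1 (ε / 3)) hδ
  obtain ⟨s2, hs2⟩ := hH b Θ (min 1 (ε / 3)) hδ
  refine ⟨max s1 s2, fun x y hT => ?_⟩
  have h1 := (hs1 x y (vea_mono hT (le_max_left _ _))).2.2.1
  have h2 := (hs2 x y (vea_mono hT (le_max_right _ _))).2.2.2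
  have p1 := vea_pw (t := 1 - th x y) (by linarith [vea_th1 x y]) (by linarith [vea_th0 x y]) a
  have p2 := vea_pw (vea_th0 x y) (vea_th1 x y) b
  have h3 := vea_prod h1 h2 (min_le_left _ _) p1.1 p1.2 p2.1 p2.2
  have e1 : (((x + a).choose x : ℝ) * ((y + b).choose y : ℝ)) / ((x:ℝ) + y) ^ (a + b)
      = ((x + a).choose x : ℝ) / ((x:ℝ) + y) ^ a * (((y + b).choose y : ℝ) / ((x:ℝ) + y) ^ b) := by
    rw [pow_add, mul_div_mul_comm]
  rw [e1]
  have h4 : min 1 (ε / 3) ≤ ε / 3 := min_le_right _ _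
  linarith

/-- the weights -/
private def vw (x y n i : ℕ) : ℝ :=
  if i ≤ n then ((x + (n - i)).choose x : ℝ) * ((y + i).choose y : ℝ) else 0

private theorem vea_one (hH : StHHA) (n Θ i : ℕ) (ε : ℝ) (hε : 0 < ε) :
    ∃ s0 : ℕ, ∀ x y : ℕ, TB Θ x y s0 →
      |vw x y n i * n.factorial / ((x:ℝ) + y) ^ n - bn n i (th x y)| ≤ ε := by
  by_cases hi : i ≤ n
  · have hf : (0:ℝ) < n.factorial := by positivity
    obtain ⟨s0, hs0⟩ := vea_term hH (n - i) i Θ (ε / n.factorial) (by positivity)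
    refine ⟨s0, fun x y hT => ?_⟩
    have h1 := hs0 x y hT
    rw [Nat.sub_add_cancel hi] at h1
    have e1 : vw x y n i = ((x + (n - i)).choose x : ℝ) * ((y + i).choose y : ℝ) := by
      unfold vw
      rw [if_pos hi]
    have e2 : bn n i (th x y) =
        (((1 - th x y) ^ (n - i) / (n - i).factorial) * ((th x y) ^ i / i.factorial)) *
          n.factorial := by
      unfold bn
      rw [Nat.cast_choose ℝ hi]
      have f1 : ((n - i).factorial : ℝ) ≠ 0 := by positivity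
      have f2 : (i.factorial : ℝ) ≠ 0 := by positivity
      field_simp
    have e3 : vw x y n i * n.factorial / ((x:ℝ) + y) ^ n - bn n i (th x y) =
        ((((x + (n - i)).choose x : ℝ) * ((y + i).choose y : ℝ)) / ((x:ℝ) + y) ^ n -
        ((1 - th x y) ^ (n - i) / (n - i).factorial) * ((th x y) ^ i / i.factorial)) *
          n.factorial := by
      rw [e1, e2]
      ring
    rw [e3, abs_mul, abs_of_pos hf]
    calc _ ≤ ε / n.factorial * n.factorial := mul_le_mul_of_nonneg_right h1 hf.le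
      _ = ε := by field_simp
  · refine ⟨0, fun x y _ => ?_⟩
    have e1 : vw x y n i = 0 := by
      unfold vw
      rw [if_neg hi]
    have e2 : bn n i (th x y) = 0 := by
      unfold bn
      rw [Nat.choose_eq_zero_of_lt (by omega)]
      simp
    rw [e1, e2]
    simpa using hε.le

private theorem vea_unif {P : ℕ → ℕ → ℕ → Prop} (Θ N : ℕ)
    (h : ∀ i, ∃ s0 : ℕ, ∀ x y : ℕ, TB Θ x y s0 → P i x y) :
    ∃ s0 : ℕ, ∀ x y : ℕ, TB Θ x y s0 → ∀ i < N, P i x y := by
  choose s hs using h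
  refine ⟨(range N).sup s, fun x y hT i hi => hs i x y (vea_mono hT ?_)⟩
  exact Finset.le_sup (f := s) (Finset.mem_range.2 hi)

private theorem vea_sum (hH : StHHA) (n d Θ : ℕ) (ε : ℝ) (hε : 0 < ε) :
    ∃ s0 : ℕ, ∀ x y : ℕ, TB Θ x y s0 → ∀ κ ≤ d,
      |(∑ i ∈ range (κ+1), vw x y n i) * n.factorial / ((x:ℝ) + y) ^ n - Fc n κ (th x y)| ≤ ε := by
  have hd : (0:ℝ) < (d:ℝ) + 1 := by positivity
  obtain ⟨s0, hs0⟩ := vea_unif Θ (d+1)
    (fun i => vea_one hH n Θ i (ε / ((d:ℝ)+1)) (by positivity))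
  refine ⟨s0, fun x y hT κ hκ => ?_⟩
  have h1 := hs0 x y hT
  have e1 : (∑ i ∈ range (κ+1), vw x y n i) * n.factorial / ((x:ℝ) + y) ^ n - Fc n κ (th x y)
      = ∑ i ∈ range (κ+1), (vw x y n i * n.factorial / ((x:ℝ) + y) ^ n - bn n i (th x y)) := by
    unfold Fc
    rw [Finset.sum_sub_distrib, Finset.sum_mul, Finset.sum_div]
  rw [e1]
  refine le_trans (Finset.abs_sum_le_sum_abs _ _) ?_
  refine le_trans (Finset.sum_le_card_nsmul _ _ (ε / ((d:ℝ)+1)) ?_) ?_
  · intro i hi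
    exact h1 i (by have := Finset.mem_range.1 hi; omega)
  · rw [Finset.card_range, nsmul_eq_mul]
    have h2 : (((κ + 1 : ℕ)) : ℝ) ≤ (d:ℝ) + 1 := by
      push_cast
      have : (κ:ℝ) ≤ d := by exact_mod_cast hκ
      linarith
    calc _ ≤ ((d:ℝ) + 1) * (ε / ((d:ℝ)+1)) :=
          mul_le_mul_of_nonneg_right h2 (by positivity)
      _ = ε := by field_simp

private theorem vea_Fc1 (n d : ℕ) (hn : n ≤ d) (t : ℝ) : Fc n d t = 1 := by
  unfold Fc
  have e1 : ∑ i ∈ range (d+1), bn n i t = ∑ i ∈ range (n+1), bn n i t := by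
    symm
    apply Finset.sum_subset
    · intro i hi
      rw [Finset.mem_range] at hi ⊢
      omega
    · intro i _ hi
      rw [Finset.mem_range] at hi
      unfold bn
      rw [Nat.choose_eq_zero_of_lt (by omega)]
      simp
  rw [e1]
  have e2 := add_pow t (1 - t) n
  have e3 : t + (1 - t) = 1 := by ring
  rw [e3, one_pow] at e2
  rw [e2]
  refine Finset.sum_congr rfl fun i _ => ?_
  unfold bn
  ring

private theorem vea_v0 (x y m i : ℕ) (hm : 1 ≤ m) : (v0 x y m i : ℝ) = vw x y (m-1) i := by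
  unfold v0 vw
  by_cases h : i < m
  · rw [if_pos h, if_pos (by omega)]
    push_cast
    rfl
  · rw [if_neg h, if_neg (by omega)]
    simp

private theorem vea_EE (x y d i : ℕ) (hi : i ≤ d) : (EE x y d i : ℝ) = vw x y d i := by
  unfold EE vw
  rw [if_pos hi]
  push_cast
  rfl

theorem pVEA : StHHA → StVZE → StVEA := by
  intro hH hV m d Θ ε hm hmd hε
  obtain ⟨s1, hs1⟩ := vea_sum hH (m-1) d Θ ε hε
  obtain ⟨s2, hs2⟩ := vea_sum hH d d Θ ε hε
  refine ⟨max s1 s2, fun x y hT => ?_⟩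
  have h1 := hs1 x y (vea_mono hT (le_max_left _ _))
  have h2 := hs2 x y (vea_mono hT (le_max_right _ _))
  have a1 : ∀ κ, ∑ i ∈ range (κ+1), vw x y (m-1) i = ∑ i ∈ range (κ+1), (v0 x y m i : ℝ) :=
    fun κ => Finset.sum_congr rfl fun i _ => (vea_v0 x y m i hm).symm
  have a2 : ∀ κ ≤ d, ∑ i ∈ range (κ+1), vw x y d i = ∑ i ∈ range (κ+1), (EE x y d i : ℝ) :=
    fun κ hκ => Finset.sum_congr rfl fun i hi =>
      (vea_EE x y d i (by have := Finset.mem_range.1 hi; omega)).symm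
  refine ⟨fun κ hκ => ?_, fun κ hκ => ?_, ?_, ?_⟩
  · have := h1 κ hκ
    rwa [a1] at this
  · have := h2 κ hκ
    rwa [a2 κ hκ] at this
  · have h3 := h1 d le_rfl
    rw [a1, vea_Fc1 (m-1) d (by omega)] at h3
    have h4 : (am x y m : ℝ) = ∑ i ∈ range (d+1), (v0 x y m i : ℝ) := by
      rw [← (hV x y m d hm hmd).2.1]
      push_cast
      rfl
    rw [h4]
    exact h3
  · have h3 := h2 d le_rfl
    rw [a2 d le_rfl, vea_Fc1 d d le_rfl] at h3
    exact h3

end Pool.Agent.Helper44.LN
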