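import Pool.Agent.Helper44.LN.StC

namespace Pool.Agent.Helper44.LN

open Finset

private lemma vze_rk (m d κ : ℕ) : rk m d 0 κ = κ := by
  unfold rk
  simp only [Nat.zero_div, Nat.zero_mod, Nat.not_lt_zero, if_false, Nat.zero_min, zero_add, Nat.sub_zero]
  split_ifs with h1 h2
  · exact h1.symm
  · exact absurd (Nat.le_zero.1 h2) h1
  · rfl

private lemma vze_ps (m d a b κ : ℕ) (h2 : κ ≤ d - a) : ps m d 0 a b κ = κ - b := by
  unfold ps
  have h : (Icc b (d-a)).filter (fun κ' => rk m d 0 κ' < rk m d 0 κ) = Ico b κ := by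
    ext c
    simp only [vze_rk, mem_filter, mem_Icc, mem_Ico]
    omega
  rw [h, Nat.card_Ico]

private lemma vze_TD (m d κ : ℕ) (hmd : m ≤ d) :
    TD m d 0 m κ = (range (m - κ)) ×ˢ (if κ < m then range (κ + 1) else ∅) := by
  ext ⟨a, b⟩
  unfold TD
  simp only [mem_filter, mem_product, mem_range]
  constructor
  · rintro ⟨⟨h1, h2⟩, h3, h4, h5, h6⟩
    rw [vze_ps m d a b κ (by omega)] at h6
    have h7 : κ < m := by omega
    rw [if_pos h7, mem_range]
    omega
  · rintro ⟨h1, h2⟩
    have h7 : κ < m := by omega
    rw [if_pos h7, mem_range] at h2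
    refine ⟨⟨by omega, by omega⟩, by omega, by omega, by omega, ?_⟩
    rw [vze_ps m d a b κ (by omega)]
    omega

private lemma vze_hh (x A : ℕ) : ∑ a ∈ range (A + 1), hh x a = (x + A).choose x := by
  induction A with
  | zero => simp [hh]
  | succ A ih =>
    rw [sum_range_succ, ih]
    unfold hh
    rcases x with _ | x
    · simp
    · have e1 : x + 1 + (A + 1) - 1 = x + 1 + A := by omega
      have e2 : (x + 1 + A).choose (A + 1) = (x + 1 + A).choose x := by
        apply Nat.choose_symm_of_eq_add
        omega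
      have e3 : x + 1 + (A + 1) = (x + 1 + A) + 1 := by omega
      rw [e1, e2, e3, Nat.choose_succ_succ]
      ring

private lemma vze_S (x y : ℕ) : ∀ e : ℕ,
    ∑ κ ∈ range (e + 1), (x + (e - κ)).choose x * (y + κ).choose y
      = (x + y + e + 1).choose (x + y + 1) := by
  induction x with
  | zero =>
    intro e
    have h := Nat.sum_range_add_choose e y
    have e1 : 0 + y + e + 1 = e + y + 1 := by omega
    have e2 : 0 + y + 1 = y + 1 := by omega
    rw [e1, e2, ← h]
    apply sum_congr rfl
    intro κ _
    rw [Nat.choose_zero_right, one_mul, add_comm]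
  | succ x ih =>
    intro e
    induction e with
    | zero => simp
    | succ e ihe =>
      have h1 := ih (e + 1)
      rw [sum_range_succ] at h1 ⊢
      have h2 : ∑ κ ∈ range (e + 1), (x + 1 + (e + 1 - κ)).choose (x + 1) * (y + κ).choose y =
          ∑ κ ∈ range (e + 1), (x + (e + 1 - κ)).choose x * (y + κ).choose y +
          ∑ κ ∈ range (e + 1), (x + 1 + (e - κ)).choose (x + 1) * (y + κ).choose y := by
        rw [← sum_add_distrib]
        apply sum_congr rfl
        intro κ hκ
        have hκ' : κ ≤ e := Nat.lt_succ_iff.1 (mem_range.1 hκ)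
        have e3 : x + 1 + (e + 1 - κ) = (x + (e + 1 - κ)) + 1 := by omega
        have e4 : x + (e + 1 - κ) = x + 1 + (e - κ) := by omega
        rw [e3, Nat.choose_succ_succ, add_mul]
        congr 2
        rw [e4]
      rw [h2, ihe]
      have e5 : (x + 1 + (e + 1 - (e + 1))).choose (x + 1) = 1 := by simp
      have e6 : (x + (e + 1 - (e + 1))).choose x = 1 := by simp
      rw [e6] at h1
      rw [e5]
      have e7 : x + 1 + y + (e + 1) + 1 = (x + y + (e + 1) + 1) + 1 := by omega
      have e8 : x + 1 + y + 1 = (x + y + 1) + 1 := by omega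
      have e9 : x + 1 + y + e + 1 = x + y + (e + 1) + 1 := by omega
      have e10 : (x + y + (e + 1) + 1 + 1).choose (x + y + 1 + 1) =
          (x + y + (e + 1) + 1).choose (x + y + 1) + (x + y + (e + 1) + 1).choose (x + y + 1 + 1) :=
        Nat.choose_succ_succ _ _
      rw [e7, e8, e10, ← h1, e9]
      ring

theorem pVZE : StVZE := by
  intro x y m d hm hmd
  refine ⟨?_, ?_, ?_⟩
  · intro κ _
    rw [vze_TD m d κ hmd]
    unfold sz2 v0
    split_ifs with h
    · rw [sum_product, ← sum_mul_sum]
      have e1 : m - κ = (m - 1 - κ) + 1 := by omega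
      rw [e1, vze_hh, vze_hh]
    · simp
  · have h1 : ∑ κ ∈ range (d+1), v0 x y m κ = ∑ κ ∈ range m, v0 x y m κ := by
      symm
      apply sum_subset
      · intro c hc
        rw [mem_range] at hc ⊢
        omega
      · intro c _ hc
        rw [mem_range] at hc
        unfold v0
        rw [if_neg hc]
    rw [h1]
    have h2 := vze_S x y (m - 1)
    have e1 : m - 1 + 1 = m := by omega
    rw [e1] at h2
    have h3 : ∑ κ ∈ range m, v0 x y m κ =
        ∑ κ ∈ range m, (x + (m - 1 - κ)).choose x * (y + κ).choose y := by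
      apply sum_congr rfl
      intro c hc
      unfold v0
      rw [if_pos (mem_range.1 hc)]
    rw [h3, h2]
    unfold am
    have e2 : x + y + (m - 1) + 1 = x + y + m := by omega
    rw [e2]
    apply Nat.choose_symm_of_eq_add
    omega
  · have h2 := vze_S x y d
    unfold EE
    rw [h2]
    have e2 : x + y + d + 1 = x + y + 1 + d := by omega
    rw [e2]

end Pool.Agent.Helper44.LN
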