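import Pool.Agent.Helper44.LN.StD

/-! Project LN, module WGT: weights realising all the orders at once. -/

set_option autoImplicit false

namespace Pool.Agent.Helper44.LN

open Finset MvPolynomial

/-- the estimates for the values `e κ`, over the integers -/
private theorem wgt_core (m d k s B w : ℕ) (e : ℕ → ℤ) (hs : s < m) (hsd : k + s ≤ d)
    (hB : 4 * m * d + 4 * d + 8 ≤ B) (hB' : 2 * m ≤ B)
    (hw : (2 * s + 1) * w = 2 * B ^ (d - k))
    (hstep : ∀ κ, κ < d → e (κ + 1) = e κ + w - (B : ℤ) ^ (d - κ)) :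
    (∀ κ κ', k < κ → κ < κ' → κ' ≤ d → e κ < e κ') ∧
    (∀ κ κ', κ < k → k ≤ κ' → κ' ≤ d → e κ' < e κ) ∧
    (∀ κ κ', κ < κ' → κ' ≤ k → e κ' < e κ) ∧
    (∀ κ, k < κ → κ ≤ k + s → e κ < e k) ∧
    (∀ κ, k + s < κ → κ ≤ d → e k < e κ) := by
  have hBz : (4 * (m : ℤ) * d + 4 * d + 8) ≤ B := by exact_mod_cast hB
  have hBz' : (2 * (m : ℤ)) ≤ B := by exact_mod_cast hB'
  have hwz : (2 * (s : ℤ) + 1) * w = 2 * (B : ℤ) ^ (d - k) := by exact_mod_cast hw
  have hsz : (s : ℤ) + 1 ≤ m := by exact_mod_cast hs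
  have hs0 : (0 : ℤ) ≤ s := by positivity
  have hd0 : (0 : ℤ) ≤ d := by positivity
  have hm0 : (0 : ℤ) ≤ m := by positivity
  have hw0 : (0 : ℤ) ≤ w := by positivity
  have hB0 : (1 : ℤ) ≤ B := by nlinarith [mul_nonneg hm0 hd0]
  have hP : ∀ n : ℕ, (1 : ℤ) ≤ (B : ℤ) ^ n := fun n => one_le_pow₀ hB0
  have hmono : ∀ a b : ℕ, a ≤ b → (B : ℤ) ^ a ≤ (B : ℤ) ^ b := fun a b h =>
    pow_le_pow_right₀ hB0 h
  have hwle : (w : ℤ) ≤ 2 * (B : ℤ) ^ (d - k) := by
    have : (w : ℤ) ≤ (2 * (s : ℤ) + 1) * w := by nlinarith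
    linarith
  -- increasing steps
  have hi : ∀ κ, k < κ → κ < d → e κ < e (κ + 1) := by
    intro κ h1 h2
    rw [hstep κ h2]
    have h3 : (B : ℤ) * (B : ℤ) ^ (d - κ) ≤ (B : ℤ) ^ (d - k) := by
      rw [← pow_succ']
      exact hmono _ _ (by omega)
    have h4 := hP (d - κ)
    have h5 : (2 * (s : ℤ) + 1) * (B : ℤ) ^ (d - κ) < (2 * (s : ℤ) + 1) * w := by
      rw [hwz]
      have h6 : (2 * (s : ℤ) + 1) * (B : ℤ) ^ (d - κ) < (B : ℤ) * (B : ℤ) ^ (d - κ) * 2 := by
        nlinarith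
      linarith
    have h7 : (B : ℤ) ^ (d - κ) < w := lt_of_mul_lt_mul_left h5 (by linarith)
    linarith
  -- decreasing steps
  have hii : ∀ κ, κ < k → e (κ + 1) < e κ := by
    intro κ h1
    rw [hstep κ (by omega)]
    have h3 : (B : ℤ) * (B : ℤ) ^ (d - k) ≤ (B : ℤ) ^ (d - κ) := by
      rw [← pow_succ']
      exact hmono _ _ (by omega)
    have h4 := hP (d - k)
    have h5 : 2 * (B : ℤ) ^ (d - k) < (B : ℤ) * (B : ℤ) ^ (d - k) := by
      have : (2 : ℤ) < B := by nlinarith [mul_nonneg hm0 hd0]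
      nlinarith
    linarith
  have hA : ∀ κ κ', k < κ → κ < κ' → κ' ≤ d → e κ < e κ' := by
    intro κ κ' h1 h2
    induction κ', h2 using Nat.le_induction with
    | base => intro h3; exact hi κ h1 (by omega)
    | succ n hn ih =>
      intro h3
      exact (ih (by omega)).trans (hi n (by omega) (by omega))
  have hD : ∀ κ κ', κ < κ' → κ' ≤ k → e κ' < e κ := by
    intro κ κ' h2
    induction κ', h2 using Nat.le_induction with
    | base => intro h3; exact hii κ (by omega)
    | succ n hn ih =>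
      intro h3
      exact (hii n (by omega)).trans (ih (by omega))
  -- upper estimate
  have hup : ∀ i : ℕ, k + i ≤ d → e (k + i) ≤ e k + i * w := by
    intro i
    induction i with
    | zero => intro _; simp
    | succ i ih =>
      intro h
      have h1 := ih (by omega)
      have h2 := hstep (k + i) (by omega)
      have h3 := hP (d - (k + i))
      rw [← add_assoc, h2]
      push_cast
      linarith
  have hup1 : ∀ i : ℕ, k + (i + 1) ≤ d →
      e (k + (i + 1)) ≤ e k + (i + 1) * w - (B : ℤ) ^ (d - k) := by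
    intro i
    induction i with
    | zero =>
      intro h
      have h2 := hstep k (by omega)
      simp only [zero_add] at *
      rw [h2]
      push_cast
      linarith
    | succ i ih =>
      intro h
      have h1 := ih (by omega)
      have h2 := hstep (k + (i + 1)) (by omega)
      have h3 := hP (d - (k + (i + 1)))
      have h4 : k + (i + 1 + 1) = k + (i + 1) + 1 := by omega
      rw [h4, h2]
      push_cast
      linarith
  -- lower estimate
  have hlow : ∀ i : ℕ, k + (i + 1) ≤ d →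
      e k + (i + 1) * w - (B : ℤ) ^ (d - k) - i * (B : ℤ) ^ (d - k - 1) ≤ e (k + (i + 1)) := by
    intro i
    induction i with
    | zero =>
      intro h
      have h2 := hstep k (by omega)
      simp only [zero_add] at *
      rw [h2]
      push_cast
      linarith
    | succ i ih =>
      intro h
      have h1 := ih (by omega)
      have h2 := hstep (k + (i + 1)) (by omega)
      have h3 := hmono (d - (k + (i + 1))) (d - k - 1) (by omega)
      have h4 : k + (i + 1 + 1) = k + (i + 1) + 1 := by omega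
      rw [h4, h2]
      push_cast
      linarith
  refine ⟨hA, ?_, hD, ?_, ?_⟩
  · intro κ κ' h1 h2 h3
    have h4 : e κ' ≤ e k + (κ' - k : ℕ) * w := by
      have := hup (κ' - k) (by omega)
      rwa [Nat.add_sub_cancel' h2] at this
    have h5 : e (k - 1) ≤ e κ := by
      rcases Nat.lt_or_ge κ (k - 1) with h | h
      · exact (hD κ (k - 1) h (by omega)).le
      · have : κ = k - 1 := by omega
        rw [this]
    have h6 := hstep (k - 1) (by omega)
    have h7 : k - 1 + 1 = k := by omega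
    rw [h7] at h6
    have h8 : (B : ℤ) ^ (d - (k - 1)) = B * (B : ℤ) ^ (d - k) := by
      rw [← pow_succ']
      congr 1
      omega
    rw [h8] at h6
    have h9 : ((κ' - k : ℕ) : ℤ) ≤ d := by
      have : κ' - k ≤ d := by omega
      exact_mod_cast this
    have h10 : ((κ' - k : ℕ) : ℤ) * w ≤ d * w := mul_le_mul_of_nonneg_right h9 hw0
    have h11 := hP (d - k)
    have h12 : ((d : ℤ) + 1) * w < B * (B : ℤ) ^ (d - k) := by
      have h13 : ((d : ℤ) + 1) * w ≤ ((d : ℤ) + 1) * (2 * (B : ℤ) ^ (d - k)) :=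
        mul_le_mul_of_nonneg_left hwle (by linarith)
      have h14 : 2 * ((d : ℤ) + 1) < B := by nlinarith [mul_nonneg hm0 hd0]
      have h15 : 2 * ((d : ℤ) + 1) * (B : ℤ) ^ (d - k) < B * (B : ℤ) ^ (d - k) :=
        mul_lt_mul_of_pos_right h14 (by linarith)
      linarith
    linarith
  · intro κ h1 h2
    obtain ⟨i, rfl⟩ : ∃ i, κ = k + (i + 1) := ⟨κ - k - 1, by omega⟩
    have h3 := hup1 i (by omega)
    have h4 := hP (d - k)
    have h5 : ((i : ℤ) + 1) ≤ s := by
      have : i + 1 ≤ s := by omega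
      exact_mod_cast this
    have h6 : (2 * (s : ℤ) + 1) * (((i : ℤ) + 1) * w) <
        (2 * (s : ℤ) + 1) * (B : ℤ) ^ (d - k) := by
      calc (2 * (s : ℤ) + 1) * (((i : ℤ) + 1) * w) =
          ((i : ℤ) + 1) * ((2 * (s : ℤ) + 1) * w) := by ring
        _ = ((i : ℤ) + 1) * (2 * (B : ℤ) ^ (d - k)) := by rw [hwz]
        _ ≤ s * (2 * (B : ℤ) ^ (d - k)) := mul_le_mul_of_nonneg_right h5 (by linarith)
        _ < (2 * (s : ℤ) + 1) * (B : ℤ) ^ (d - k) := by linarith
    have h7 := lt_of_mul_lt_mul_left h6 (by linarith)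
    linarith
  · intro κ h1 h2
    have h3 := hlow s (by omega)
    have h4 := hP (d - k - 1)
    have h5 : (B : ℤ) ^ (d - k) = B * (B : ℤ) ^ (d - k - 1) := by
      rw [← pow_succ']
      congr 1
      omega
    have hsd' : (s : ℤ) ≤ d := by
      have : s ≤ d := by omega
      exact_mod_cast this
    have h6 : (2 * (s : ℤ) + 1) * s < B := by
      have e1 : (2 * (s : ℤ) + 1) * s ≤ (2 * (m : ℤ)) * d :=
        mul_le_mul (by linarith) hsd' hs0 (by linarith)
      nlinarith [mul_nonneg hm0 hd0]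
    have h7 : (2 * (s : ℤ) + 1) * (B ^ (d - k) + s * (B : ℤ) ^ (d - k - 1)) <
        (2 * (s : ℤ) + 1) * (((s : ℤ) + 1) * w) := by
      calc (2 * (s : ℤ) + 1) * (B ^ (d - k) + s * (B : ℤ) ^ (d - k - 1)) =
          (2 * (s : ℤ) + 1) * B ^ (d - k) + ((2 * (s : ℤ) + 1) * s) * (B : ℤ) ^ (d - k - 1) := by
            ring
        _ < (2 * (s : ℤ) + 1) * B ^ (d - k) + B * (B : ℤ) ^ (d - k - 1) := by
            have := mul_lt_mul_of_pos_right h6 (by linarith : (0 : ℤ) < (B : ℤ) ^ (d - k - 1))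
            linarith
        _ = ((s : ℤ) + 1) * (2 * (B : ℤ) ^ (d - k)) := by rw [h5]; ring
        _ = (2 * (s : ℤ) + 1) * (((s : ℤ) + 1) * w) := by rw [← hwz]; ring
    have h8 := lt_of_mul_lt_mul_left h7 (by linarith)
    have h9 : e k < e (k + (s + 1)) := by linarith
    rcases Nat.lt_or_ge (k + (s + 1)) κ with h | h
    · exact h9.trans (hA _ _ (by omega) h h2)
    · have : κ = k + (s + 1) := by omega
      rw [this]
      exact h9

theorem pWGT : StWGT := by
  intro m d hm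
  have hB0 : 0 < ∏ s ∈ range m, (2 * s + 1) := Finset.prod_pos (fun s _ => by omega)
  obtain ⟨B, hBdef⟩ : ∃ B, B = (4 * m * d + 4 * d + 8) * (2 * m) * ∏ s ∈ range m, (2 * s + 1) :=
    ⟨_, rfl⟩
  have hB : 4 * m * d + 4 * d + 8 ≤ B := by
    rw [hBdef]
    have h1 : 4 * m * d + 4 * d + 8 ≤ (4 * m * d + 4 * d + 8) * (2 * m) :=
      Nat.le_mul_of_pos_right _ (by omega)
    exact h1.trans (Nat.le_mul_of_pos_right _ hB0)
  have hB' : 2 * m ≤ B := by
    rw [hBdef]
    have h1 : 2 * m ≤ (4 * m * d + 4 * d + 8) * (2 * m) :=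
      Nat.le_mul_of_pos_left _ (by positivity)
    exact h1.trans (Nat.le_mul_of_pos_right _ hB0)
  have hdvd : ∀ s, s < m → 2 * s + 1 ∣ B := by
    intro s hs
    rw [hBdef]
    exact Dvd.dvd.mul_left (Finset.dvd_prod_of_mem (fun s => 2 * s + 1) (Finset.mem_range.2 hs)) _
  refine ⟨fun κ => ∑ l ∈ Ico κ d, B ^ (d - l), ?_⟩
  intro t ht
  obtain ⟨k, hk⟩ : ∃ k, k = t / m := ⟨_, rfl⟩
  obtain ⟨s, hs⟩ : ∃ s, s = min (t % m) (d - k) := ⟨_, rfl⟩
  have hkd : k ≤ d := by
    rw [hk]
    exact Nat.div_le_of_le_mul (by rw [mul_comm]; exact ht)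
  have hsm : s < m := by
    rw [hs]
    exact lt_of_le_of_lt (min_le_left _ _) (Nat.mod_lt _ (by omega))
  have hsd : k + s ≤ d := by
    have : s ≤ d - k := by rw [hs]; exact min_le_right _ _
    omega
  obtain ⟨w, hw⟩ : ∃ w, (2 * s + 1) * w = 2 * B ^ (d - k) := by
    by_cases h : k = d
    · refine ⟨2, ?_⟩
      have : s = 0 := by omega
      rw [this, h]
      simp
    · have h1 : 2 * s + 1 ∣ 2 * B ^ (d - k) := by
        apply Dvd.dvd.mul_left
        exact (hdvd s hsm).trans (dvd_pow_self _ (by omega))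
      obtain ⟨w, hw⟩ := h1
      exact ⟨w, hw.symm⟩
  refine ⟨w, ?_⟩
  obtain ⟨h1, h2, h3, h4, h5⟩ := wgt_core m d k s B w
    (fun κ => ((w * κ + ∑ l ∈ Ico κ d, B ^ (d - l) : ℕ) : ℤ)) hsm hsd hB hB' hw (by
      intro κ hκ
      rw [Finset.sum_eq_sum_Ico_succ_bot hκ]
      push_cast
      ring)
  have hr1 : ∀ a, a < k → rk m d t a = d - a := by
    intro a ha
    unfold rk
    rw [← hk, ← hs, if_pos ha]
  have hr2 : rk m d t k = s := by
    unfold rk
    rw [← hk, ← hs, if_neg (lt_irrefl k), if_pos rfl]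
  have hr3 : ∀ a, k < a → a ≤ k + s → rk m d t a = a - k - 1 := by
    intro a ha ha'
    unfold rk
    rw [← hk, ← hs, if_neg (not_lt.2 ha.le), if_neg ha.ne', if_pos ha']
  have hr4 : ∀ a, k + s < a → rk m d t a = a - k := by
    intro a ha
    unfold rk
    rw [← hk, ← hs, if_neg (by clear * - ha; omega), if_neg (by clear * - ha; omega),
      if_neg (not_le.2 ha)]
  intro κ κ' hκ hκ' hr
  have key : ∀ a b : ℕ, ((w * a + ∑ l ∈ Ico a d, B ^ (d - l) : ℕ) : ℤ) <
      ((w * b + ∑ l ∈ Ico b d, B ^ (d - l) : ℕ) : ℤ) →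
      w * a + ∑ l ∈ Ico a d, B ^ (d - l) < w * b + ∑ l ∈ Ico b d, B ^ (d - l) := by
    intro a b h
    exact_mod_cast h
  apply key
  clear key hBdef hB hB' hdvd hB0 hw ht hs hk hsm hm
  rcases Nat.lt_trichotomy κ k with c1 | c1 | c1
  · -- κ < k
    rw [hr1 κ c1] at hr
    rcases Nat.lt_trichotomy κ' k with c2 | c2 | c2
    · rw [hr1 κ' c2] at hr
      exact h3 κ' κ (by omega) (by omega)
    · exfalso
      rw [c2, hr2] at hr
      omega
    · exfalso
      rcases Nat.lt_or_ge (k + s) κ' with c3 | c3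
      · rw [hr4 κ' c3] at hr
        omega
      · rw [hr3 κ' c2 c3] at hr
        omega
  · -- κ = k
    rw [c1, hr2] at hr
    rcases Nat.lt_trichotomy κ' k with c2 | c2 | c2
    · rw [c1]
      exact h2 κ' k c2 le_rfl hkd
    · exfalso
      rw [c2, hr2] at hr
      omega
    · rw [c1]
      rcases Nat.lt_or_ge (k + s) κ' with c3 | c3
      · exact h5 κ' c3 hκ'
      · exfalso
        rw [hr3 κ' c2 c3] at hr
        omega
  · -- κ > k
    rcases Nat.lt_trichotomy κ' k with c2 | c2 | c2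
    · exact h2 κ' κ c2 c1.le hκ
    · rw [c2]
      rcases Nat.lt_or_ge (k + s) κ with c3 | c3
      · exfalso
        rw [c2, hr2, hr4 κ c3] at hr
        omega
      · exact h4 κ c1 c3
    · apply h1 κ κ' c1 _ hκ'
      rcases Nat.lt_or_ge (k + s) κ with c3 | c3
      · rcases Nat.lt_or_ge (k + s) κ' with c4 | c4
        · rw [hr4 κ c3, hr4 κ' c4] at hr
          omega
        · rw [hr4 κ c3, hr3 κ' c2 c4] at hr
          omega
      · rcases Nat.lt_or_ge (k + s) κ' with c4 | c4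
        · omega
        · rw [hr3 κ c1 c3, hr3 κ' c2 c4] at hr
          omega

end Pool.Agent.Helper44.LN
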