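import Pool.Agent.Helper44.LN.StG

/-! Project LN, module WIN: a deficient test point bounds the dimension. -/

set_option autoImplicit false

namespace Pool.Agent.Helper44.LN

open Finset MvPolynomial

private lemma win_aux (hG : StGRO) (K V T : Type) [Field K] [AddCommGroup V] [Module K V]
    [FiniteDimensional K V] (W : T → ℕ → Submodule K V) (M : T) (hS : SysOK W M)
    (b : ℕ) (hb : ∀ z, Module.finrank K V ≤ Module.finrank K (W M z) + b)
    (u : ℕ) (D : T) (a : ℕ) (ha : Module.finrank K V = Module.finrank K (W D u) + a) :
    ∀ (k : ℕ), k < a → ∀ (τ : ℕ → T) (S : Finset ℕ), u ∉ S →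
      Module.finrank K (⨅ i ∈ S, W (τ i) i : Submodule K V) ≤
        Module.finrank K ((⨅ i ∈ S, W (τ i) i) ⊓ W D u : Submodule K V) + k →
      Module.finrank K (⨅ i ∈ S, W (τ i) i : Submodule K V) ≤ k * b := by
  intro k
  induction k with
  | zero =>
    intro hk τ S hu hF
    by_cases h0 : (⨅ i ∈ S, W (τ i) i : Submodule K V) = ⊥
    · rw [h0, finrank_bot]
      exact Nat.zero_le _
    · exfalso
      obtain ⟨z, hz⟩ := Infinite.exists_notMem_finset (insert u S)
      rw [Finset.mem_insert, not_or] at hz
      have h1 := hG K V T W M hS τ S u z D hu hz.2 hz.1 (by omega) h0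
      have h2 : Module.finrank K (((⨅ i ∈ S, W (τ i) i) ⊓ W M z) ⊓ W D u : Submodule K V) ≤
          Module.finrank K ((⨅ i ∈ S, W (τ i) i) ⊓ W M z : Submodule K V) :=
        Submodule.finrank_mono inf_le_left
      omega
  | succ k ih =>
    intro hk τ S hu hF
    by_cases h0 : (⨅ i ∈ S, W (τ i) i : Submodule K V) = ⊥
    · rw [h0, finrank_bot]
      exact Nat.zero_le _
    · obtain ⟨z, hz⟩ := Infinite.exists_notMem_finset (insert u S)
      rw [Finset.mem_insert, not_or] at hz
      have h1 := hG K V T W M hS τ S u z D hu hz.2 hz.1 (by omega) h0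
      have hI : (⨅ i ∈ insert z S, W (Function.update τ z M i) i : Submodule K V) =
          (⨅ i ∈ S, W (τ i) i) ⊓ W M z := by
        rw [Finset.iInf_insert, Function.update_self, inf_comm]
        congr 1
        refine iInf_congr fun i => iInf_congr fun hi => ?_
        rw [Function.update_of_ne]
        rintro rfl
        exact hz.2 hi
      have hu' : u ∉ insert z S := by
        rw [Finset.mem_insert, not_or]
        exact ⟨fun h => hz.1 h.symm, hu⟩
      have h2 := ih (by omega) (Function.update τ z M) (insert z S) hu'
      rw [hI] at h2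
      have h3 := h2 (by omega)
      have h4 := Submodule.finrank_sup_add_finrank_inf_eq
        (⨅ i ∈ S, W (τ i) i : Submodule K V) (W M z)
      have h5 : Module.finrank K ((⨅ i ∈ S, W (τ i) i) ⊔ W M z : Submodule K V) ≤
          Module.finrank K V := Submodule.finrank_le _
      have h6 := hb z
      have h7 : (k + 1) * b = k * b + b := by ring
      omega

/-- **WIN.** A deficient test point bounds the dimension. -/
theorem pWIN : StGRO → StWIN := by
  intro hG K V T _ _ _ _ W M hS b hb τ S u D a hu ha hlt
  have hpos : 1 ≤ a := by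
    by_contra hc
    have ha0 : a = 0 := by omega
    subst ha0
    have h1 : Module.finrank K ((⨅ i ∈ S, W (τ i) i) ⊓ W D u : Submodule K V) ≤
        Module.finrank K (⨅ i ∈ S, W (τ i) i : Submodule K V) :=
      Submodule.finrank_mono inf_le_left
    omega
  exact win_aux hG K V T W M hS b hb u D a ha (a - 1) (by omega) τ S hu (by omega)

end Pool.Agent.Helper44.LN
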