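import Pool.Agent.Helper44.LN.StA

/-! Project LN, module ZET: uniform gaps. -/

namespace Pool.Agent.Helper44.LN

open Finset

private theorem zet_low {K : Set ℝ} (hK : IsCompact K) {f : ℝ → ℝ} (hf : ContinuousOn f K)
    (hp : ∀ θ ∈ K, 0 < f θ) : ∃ c : ℝ, 0 < c ∧ ∀ θ ∈ K, c ≤ f θ := by
  rcases K.eq_empty_or_nonempty with h | h
  · exact ⟨1, one_pos, fun θ hθ => by simp [h] at hθ⟩
  · obtain ⟨θ0, h0, hmin⟩ := hK.exists_isMinOn h hf
    exact ⟨f θ0, hp θ0 h0, fun θ hθ => hmin hθ⟩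

private theorem zet_fam {K : Set ℝ} (hK : IsCompact K) (n : ℕ) (f : ℕ → ℝ → ℝ)
    (hf : ∀ i < n, ContinuousOn (f i) K) (hp : ∀ i < n, ∀ θ ∈ K, 0 < f i θ) :
    ∃ c : ℝ, 0 < c ∧ ∀ i < n, ∀ θ ∈ K, c ≤ f i θ := by
  induction n with
  | zero => exact ⟨1, one_pos, fun i hi => absurd hi (Nat.not_lt_zero i)⟩
  | succ n ih =>
    obtain ⟨c, hc, h⟩ := ih (fun i hi => hf i (by omega)) (fun i hi => hp i (by omega))
    obtain ⟨c', hc', h'⟩ := zet_low hK (hf n (by omega)) (hp n (by omega))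
    refine ⟨min c c', lt_min hc hc', fun i hi θ hθ => ?_⟩
    rcases Nat.lt_succ_iff_lt_or_eq.mp hi with h1 | h1
    · exact (min_le_left _ _).trans (h i h1 θ hθ)
    · subst h1
      exact (min_le_right _ _).trans (h' θ hθ)

private theorem zet_bn (n i : ℕ) : Continuous (bn n i) := by
  unfold bn
  fun_prop

private theorem zet_Fc (n κ : ℕ) : Continuous (Fc n κ) := by
  unfold Fc
  exact continuous_finsetSum _ fun i _ => zet_bn n i

private theorem zet_dn (m d κ : ℕ) : Continuous (dn m d κ) := by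
  unfold dn
  refine continuous_finsetSum _ fun b _ => ?_
  split_ifs
  · exact zet_bn _ _
  · exact continuous_const

/-- MODULE ZET. -/
theorem pZET : StMON → StZET := by
  intro hM m d Θ hm hd hΘ
  have hΘ0 : (0 : ℝ) < 1 / (Θ : ℝ) := by
    have : (0 : ℝ) < (Θ : ℝ) := by exact_mod_cast (by omega : 0 < Θ)
    positivity
  let K : Set ℝ := Set.Icc (1 / (Θ : ℝ)) (1 - 1 / (Θ : ℝ))
  have hK : IsCompact K := isCompact_Icc
  have h01 : ∀ θ ∈ K, 0 < θ ∧ θ < 1 := fun θ hθ =>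
    ⟨lt_of_lt_of_le hΘ0 hθ.1, lt_of_le_of_lt hθ.2 (by linarith)⟩
  have hmon := fun θ (hθ : θ ∈ K) => hM m d θ hm hd (h01 θ hθ).1 (h01 θ hθ).2
  have hzc : ∀ κ < d, ContinuousOn (zt m d κ) K := by
    intro κ hκ
    unfold zt
    exact ((zet_Fc _ _).sub (zet_Fc _ _)).continuousOn.div (zet_dn m d κ).continuousOn
      fun θ hθ => ((hmon θ hθ).2.2.2 κ hκ).ne'
  obtain ⟨c1, hc1, h1⟩ := zet_low hK (f := fun θ => 1 - zt m d 0 θ)
    (continuousOn_const.sub (hzc 0 (by omega))) (fun θ hθ => by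
      have := (hmon θ hθ).1
      linarith)
  obtain ⟨c2, hc2, h2⟩ := zet_low hK (hzc (d-1) (by omega)) (fun θ hθ => (hmon θ hθ).2.1)
  obtain ⟨c3, hc3, h3⟩ := zet_fam hK (d-1) (fun κ θ => zt m d κ θ - zt m d (κ+1) θ)
    (fun κ hκ => (hzc κ (by omega)).sub (hzc (κ+1) (by omega)))
    (fun κ hκ θ hθ => by
      have := (hmon θ hθ).2.2.1 κ (by omega)
      linarith)
  obtain ⟨c4, hc4, h4⟩ := zet_fam hK d (fun κ θ => dn m d κ θ)
    (fun κ _ => (zet_dn m d κ).continuousOn) (fun κ hκ θ hθ => (hmon θ hθ).2.2.2 κ hκ)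
  refine ⟨min (min c1 c2) (min c3 c4), lt_min (lt_min hc1 hc2) (lt_min hc3 hc4), ?_⟩
  intro θ ha hb
  have hθ : θ ∈ K := ⟨ha, hb⟩
  have e1 : min (min c1 c2) (min c3 c4) ≤ c1 := (min_le_left _ _).trans (min_le_left _ _)
  have e2 : min (min c1 c2) (min c3 c4) ≤ c2 := (min_le_left _ _).trans (min_le_right _ _)
  have e3 : min (min c1 c2) (min c3 c4) ≤ c3 := (min_le_right _ _).trans (min_le_left _ _)
  have e4 : min (min c1 c2) (min c3 c4) ≤ c4 := (min_le_right _ _).trans (min_le_right _ _)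
  refine ⟨?_, e2.trans (h2 θ hθ), ?_, ?_⟩
  · have := h1 θ hθ
    linarith
  · intro κ hκ
    have := h3 κ (by omega) θ hθ
    linarith
  · intro κ hκ
    exact e4.trans (h4 κ hκ θ hθ)

end Pool.Agent.Helper44.LN
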