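import Pool.Agent.Helper44.LN.M_RCN
import Pool.Agent.Helper44.LN.M_RCM
import Pool.Agent.Helper44.LN.M_CNT
import Pool.Agent.Helper44.LN.M_COD
import Pool.Agent.Helper44.LN.M_SYM
import Pool.Agent.Helper44.LN.M_AUT
import Pool.Agent.Helper44.LN.M_DEN
import Pool.Agent.Helper44.LN.M_ROK
import Pool.Agent.Helper44.LN.M_IRR
import Pool.Agent.Helper44.LN.M_KEY
import Pool.Agent.Helper44.LN.M_GRO
import Pool.Agent.Helper44.LN.M_WIN
import Pool.Agent.Helper44.LN.M_ABS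
import Pool.Agent.Helper44.LN.M_LVT
import Pool.Agent.Helper44.LN.M_COE
import Pool.Agent.Helper44.LN.M_BIN
import Pool.Agent.Helper44.LN.M_WGT
import Pool.Agent.Helper44.LN.M_PSC
import Pool.Agent.Helper44.LN.M_TMX
import Pool.Agent.Helper44.LN.M_DEG
import Pool.Agent.Helper44.LN.M_TRF
import Pool.Agent.Helper44.LN.M_GEN
import Pool.Agent.Helper44.LN.M_CHN
import Pool.Agent.Helper44.LN.M_VZE
import Pool.Agent.Helper44.LN.M_LSM
import Pool.Agent.Helper44.LN.M_DGA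
import Pool.Agent.Helper44.LN.M_DGB
import Pool.Agent.Helper44.LN.M_SZB
import Pool.Agent.Helper44.LN.M_SIM
import Pool.Agent.Helper44.LN.M_NTL
import Pool.Agent.Helper44.LN.M_MMV
import Pool.Agent.Helper44.LN.M_BMP
import Pool.Agent.Helper44.LN.M_CSA
import Pool.Agent.Helper44.LN.M_CB1
import Pool.Agent.Helper44.LN.M_CB2
import Pool.Agent.Helper44.LN.M_CON
import Pool.Agent.Helper44.LN.M_SMU
import Pool.Agent.Helper44.LN.M_LAT
import Pool.Agent.Helper44.LN.M_LBD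
import Pool.Agent.Helper44.LN.M_HHA
import Pool.Agent.Helper44.LN.M_MMA
import Pool.Agent.Helper44.LN.M_VEA
import Pool.Agent.Helper44.LN.M_RAS
import Pool.Agent.Helper44.LN.M_REC
import Pool.Agent.Helper44.LN.M_MON
import Pool.Agent.Helper44.LN.M_ZET
import Pool.Agent.Helper44.LN.M_ASY
import Pool.Agent.Helper44.LN.M_DSG
import Pool.Agent.Helper44.LN.M_ASG
import Pool.Agent.Helper44.LN.M_LVS
import Pool.Agent.Helper44.LN.M_LVN
import Pool.Agent.Helper44.LN.M_COR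
import Pool.Agent.Helper44.LN.M_TQQ
import Pool.Agent.Helper44.LN.M_HIL

/-! Project LN: assembly. -/

namespace Pool.Agent.Helper44.LN

open MvPolynomial Pool.Agent.Helper45 Pool.Agent.Helper65.HF Pool.Agent.Helper65.HFL

theorem rRCN : StRCN := pRCN
theorem rRCM : StRCM := pRCM
theorem rCNT : StCNT := pCNT
theorem rCOD : StCOD := pCOD rRCM rCNT
theorem rSYM : StSYM := pSYM rRCN
theorem rIRR : StIRR := pIRR pDEN pROK rRCN
theorem rKEY : StKEY := pKEY rRCN rRCM pAUT rIRR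
theorem rWIN : StWIN := pWIN pGRO
theorem rABS : StABS := pABS rWIN
theorem rLVT : StLVT := pLVT rCNT rCOD rSYM rKEY rABS
theorem rTMX : StTMX := pTMX pBIN pPSC
theorem rDEG : StDEG := pDEG pCOE pWGT rTMX rRCN rRCM
theorem rGEN : StGEN := pGEN rDEG pTRF
theorem rLSM : StLSM := pLSM pCHN pVZE
theorem rCSA : StCSA := pCSA pMMV
theorem rCB1 : StCB1 := pCB1 pMMV pBMP
theorem rCB2 : StCB2 := pCB2 pMMV pBMP
theorem rCON : StCON := pCON pBMP rCSA rCB1 rCB2
theorem rSMU : StSMU := pSMU pMMV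
theorem rLAT : StLAT := pLAT rCON rSMU
theorem rLBD : StLBD := pLBD rLAT rSMU
theorem rMMA : StMMA := pMMA pHHA
theorem rVEA : StVEA := pVEA pHHA pVZE
theorem rRAS : StRAS := pRAS rVEA
theorem rZET : StZET := pZET pMON
theorem rASY : StASY := pASY rMMA rVEA rRAS rZET
theorem rDSG : StDSG := pDSG rLBD pREC rASY rZET rRAS rMMA
theorem rLVS : StLVS := pLVS pSIM
theorem rLVN : StLVN := pLVN rLVT pDGA pDGB pSZB
theorem rCOR : StCOR := pCOR pNTL rDSG pVZE rLSM pASG rLVS rLVN rGEN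
theorem rTQQ : StTQQ := pTQQ rCOR
theorem rHIL : StHIL := pHIL rTQQ

/-- all degrees, in large dimension -/
theorem large2 (m : ℕ) (hm : 1 ≤ m) : ∃ cs C C' : ℕ → ℝ,
    (∀ d, m + 1 ≤ d → 0 < cs d ∧ thr (d + 1 - m) d (cs d) = 0 ∧
      (∀ c, 0 ≤ c → c < cs d → 0 < thr (d + 1 - m) d c)) ∧
    ∃ n0 : ℕ, ∀ n ≥ n0, ∀ r ≥ 1,
      ∃ G : MvPolynomial (Fin r × Fin (n + 1)) ℂ, G ≠ 0 ∧
        ∀ P : Fin r → Fin (n + 1) → ℂ, eval (fun x => P x.1 x.2) G ≠ 0 →
          (∀ i, P i ≠ 0) ∧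
          (∀ d, d < m → hilb (fatIdeal P m) d = ((n + d).choose n : ℝ)) ∧
          hilb (fatIdeal P m) m = ((n + m).choose n : ℝ) -
            (if r ≤ n then ((n + m - r).choose m : ℝ) else 0) ∧
          (∀ d, m + 1 ≤ d → d ≤ 2 * m - 2 → Mid m d n r (cs d) (C d) (C' d) P) ∧
          (r * (n + m - 1).choose n + (n + m).choose (n + 1) ^ 2 ≤
              (n + (2 * m - 1)).choose n ∨
            (n + (2 * m - 1)).choose n + 2 * (n + m).choose (n + 1) ^ 2 + 1 ≤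
              r * (n + m - 1).choose n →
            hilb (fatIdeal P m) (2 * m - 1) =
              ((min ((n + (2 * m - 1)).choose n) (r * (n + m - 1).choose n) : ℕ) : ℝ)) ∧
          (∀ d, 2 * m ≤ d → hilb (fatIdeal P m) d =
              ((min ((n + d).choose n) (r * (n + m - 1).choose n) : ℕ) : ℝ)) := by
  obtain ⟨cs, C, C', h1, n0, h2⟩ := large m hm
  obtain ⟨n1, h3⟩ := rHIL m hm
  refine ⟨cs, C, C', h1, max n0 n1, fun n hn r hr => ?_⟩
  obtain ⟨G, hG, hP⟩ := h2 n (le_trans (le_max_left _ _) hn) r hr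
  obtain ⟨G', hG', hP'⟩ := h3 n (le_trans (le_max_right _ _) hn) r
  refine ⟨G * G', mul_ne_zero hG hG', fun P h => ?_⟩
  rw [map_mul] at h
  obtain ⟨a1, a2, a3, a4, a5⟩ := hP P (left_ne_zero_of_mul h)
  exact ⟨a1, a2, a3, a4, fun hw => a5 (2 * m - 1) le_rfl (Or.inr hw),
    hP' P (right_ne_zero_of_mul h)⟩

end Pool.Agent.Helper44.LN
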