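import Mathlib
import Pool.Agent.Helper98.UAH.Defs

/-! Project LN (MP_b56c98_ag): exact postulation of general fat points for n large and all
degrees d >= 2m. Definitions.

Letters of the docstrings: `x + 1` and `y + 1` are the dimensions of the two blocks of variables
(`inl i`, `i : Fin (x+1)`, and `inr j`, `j : Fin (y+1)`), `n = x + y + 1`. -/

namespace Pool.Agent.Helper44.LN

open Finset MvPolynomial

/-- index type of the variables: two blocks -/
abbrev Vr (x y : ℕ) : Type := Fin (x+1) ⊕ Fin (y+1)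

/-- exponents of bidegree `(p, q)` -/
noncomputable def Cx (x y p q : ℕ) : Finset (Vr x y →₀ ℕ) := by
  classical
  exact ((Finset.univ : Finset (Vr x y)).finsuppAntidiag (p+q)).filter
    (fun γ => ∑ i : Fin (x+1), γ (Sum.inl i) = p)

/-- pairs of square matrices -/
abbrev Mt (x y : ℕ) (R : Type*) : Type _ :=
  Matrix (Fin (x+1)) (Fin (x+1)) R × Matrix (Fin (y+1)) (Fin (y+1)) R

/-- linear substitution by a pair of matrices -/
noncomputable def sb {R : Type*} [CommRing R] {x y : ℕ} (g : Mt x y R) :
    MvPolynomial (Vr x y) R →ₐ[R] MvPolynomial (Vr x y) R :=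
  aeval (Sum.elim
    (fun i => ∑ j, C (g.1 i j) * (X (Sum.inl j) : MvPolynomial (Vr x y) R))
    (fun i => ∑ j, C (g.2 i j) * (X (Sum.inr j) : MvPolynomial (Vr x y) R)))

/-- matrix of the substitution on exponents -/
noncomputable def rc {R : Type*} [CommRing R] {x y : ℕ} (g : Mt x y R)
    (γ γ' : Vr x y →₀ ℕ) : R := coeff γ (sb g (monomial γ' 1))

/-- matrix of the substitution on polynomials of bidegree `(p, q)` -/
noncomputable def RC {R : Type*} [CommRing R] {x y : ℕ} (p q : ℕ) (g : Mt x y R) :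
    Matrix (Cx x y p q) (Cx x y p q) R := fun γ γ' => rc g γ.1 γ'.1

/-- coefficient vectors of polynomials of bidegree `(p, q)` -/
abbrev Vc (K : Type*) (x y p q : ℕ) : Type _ := Cx x y p q → K

/-- coefficient vectors `v` such that the coefficients of `(RC g) v` at the exponents `γ` with
`(p - γ (inl 0), q - γ (inr 0)) ∈ D` vanish: the polynomial with coefficients `v` satisfies the
conditions of type `D` at the point `(g.1 e_0, g.2 e_0)` -/
noncomputable def Wt (K : Type*) [Field K] (x y p q : ℕ) (g : Mt x y K) (D : Finset (ℕ × ℕ)) :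
    Submodule K (Vc K x y p q) where
  carrier := {v | ∀ γ : Cx x y p q, (p - γ.1 (Sum.inl 0), q - γ.1 (Sum.inr 0)) ∈ D →
    (RC p q g).mulVec v γ = 0}
  add_mem' := by
    intro v w hv hw γ hγ
    rw [Matrix.mulVec_add, Pi.add_apply, hv γ hγ, hw γ hγ, add_zero]
  zero_mem' := by
    intro γ _
    rw [Matrix.mulVec_zero, Pi.zero_apply]
  smul_mem' := by
    intro r v hv γ hγ
    rw [Matrix.mulVec_smul, Pi.smul_apply, hv γ hγ, smul_zero]

lemma mem_Wt {K : Type*} [Field K] {x y p q : ℕ} {g : Mt x y K} {D : Finset (ℕ × ℕ)}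
    {v : Vc K x y p q} :
    v ∈ Wt K x y p q g D ↔ ∀ γ : Cx x y p q,
      (p - γ.1 (Sum.inl 0), q - γ.1 (Sum.inr 0)) ∈ D → (RC p q g).mulVec v γ = 0 := Iff.rfl

/-- index type of the matrix entries of one generic point -/
abbrev Ix (x y : ℕ) : Type := (Fin (x+1) × Fin (x+1)) ⊕ (Fin (y+1) × Fin (y+1))

/-- polynomial ring in the entries of countably many pairs of matrices -/
abbrev Pf (x y : ℕ) : Type := MvPolynomial (ℕ × Ix x y) ℂ

/-- function field of countably many pairs of matrices -/
abbrev Kf (x y : ℕ) : Type := FractionRing (Pf x y)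

/-- the generic pairs of matrices -/
noncomputable def gn (x y : ℕ) (i : ℕ) : Mt x y (Kf x y) :=
  (Matrix.of fun j l => algebraMap (Pf x y) (Kf x y) (X (i, Sum.inl (j, l))),
   Matrix.of fun j l => algebraMap (Pf x y) (Kf x y) (X (i, Sum.inr (j, l))))

/-- number of monomials of degree `a` in `x` variables -/
def hh (x a : ℕ) : ℕ := (x + a - 1).choose a

/-- number of conditions of type `D` -/
def sz2 (x y : ℕ) (D : Finset (ℕ × ℕ)) : ℕ := ∑ p ∈ D, hh x p.1 * hh y p.2

/-- degree of a type -/
def dg (D : Finset (ℕ × ℕ)) : ℕ := D.sup (fun p => p.1 + p.2)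

/-- maximal type of multiplicity `m` in bidegree `(p, q)` -/
def TM (m p q : ℕ) : Finset (ℕ × ℕ) :=
  ((range (p+1)) ×ˢ (range (q+1))).filter (fun c => c.1 + c.2 < m)

/-- rank of the level `κ` in the class `t`; `k = t / m`, `s = min (t % m) (d - k)`. Order of the
levels: `k+1, ..., k+s, k, k+s+1, ..., d, k-1, ..., 0` -/
def rk (m d t κ : ℕ) : ℕ :=
  if κ < t / m then d - κ
  else if κ = t / m then min (t % m) (d - t / m)
  else if κ ≤ t / m + min (t % m) (d - t / m) then κ - t / m - 1
  else κ - t / m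

/-- number of admissible levels before `κ` -/
def ps (m d t a b κ : ℕ) : ℕ := ((Icc b (d-a)).filter (fun κ' => rk m d t κ' < rk m d t κ)).card

/-- type at level `κ` of a point of multiplicity `μ` and of class `t` -/
def TD (m d t μ κ : ℕ) : Finset (ℕ × ℕ) :=
  ((range μ) ×ˢ (range μ)).filter (fun c => c.1 + c.2 < μ ∧ c.2 ≤ κ ∧ c.1 + κ ≤ d ∧
    ps m d t c.1 c.2 κ < μ - c.1 - c.2)

/-- number of units moved from level `k` to level `k + σ` by one exchange -/
def Mm (x y m d k σ : ℕ) : ℕ :=
  if k + σ ≤ d then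
    ∑ b ∈ range (m - σ + 1),
      if b ≤ k ∧ (m - σ - b) + k + σ ≤ d then hh x (m - σ - b) * hh y b else 0
  else 0

/-- dimension of level `κ` -/
def EE (x y d κ : ℕ) : ℕ := (x + (d - κ)).choose x * (y + κ).choose y

/-- level vector of the class `0` -/
def v0 (x y m κ : ℕ) : ℕ := if κ < m then (x + (m - 1 - κ)).choose x * (y + κ).choose y else 0

/-- number of conditions of a point of multiplicity `m` in dimension `n = x + y + 1` -/
def am (x y m : ℕ) : ℕ := (x + y + m).choose (m - 1)

/-- generic ideal of a point, for an arbitrary index type of variables -/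
noncomputable def ptJ {F σ : Type*} [Field F] (P : σ → F) : Ideal (MvPolynomial σ F) :=
  Ideal.span {f | (∃ d, f.IsHomogeneous d) ∧ eval P f = 0}

end Pool.Agent.Helper44.LN
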