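import Pool.Agent.Helper44.LN.StG

/-! Project LN, module ABS (absorption), by helper57. -/

namespace Pool.Agent.Helper44.LN

open Finset

private lemma abs_step {K V T : Type} [Field K] [AddCommGroup V] [Module K V]
    [FiniteDimensional K V] (W : T → ℕ → Submodule K V) (a δ : T → ℕ)
    (hcod : ∀ t i, Module.finrank K V = Module.finrank K (W t i) + a t) (τ : ℕ → T) :
    ∀ (n : ℕ) (S : Finset ℕ), S.card = n →
      (Module.finrank K (⨅ i ∈ S, W (τ i) i : Submodule K V) + ∑ i ∈ S, a (τ i) =
        Module.finrank K V) ∨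
      ∃ (S1 : Finset ℕ) (u : ℕ), u ∉ S1 ∧ insert u S1 ⊆ S ∧
        (∀ i ∈ S1, δ (τ u) ≤ δ (τ i)) ∧
        Module.finrank K (⨅ i ∈ S1, W (τ i) i : Submodule K V) <
          Module.finrank K ((⨅ i ∈ S1, W (τ i) i) ⊓ W (τ u) u : Submodule K V) + a (τ u) ∧
        Module.finrank K (⨅ i ∈ S, W (τ i) i : Submodule K V) + ∑ i ∈ S \ insert u S1, a (τ i) =
          Module.finrank K ((⨅ i ∈ S1, W (τ i) i) ⊓ W (τ u) u : Submodule K V) := by
  intro n
  induction n with
  | zero =>
    intro S hS
    rw [Finset.card_eq_zero] at hS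
    subst hS
    left
    have h1 : (⨅ i ∈ (∅ : Finset ℕ), W (τ i) i : Submodule K V) = ⊤ := by simp
    rw [h1, finrank_top, Finset.sum_empty, Nat.add_zero]
  | succ n ih =>
    intro S hS
    have hne : S.Nonempty := by
      rw [← Finset.card_pos]; omega
    obtain ⟨u, huS, hmin⟩ := Finset.exists_min_image S (fun i => δ (τ i)) hne
    have hcard : (S.erase u).card = n := by
      rw [Finset.card_erase_of_mem huS]; omega
    have hins : insert u (S.erase u) = S := Finset.insert_erase huS
    have hI : (⨅ i ∈ S, W (τ i) i : Submodule K V) =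
        (⨅ i ∈ S.erase u, W (τ i) i) ⊓ W (τ u) u := by
      conv_lhs => rw [← hins]
      rw [Finset.iInf_insert, inf_comm]
    have hsum : ∑ i ∈ S, a (τ i) = a (τ u) + ∑ i ∈ S.erase u, a (τ i) := by
      rw [Finset.add_sum_erase S (fun i => a (τ i)) huS]
    have hle : Module.finrank K (⨅ i ∈ S.erase u, W (τ i) i : Submodule K V) ≤
        Module.finrank K ((⨅ i ∈ S.erase u, W (τ i) i) ⊓ W (τ u) u : Submodule K V) +
          a (τ u) := by
      have h1 := Submodule.finrank_sup_add_finrank_inf_eq
        (⨅ i ∈ S.erase u, W (τ i) i : Submodule K V) (W (τ u) u)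
      have h2 := Submodule.finrank_le
        ((⨅ i ∈ S.erase u, W (τ i) i : Submodule K V) ⊔ W (τ u) u)
      have h3 := hcod (τ u) u
      omega
    rcases Nat.lt_or_ge (Module.finrank K (⨅ i ∈ S.erase u, W (τ i) i : Submodule K V))
        (Module.finrank K ((⨅ i ∈ S.erase u, W (τ i) i) ⊓ W (τ u) u : Submodule K V) +
          a (τ u)) with hlt | hge
    · right
      refine ⟨S.erase u, u, Finset.notMem_erase u S, ?_, ?_, hlt, ?_⟩
      · rw [hins]
      · intro i hi
        exact hmin i (Finset.mem_of_mem_erase hi)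
      · rw [hins, hI]
        simp
    · have heq := le_antisymm hle hge
      rcases ih (S.erase u) hcard with hA | ⟨S1, v, hv, hsub, hδ, hdef, hB⟩
      · left
        rw [hI, hsum]
        omega
      · right
        refine ⟨S1, v, hv, hsub.trans (Finset.erase_subset u S), hδ, hdef, ?_⟩
        have hu : u ∈ S \ insert v S1 := by
          rw [Finset.mem_sdiff]
          refine ⟨huS, fun h => ?_⟩
          exact Finset.notMem_erase u S (hsub h)
        have hs2 : ∑ i ∈ S \ insert v S1, a (τ i) =
            a (τ u) + ∑ i ∈ S.erase u \ insert v S1, a (τ i) := by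
          rw [← Finset.add_sum_erase (S \ insert v S1) (fun i => a (τ i)) hu,
            Finset.erase_sdiff_comm]
        rw [hs2, hI]
        omega

theorem pABS : StWIN → StABS := by
  intro hWIN K V T _ _ _ _ W M hOK a δ hcod h0 τ S hdim habs
  have hfin : Module.finrank K (⨅ i ∈ S, W (τ i) i : Submodule K V) = 0 := by
    rcases abs_step W a δ hcod τ S.card S rfl with hA | ⟨S1, u, hu, hsub, hδ, hdef, hB⟩
    · omega
    · have hW := hWIN K V T W M hOK (a M) (fun z => (hcod M z).le) τ S1 u (τ u) (a (τ u)) hu
        (hcod (τ u) u) hdef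
      have hle : Module.finrank K ((⨅ i ∈ S1, W (τ i) i) ⊓ W (τ u) u : Submodule K V) ≤
          Module.finrank K (⨅ i ∈ S1, W (τ i) i : Submodule K V) :=
        Submodule.finrank_mono inf_le_left
      rcases Nat.eq_zero_or_pos (δ (τ u)) with hz | hp
      · have h1 := h0 (τ u) hz
        have h2 : a (τ u) - 1 = 0 := by omega
        rw [h2, Nat.zero_mul] at hW
        omega
      · have huS : u ∈ S := hsub (Finset.mem_insert_self u S1)
        have h1 := habs u huS hp
        have h2 : ∑ j ∈ S.filter (fun j => δ (τ j) + 1 = δ (τ u)), a (τ j) ≤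
            ∑ i ∈ S \ insert u S1, a (τ i) := by
          apply Finset.sum_le_sum_of_subset
          intro j hj
          rw [Finset.mem_filter] at hj
          rw [Finset.mem_sdiff, Finset.mem_insert]
          refine ⟨hj.1, ?_⟩
          rintro (h | h)
          · rw [h] at hj
            omega
          · have := hδ j h
            omega
        have h3 : (a (τ u) - 1) * a M ≤ a (τ u) * a M :=
          Nat.mul_le_mul_right _ (Nat.sub_le _ _)
        omega
  exact Submodule.finrank_eq_zero.mp hfin

end Pool.Agent.Helper44.LN
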