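import Pool.Agent.Helper44.LN.StF

/-! Project LN, module COR: the theorem near the critical number of points. -/

namespace Pool.Agent.Helper44.LN

open Finset MvPolynomial Pool.Agent.Helper46.EAH

private lemma COR_tel (Z : ℕ → ℕ) (L : ℕ) (h : ∀ t < L, Z (t+1) ≤ Z t) :
    ∀ k ≤ L, ∑ u ∈ range k, (Z u - Z (u+1)) + Z k = Z 0 := by
  intro k
  induction k with
  | zero => intro _; simp
  | succ k ih =>
    intro hk
    have h1 := ih (by omega)
    have h2 := h k (by omega)
    rw [Finset.sum_range_succ]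
    omega

theorem pCOR : StNTL → StDSG → StVZE → StLSM → StASG → StLVS → StLVN → StGEN → StCOR := by
  intro hNTL hDSG hVZE hLSM hASG hLVS hLVN hGEN m d hm hd
  obtain ⟨Θ, s0, hΘ, hs0⟩ := hNTL m hm
  obtain ⟨C1, hC1⟩ := hLVN m d Θ hm hd (by omega)
  obtain ⟨s2, hs2⟩ := hDSG m d Θ C1 hm hd hΘ
  refine ⟨max s0 (max s2 (max m 1)) + 1, ?_⟩
  intro n hn r q hcase
  have e0 : s0 ≤ max s0 (max s2 (max m 1)) := le_max_left _ _
  have e1 : max s2 (max m 1) ≤ max s0 (max s2 (max m 1)) := le_max_right _ _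
  have e2 : s2 ≤ max s2 (max m 1) := le_max_left _ _
  have e3 : max m 1 ≤ max s2 (max m 1) := le_max_right _ _
  have e4 : m ≤ max m 1 := le_max_left _ _
  obtain ⟨x, y, hxy, hx, hy, hNT⟩ := hs0 (n - 1) (by omega)
  have hn' : n = x + y + 1 := by omega
  have hNT' : NTC m (x + y) y := by rw [hxy]; exact hNT
  have hTB2 : TB Θ x y s2 := ⟨by omega, by rw [hxy]; exact hx, by rw [hxy]; exact hy⟩
  have hTBm : TB Θ x y m := ⟨by omega, by rw [hxy]; exact hx, by rw [hxy]; exact hy⟩
  obtain ⟨_, _, hEE⟩ := hVZE x y m d hm (by omega)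
  have hNm : N n m = am x y m := by
    unfold N am
    rw [if_neg (by omega), hn']
    have h1 : x + y + 1 + m - 1 = x + y + m := by omega
    rw [h1]
    have h2 : m - 1 = x + y + m - (x + y + 1) := by omega
    rw [h2]
    exact (Nat.choose_symm (by omega)).symm
  have hNd : N n (d + 1) = ∑ κ ∈ range (d+1), EE x y d κ := by
    rw [hEE]
    unfold N
    rw [if_neg (by omega), hn']
    have h1 : x + y + 1 + (d + 1) - 1 = x + y + 1 + d := by omega
    rw [h1]
  rw [hNm, hNd] at hcase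
  have hCrit : Crit x y m d r := by
    unfold Crit
    have hs : (∑ κ ∈ range (d+1), (EE x y d κ : ℤ)) =
        ((∑ κ ∈ range (d+1), EE x y d κ : ℕ) : ℤ) := by push_cast; rfl
    rw [hs]
    obtain ⟨S, hS⟩ : ∃ S, S = ∑ κ ∈ range (d+1), EE x y d κ := ⟨_, rfl⟩
    rw [← hS] at hcase ⊢
    rw [abs_le]
    rcases hcase with ⟨h1, h2⟩ | ⟨_, h1, h2⟩
    · have h1' : (r : ℤ) * am x y m + q = S := by exact_mod_cast h1
      have h2' : (q : ℤ) ≤ am x y m := by exact_mod_cast h2
      have h3' : (0 : ℤ) ≤ q := Int.natCast_nonneg q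
      constructor <;> linarith
    · have h1' : (S : ℤ) ≤ (r : ℤ) * am x y m := by exact_mod_cast h1
      have h2' : (r : ℤ) * am x y m ≤ S + am x y m := by exact_mod_cast h2
      have h3' : (0 : ℤ) ≤ am x y m := Int.natCast_nonneg _
      constructor <;> linarith
  obtain ⟨Z, hZ0, hZstep, hZlast, hZcut⟩ := hs2 x y hTB2 hNT' r hCrit
  have hanti : ∀ t < d * m, Z (t+1) ≤ Z t :=
    fun t ht => le_trans (Nat.le_add_right _ _) (hZstep t ht)
  obtain ⟨hl1, hl2⟩ := hLSM x y m d r Z hm hd hZ0 hanti hZcut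
  obtain ⟨c, hc⟩ : ∃ c : ℕ → ℕ, ∀ u, c u = Z u - (if u = d*m then 0 else Z (u+1)) :=
    ⟨_, fun u => rfl⟩
  have hcsum : ∑ u ∈ range (d*m+1), c u = r := by
    rw [Finset.sum_range_succ, ← hZ0, ← COR_tel Z (d*m) hanti (d*m) le_rfl]
    congr 1
    · apply Finset.sum_congr rfl
      intro u hu
      rw [hc, if_neg (by have := Finset.mem_range.1 hu; omega)]
    · rw [hc, if_pos rfl]; simp
  have hcbig : ∀ u ≤ d * m, C1 * (x+y)^m ≤ c u := by
    intro u hu
    rw [hc]
    by_cases h : u = d * m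
    · rw [if_pos h, h]; simpa using hZlast
    · rw [if_neg h]
      have := hZstep u (by omega)
      omega
  obtain ⟨t, ht1, ht2, ht3⟩ := hASG c (d*m) r hcsum
  have hlev : ∀ κ ≤ d, ∑ i ∈ range (r+q), sz2 x y (TD m d (t i) (if i < r then m else 1) κ) =
      ∑ u ∈ range (d*m+1), (Z u - (if u = d*m then 0 else Z (u+1))) *
        sz2 x y (TD m d u m κ) + (if κ = d then q else 0) := by
    intro κ hκ
    rw [hLVS x y m d r q t hm ht1 ht2 κ hκ]
    congr 1
    apply Finset.sum_congr rfl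
    intro u hu
    rw [ht3 u (by have := Finset.mem_range.1 hu; omega), hc]
  have hEEle : ∀ κ ≤ d, EE x y d κ ≤
      ∑ i ∈ range (r+q), sz2 x y (TD m d (t i) (if i < r then m else 1) κ) := by
    intro κ hκ
    rw [hlev κ hκ]
    by_cases hκd : κ = d
    · rw [if_pos hκd, hκd]
      rw [Finset.sum_range_succ (fun κ => EE x y d κ)] at hcase
      rcases hcase with ⟨h1, h2⟩ | ⟨h0, h1, h2⟩
      · omega
      · omega
    · rw [if_neg hκd, hl1 κ (by omega)]
      simp
  have hbot : ∀ κ ≤ d, (⨅ i ∈ range (r+q), Wt (Kf x y) x y (d-κ) κ (gn x y i)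
      (TD m d (t i) (if i < r then m else 1) κ) :
      Submodule (Kf x y) (Vc (Kf x y) x y (d-κ) κ)) = ⊥ := by
    intro κ hκ
    apply hC1 x y hTBm r q t _ κ hκ (hEEle κ hκ)
    intro u hu
    rw [ht3 u hu]
    exact hcbig u hu
  have hfin := hGEN x y m d (range (r+q)) t (fun i => if i < r then m else 1) hm
    (fun i _ => ht1 i)
    (by
      intro i _
      show (if i < r then m else 1) ≤ d
      split_ifs <;> omega)
    hbot
  have hμ : (fun i => if i < r then m else 1) = exm (fun _ : Fin r => m) := by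
    funext i
    unfold exm
    by_cases h : i < r
    · rw [dif_pos h, if_pos h]
    · rw [dif_neg h, if_neg h]
  rw [← hμ, hn']
  exact hfin

end Pool.Agent.Helper44.LN
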