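import Pool.Agent.Helper44.LN.StC

/-! Project LN, module DGA. -/

namespace Pool.Agent.Helper44.LN

open Finset

private theorem dga_ps {m d κ s a b : ℕ} (hs : s < m) (hd : κ + m ≤ d) (hb : b ≤ κ)
    (ha : a + κ ≤ d) : ps m d (κ * m + s) a b κ = min s (d - a - κ) := by
  have h1 : (κ * m + s) / m = κ := by
    rw [add_comm, Nat.add_mul_div_right _ _ (by omega), Nat.div_eq_of_lt hs, zero_add]
  have h2 : (κ * m + s) % m = s := by
    rw [add_comm, Nat.add_mul_mod_self_right, Nat.mod_eq_of_lt hs]
  have h3 : min s (d - κ) = s := by omega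
  unfold ps rk
  rw [h1, h2, h3]
  have h4 : (Icc b (d - a)).filter (fun κ' =>
      (if κ' < κ then d - κ' else if κ' = κ then s else if κ' ≤ κ + s then κ' - κ - 1
        else κ' - κ) <
      (if κ < κ then d - κ else if κ = κ then s else if κ ≤ κ + s then κ - κ - 1 else κ - κ)) =
      Ioc κ (min (κ + s) (d - a)) := by
    ext x
    simp only [mem_filter, mem_Icc, mem_Ioc, lt_irrefl, if_false, if_true]
    constructor
    · rintro ⟨⟨h5, h6⟩, h7⟩
      split_ifs at h7 <;> omega
    · rintro ⟨h5, h6⟩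
      refine ⟨⟨by omega, by omega⟩, ?_⟩
      split_ifs <;> omega
  rw [h4, Nat.card_Ioc]
  omega

theorem pDGA : StDGA := by
  intro m d κ δ hd hδ
  have hmem : (δ, 0) ∈ TD m d (κ * m + (m - 1 - δ)) m κ := by
    unfold TD
    rw [mem_filter, mem_product, mem_range, mem_range]
    refine ⟨⟨hδ, by omega⟩, by simp only; omega, by simp only; omega, by simp only; omega, ?_⟩
    rw [dga_ps (by omega) hd (by simp only; omega) (by simp only; omega)]
    simp only
    omega
  refine ⟨le_antisymm ?_ ?_, hmem⟩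
  · unfold dg
    refine Finset.sup_le fun c hc => ?_
    unfold TD at hc
    rw [mem_filter, mem_product, mem_range, mem_range] at hc
    obtain ⟨⟨h1, h2⟩, h3, h4, h5, h6⟩ := hc
    rw [dga_ps (by omega) hd h4 h5] at h6
    omega
  · exact (Finset.le_sup (f := fun p : ℕ × ℕ => p.1 + p.2) hmem).trans_eq' rfl

end Pool.Agent.Helper44.LN
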