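import Pool.Agent.Helper44.LN.StL

/-! Project LN, module LBD (helper63): integer vectors as cut vectors with few exchanges. -/

set_option autoImplicit false

namespace Pool.Agent.Helper44.LN

open Finset

private lemma lbd_Cut_add (x y m d : ℕ) (c c' : ℕ → ℤ) (κ : ℕ) :
    Cut x y m d (fun u => c u + c' u) κ = Cut x y m d c κ + Cut x y m d c' κ := by
  unfold Cut
  rw [← Finset.sum_add_distrib]
  refine sum_congr rfl fun u _ => ?_
  split_ifs <;> ring

private lemma lbd_Cut_smul (x y m d : ℕ) (a : ℤ) (c : ℕ → ℤ) (κ : ℕ) :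
    Cut x y m d (fun u => a * c u) κ = a * Cut x y m d c κ := by
  unfold Cut
  rw [Finset.mul_sum]
  refine sum_congr rfl fun u _ => ?_
  split_ifs <;> ring

private lemma lbd_Cut_sum (x y m d : ℕ) (S : Finset ℕ) (c : ℕ → ℕ → ℤ) (κ : ℕ) :
    Cut x y m d (fun u => ∑ i ∈ S, c i u) κ = ∑ i ∈ S, Cut x y m d (c i) κ := by
  induction S using Finset.induction_on with
  | empty =>
    simp only [Finset.sum_empty]
    unfold Cut
    exact Finset.sum_eq_zero fun u _ => by split_ifs <;> simp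
  | insert i S hi ih =>
    rw [Finset.sum_insert hi, ← ih, ← lbd_Cut_add]
    congr 1
    funext u
    rw [Finset.sum_insert hi]

private lemma lbd_hh_le {x y m a : ℕ} (ha : a ≤ m) : hh x a ≤ (x + y + m) ^ a := by
  unfold hh
  rcases Nat.eq_zero_or_pos a with h | h
  · subst h; simp
  · exact (Nat.choose_le_pow _ _).trans (Nat.pow_le_pow_left (by omega) _)

private lemma lbd_Mm_le {x y m d k σ : ℕ} (hσ : 1 ≤ σ) (hy : 1 ≤ y) (hm : 1 ≤ m) :
    Mm x y m d k σ ≤ m * ((m + 1) ^ (m - 1) * (x + y) ^ (m - 1)) := by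
  unfold Mm
  split_ifs with h
  · have h1 : ∀ b ∈ range (m - σ + 1),
        (if b ≤ k ∧ (m - σ - b) + k + σ ≤ d then hh x (m - σ - b) * hh y b else 0) ≤
          (m + 1) ^ (m - 1) * (x + y) ^ (m - 1) := by
      intro b hb
      rw [mem_range] at hb
      split_ifs with h2
      · have e1 : hh x (m - σ - b) ≤ (x + y + m) ^ (m - σ - b) := lbd_hh_le (by omega)
        by_cases hbm : b ≤ m - 1
        · have e2 : hh y b ≤ (y + x + m) ^ b := lbd_hh_le (by omega)
          calc hh x (m - σ - b) * hh y b ≤ (x + y + m) ^ (m - σ - b) * (y + x + m) ^ b :=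
                Nat.mul_le_mul e1 e2
            _ = (x + y + m) ^ ((m - σ - b) + b) := by
                rw [Nat.add_comm y x, pow_add]
            _ ≤ (x + y + m) ^ (m - 1) := Nat.pow_le_pow_right (by omega) (by omega)
            _ ≤ ((m + 1) * (x + y)) ^ (m - 1) := Nat.pow_le_pow_left (by nlinarith) _
            _ = (m + 1) ^ (m - 1) * (x + y) ^ (m - 1) := Nat.mul_pow _ _ _
        · omega
      · exact Nat.zero_le _
    calc _ ≤ ∑ _b ∈ range (m - σ + 1), (m + 1) ^ (m - 1) * (x + y) ^ (m - 1) := sum_le_sum h1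
      _ = (m - σ + 1) * ((m + 1) ^ (m - 1) * (x + y) ^ (m - 1)) := by
          rw [sum_const, card_range, smul_eq_mul]
      _ ≤ m * ((m + 1) ^ (m - 1) * (x + y) ^ (m - 1)) := Nat.mul_le_mul_right _ (by omega)
  · exact Nat.zero_le _

theorem pLBD : StLAT → StSMU → StLBD := by
  intro hLAT hSMU m d hm hmd
  refine ⟨1 + 2 * d + 2 * d * (d * m * (m * (m + 1) ^ (m - 1))), ?_⟩
  intro x y hy hN T t ht
  obtain ⟨c0, hc0⟩ := hLAT x y m d hm hmd hy hN t
  have hsm := fun κ0 (h : κ0 < d) => hSMU x y m d κ0 hm hmd h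
  set s : ℤ := (x : ℤ) + y with hs
  have hs1 : 1 ≤ s := by rw [hs]; omega
  set A : ℤ := ((m * ((m + 1) ^ (m - 1) * (x + y) ^ (m - 1)) : ℕ) : ℤ) with hA
  have hA0 : 0 ≤ A := by rw [hA]; positivity
  set c1 : ℕ → ℤ := fun u => c0 u % s with hc1
  set q : ℕ → ℤ := fun u => c0 u / s with hq
  have hc1n : ∀ u, 0 ≤ c1 u ∧ c1 u < s := fun u =>
    ⟨Int.emod_nonneg _ (by omega), Int.emod_lt_of_pos _ (by omega)⟩
  have hdec : ∀ κ, Cut x y m d c0 κ = Cut x y m d c1 κ + s * Cut x y m d q κ := by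
    intro κ
    rw [← lbd_Cut_smul, ← lbd_Cut_add]
    congr 1
    funext u
    exact (Int.emod_add_mul_ediv (c0 u) s).symm
  set t' : ℕ → ℤ := fun κ => Cut x y m d q κ with ht'
  have hCc1 : ∀ κ, |Cut x y m d c1 κ| ≤ (d * m : ℕ) * (A * s) := by
    intro κ
    unfold Cut
    refine (Finset.abs_sum_le_sum_abs _ _).trans ?_
    calc _ ≤ ∑ _u ∈ range (d * m), A * s := by
          refine sum_le_sum fun u _ => ?_
          split_ifs with h
          · rw [abs_mul, abs_of_nonneg (hc1n u).1]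
            have e1 : |((Mm x y m d (u / m) (u % m + 1) : ℕ) : ℤ)| ≤ A := by
              rw [abs_of_nonneg (by positivity), hA]
              exact_mod_cast lbd_Mm_le (by omega) hy hm
            exact mul_le_mul e1 (hc1n u).2.le (hc1n u).1 hA0
          · rw [abs_zero]; exact mul_nonneg hA0 (by omega)
      _ = (d * m : ℕ) * (A * s) := by
          rw [sum_const, card_range, nsmul_eq_mul]
  have ht's : ∀ κ < d, s * |t' κ| ≤ T + (d * m : ℕ) * (A * s) := by
    intro κ hκ
    have e1 : s * t' κ = t κ - Cut x y m d c1 κ := by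
      have := hdec κ
      rw [hc0 κ hκ] at this
      rw [ht']; linarith
    have e2 : s * |t' κ| = |s * t' κ| := by rw [abs_mul, abs_of_nonneg (by omega : 0 ≤ s)]
    rw [e2, e1]
    refine (abs_sub _ _).trans ?_
    have := ht κ hκ
    have := hCc1 κ
    linarith
  choose! b hb1 hb2 using hsm
  refine ⟨fun u => c1 u + ∑ κ0 ∈ range d, t' κ0 * b κ0 u, ?_, ?_⟩
  · intro κ hκ
    rw [lbd_Cut_add, lbd_Cut_sum]
    have e1 : ∑ κ0 ∈ range d, Cut x y m d (fun u => t' κ0 * b κ0 u) κ = s * t' κ := by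
      rw [Finset.sum_eq_single κ]
      · rw [lbd_Cut_smul, hb2 κ hκ κ hκ, if_pos rfl]; ring
      · intro κ0 hκ0 hne
        rw [lbd_Cut_smul, hb2 κ0 (mem_range.mp hκ0) κ hκ, if_neg (Ne.symm hne), mul_zero]
      · intro h; exact absurd (mem_range.mpr hκ) h
    rw [e1, ← hdec, hc0 κ hκ]
  · intro u
    have e1 : |∑ κ0 ∈ range d, t' κ0 * b κ0 u| ≤ ∑ _κ0 ∈ range d, 2 * (T + (d * m : ℕ) * (A * s)) := by
      refine (Finset.abs_sum_le_sum_abs _ _).trans (sum_le_sum fun κ0 hκ0 => ?_)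
      rw [mem_range] at hκ0
      rw [abs_mul]
      have e2 := hb1 κ0 hκ0 u
      have e3 := ht's κ0 hκ0
      have e4 : |t' κ0| * |b κ0 u| ≤ |t' κ0| * (2 * s) :=
        mul_le_mul_of_nonneg_left (by linarith) (abs_nonneg _)
      linarith
    rw [sum_const, card_range, nsmul_eq_mul] at e1
    have e5 : |c1 u| ≤ s := by rw [abs_of_nonneg (hc1n u).1]; exact (hc1n u).2.le
    have e6 : s ≤ (x + y : ℕ) ^ m := by
      have : (x + y) ≤ (x + y) ^ m := Nat.le_self_pow (by omega) _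
      rw [hs]; exact_mod_cast this
    have e7 : A * s = ((m * (m + 1) ^ (m - 1) : ℕ) : ℤ) * ((x + y : ℕ) : ℤ) ^ m := by
      rw [hA, hs]
      have e8 : ((x + y : ℕ) : ℤ) ^ m = ((x + y : ℕ) : ℤ) ^ (m - 1) * ((x : ℤ) + y) := by
        have e9 : m = (m - 1) + 1 := by omega
        conv_lhs => rw [e9, pow_succ]
        push_cast
        ring
      rw [e8]
      push_cast
      ring
    refine (abs_add_le _ _).trans ((add_le_add e5 e1).trans ?_)
    rw [e7]
    have hT : (0 : ℤ) ≤ T := by positivity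
    have hP : (0 : ℤ) ≤ ((x + y : ℕ) : ℤ) ^ m := by positivity
    push_cast at e6 hP ⊢
    have hd0 : (0 : ℤ) ≤ d := by positivity
    have hM : (0 : ℤ) ≤ (d : ℤ) * m * (m * ((m : ℤ) + 1) ^ (m - 1)) := by positivity
    generalize ((m : ℤ) + 1) ^ (m - 1) = w at *
    generalize ((x : ℤ) + y) ^ m = P at *
    nlinarith [mul_nonneg hd0 hP, mul_nonneg hd0 hT, mul_nonneg (mul_nonneg hd0 hM) hT,
      mul_nonneg (mul_nonneg hd0 hM) hP]

end Pool.Agent.Helper44.LN
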