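import Pool.Agent.Helper44.LN.StG

/-! Project LN (MP_b56c98_ag), module RCN: naturality of the substitution matrices. -/

set_option autoImplicit false

namespace Pool.Agent.Helper44.LN

open Finset MvPolynomial

private theorem sb_map_RCN {R S : Type} [CommRing R] [CommRing S] (φ : R →+* S) {x y : ℕ}
    (g : Mt x y R) (f : MvPolynomial (Vr x y) R) :
    sb (mp φ g) (MvPolynomial.map φ f) = MvPolynomial.map φ (sb g f) := by
  have h : ((sb (mp φ g)).toRingHom.comp (MvPolynomial.map φ)) =
      (MvPolynomial.map φ).comp (sb g).toRingHom := by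
    apply MvPolynomial.ringHom_ext
    · intro r
      simp [sb, MvPolynomial.algebraMap_eq]
    · intro v
      rcases v with i | j
      · simp [sb, mp]
      · simp [sb, mp]
  exact RingHom.congr_fun h f

theorem pRCN : StRCN := by
  intro R S _ _ φ x y g γ γ'
  unfold rc
  rw [← MvPolynomial.coeff_map, ← sb_map_RCN, MvPolynomial.map_monomial, RingHom.map_one]

end Pool.Agent.Helper44.LN
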