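import Pool.Agent.Helper44.LN.StL

/-! Project LN, part A: existence of the design (numbers of points of each class), for `x + y` large.
`θ = y / (x + y)`. -/

namespace Pool.Agent.Helper44.LN

open Finset

/-- large and balanced blocks -/
def TB (Θ x y s0 : ℕ) : Prop := s0 ≤ x + y ∧ x + y ≤ Θ * x ∧ x + y ≤ Θ * y

/-- the ratio -/
noncomputable def th (x y : ℕ) : ℝ := (y : ℝ) / ((x : ℝ) + y)

/-- binomial weights -/
noncomputable def bn (n i : ℕ) (θ : ℝ) : ℝ := (n.choose i : ℝ) * (1 - θ) ^ (n - i) * θ ^ i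

/-- cumulative sums of the binomial weights -/
noncomputable def Fc (n κ : ℕ) (θ : ℝ) : ℝ := ∑ i ∈ range (κ+1), bn n i θ

/-- limit of the number of exchanges from `κ` to `κ + 1` -/
noncomputable def dn (m d κ : ℕ) (θ : ℝ) : ℝ :=
  ∑ b ∈ range m, if b ≤ κ ∧ κ + m < b + d + 1 then bn (m-1) b θ else 0

/-- limit of the proportion of the points beyond the class `(κ, 0)` -/
noncomputable def zt (m d κ : ℕ) (θ : ℝ) : ℝ := (Fc (m-1) κ θ - Fc d κ θ) / dn m d κ θ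

/-- total diagonal coefficient -/
def Mh (x y m d κ : ℕ) : ℕ := ∑ σ ∈ range m, Mm x y m d κ (σ+1)

/-- the cumulated numbers attached to the values `z κ` and the gap `H` -/
def Zf (m : ℕ) (z : ℕ → ℤ) (H : ℤ) (u : ℕ) : ℤ := z (u / m) - ((u % m : ℕ) : ℤ) * H

/-- approximate solution of the cut equations -/
def RecP (x y m d : ℕ) (r : ℤ) (H : ℤ) (z : ℕ → ℤ) : Prop :=
  ∀ κ < d, 0 ≤ Bk x y m d r κ - Cut x y m d (Zf m z H) κ ∧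
    Bk x y m d r κ - Cut x y m d (Zf m z H) κ < Mh x y m d κ

/-- `r` is within one of the critical number -/
def Crit (x y m d r : ℕ) : Prop :=
  |(r : ℤ) * am x y m - ∑ κ ∈ range (d+1), (EE x y d κ : ℤ)| ≤ am x y m

/-- **HHA.** Proof. `s = x + y`, `x / s = 1 - θ`. `a! * hh x a = x (x+1) ... (x+a-1)` lies between `x^a`
and `(x+a)^a`, and `a! * (x+a).choose x = (x+1) ... (x+a)` too. `0 ≤ (x+a)^a - x^a ≤ a * a * (x+a)^(a-1)`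
(or: `(x+a)^a / s^a = ((1-θ) + a/s)^a` and uniform continuity of `u ↦ u^a` on `[0, 2]`). Divide by
`s^a`; the error is at most `a^2 * 2^a / s` for `s ≥ a`. Same for `y`. -/
def StHHA : Prop :=
  ∀ (a Θ : ℕ) (ε : ℝ), 0 < ε → ∃ s0 : ℕ, ∀ x y : ℕ, TB Θ x y s0 →
    |(hh x a : ℝ) / ((x:ℝ) + y) ^ a - (1 - th x y) ^ a / a.factorial| ≤ ε ∧
    |(hh y a : ℝ) / ((x:ℝ) + y) ^ a - (th x y) ^ a / a.factorial| ≤ ε ∧
    |((x + a).choose x : ℝ) / ((x:ℝ) + y) ^ a - (1 - th x y) ^ a / a.factorial| ≤ ε ∧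
    |((y + a).choose y : ℝ) / ((x:ℝ) + y) ^ a - (th x y) ^ a / a.factorial| ≤ ε

/-- **MMA.** Uses `StHHA`. Proof. For `κ + 1 ≤ d`:
`Mm x y m d κ 1 = ∑_{b < m, b ≤ κ, (m-1-b) + κ + 1 ≤ d} hh x (m-1-b) * hh y b`. Divided by `s^(m-1)` each
term tends (uniformly, product of two bounded convergent quantities) to
`(1-θ)^(m-1-b) θ^b / ((m-1-b)! b!) = bn (m-1) b θ / (m-1)!`. The condition
`(m-1-b) + κ + 1 ≤ d` is `κ + m < b + d + 1`. For `σ ≥ 2` every term of `Mm k σ` is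
`hh x a * hh y b` with `a + b = m - σ ≤ m - 2`, at most `s^(a+b) * const`, so
`Mm / s^(m-1) ≤ const / s`. -/
def StMMA : Prop :=
  ∀ (m d Θ : ℕ) (ε : ℝ), 1 ≤ m → 0 < ε → ∃ s0 : ℕ, ∀ x y : ℕ, TB Θ x y s0 →
    (∀ κ < d, |(Mm x y m d κ 1 : ℝ) * (m-1).factorial / ((x:ℝ) + y) ^ (m-1) -
      dn m d κ (th x y)| ≤ ε) ∧
    ∀ k σ : ℕ, 2 ≤ σ → σ ≤ m → (Mm x y m d k σ : ℝ) / ((x:ℝ) + y) ^ (m-1) ≤ ε

/-- **VEA.** Uses `StHHA`, `StVZE`. Proof. `v0 x y m κ = (x + (m-1-κ)).choose x * (y + κ).choose y` for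
`κ < m` and, divided by `s^(m-1)`, tends to `(1-θ)^(m-1-κ) θ^κ / ((m-1-κ)! κ!) = bn (m-1) κ θ / (m-1)!`;
for `κ ≥ m` both are zero (`(m-1).choose κ = 0`). Similarly `EE`. Sum over `κ' ≤ κ ≤ d` (finitely
many terms). The last two are the case `κ = d`: `∑ bn n i θ = 1` (binomial theorem, `add_pow`), with
`StVZE` for `am`. -/
def StVEA : Prop :=
  ∀ (m d Θ : ℕ) (ε : ℝ), 1 ≤ m → m ≤ d → 0 < ε → ∃ s0 : ℕ, ∀ x y : ℕ, TB Θ x y s0 →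
    (∀ κ ≤ d, |(∑ κ' ∈ range (κ+1), (v0 x y m κ' : ℝ)) * (m-1).factorial / ((x:ℝ) + y) ^ (m-1) -
      Fc (m-1) κ (th x y)| ≤ ε) ∧
    (∀ κ ≤ d, |(∑ κ' ∈ range (κ+1), (EE x y d κ' : ℝ)) * d.factorial / ((x:ℝ) + y) ^ d -
      Fc d κ (th x y)| ≤ ε) ∧
    |(am x y m : ℝ) * (m-1).factorial / ((x:ℝ) + y) ^ (m-1) - 1| ≤ ε ∧
    |(∑ κ' ∈ range (d+1), (EE x y d κ' : ℝ)) * d.factorial / ((x:ℝ) + y) ^ d - 1| ≤ ε

/-- **RAS.** Size of the critical number. Uses `StVEA`. Proof. `r * am = ∑ EE + ρ`, `|ρ| ≤ am`. With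
`A = am (m-1)! / s^(m-1) → 1`, `B = (∑ EE) d! / s^d → 1` one gets
`r d! / (s^(d+1-m) (m-1)!) = (B + ρ d! / s^d) / A` and
`|ρ| d! / s^d ≤ A d! / ((m-1)! s^(d+1-m)) → 0` (`d + 1 - m ≥ 1`). -/
def StRAS : Prop :=
  ∀ (m d Θ : ℕ) (ε : ℝ), 1 ≤ m → m ≤ d → 0 < ε → ∃ s0 : ℕ, ∀ x y : ℕ, TB Θ x y s0 →
    ∀ r : ℕ, Crit x y m d r →
      |(r : ℝ) * d.factorial / (((x:ℝ) + y) ^ (d+1-m) * (m-1).factorial) - 1| ≤ ε

/-- **REC.** Existence of approximate solutions. Proof. For `κ < d` the moves with `u / m = κ`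
contribute `Mh κ * z κ - (∑_{σ < m} Mm κ (σ+1) * σ) * H` to `Cut (Zf m z H) κ` (all of them satisfy
`u / m ≤ κ < u / m + (u % m + 1)`), the moves with `u / m < κ` contribute a quantity depending only on
`z k`, `k < κ` (and those with `u / m > κ` nothing). `Mh κ > 0`: `Mm κ 1` contains the term with
`b = min κ (m-1)`, `a = m - 1 - b` (`a + κ + 1 ≤ d` holds in both cases), and
`hh x a * hh y b > 0` as `x, y ≥ 1`. So define `z` recursively (strong recursion) by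
`z κ = ⌊(Bk κ - R_κ(z_0, ..., z_(κ-1), H)) / Mh κ⌋` (`Int` division, `Int.emod_nonneg`,
`Int.emod_lt_of_pos`). -/
def StREC : Prop :=
  ∀ (x y m d : ℕ) (r H : ℤ), 1 ≤ m → m ≤ d → 1 ≤ x → 1 ≤ y → ∃ z : ℕ → ℤ, RecP x y m d r H z

/-- **MON.** Monotonicity of `zt`. Proof. Write `P_κ = Fc d κ θ`, `R_κ = Fc (m-1) κ θ` (`R_κ = 0` for
negative `κ`), `p_i = bn d i θ`, `c_b = bn (m-1) b θ`, `j = d + 1 - m ≥ m + 1`. All `p_i > 0` for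
`i ≤ d`, `c_b > 0` for `b ≤ m - 1`, `R_κ = 1` for `κ ≥ m - 1`, `P_d = 1` (binomial theorem), and
`dn κ = R_κ - R_(κ-j)`. Basic inequality (*): for `i < κ' ≤ m - 1` (`< d`)
`d.choose i * (m-1).choose κ' < d.choose κ' * (m-1).choose i` (the quotient
`d.choose i / (m-1).choose i` is strictly increasing in `i ≤ m - 1`: consecutive quotient
`(d-i)/(m-1-i) > 1`).
(I) for `κ < j`: `dn κ = R_κ`, `1 - zt κ = P_κ / R_κ`. If `κ + 1 < j`: `zt (κ+1) < zt κ` iff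
`P_κ c_(κ+1) < p_(κ+1) R_κ`. If `κ + 1 ≥ m` then `c_(κ+1) = 0` and it is clear. Otherwise compare
termwise: for `i ≤ κ`, `p_i c_(κ+1) < p_(κ+1) c_i` by (*) (the powers of `θ` and `1 - θ` on both sides
are the same). (II) for `κ ≥ m - 1`, `κ < d`: `zt κ = T_κ / U_κ`, `T_κ = 1 - P_κ = ∑_{i > κ} p_i`,
`U_κ = 1 - R_(κ-j) = ∑_{b ≥ κ+1-j} c_b` (the sum over `b` with `b + j > κ`). If `κ ≥ m - 1`,
`κ + 1 < d`, `κ + 1 ≥ j`: `zt (κ+1) < zt κ` iff `T_κ c_(κ+1-j) < p_(κ+1) U_κ`; the index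
`i ↦ i - j` is a bijection of the two sums (`κ + 1 ≤ i ≤ d = m - 1 + j`) and
`p_i c_(κ+1-j) ≤ p_(κ+1) c_(i-j)`, with equality only for `i = κ+1`; the powers agree and the
binomials are (*) after `d.choose i = d.choose (d-i)`, `(m-1).choose (i-j) = (m-1).choose (d-i)`. Since
`d ≥ κ + 2` there is a strict term. One of the cases `κ + 1 < j`, `κ + 1 ≥ j (≥ m + 1)` holds. Ends:
`1 - zt 0 = P_0 / R_0 = (1-θ)^(d-m+1) > 0`, `zt (d-1) = p_d / c_(m-1) = θ^(d-m+1) > 0`. -/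
def StMON : Prop :=
  ∀ (m d : ℕ) (θ : ℝ), 1 ≤ m → 2 * m ≤ d → 0 < θ → θ < 1 →
    zt m d 0 θ < 1 ∧ 0 < zt m d (d-1) θ ∧ (∀ κ, κ + 1 < d → zt m d (κ+1) θ < zt m d κ θ) ∧
    ∀ κ < d, 0 < dn m d κ θ

/-- **ZET.** Uniform gaps. Uses `StMON`. Proof. The functions `1 - zt 0`, `zt (d-1)`,
`zt κ - zt (κ+1)` and `dn κ` are continuous and positive on the compact interval
`[1/Θ, 1 - 1/Θ]` (`dn ≠ 0` there); take the minimum of the finitely many minima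
(`IsCompact.exists_isMinOn`; if the interval is empty, `Θ = 1` or `0`, take `c0 = 1`; for `Θ = 2` it is
a point). -/
def StZET : Prop :=
  ∀ m d Θ : ℕ, 1 ≤ m → 2 * m ≤ d → 2 ≤ Θ → ∃ c0 : ℝ, 0 < c0 ∧ ∀ θ : ℝ, 1 / (Θ:ℝ) ≤ θ →
    θ ≤ 1 - 1 / (Θ:ℝ) →
    zt m d 0 θ + c0 ≤ 1 ∧ c0 ≤ zt m d (d-1) θ ∧
    (∀ κ, κ + 1 < d → zt m d (κ+1) θ + c0 ≤ zt m d κ θ) ∧ ∀ κ < d, c0 ≤ dn m d κ θ

/-- **ASY.** Asymptotics of the approximate solutions. Uses `StMMA`, `StVEA`, `StRAS`, `StZET`. Proof.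
`s = x + y`, `H = C3 s^m`, `N = r s^(m-1) / (m-1)!`. Induction on `κ` (for all `ε`). From `RecP` and
the description of `Cut` in `StREC`:
`Mh κ * z κ = Bk κ - ∑_{k < κ} ∑_{σ ≥ 2, κ < k + σ} Mm k σ (z k - (σ-1) H) + (∑_σ Mm κ σ (σ-1)) H - err`,
`0 ≤ err < Mh κ` (for `k < κ` only `σ ≥ 2` occur). Divide by `N`. (i) `Mh κ (m-1)! / s^(m-1) → dn κ`
(`StMMA`). (ii) `Bk κ / N = (∑_{κ' ≤ κ} v0) (m-1)! / s^(m-1) - (∑_{κ' ≤ κ} EE) (m-1)! / (r s^(m-1))`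
tends to `Fc (m-1) κ - Fc d κ`, since the second term is
`[(∑ EE) d! / s^d] / [r d! / (s^(d+1-m) (m-1)!)]` (`StVEA`, `StRAS`). (iii)
`Mm k σ |z k| / N ≤ ε' (m-1)! (|z k| / r)` and `|z k| / r ≤ |zt k| + 1` is bounded by induction
(`|zt| ≤ 1`: from `StZET`, or any bound), so these terms tend to `0`. (iv)
`Mm * H / N ≤ const * s^(m-1) s^m / (r s^(m-1)) → 0` because
`r ≥ c s^(d+1-m) ≥ c s^(m+1)` (`StRAS`, `d ≥ 2m`). (v) `err / N ≤ const / r → 0`. So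
`(dn κ + o(1)) z κ / r = Fc (m-1) κ - Fc d κ + o(1)` and `dn κ ≥ c0 > 0` (`StZET`; note
`1/Θ ≤ θ ≤ 1 - 1/Θ` from `TB`), i.e. `z κ / r = zt κ + o(1)`. -/
def StASY : Prop :=
  ∀ (m d Θ C3 : ℕ) (ε : ℝ), 1 ≤ m → 2 * m ≤ d → 2 ≤ Θ → 0 < ε → ∃ s0 : ℕ, ∀ x y : ℕ,
    TB Θ x y s0 → ∀ r : ℕ, Crit x y m d r → ∀ z : ℕ → ℤ,
      RecP x y m d r (C3 * (x+y)^m : ℕ) z →
      ∀ κ < d, |(z κ : ℝ) - zt m d κ (th x y) * r| ≤ ε * r

/-- **DSG.** The design. Uses `StLBD`, `StREC`, `StASY`, `StZET`, `StRAS`, `StMMA`. Proof. Let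
`s = x + y`. `Mh κ ≤ A s^(m-1)` with a constant `A ≥ 1` (`StMMA`, `dn ≤ 1`; for `s ≥ s0`). Let `C2` be
the constant of `StLBD`, `E = C2 (A + 1)`, `C3 = 2 E + C1`, `H = C3 s^m`. Take `z` from `StREC`. The
errors `t κ = Bk κ - Cut (Zf m z H) κ` satisfy `0 ≤ t κ < A s^(m-1) ≤ A s^m`, so `StLBD` (with
`T = A s^m`) gives `c` with `Cut c κ = t κ` for `κ < d` and `|c u| ≤ C2 (s^m + T) = E s^m`. Put
`Z' u = Zf m z H u + c u`: by additivity of `Cut`, `Cut Z' κ = Bk κ` for `κ < d`. Gaps: if `u + 1 < d m`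
and `u`, `u+1` have the same quotient by `m`: `Z' u - Z' (u+1) = H + c u - c (u+1) ≥ C1 s^m`. If
`u = k m + (m-1)`, `u + 1 = (k+1) m`, `k + 1 < d`:
`Z' u - Z' (u+1) = z k - z (k+1) - (m-1) H + c u - c (u+1) ≥ (c0 - 2 ε) r - (m-1) H - 2 E s^m`, which is
`≥ C1 s^m` for `ε = c0/4` and `s` large, since `r ≥ c s^(m+1)` (`StRAS`). Similarly
`r - Z' 0 = r - z 0 - c 0 ≥ (c0 - ε) r - E s^m ≥ C1 s^m`, and
`Z' (d m - 1) = z (d-1) - (m-1) H + c ≥ (c0 - ε) r - (m-1) H - E s^m ≥ C1 s^m`. Define `Z 0 = r`,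
`Z (u+1) = (Z' u).toNat` (all `Z' u ≥ 0` for `u < d m`). -/
def StDSG : Prop :=
  ∀ m d Θ C1 : ℕ, 1 ≤ m → 2 * m ≤ d → 2 ≤ Θ → ∃ s0 : ℕ, ∀ x y : ℕ, TB Θ x y s0 →
    NTC m (x+y) y → ∀ r : ℕ, Crit x y m d r → ∃ Z : ℕ → ℕ, Z 0 = r ∧
      (∀ t < d * m, Z (t+1) + C1 * (x+y)^m ≤ Z t) ∧ C1 * (x+y)^m ≤ Z (d*m) ∧
      ∀ κ < d, Cut x y m d (fun u => (Z (u+1) : ℤ)) κ = Bk x y m d r κ

end Pool.Agent.Helper44.LN
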