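import Pool.Agent.Helper44.LN.Defs

/-! Project LN, part C: combinatorics of the classes (`t = 0, ..., d * m`) and of the types
`TD m d t m κ`. All statements were checked by computer for small parameters. -/

namespace Pool.Agent.Helper44.LN

open Finset

/-- **CHN.** Consecutive classes differ by one kind of exchange. Proof. Let `k = t / m`,
`s = t % m`, so `t + 1` is the class with `(k, s+1)` if `s + 1 < m` and `(k+1, 0)` if `s + 1 = m`.
For a pair `(a,b)` with `a + b < m` let `l = m - a - b` and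
`L_t(a,b) = {κ ∈ [b, d-a] | ps m d t a b κ < l}`, the first `l` admissible levels in the order of the
class; `(a,b) ∈ TD m d t m κ` iff `κ ∈ L_t(a,b)`. The order of the class `(k,s)`, `s ≤ d - k`, is
`k+1, ..., k+s, k, k+s+1, ..., d, k-1, ..., 0`.
Case A: `k + s + 1 ≤ d`. Claim: `L_(t+1)(a,b) = L_t(a,b)` unless `a + b = m - (s+1)`, `b ≤ k` and
`a + k + s + 1 ≤ d`, in which case `L_(t+1)(a,b) = (L_t(a,b) \ {k}) ∪ {k+s+1}` with `k ∈ L_t(a,b)`,
`k+s+1 ∉ L_t(a,b)`. This gives the formula: the number of pairs `(α,β)` of exponents with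
`|α| = a`, `|β| = b` is `hh x a * hh y b`, and the sum over these `(a,b)` is `Mm x y m d k (s+1)`. Proof
of the claim if `s + 1 < m`: the two orders are `k+1..k+s, k, k+s+1, ...` and
`k+1..k+s, k+s+1, k, ...`, they differ by the exchange of the two adjacent entries `k` and `k+s+1`.
Restricted to `[b, d-a]` the orders agree unless both are in `[b, d-a]`, i.e. `b ≤ k`,
`k+s+1 ≤ d-a`; then `k+1, ..., k+s` are all in the interval and the two entries are at the places
`s+1`, `s+2`, so the sets of the first `l` agree unless `l = s + 1`. If `s + 1 = m`: the orders are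
`k+1..k+m-1, k, k+m, ...` and `k+1, k+2, ..., d, k, k-1, ...`. If `b > k` the restrictions to
`[b, d-a]` agree. If `b ≤ k` and `d - a ≤ k+m-1`, the restrictions agree too
(`k+1..d-a, k, k-1, ..., b`). If `b ≤ k` and `d - a ≥ k+m`: the first `m - 1` entries are
`k+1..k+m-1` in both, so the first `l ≤ m - 1` agree; for `l = m` (`a = b = 0`) the sets are
`{k+1..k+m-1, k}` and `{k+1, ..., k+m}`. This is the claim for `s + 1 = m`.
Case B: `k + s + 1 > d`: the classes `t` and `t+1` have the same order (for `s + 1 < m` both have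
`min s (d-k) = d - k = min (s+1) (d-k)`; for `s + 1 = m` the class `(k, d-k)` has order
`k+1..d, k, k-1, ...`, the order of `(k+1, 0)`), and `Mm = 0`. In the formal proof one compares
`rk m d (t+1)` and `rk m d t` pointwise on the interval; see the remarks. Only the comparisons
`rk κ' < rk κ` matter. -/
def StCHN : Prop :=
  ∀ x y m d t κ : ℕ, 1 ≤ m → 2 * m ≤ d → t < d * m → κ ≤ d →
    (sz2 x y (TD m d (t+1) m κ) : ℤ) - (sz2 x y (TD m d t m κ) : ℤ) =
      (Mm x y m d (t / m) (t % m + 1) : ℤ) *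
        ((if κ = t / m + (t % m + 1) then 1 else 0) - (if κ = t / m then 1 else 0))

/-- **VZE.** Level vector of the class `0` and the two totals. Proof. (1) In the class `0`
`rk m d 0 κ = κ` (`0 / m = 0`, `min (0 % m) _ = 0`), so for `(a,b)` with `b ≤ κ ≤ d - a`
`ps m d 0 a b κ = κ - b`, and the condition `κ - b < m - a - b` is `a + κ < m`. So
`TD m d 0 m κ = {(a,b) | b ≤ κ, a + κ < m}`, empty if `κ ≥ m`; its size is
`(∑_{a ≤ m-1-κ} hh x a) * (∑_{b ≤ κ} hh y b)` and `∑_{a ≤ A} hh x a = (x + A).choose x`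
(hockey stick, induction on `A`: `hh x (A+1) = (x+A).choose (A+1)`,
`(x+A+1).choose x = (x+A).choose x + (x+A).choose (x-1)` for `x ≥ 1`; for `x = 0` both sides are 1).
(2), (3) follow from `∑_{κ ≤ e} (x + (e-κ)).choose x * (y + κ).choose y = (x+y+e+1).choose (x+y+1)`
(number of exponents of degree `e` in `x + y + 2` variables; e.g. induction on `e` and `x + y` with
Pascal's rule, or coefficients of `(1-X)^(-(x+1)) * (1-X)^(-(y+1))`:
`PowerSeries.invOneSubPow`), with `e = m - 1` and `e = d`: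
`(x+y+m).choose (x+y+1) = (x+y+m).choose (m-1)`. -/
def StVZE : Prop :=
  ∀ x y m d : ℕ, 1 ≤ m → m ≤ d →
    (∀ κ ≤ d, sz2 x y (TD m d 0 m κ) = v0 x y m κ) ∧
    ∑ κ ∈ range (d+1), v0 x y m κ = am x y m ∧
    ∑ κ ∈ range (d+1), EE x y d κ = (x + y + 1 + d).choose (x + y + 1)

/-- the cut sums: `∑ Mm k σ * c` over the moves from `k ≤ κ` to `k + σ > κ`; the move with index
`u` is from `k = u / m` to `k + (u % m + 1)` -/
def Cut (x y m d : ℕ) (c : ℕ → ℤ) (κ : ℕ) : ℤ :=
  ∑ u ∈ range (d*m), if u / m ≤ κ ∧ κ < u / m + (u % m + 1) then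
    (Mm x y m d (u / m) (u % m + 1) : ℤ) * c u else 0

/-- right hand sides of the cut equations -/
def Bk (x y m d : ℕ) (r : ℤ) (κ : ℕ) : ℤ :=
  r * ∑ κ' ∈ range (κ+1), (v0 x y m κ' : ℤ) - ∑ κ' ∈ range (κ+1), (EE x y d κ' : ℤ)

/-- **LSM.** From the cut equations to the level sums. `Z t` is the number of points of class `≥ t`.
Uses `StCHN`, `StVZE`. Proof. Let `N = d * m`, `v_t κ = sz2 x y (TD m d t m κ)`. Abel summation:
`∑_{t ≤ N} (Z t - Z' (t+1)) v_t = Z 0 * v_0 + ∑_{u < N} Z (u+1) (v_(u+1) - v_u)` where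
`Z' (t+1) = Z (t+1)` for `t < N`, `Z' (N+1) = 0`. Sum over `κ' ≤ κ < d` with `StCHN`:
`∑_{κ' ≤ κ} ([κ' = k+σ] - [κ' = k]) = [k+σ ≤ κ] - [k ≤ κ] = -[k ≤ κ < k+σ]`. So the cumulative level
sums are `r * ∑_{κ' ≤ κ} v0 κ' - Cut (fun u => Z (u+1)) κ = ∑_{κ' ≤ κ} EE κ'` for `κ < d`, hence the
level sums are `EE κ` for `κ < d` (differences of consecutive cumulative sums). For `κ = d` the
cumulative sum is `r * am` (moves with `Mm ≠ 0` end at a level `≤ d`, so their contributions cancel),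
hence the last level sum is `r * am - ∑_{κ' < d} EE κ'`. -/
def StLSM : Prop :=
  ∀ (x y m d r : ℕ) (Z : ℕ → ℕ), 1 ≤ m → 2 * m ≤ d → Z 0 = r →
    (∀ t < d * m, Z (t+1) ≤ Z t) →
    (∀ κ < d, Cut x y m d (fun u => (Z (u+1) : ℤ)) κ = Bk x y m d r κ) →
    (∀ κ < d, ∑ t ∈ range (d*m+1), (Z t - (if t = d*m then 0 else Z (t+1))) *
        sz2 x y (TD m d t m κ) = EE x y d κ) ∧
    ∑ t ∈ range (d*m+1), (Z t - (if t = d*m then 0 else Z (t+1))) * sz2 x y (TD m d t m d) +
      ∑ κ ∈ range d, EE x y d κ = r * am x y m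

/-- **DGA.** Types of all degrees at the low levels. Proof. `t = κ m + s` with `s = m - 1 - δ < m`, so
`t / m = κ`, `t % m = s`, `min s (d - κ) = s` (`d - κ ≥ m > s`). The order is
`κ+1, ..., κ+s, κ, κ+s+1, ...`. For `(a,b)` with `a + b < m`, `b ≤ κ ≤ d - a` the admissible levels
before `κ` are those of `κ+1, ..., κ+s` that are `≤ d - a`: their number is
`min s (d - a - κ)`, so the condition is `a + b + min s (d - a - κ) < m`. For `(δ, 0)`:
`d - δ - κ ≥ m - δ > s`, so it reads `δ + s < m`, true. If `(a,b)` satisfies the condition then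
`a + b ≤ δ`: if the minimum is `s` clear; if it is `d - a - κ` then `b + (d - κ) < m`, impossible
since `d - κ ≥ m`. -/
def StDGA : Prop :=
  ∀ m d κ δ : ℕ, κ + m ≤ d → δ < m →
    dg (TD m d (κ * m + (m - 1 - δ)) m κ) = δ ∧ (δ, 0) ∈ TD m d (κ * m + (m - 1 - δ)) m κ

/-- **DGB.** Types of all degrees at the high levels. Proof. `k = κ - i`, `i = m - 1 - δ`, `t = k m`, so
`t % m = 0` and the order is `k, k+1, ..., d, k-1, ...`. For `(a,b)` with `a + b < m`,
`b ≤ κ ≤ d - a` the admissible levels before `κ` are those `≥ max(b, k)` and `< κ`: their number is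
`min i (κ - b)`; the condition is `a + b + min i (κ - b) < m`. `(0, δ)`: `κ - δ ≥ m - δ > i`, so it
reads `δ + i < m`, true. Conversely if the minimum is `i` then `a + b ≤ δ`; if it is `κ - b` then
`a + κ < m`, impossible since `κ ≥ m`. -/
def StDGB : Prop :=
  ∀ m d κ δ : ℕ, m ≤ κ → κ ≤ d → δ < m →
    dg (TD m d ((κ - (m - 1 - δ)) * m) m κ) = δ ∧ (0, δ) ∈ TD m d ((κ - (m - 1 - δ)) * m) m κ

/-- **SZB.** Size bounds. Proof. (1) `hh x a ≤ (x + a) ^ a ≤ (s + m) ^ a` (`Nat.choose_le_pow`-like: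
`(x+a-1).choose a ≤ (x+a-1)^a`), similarly for `y`, so each term of `sz2` is
`≤ (s+m)^(a+b) ≤ (s+m)^δ` (`s + m ≥ 1`), and there are at most `m^2` terms. (2)
`a! * (x+a-1).choose a = x (x+1) ... (x+a-1) ≥ x^a` (`Nat.ascFactorial_eq_factorial_mul_choose'`,
`Nat.pow_succ_le_ascFactorial` or induction). (3) the types are in `TM` (with `c.1 ≤ d - κ`,
`c.2 ≤ κ`, `c.1 + c.2 < μ ≤ m`), and `TM m p q` is in `range m ×ˢ range m` and has degree `≤ m - 1`. (4) a
member gives a lower bound. -/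
def StSZB : Prop :=
  (∀ (x y m δ : ℕ) (D : Finset (ℕ × ℕ)), 1 ≤ m → D ⊆ range m ×ˢ range m → dg D ≤ δ →
    sz2 x y D ≤ m ^ 2 * (x + y + m) ^ δ) ∧
  (∀ x a : ℕ, x ^ a ≤ a.factorial * hh x a) ∧
  (∀ m μ d t κ : ℕ, μ ≤ m → κ ≤ d → TD m d t μ κ ⊆ TM m (d-κ) κ) ∧
  (∀ m p q : ℕ, TM m p q ⊆ range m ×ˢ range m ∧ dg (TM m p q) ≤ m - 1) ∧
  (∀ (x y : ℕ) (D : Finset (ℕ × ℕ)) (c : ℕ × ℕ), c ∈ D → hh x c.1 * hh y c.2 ≤ sz2 x y D)

/-- **SIM.** A simple point of the last class gives one condition at level `d`. Proof.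
`t = d * m`: `t / m = d`, `t % m = 0`, so `rk m d t d = 0` and `rk m d t κ = d - κ` for `κ < d`;
`ps m d t 0 0 κ = #{κ' ≤ d | rk κ' < rk κ} = d - κ`, which is `< 1` iff `κ = d`. The only pair with
`a + b < 1` is `(0,0)`. `sz2 x y {(0,0)} = 1`. -/
def StSIM : Prop :=
  ∀ x y m d : ℕ, 1 ≤ m →
    TD m d (d*m) 1 d = {(0,0)} ∧ sz2 x y (TD m d (d*m) 1 d) = 1 ∧
      ∀ κ < d, TD m d (d*m) 1 κ = ∅

end Pool.Agent.Helper44.LN
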