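import Pool.Agent.Helper44.LN.StG
import Pool.Agent.Helper46.EAH.Special

/-! Project LN, part D: degeneration. The points `(g.1 e_0, T ^ w * g.2 e_0)` over `K(T)`; the
forms of degree `d` are split in levels `κ = 0..d` (degree in the second block). -/

namespace Pool.Agent.Helper44.LN

open Finset MvPolynomial Pool.Agent.Helper46.EAH

/-- total exponent in the first block -/
def s1 {x y : ℕ} (ε : Vr x y →₀ ℕ) : ℕ := ∑ i : Fin (x+1), ε (Sum.inl i)

/-- total exponent in the second block -/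
def s2 {x y : ℕ} (ε : Vr x y →₀ ℕ) : ℕ := ∑ j : Fin (y+1), ε (Sum.inr j)

/-- the exponent of degree `d` and level `κ` with given entries at the nonzero indices -/
noncomputable def gk {x y : ℕ} (d : ℕ) (ε : Vr x y →₀ ℕ) (κ : ℕ) : Vr x y →₀ ℕ :=
  ε + Finsupp.single (Sum.inl 0) (d - κ - s1 ε) + Finsupp.single (Sum.inr 0) (κ - s2 ε)

/-- **COE.** Vanishing to order `μ` at `P = (g.1 e_0, a * g.2 e_0)` (`a = τ` in the statement) in
terms of the coefficients of `F(gX)`.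
Proof. Let `B = MvPolynomial (Fin x ⊕ Fin y) (Polynomial L)` and let `ψ` be the `L`-algebra map from
`MvPolynomial (Vr x y) L` to `B` with
`ψ (X (inl i)) = g.1 i 0 + ∑ l, g.1 i (l+1) * X (inl l)`,
`ψ (X (inr j)) = s * (g.2 j 0 + ∑ l, g.2 j (l+1) * X (inr l))`, where `s` is the variable of
`Polynomial L`. Let `J` be the ideal of `B` generated by all `X (inl l)`, `X (inr l)` and
`C (s - a)`. (1) `J` contains every `f ∈ B` with `f(0, 0; s = a) = 0` : modulo the variables `f` is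
its constant coefficient, a polynomial in `s` vanishing at `a`. So `ψ f ∈ J` for each `f` with
`eval P f = 0` (the value of `ψ f` at `X = 0`, `s = a` is `f(P)`). Hence `ψ F ∈ J ^ μ`
(`Ideal.map`/`Ideal.pow_mem`...). (2) For `h ∈ J ^ μ` and an exponent `e` of total degree `|e|` the
polynomial `(s - a) ^ (μ - |e|)` divides `coeff e h` : the set `I_μ` of the `h` with this property
for all `e` is an ideal (if `h ∈ I_μ`, a product `X^c * q(s) * h` has coefficients `q * coeff (e-c) h`,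
and `μ - |e| ≤ μ - |e-c|`), and `J * I_μ ≤ I_(μ+1)` (check on the three kinds of generators);
induct on `μ`. (3) Write `sb g F = ∑ γ, c_γ X^γ` (homogeneous of degree `d`,
`IsHomogeneous.aeval`). `ψ F` is obtained from `sb g F` by
`X (inl 0) ↦ 1, X (inl (l+1)) ↦ X (inl l), X (inr 0) ↦ s, X (inr (l+1)) ↦ s * X (inr l)` (both are
algebra maps in `F`; compare on variables). So, if `e` is the exponent with
`e (inl l) = ε (inl (l+1))`, `e (inr l) = ε (inr (l+1))`, the coefficient of `ψ F` at `e` is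
`∑ κ ∈ Icc (s2 ε) (d - s1 ε), c_(gk d ε κ) * s ^ κ` : the exponents `γ` of degree `d` with
these entries at nonzero indices are the `gk d ε κ`, and their power of `s` is
`γ (inr 0) + s2 ε = κ`. (Note `s1 ε ≤ d` because `s1 ε + s2 ε < μ ≤ d`.) (4) Divisibility by
`(s - a) ^ (μ - |e|)` gives for `p < μ - |e|` that the `p`-th Hasse derivative vanishes at `a`
(`Polynomial.hasseDeriv`, `taylor`; see also `Phi_succ_forall_iff` in
`Pool/Agent/Helper46/EAH/Basic.lean`): `∑ κ, κ.choose p * a ^ (κ - p) * c_κ = 0`; multiply by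
`a ^ p` (terms with `κ < p` have binomial coefficient `0`). -/
def StCOE : Prop :=
  ∀ (L : Type) [Field L] (x y d μ : ℕ) (g : Mt x y L) (τ : L) (F : MvPolynomial (Vr x y) L),
    F.IsHomogeneous d → μ ≤ d →
    F ∈ (ptJ (Sum.elim (fun i => g.1 i 0) (fun j => τ * g.2 j 0) : Vr x y → L)) ^ μ →
    ∀ ε : Vr x y →₀ ℕ, ε (Sum.inl 0) = 0 → ε (Sum.inr 0) = 0 → ∀ p, s1 ε + s2 ε + p < μ →
      ∑ κ ∈ Icc (s2 ε) (d - s1 ε), (κ.choose p : L) * τ ^ κ * coeff (gk d ε κ) (sb g F) = 0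

/-- **BIN.** Solving the binomial equations. Proof. Let `l = Λ.card`. The `l × l` matrix
`(κ.choose p)`, `p < l`, `κ ∈ Λ`, over `ℚ` is invertible: a combination
`∑ p, a_p * κ.choose p = 0` for all `κ ∈ Λ` is a polynomial in `κ` of degree `< l` with `l` zeros, so
it is zero, and the polynomials `choose X p` of different degrees are linearly independent
(alternatively evaluate: column operations reduce to the Vandermonde determinant). So there are
rationals `N κ0 p` with `∑ p, N κ0 p * κ.choose p = if κ = κ0 then 1 else 0` for `κ, κ0 ∈ Λ`. Put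
`β κ0 κ = ∑ p < l, N κ0 p * κ.choose p` and combine the given equations with the coefficients
`N κ0 p` (cast to `L`). -/
def StBIN : Prop :=
  ∀ (A Λ : Finset ℕ), Λ ⊆ A → ∃ β : ℕ → ℕ → ℚ, ∀ (L : Type) [Field L] [CharZero L] (c : ℕ → L),
    (∀ p < Λ.card, ∑ κ ∈ A, (κ.choose p : L) * c κ = 0) →
    ∀ κ0 ∈ Λ, c κ0 + ∑ κ ∈ A \ Λ, (β κ0 κ : L) * c κ = 0

/-- **WGT.** Weights realising all the orders at once. Proof. Let `B` be a positive integer divisible
by all `2 s + 1`, `s < m`, and `B ≥ 4 m d + 4 d + 8`; `lam κ = ∑ l ∈ Ico κ d, B ^ (d - l)`. For `t`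
let `k = t / m ≤ d`, `s = min (t % m) (d - k) < m` and `w = 2 B^(d-k) / (2 s + 1)` (exact division,
for `k = d` it is `s = 0`, `w = 2`). Put `e κ = w κ + lam κ`, so `e (κ+1) - e κ = w - B^(d-κ)` for
`κ < d`. (i) For `κ > k`, `κ < d`: `w > B^(d-κ)` since `2 B^(d-k)/(2m) > B^(d-k-1)`. So `e` increases
on `[k+1, d]`. (ii) For `κ < k`: `w ≤ 2 B^(d-k) < B^(d-k+1) ≤ B^(d-κ)`: `e` decreases on `[0, k]`.
(iii) `e (k-1) > e κ'` for all `κ' ≥ k` : `e (k-1) - e k = B^(d-k+1) - w` and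
`e κ' - e k ≤ d w`, and `B > 2 (d + 1)`. (iv) For `i ≥ 1`, `k + i ≤ d`:
`e k - e (k+i) = B^(d-k) - i w + ∑_{κ = k+1}^{k+i-1} B^(d-κ)`. If `i ≤ s` this is positive:
`i w ≤ 2 s B^(d-k)/(2s+1) < B^(d-k)`. If `i = s+1` it is
`≤ - B^(d-k)/(2s+1) + d B^(d-k-1) < 0` as `B > 2 m d`; for larger `i` by (i). So the order of the
values of `e` is `k+1, ..., k+s, k, k+s+1, ..., d, k-1, ..., 0`, the order of `rk`. (Checked by
computer for m ≤ 5.) -/
def StWGT : Prop :=
  ∀ m d : ℕ, 1 ≤ m → ∃ lam : ℕ → ℕ, ∀ t ≤ d * m, ∃ w : ℕ, ∀ κ κ' : ℕ, κ ≤ d → κ' ≤ d →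
    rk m d t κ < rk m d t κ' → w * κ + lam κ < w * κ' + lam κ'

/-- **PSC.** (1) `rk m d t` is injective on `[0, d]`. (2) Exactly `l` admissible levels come first.
Proof. (1) with `k = t / m ≤ d`, `s = min (t % m) (d - k)`: the values are `d - κ ∈ [d-k+1, d]` for
`κ < k`, `s` for `κ = k`, `κ - k - 1 ∈ [0, s-1]` for `k < κ ≤ k + s` and
`κ - k ∈ [s+1, d-k]` for `κ > k + s`: disjoint ranges, injective on each (case distinction, omega
after abstracting `t / m` and `t % m`). (2) For an injective function `f` on a finite set `I` of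
cardinality `≥ l` the number of `κ ∈ I` with `#{κ' ∈ I | f κ' < f κ} < l` is `l` (the map
`κ ↦ #{κ' ∈ I | f κ' < f κ}` is a bijection of `I` with `range I.card`; it is strictly monotone
with respect to `f` and has values `< I.card`). Here `I = Icc b (d-a)`, of cardinality
`d - a + 1 - b ≥ l`. -/
def StPSC : Prop :=
  ∀ m d t : ℕ, 1 ≤ m → t ≤ d * m →
    (∀ κ κ', κ ≤ d → κ' ≤ d → rk m d t κ = rk m d t κ' → κ = κ') ∧
    ∀ a b l : ℕ, a + b + l ≤ d + 1 → 1 ≤ l →
      ((Icc b (d-a)).filter (fun κ => ps m d t a b κ < l)).card = l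

/-- **TMX.** The degeneration. Here `L = FractionRing (Polynomial K)`, `T` is the image of the
variable, elements of `K` are mapped to `L` by `algebraMap (Polynomial K) L ∘ C`. Uses `StBIN`,
`StPSC` and `Pool.Agent.Helper46.EAH.kernel_generic`.
Proof. Let the column set be `Cc = {γ | γ ∈ ⋃ κ ≤ d, Cx x y (d-κ) κ}` (a finset of exponents; each
`γ` has a level `κ = s2 γ`). Put `f γ = T^(-lam (s2 γ)) * v γ`. Fix `i ∈ S` and `ε` with
`a + b < μ i` (`a = s1 ε`, `b = s2 ε`), `l = μ i - a - b`, `A = Icc b (d - a)`,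
`Λ = {κ ∈ A | ps m d (t i) a b κ < l}`, of cardinality `l` by `StPSC`. Apply `StBIN` with
`c κ = T^(w i * κ) * ∑_{γ' ∈ Cx x y (d-κ) κ} rc (g i) (gk d ε κ) γ' * v γ'`: for `κ0 ∈ Λ`
`c κ0 + ∑ κ ∈ A \ Λ, β κ0 κ * c κ = 0`. Since `c κ = T^(w i * κ + lam κ) * R κ` with
`R κ = ∑ γ', rc (g i) (gk d ε κ) γ' * f γ'`, dividing by `T^(w i * κ0 + lam κ0)` gives
`R κ0 + ∑ κ ∈ A \ Λ, β κ0 κ * T^(e κ) * R κ = 0`,
`e κ = (w i * κ + lam κ) - (w i * κ0 + lam κ0) ≥ 1` because `rk κ0 < rk κ` (if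
`rk κ ≤ rk κ0` then `ps κ ≤ ps κ0 < l`). This is a row with coefficients in `Polynomial K`: at column
`γ'` of level `κ'` the coefficient is `C (rc (g i) (gk d ε κ0) γ')` if `κ' = κ0`,
`C (β κ0 κ' * rc (g i) (gk d ε κ') γ') * X^(e κ')` if `κ' ∈ A \ Λ`, and `0` otherwise. Index the rows
by the triples `(i, ε, κ0)` (for triples not satisfying the conditions take the zero row). Apply
`kernel_generic` with `A = Polynomial K`, `φ = evaluation at 0 : Polynomial K → K`,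
`ι = algebraMap to L` (injective). The hypothesis at `0`: let `h : Cc → K` be killed by all rows at
`T = 0`, i.e. `∑ γ' ∈ Cx x y (d-κ0) κ0, rc (g i) (gk d ε κ0) γ' * h γ' = 0`. For `κ ≤ d` the restriction
of `h` to `Cx x y (d-κ) κ` is in `Wt K x y (d-κ) κ (g i) (TD m d (t i) (μ i) κ)` for each `i ∈ S` : if
`γ ∈ Cx x y (d-κ) κ` and `(a,b) = (d-κ-γ (inl 0), κ - γ (inr 0)) ∈ TD`, let `ε` be `γ` with the entries
at `inl 0`, `inr 0` replaced by `0` (`Finsupp.erase`); then `s1 ε = a`, `s2 ε = b`,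
`gk d ε κ = γ`, `a + b < μ i`, `b ≤ κ ≤ d - a`, `ps < μ i - a - b`, i.e. `κ ∈ Λ`. So the restriction is `0`
by hypothesis, for every `κ`, hence `h = 0`. Conclusion `f = 0`, so `v γ = 0` on `Cc`. -/
def StTMX : Prop :=
  ∀ (K : Type) [Field K] [CharZero K] (x y m d : ℕ) (S : Finset ℕ) (g : ℕ → Mt x y K)
    (t μ w lam : ℕ → ℕ), 1 ≤ m → (∀ i ∈ S, t i ≤ d * m) → (∀ i ∈ S, μ i ≤ d) →
    (∀ i ∈ S, ∀ κ κ' : ℕ, κ ≤ d → κ' ≤ d → rk m d (t i) κ < rk m d (t i) κ' →
      w i * κ + lam κ < w i * κ' + lam κ') →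
    (∀ κ ≤ d, ∀ v : Vc K x y (d-κ) κ,
      (∀ i ∈ S, v ∈ Wt K x y (d-κ) κ (g i) (TD m d (t i) (μ i) κ)) → v = 0) →
    ∀ v : (Vr x y →₀ ℕ) → FractionRing (Polynomial K),
      (∀ i ∈ S, ∀ ε : Vr x y →₀ ℕ, ε (Sum.inl 0) = 0 → ε (Sum.inr 0) = 0 →
        ∀ p, s1 ε + s2 ε + p < μ i →
        ∑ κ ∈ Icc (s2 ε) (d - s1 ε), (κ.choose p : FractionRing (Polynomial K)) *
          (algebraMap (Polynomial K) (FractionRing (Polynomial K)) Polynomial.X) ^ (w i * κ) *
          (∑ γ' ∈ Cx x y (d-κ) κ,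
            algebraMap (Polynomial K) (FractionRing (Polynomial K))
              (Polynomial.C (rc (g i) (gk d ε κ) γ')) * v γ') = 0) →
      ∀ κ ≤ d, ∀ γ ∈ Cx x y (d-κ) κ, v γ = 0

/-- **DEG.** Uses `StCOE`, `StWGT`, `StTMX`, `StRCN`, `StRCM`. Proof. Take `lam` and `w i` (for `t i`)
from `StWGT`, `L = FractionRing (Polynomial K)`, `T` the image of the variable and
`P i = Sum.elim (fun a => (g i).1 a 0) (fun b => T ^ (w i) * (g i).2 b 0)` (entries mapped to `L`). Let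
`F` be homogeneous of degree `d` and in all `ptJ (P i) ^ μ i`; `v γ = coeff γ F`. By `StCOE` with
`τ = T ^ w i` and the pair `g i` mapped to `L`, the hypothesis of `StTMX` holds:
`coeff (gk d ε κ) (sb g F) = ∑ γ' ∈ Cx x y (d-κ) κ, rc g (gk d ε κ) γ' * coeff γ' F` because
`F = ∑ κ ≤ d, ∑ γ' ∈ Cx x y (d-κ) κ, monomial γ' (coeff γ' F)` (an exponent of degree `d` is in
exactly one `Cx x y (d-κ) κ`) and `rc g γ γ' = 0` for `γ' ∈ Cx x y (d-κ') κ'`, `γ` in another level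
(`StRCM` (3)); `gk d ε κ ∈ Cx x y (d-κ) κ` for `κ ∈ Icc (s2 ε) (d - s1 ε)` (`s1 ε ≤ d`);
`rc` of the mapped pair is the image of `rc (g i)` (`StRCN`);
`(T ^ w i) ^ κ = T ^ (w i * κ)`. So all coefficients of `F` vanish. -/
def StDEG : Prop :=
  ∀ (K : Type) [Field K] [CharZero K] (x y m d : ℕ) (S : Finset ℕ) (g : ℕ → Mt x y K)
    (t μ : ℕ → ℕ), 1 ≤ m → (∀ i ∈ S, t i ≤ d * m) → (∀ i ∈ S, μ i ≤ d) →
    (∀ κ ≤ d, ∀ v : Vc K x y (d-κ) κ,
      (∀ i ∈ S, v ∈ Wt K x y (d-κ) κ (g i) (TD m d (t i) (μ i) κ)) → v = 0) →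
    ∃ P : ℕ → Vr x y → FractionRing (Polynomial K),
      (∀ i, (g i).1 0 0 ≠ 0 → P i (Sum.inl 0) ≠ 0) ∧
      ∀ F : MvPolynomial (Vr x y) (FractionRing (Polynomial K)), F.IsHomogeneous d →
        (∀ i ∈ S, F ∈ (ptJ (P i)) ^ (μ i)) → F = 0

/-- **TRF.** From special points to the generic point. `n = x + y + 1`.
Proof. Let `e : Fin (x+y+2) ≃ Vr x y` be a bijection with `e 0 = inl 0` (e.g. built from
`finSumFinEquiv.symm`). For `i ∈ S` let `Q i j = P i (e (j+1)) / P i (inl 0)` for `j < n` (affine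
coordinates) and `0` otherwise (for `i ∉ S` everything `0`). To show `TInj ℂ n d S μ` use
`kernel_generic` with `A = MvPolynomial (ℕ × ℕ) ℂ`, `φ : X (i,j) ↦ Q i j`,
`ι = algebraMap A (Gen ℂ)`, the rows `(i, α)` with entries
`cw n (fun j => X (i,j)) α a` for `a ∈ Box n d` (zero row unless `i ∈ S`, `sz n α < μ i`), exactly as in
the proof of `SInj_of_special` in `Pool/Agent/Helper46/EAH/State.lean` (for `n ≥ 1` one can also
quote `SInj_of_special` itself with `σ i = St.F (μ i)`, whose conditions are those of `TInj`). It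
remains to show: if `c : E n → L` satisfies `Phi n d (Q i) α c = 0` for `i ∈ S`, `sz n α < μ i`, then
`c = 0` on `Box n d`. By `pol_mem_iff` (`Pool/Agent/Helper46/EAH/Geo2.lean`) with the homogeneous
point `Q' i = Fin.cons 1 (fun j => Q i j)` (`Q' i 0 = 1`, `row` becomes `cw`, `pv (Q' i) j = Q i j`,
`Phi_congr`) the form `pol n d c` lies in `ptI (Q' i) ^ μ i`. Apply `rename e`: the image `F` is
homogeneous of degree `d` and lies in `ptJ (Q' i ∘ e.symm) ^ μ i`, and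
`P i = P i (inl 0) • (Q' i ∘ e.symm)`, so `ptJ (P i) = ptJ (Q' i ∘ e.symm)` (a homogeneous `f` of
degree `k` has `eval (r • p) f = r ^ k * eval p f`). Hence `F = 0`, so `pol n d c = 0` (`rename` by an
injective map is injective) and `c = 0` on the box (`pol_inj`). -/
def StTRF : Prop :=
  ∀ (L : Type) [Field L] [Algebra ℂ L] (x y d : ℕ) (S : Finset ℕ) (μ : ℕ → ℕ)
    (P : ℕ → Vr x y → L), (∀ i ∈ S, P i (Sum.inl 0) ≠ 0) →
    (∀ F : MvPolynomial (Vr x y) L, F.IsHomogeneous d →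
      (∀ i ∈ S, F ∈ (ptJ (P i)) ^ (μ i)) → F = 0) →
    TInj ℂ (x+y+1) d S μ

/-- **GEN.** Uses `StDEG`, `StTRF`. Proof. `StDEG` with `K = Kf x y` (characteristic zero, it contains
`ℂ`), `g = gn x y`; `(gn x y i).1 0 0` is the image of a variable, so it is not zero. The level
hypothesis: a vector in all `Wt` is in the infimum, which is `⊥`. Then `StTRF` with
`L = FractionRing (Polynomial (Kf x y))`, a `ℂ`-algebra. -/
def StGEN : Prop :=
  ∀ (x y m d : ℕ) (S : Finset ℕ) (t μ : ℕ → ℕ), 1 ≤ m → (∀ i ∈ S, t i ≤ d * m) →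
    (∀ i ∈ S, μ i ≤ d) →
    (∀ κ ≤ d, (⨅ i ∈ S, Wt (Kf x y) x y (d-κ) κ (gn x y i) (TD m d (t i) (μ i) κ) :
      Submodule (Kf x y) (Vc (Kf x y) x y (d-κ) κ)) = ⊥) →
    TInj ℂ (x+y+1) d S μ

end Pool.Agent.Helper44.LN
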