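import Pool.Agent.Helper44.LN.StA
import Pool.Agent.Helper44.LN.StD
import Pool.Agent.Helper65.HFL.Large

/-! Project LN, part F: assembly. -/

namespace Pool.Agent.Helper44.LN

open Finset MvPolynomial Pool.Agent.Helper46.EAH

/-- **ASG.** Assignment of the classes. Proof. Induction on `N`, or directly: let
`c u = ∑ v ∈ range (u+1), n v` and `t i = #{u ∈ range N | c u ≤ i}`. Then `t i ≤ N`, and for `i ≥ r`
all `c u ≤ r ≤ i`, so `t i = N`. As `c` is monotone, for `i < r`: `t i = u` iff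
`c (u-1) ≤ i < c u` (with `c (-1) = 0`, and `c N = r`), which holds for exactly `n u` values of
`i < r`. -/
def StASG : Prop :=
  ∀ (n : ℕ → ℕ) (N r : ℕ), ∑ u ∈ range (N+1), n u = r → ∃ t : ℕ → ℕ, (∀ i, t i ≤ N) ∧
    (∀ i, r ≤ i → t i = N) ∧ ∀ u ≤ N, ((range r).filter (fun i => t i = u)).card = n u

/-- **LVS.** Level sums. Uses `StSIM`. Proof. Split the sum (`Finset.sum_range_add` or
`Finset.range_eq_Ico`): for `i < r` the summand is `sz2 x y (TD m d (t i) m κ)`, group by the value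
`t i ∈ range (d*m+1)` (`Finset.sum_fiberwise_of_maps_to`, `Finset.sum_const`). For `r ≤ i < r + q` the
summand is `sz2 x y (TD m d (d*m) 1 κ)`, which is `1` for `κ = d` and `sz2 x y ∅ = 0` for `κ < d`. -/
def StLVS : Prop :=
  ∀ (x y m d r q : ℕ) (t : ℕ → ℕ), 1 ≤ m → (∀ i, t i ≤ d * m) → (∀ i, r ≤ i → t i = d * m) →
    ∀ κ ≤ d, ∑ i ∈ range (r+q), sz2 x y (TD m d (t i) (if i < r then m else 1) κ) =
      ∑ u ∈ range (d*m+1), ((range r).filter (fun i => t i = u)).card *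
        sz2 x y (TD m d u m κ) + (if κ = d then q else 0)

/-- **LVN.** The conditions of one level are enough. Uses `StLVT`, `StDGA`, `StDGB`, `StSZB`. Proof.
`C1 = m^4 * 4^m * m! * Θ^m`. Let `s = x + y ≥ m ≥ 1`, `p = d - κ`, `D i = TD m d (t i) μ κ` with
`μ = m` or `1`. Apply `StLVT` with `S = range (r+q)`, multiplicity `m`, bidegree `(p, κ)`:
`D i ⊆ TM m p κ` by `StSZB` (3). The sum condition is the hypothesis (`EE`). The last condition: let
`i ∈ S`, `δ = dg (D i) ≥ 1`; `D i ⊆ TM m p κ ⊆ range m ×ˢ range m` and `dg (TM m p κ) ≤ m - 1`, so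
`δ ≤ m - 1` (`Finset.sup_mono`), and by `StSZB` (1), `sz2 (D i) ≤ m^2 (s+m)^δ`,
`sz2 (TM m p κ) ≤ m^2 (s+m)^(m-1)`; as `s + m ≤ 2 s` the product is
`≤ m^4 (2s)^(δ+m-1) ≤ m^4 4^m s^(δ+m-1)`. Lower bound of the sum: if `κ + m ≤ d` let
`u = κ m + (m - 1 - (δ-1))` (`≤ d m`); each `j < r` with `t j = u` has (`StDGA` with `δ - 1`)
`dg (D j) = δ - 1` and `(δ-1, 0) ∈ D j`, so `sz2 (D j) ≥ hh x (δ-1) * hh y 0 = hh x (δ-1)`
(`StSZB` (4); `hh y 0 = 1`), and `(δ-1)! * hh x (δ-1) ≥ x^(δ-1)` (`StSZB` (2)). So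
`(δ-1)! Θ^(δ-1) * ∑ ≥ C1 s^m (Θ x)^(δ-1) ≥ C1 s^(m+δ-1)`, hence
`m! Θ^m * ∑ ≥ m! Θ^m * m^4 4^m s^(m+δ-1)`; cancel `m! Θ^m > 0`. If `κ + m > d` then `κ ≥ m` (as
`d ≥ 2m`); use `u = (κ - (m-1-(δ-1))) m` and `StDGB`, `(0, δ-1) ∈ D j`, `hh y (δ-1)`, `s ≤ Θ y`. -/
def StLVN : Prop :=
  ∀ m d Θ : ℕ, 1 ≤ m → 2 * m ≤ d → 1 ≤ Θ → ∃ C1 : ℕ, ∀ x y : ℕ, TB Θ x y m →
    ∀ (r q : ℕ) (t : ℕ → ℕ),
      (∀ u ≤ d * m, C1 * (x+y)^m ≤ ((range r).filter (fun i => t i = u)).card) →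
      ∀ κ ≤ d, EE x y d κ ≤
          ∑ i ∈ range (r+q), sz2 x y (TD m d (t i) (if i < r then m else 1) κ) →
        (⨅ i ∈ range (r+q), Wt (Kf x y) x y (d-κ) κ (gn x y i)
          (TD m d (t i) (if i < r then m else 1) κ) :
          Submodule (Kf x y) (Vc (Kf x y) x y (d-κ) κ)) = ⊥

/-- **COR.** The theorem near the critical number of points. Uses `StNTL`, `StDSG`, `StVZE`,
`StLSM`, `StASG`, `StLVS`, `StLVN`, `StGEN`. Proof. Take `Θ, s0` from `StNTL`, `C1` from `StLVN`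
(for `m, d, Θ`), `s2` from `StDSG` (for `m, d, Θ, C1`), `n0 = max s0 (max s2 (max m 1)) + 1`. Let
`n ≥ n0`, `s = n - 1 = x + y` from `StNTL`; `TB Θ x y s2`, `TB Θ x y m`, and `y ≥ 1` since
`1 ≤ s ≤ Θ y`. `n = x + y + 1`, `N n m = am x y m` (`N n m = (n+m-1).choose n`,
`(x+y+m).choose (m-1)`, `Nat.choose_symm_diff`) and `N n (d+1) = ∑ κ ∈ range (d+1), EE x y d κ`
(`StVZE` (3), `N_succ`). In both cases `Crit x y m d r`. Let `Z` be as in `StDSG`,
`c u = Z u - (if u = d*m then 0 else Z (u+1))`; `∑ u ∈ range (d*m+1), c u = Z 0 = r` (telescoping, `Z`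
is antitone on `[0, d m]`), `c u ≥ C1 s^m`. `t` from `StASG`. By `StLSM` the level sums are
`∑ c u * sz2 (TD m d u m κ) = EE κ` for `κ < d`, and for `κ = d` the sum plus `∑_{κ<d} EE κ` is
`r * am`. In the first case `r am + q = ∑_{κ ≤ d} EE`, so the sum at level `d` plus `q` is `EE d`; in
the second case the sum at level `d` is `≥ EE d`. By `StLVS` the hypothesis of `StLVN` holds for all
`κ ≤ d`. Apply `StGEN` with `μ i = if i < r then m else 1` (`≤ m ≤ d`), which is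
`exm (fun _ => m) i`. -/
def StCOR : Prop :=
  ∀ m d : ℕ, 1 ≤ m → 2 * m ≤ d → ∃ n0 : ℕ, ∀ n ≥ n0, ∀ r q : ℕ,
    ((r * N n m + q = N n (d+1) ∧ q ≤ N n m) ∨
      (q = 0 ∧ N n (d+1) ≤ r * N n m ∧ r * N n m ≤ N n (d+1) + N n m)) →
    TInj ℂ n d (range (r+q)) (exm (fun _ : Fin r => m))

/-- **TQQ.** All numbers of points. Uses `StCOR`. Proof. `n0` from `StCOR` and `n ≥ 1`. Let
`a = N n m ≥ 1`, `T = N n (d+1)`, `r0 = T / a`, `q0 = T % a`. Use `WS` and `tinj_iff` of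
`Pool/Agent/Helper98/UAH/Defs.lean`, `cod` and `simple_drop` of `Drop.lean`. Case `r ≤ r0`:
`TInj` for `(r0, q0)` by `StCOR` (first case), so `WS (exm (Fin r0)) (range (r0+q0)) = ⊥`; the points
in `range (r0+q0) \ range r` impose at most `(r0 - r) a + q0 = T - r a` conditions in total (`cod`;
for submodules of a finite dimensional space
`finrank U ≤ finrank (U ⊓ W) + (finrank V - finrank W)`, induction), so
`finrank (WS μ (range r)) ≤ T - r a` (where `μ i = m` for `i < r`). Take `q = T - r a`: by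
`simple_drop` with `Q = Ico r (r+q)` and `μ = exm (fun _ : Fin r => m)`,
`finrank (WS μ (range (r+q))) ≤ (T - r a) - q = 0`. (`WS` depends only on the values of `μ` on the
set.) Case `r > r0`, `q0 > 0`: `r1 = r0 + 1`, `T ≤ r1 a ≤ T + a`, `StCOR` (second case) gives
`TInj` for `(r1, 0)`; case `r > r0`, `q0 = 0`: `r1 = r0` (second case). In both cases
`range r1 ⊆ range r` and `WS_anti`, `q = 0`. -/
def StTQQ : Prop :=
  ∀ m d : ℕ, 1 ≤ m → 2 * m ≤ d → ∃ n0 : ℕ, ∀ n ≥ n0, ∀ r : ℕ, ∃ q,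
    q ≤ N n (d+1) - r * N n m ∧ TInj ℂ n d (range (r+q)) (exm (fun _ : Fin r => m))

/-- **HIL.** Hilbert functions. Uses `StTQQ`. Proof. `n0 =` maximum of `27^m + 1` and of the
numbers of `StTQQ` for `d ∈ [2m, 4m]`. Apply `Pool.Agent.Helper98.UAH.hilbert_good` with
`k i = m`, `D = 4 * m - 3` (`ex_Ib ℂ n m`), `good d = (2 * m ≤ d)`: for `d ≤ 4 m` use `StTQQ`, for
`d > 4 m` use `tinj_big` with `ex_Ib`. The passage from `hilbert` (integer valued) to `hilb` (real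
valued) and from `N` to binomial coefficients is as in the proof of
`Pool.Agent.Helper65.HFL.uni` (`Pool/Agent/Helper65/HFL/Uni.lean`). -/
def StHIL : Prop :=
  ∀ m : ℕ, 1 ≤ m → ∃ n0 : ℕ, ∀ n ≥ n0, ∀ r : ℕ,
    ∃ G : MvPolynomial (Fin r × Fin (n + 1)) ℂ, G ≠ 0 ∧
      ∀ P : Fin r → Fin (n + 1) → ℂ, eval (fun x => P x.1 x.2) G ≠ 0 →
        ∀ d : ℕ, 2 * m ≤ d →
          Pool.Agent.Helper65.HF.hilb (Pool.Agent.Helper65.HF.fatIdeal P m) d =
            ((min ((n + d).choose n) (r * (n + m - 1).choose n) : ℕ) : ℝ)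

end Pool.Agent.Helper44.LN
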