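import Pool.Agent.Helper44.LN.Defs

/-! Project LN, part G: the general framework (substitutions, generic pairs of matrices, growth,
absorption). See `Defs.lean` for the notions. Every statement `StXXX` is to be proved as a theorem
`hXXX`, with the statements named in its docstring as hypotheses. -/

namespace Pool.Agent.Helper44.LN

open Finset MvPolynomial

/-- entrywise image of a pair of matrices -/
def mp {R S : Type*} [CommRing R] [CommRing S] (φ : R →+* S) {x y : ℕ} (g : Mt x y R) :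
    Mt x y S := (g.1.map φ, g.2.map φ)

/-- **RCN.** Naturality. Proof: `sb (mp φ g) (MvPolynomial.map φ f) = MvPolynomial.map φ (sb g f)`
(two ring homomorphisms in `f`, compare on `C c` and on the variables), apply it to the monomial and
take coefficients (`coeff_map`). -/
def StRCN : Prop :=
  ∀ (R S : Type) [CommRing R] [CommRing S] (φ : R →+* S) (x y : ℕ) (g : Mt x y R)
    (γ γ' : Vr x y →₀ ℕ), rc (mp φ g) γ γ' = φ (rc g γ γ')

/-- **RCM.** The matrices `RC p q g` on the exponents of bidegree `(p, q)` are multiplicative (in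
reversed order), `RC 1 = 1`, and `sb g` of a monomial of bidegree `(p,q)` has no coefficient
outside `Cx x y p q`.
Proof. (3) first. `Cx x y p q` consists of the `γ` with `∑ i, γ (inl i) = p` and
`∑ j, γ (inr j) = q` (mem_finsuppAntidiag, Fintype.sum_sum_type). The monomial is the product of
`X (inl i) ^ γ' (inl i)` and `X (inr j) ^ γ' (inr j)`; its image is a product of powers of sums of
`C c * X (inl j)`, and of `C c * X (inr j)`. Use `IsWeightedHomogeneous` with the weight
`Sum.elim (fun _ => (1,0)) (fun _ => (0,1)) : Vr x y → ℕ × ℕ` : variables of the first block have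
weight `(1,0)`, of the second `(0,1)`; each `sb g (X v)` is weighted homogeneous of the weight of
`v`; so the image is weighted homogeneous of weight `(p, q)` (products, powers, sums), and then a
nonzero coefficient at `γ` forces the weight of `γ` to be `(p,q)`. (Alternatively two homogeneities
with weights in `ℕ`.)
(1) `sb (h * g) = (sb g).comp (sb h)` : both are algebra maps, compare on variables: `X (inl i)`
goes to `∑ j, C ((h.1 * g.1) i j) X (inl j)` and
`sb g (∑ l, C (h.1 i l) X (inl l)) = ∑ l, C (h.1 i l) * ∑ j, C (g.1 l j) X (inl j)`. For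
`γ, γ''` in `Cx`: `rc (h*g) γ γ'' = coeff γ (sb g (sb h (monomial γ'' 1)))`, and
`sb h (monomial γ'' 1) = ∑ γ' ∈ Cx, monomial γ' (rc h γ' γ'')` by (3), so this is
`∑ γ' ∈ Cx, rc g γ γ' * rc h γ' γ''`; rewrite the sum over the finset as a sum over the subtype.
(2) `sb 1 = id` (compare on variables), `coeff_monomial`, `Matrix.one_apply`. -/
def StRCM : Prop :=
  ∀ (R : Type) [CommRing R] (x y p q : ℕ),
    (∀ h g : Mt x y R, RC p q (h * g) = RC p q g * RC p q h) ∧
    RC p q (1 : Mt x y R) = 1 ∧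
    ∀ (g : Mt x y R) (γ γ' : Vr x y →₀ ℕ), γ' ∈ Cx x y p q → γ ∉ Cx x y p q → rc g γ γ' = 0

/-- **CNT.** Cardinalities. (1) number of exponents of bidegree `(p,q)`. (2) number of those whose
zeroth exponents are `p - a` and `q - b` with `(a,b) ∈ D`.
Proof. `γ ↦ (γ ∘ inl, γ ∘ inr)` is a bijection of `Cx x y p q` with the product of the
`piAntidiag` (or `finsuppAntidiag`) sets of `univ : Finset (Fin (x+1))` with sum `p` and of
`univ : Finset (Fin (y+1))` with sum `q`; their cardinalities are `(x + p).choose p` and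
`(y + q).choose q` (`Finset.card_finsuppAntidiag_nat_eq_choose`, `Nat.choose_symm_add`).
(2) Sum over the pairs `(a,b) ∈ D` (`Finset.card_eq_sum_card_fiberwise`, the map
`γ ↦ (p - γ (inl 0), q - γ (inr 0))`): for `a ≤ p`, `b ≤ q` the fibre is in bijection with the
product of {exponents on `Fin x` with sum `a`} and {exponents on `Fin y` with sum `b`} (delete the
zeroth entries; the zeroth entries are `p - a` and `q - b`; note `γ (inl 0) ≤ p` in `Cx`, so
`p - γ (inl 0) = a` means `γ (inl 0) = p - a`), of cardinality `hh x a * hh y b`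
(`hh x a = (x + a - 1).choose a` is the number of exponents on `Fin x` with sum `a`, also for
`x = 0`: then it is 1 for `a = 0` and 0 for `a > 0`). -/
def StCNT : Prop :=
  ∀ x y p q : ℕ,
    (Cx x y p q).card = (x + p).choose x * (y + q).choose y ∧
    ∀ D : Finset (ℕ × ℕ), D ⊆ range (p+1) ×ˢ range (q+1) →
      ((Cx x y p q).filter
        (fun γ => (p - γ (Sum.inl 0), q - γ (Sum.inr 0)) ∈ D)).card = sz2 x y D

/-- **COD.** The conditions of type `D` at a generic point are independent.
Uses `StRCN`, `StRCM`, `StCNT`. Proof. The matrices `(gn x y i).1`, `(gn x y i).2` have nonzero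
determinant (the determinant of the generic matrix of variables is not zero:
`Matrix.det_mvPolynomialX_ne_zero` or: specialise the variables to the identity matrix), so
they are invertible over the field; let `h` be the pair of inverses, `h * gn = 1 = gn * h`; by
`StRCM` the matrix `A = RC p q (gn x y i)` is invertible (`RC (gn*h) = RC h * RC gn = 1`). Then
`Wt = {v | (A v)_γ = 0 for γ in the set of StCNT(2)}` is the image under `A⁻¹` of the space of
vectors vanishing at these `γ`, of dimension `card - sz2 x y D`. -/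
def StCOD : Prop :=
  ∀ (x y p q i : ℕ) (D : Finset (ℕ × ℕ)), D ⊆ range (p+1) ×ˢ range (q+1) →
    Module.finrank (Kf x y) (Wt (Kf x y) x y p q (gn x y i) D) + sz2 x y D = (Cx x y p q).card

/-- **SYM.** Symmetry. Uses `StRCN`. Proof. Let `θ` be the automorphism of `Kf x y` induced by the
automorphism `rename (Prod.map π id)` of the polynomial ring (`MvPolynomial.renameEquiv`,
`IsFractionRing.ringEquivOfRingEquiv`), so `mp θ (gn x y i) = gn x y (π i)`. By `StRCN` the map
`v ↦ θ ∘ v` sends `Wt (gn x y i) D` onto `Wt (gn x y (π i)) D` (apply `θ`, resp. `θ.symm`, to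
`(RC p q g).mulVec v γ = ∑ γ', rc g γ γ' * v γ'`). It is a bijective semilinear map between the two
intersections, so it preserves `finrank` (see the proof of `Pool.Agent.Helper98.UAH.sym` in
`Pool/Agent/Helper98/UAH/Sym.lean` for the same argument). -/
def StSYM : Prop :=
  ∀ (x y p q : ℕ) (π : Equiv.Perm ℕ) (S : Finset ℕ) (τ : ℕ → Finset (ℕ × ℕ)),
    Module.finrank (Kf x y)
      (⨅ i ∈ S, Wt (Kf x y) x y p q (gn x y (π i)) (τ i) : Submodule (Kf x y) (Vc _ x y p q)) =
    Module.finrank (Kf x y)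
      (⨅ i ∈ S, Wt (Kf x y) x y p q (gn x y i) (τ i) : Submodule (Kf x y) (Vc _ x y p q))

/-- **AUT.** Left multiplication of some of the generic pairs by a constant invertible pair.
Proof. On the polynomial ring take the `ℂ`-algebra map `aeval` with
`X (i, inl (j,l)) ↦ ∑ l', C (h.1 j l') * X (i, inl (l', l))` for `i ∈ A`, and
`X (i, inr (j,l)) ↦ ∑ l', C (h.2 j l') * X (i, inr (l', l))`, and all other variables fixed. The same
map for the pair of inverse matrices is a two-sided inverse (compare on variables,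
`Matrix.mul_nonsing_inv`). So it is an algebra automorphism; extend it to the fraction field
(`IsFractionRing.ringEquivOfRingEquiv`). -/
def StAUT : Prop :=
  ∀ (x y : ℕ) (h : Mt x y ℂ), IsUnit h.1.det → IsUnit h.2.det → ∀ A : Finset ℕ,
    ∃ θ : Kf x y ≃+* Kf x y,
      (∀ c : ℂ, θ (algebraMap ℂ (Kf x y) c) = algebraMap ℂ (Kf x y) c) ∧
      (∀ i ∈ A, mp (θ : Kf x y →+* Kf x y) (gn x y i) =
        mp (algebraMap ℂ (Kf x y)) h * gn x y i) ∧
      ∀ i, i ∉ A → mp (θ : Kf x y →+* Kf x y) (gn x y i) = gn x y i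

/-- **DEN.** A polynomial over an extension field of `ℂ` vanishing at all complex points is zero.
Proof. Induction on the number of variables as for `MvPolynomial.funext`, or: `ℂ` is an infinite
subset of `K`; Mathlib has `MvPolynomial.funext_set` / `MvPolynomial.zero_of_eval_zero_on`-like
lemmas (polynomial vanishing on a product of infinite sets); or choose a basis of `K` over `ℂ` and
apply `MvPolynomial.funext` over `ℂ` to the coordinates. -/
def StDEN : Prop :=
  ∀ (K : Type) [Field K] [Algebra ℂ K] (ι : Type) [Finite ι] (P : MvPolynomial ι K),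
    (∀ c : ι → ℂ, eval (fun i => algebraMap ℂ K (c i)) P = 0) → P = 0

/-- **ROK.** Substitution by matrices of rank one. Proof. `sb (g) (X (inl i)) = C (u1 i) * ℓ1` with
`ℓ1 = ∑ j, C (f1 j) * X (inl j)`, and `sb g (X (inr i)) = C (u2 i) * ℓ2`. So
`sb g (monomial γ' 1) = C (∏ u ^ γ') * ℓ1 ^ p * ℓ2 ^ q` for `γ' ∈ Cx x y p q`. The coefficient of
`ℓ1 ^ p * ℓ2 ^ q` at `γ ∈ Cx x y p q` is
`multinomial * ∏ f1 ^ γ(inl) * multinomial * ∏ f2 ^ γ(inr)` (`Finset.sum_pow_of_commute` /
`Finset.sum_pow` in the multinomial form, then only one term contributes to the coefficient at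
`γ`). -/
def StROK : Prop :=
  ∀ (R : Type) [CommRing R] (x y p q : ℕ) (u1 f1 : Fin (x+1) → R) (u2 f2 : Fin (y+1) → R)
    (γ γ' : Vr x y →₀ ℕ), γ ∈ Cx x y p q → γ' ∈ Cx x y p q →
    rc ((Matrix.vecMulVec u1 f1, Matrix.vecMulVec u2 f2) : Mt x y R) γ γ' =
      (∏ i, u1 i ^ γ' (Sum.inl i)) * (∏ j, u2 j ^ γ' (Sum.inr j)) *
      (((Nat.multinomial univ (fun i => γ (Sum.inl i)) *
        Nat.multinomial univ (fun j => γ (Sum.inr j)) : ℕ) : R) *
      ((∏ i, f1 i ^ γ (Sum.inl i)) * ∏ j, f2 j ^ γ (Sum.inr j)))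

/-- **IRR.** Irreducibility. Uses `StDEN`, `StROK`, `StRCN`. Proof. If `Z ≠ ⊤` there is a nonzero
linear functional `lam = (lam_γ)` vanishing on `Z`; let `v ∈ Z`, `v ≠ 0`. Let
`G : Mt x y (MvPolynomial (Ix x y) K)` be the pair of matrices of variables
(`G.1 i j = X (inl (i,j))`, `G.2 i j = X (inr (i,j))`) and
`P = ∑ γ γ', C (lam γ) * rc G γ γ' * C (v γ')` (sum over `Cx x y p q`). By `StRCN` (applied to
`eval`), evaluating `P` at the entries of a pair `h` over `K` gives `∑ γ, lam γ * ((RC h) v)_γ`. For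
complex `h` with nonzero determinants it is `0`. So `det G.1 * det G.2 * P` vanishes at all complex
points, hence is `0` by `StDEN`, hence `P = 0` (the determinants of matrices of variables are not
zero, `Matrix.det_mvPolynomialX_ne_zero` up to renaming of the variables, or they do not vanish at
the identity; the ring is a domain). Now evaluate `P` at the rank one pairs
`(vecMulVec u1 f1, vecMulVec u2 f2)` over `K`: by `StROK`
`F(u) * ∑ γ, lam γ * mult γ * f ^ γ = 0` with `F(u) = ∑ γ', v γ' * u ^ γ'`. `F` is a nonzero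
polynomial, so `F(u) ≠ 0` for some `u` with entries in `K` (`K` infinite, `MvPolynomial.funext`).
Hence `∑ γ, lam γ * mult γ * f ^ γ = 0` for all `f`, so all `lam γ * mult γ = 0`
(`MvPolynomial.funext`), and `mult γ ≠ 0` in characteristic zero; `lam = 0`, contradiction. -/
def StIRR : Prop :=
  ∀ (K : Type) [Field K] [Algebra ℂ K] (x y p q : ℕ) (Z : Submodule K (Vc K x y p q)),
    (∀ h : Mt x y ℂ, IsUnit h.1.det → IsUnit h.2.det → ∀ v ∈ Z,
      (RC p q (mp (algebraMap ℂ K) h)).mulVec v ∈ Z) → Z ≠ ⊥ → Z = ⊤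

/-- **KEY.** Uses `StRCN`, `StRCM`, `StAUT`, `StIRR`. Write `W i = Wt (gn i) (τ i)`,
`U = ⨅ i ∈ S'', W i`, `Z = (⨅ i ∈ S, W i) ⊔ Wt (gn u) D`. Let
`N = {v | for all complex invertible pairs h, (RC h) v ∈ Z}` (a submodule; here and below `RC h`
means `RC p q (mp (algebraMap ℂ _) h)`). (a) `N` is stable under all `RC h` : `RC h' (RC h v) =
RC (h * h') v` by `StRCM`, and `h * h'` is invertible. (b) `U ≤ N` : let `v ∈ U` and `h` invertible.
Let `θ` be the automorphism of `StAUT` for the pair of inverse matrices `h⁻¹` and `A = S''`. Then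
`θ.symm` fixes the constants and `mp θ.symm (gn i) = h * gn i` for `i ∈ S''` (apply `θ.symm` to
`mp θ (gn i) = h⁻¹ * gn i`), and `θ`, `θ.symm` fix `gn i` for `i ∉ S''`. Let
`u = θ.symm ∘ (RC h v) = RC h (θ.symm ∘ v)`. For `i ∈ S''` and `γ` in the set of conditions:
`0 = θ.symm ((RC (gn i) v)_γ) = (RC (h * gn i) (θ.symm ∘ v))_γ = (RC (gn i) (RC h (θ.symm ∘ v)))_γ`
(`StRCN`, `StRCM`), so `u ∈ U`. Hence `u ∈ Z`. `θ ∘ z ∈ Z` for `z ∈ Z`: write `z = z1 + z2`; `θ` maps
`⨅ i ∈ S, W i` to itself and `Wt (gn u) D` to itself by `StRCN`, since `gn i`, `gn u` are fixed (all of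
`S` and `u` are outside `S''`). So `RC h v = θ ∘ u ∈ Z`. (c) `N ≠ ⊥` since `U ≠ ⊥`; by `StIRR`
`N = ⊤`, and `N ≤ Z` (take `h = 1`, `RC 1 = 1`). -/
def StKEY : Prop :=
  ∀ (x y p q : ℕ) (τ : ℕ → Finset (ℕ × ℕ)) (S'' S : Finset ℕ) (u : ℕ) (D : Finset (ℕ × ℕ)),
    Disjoint S'' S → u ∉ S'' →
    (⨅ i ∈ S'', Wt (Kf x y) x y p q (gn x y i) (τ i) : Submodule (Kf x y) (Vc _ x y p q)) ≤
      (⨅ i ∈ S, Wt (Kf x y) x y p q (gn x y i) (τ i)) ⊔ Wt (Kf x y) x y p q (gn x y u) D →
    (⨅ i ∈ S'', Wt (Kf x y) x y p q (gn x y i) (τ i) : Submodule (Kf x y) (Vc _ x y p q)) ≠ ⊥ →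
    (⨅ i ∈ S, Wt (Kf x y) x y p q (gn x y i) (τ i)) ⊔ Wt (Kf x y) x y p q (gn x y u) D = ⊤

/-- abstract systems of conditions: types `T`, maximal type `M` -/
def SysOK {K V T : Type} [Field K] [AddCommGroup V] [Module K V] (W : T → ℕ → Submodule K V)
    (M : T) : Prop :=
  (∀ τ i, W M i ≤ W τ i) ∧
  (∀ (π : Equiv.Perm ℕ) (S : Finset ℕ) (τ : ℕ → T),
    Module.finrank K (⨅ i ∈ S, W (τ i) (π i) : Submodule K V) =
      Module.finrank K (⨅ i ∈ S, W (τ i) i : Submodule K V)) ∧
  (∀ (τ : ℕ → T) (S'' S : Finset ℕ) (u : ℕ) (D : T), Disjoint S'' S → u ∉ S'' →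
    (⨅ i ∈ S'', W (τ i) i : Submodule K V) ≤ (⨅ i ∈ S, W (τ i) i) ⊔ W D u →
    (⨅ i ∈ S'', W (τ i) i : Submodule K V) ≠ ⊥ → (⨅ i ∈ S, W (τ i) i) ⊔ W D u = ⊤)

/-- **GRO.** Growth with one test point `u` of type `D`: if the test point is deficient on
`I(S) = ⨅ i ∈ S, W (τ i) i ≠ 0`, then a fresh point `z` of maximal type strictly decreases its
number of new conditions.
Proof. Write `f(S) = finrank I(S)`, `Z(S) = I(S) ⊔ W D u`. Suppose the conclusion fails, i.e.
`finrank(I S ⊓ W M z) + finrank(I S ⊓ W D u) ≥ finrank(I S ⊓ W M z ⊓ W D u) + f(S)`. By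
`Submodule.finrank_sup_add_finrank_inf_eq` this says
`finrank ((I S ⊓ W M z) ⊔ W D u) ≥ finrank (I S ⊔ W D u)`, so the two spaces are equal (the first is
contained in the second). All dimensions involved are invariant under permutations of the indices
(second condition of `SysOK`; the inequality for `(S, z)` is equivalent to the one for
`(π S, π z)` with types transported, `π` fixing `u`), so: (A) for every permutation `π` with
`π u = u`, with `S1 = π(S)` and types `τ1 (π i) = τ i`, and every `z1 ∉ S1`, `z1 ≠ u`: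
`Z(S1) = (I(S1) ⊓ W M z1) ⊔ W D u`. (For another `z1` compose with the transposition of the two
indices.) (B) exchange: for `r ∈ S1` and `z1 ∉ S1 ∪ {u}` let `S2 = (S1 \ {r}) ∪ {z1}` with the type
of `r` given to `z1`. Then `Z(S1) = (I(S1) ⊓ W M z1) ⊔ W D u ≤ Z(S2)` because
`I(S1) ⊓ W M z1 ≤ I(S1 \ {r}) ⊓ W (type of r) z1 = I(S2)` (first condition), and the two have the
same dimension (the transposition of `r` and `z1`; `finrank Z = f + finrank (W D u) - finrank(I ⊓ W D u)`
and both `f` and `finrank (I ⊓ W D u)`, an intersection over `S ∪ {u}`, are invariant). So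
`Z(S1) = Z(S2)`. (C) Choose a set `S''` disjoint from `S ∪ {u}` and a bijection with `S`; extend `τ`
by transport to `S''` (call it `τ'`, `τ' = τ` on `S`); exchanging the points of `S` one after another
for those of `S''` gives `Z(S) = Z(S'')` (induction over the subsets of `S`). Hence
`I(S'') ≤ Z(S'') = Z(S)`, and `I(S'') ≠ ⊥` since its dimension is `f(S) ≠ 0`. The third condition of
`SysOK` gives `Z(S) = ⊤`, i.e. `f(S) + finrank (W D u) = finrank(I S ⊓ W D u) + finrank V`,
contradicting the deficiency hypothesis. -/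
def StGRO : Prop :=
  ∀ (K V T : Type) [Field K] [AddCommGroup V] [Module K V] [FiniteDimensional K V]
    (W : T → ℕ → Submodule K V) (M : T), SysOK W M →
    ∀ (τ : ℕ → T) (S : Finset ℕ) (u z : ℕ) (D : T), u ∉ S → z ∉ S → z ≠ u →
      Module.finrank K (⨅ i ∈ S, W (τ i) i : Submodule K V) + Module.finrank K (W D u) <
        Module.finrank K ((⨅ i ∈ S, W (τ i) i) ⊓ W D u : Submodule K V) + Module.finrank K V →
      (⨅ i ∈ S, W (τ i) i : Submodule K V) ≠ ⊥ →
      Module.finrank K ((⨅ i ∈ S, W (τ i) i) ⊓ W M z : Submodule K V) +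
          Module.finrank K ((⨅ i ∈ S, W (τ i) i) ⊓ W D u : Submodule K V) + 1 ≤
        Module.finrank K (((⨅ i ∈ S, W (τ i) i) ⊓ W M z) ⊓ W D u : Submodule K V) +
          Module.finrank K (⨅ i ∈ S, W (τ i) i : Submodule K V)

/-- **WIN.** Window: a deficient test point bounds the dimension. Uses `StGRO`. Proof. Take
pairwise distinct `z_1, z_2, ...` outside `S ∪ {u}`, `S_j = S ∪ {z_1,...,z_j}` with types
`M` at the `z_i` (change `τ` there), `F_j = finrank I(S_j)`,
`D_j = F_j - finrank (I(S_j) ⊓ W D u)` (integers `≥ 0`). The hypothesis says `D_0 ≤ a - 1`. As long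
as `F_j ≠ 0`, `StGRO` gives `D_{j+1} + 1 ≤ D_j` (and the deficiency persists, `D_{j+1} ≤ a - 1`).
So `F_j = 0` for some `j ≤ D_0` (otherwise `D_{D_0 + 1} < 0`). Each step loses at most `b`:
`F_j ≤ F_{j+1} + b`. Hence `F_0 ≤ D_0 * b ≤ (a - 1) * b`. -/
def StWIN : Prop :=
  ∀ (K V T : Type) [Field K] [AddCommGroup V] [Module K V] [FiniteDimensional K V]
    (W : T → ℕ → Submodule K V) (M : T), SysOK W M →
    ∀ (b : ℕ), (∀ z, Module.finrank K V ≤ Module.finrank K (W M z) + b) →
    ∀ (τ : ℕ → T) (S : Finset ℕ) (u : ℕ) (D : T) (a : ℕ), u ∉ S →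
      Module.finrank K V = Module.finrank K (W D u) + a →
      Module.finrank K (⨅ i ∈ S, W (τ i) i : Submodule K V) <
        Module.finrank K ((⨅ i ∈ S, W (τ i) i) ⊓ W D u : Submodule K V) + a →
      Module.finrank K (⨅ i ∈ S, W (τ i) i : Submodule K V) ≤ (a - 1) * b

/-- **ABS.** Absorption. Uses `StWIN`. Proof. Suppose `f(S) = finrank I(S) > 0`. Enumerate
`S = {i_1, ..., i_N}` with `δ (τ i)` non-increasing (e.g. `Finset.sort` or induction; any
enumeration in which the degree never increases), `S_l = {i_1,...,i_l}`. Each drop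
`f(S_{l-1}) - f(S_l)` is at most `a (τ i_l)`; if all were equal, `f(S) = finrank V - ∑ a ≤ 0`. Let
`l` be the last index with a strictly smaller drop (deficient), `u = i_l`, `δ0 = δ (τ u)`,
`D = τ u`. By `StWIN` (with `S_{l-1}`) `f(S_l) ≤ f(S_{l-1}) ≤ (a D - 1) * a M`. If `δ0 = 0` then
`a D ≤ 1` and `f(S_l) = 0`, so `f(S) = 0`, contradiction. If `δ0 ≥ 1`: all points of degree
`δ0 - 1` come after `l`, and all points after `l` have full drop, so
`f(S_l) = f(S) + ∑_{j > l} a (τ i_j) ≥ f(S) + ∑_{δ = δ0 - 1} a ≥ f(S) + a D * a M`, so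
`f(S) + a D * a M ≤ (a D - 1) * a M`, contradiction with `f(S) > 0`. -/
def StABS : Prop :=
  ∀ (K V T : Type) [Field K] [AddCommGroup V] [Module K V] [FiniteDimensional K V]
    (W : T → ℕ → Submodule K V) (M : T), SysOK W M →
    ∀ (a δ : T → ℕ), (∀ t i, Module.finrank K V = Module.finrank K (W t i) + a t) →
      (∀ t, δ t = 0 → a t ≤ 1) →
    ∀ (τ : ℕ → T) (S : Finset ℕ), Module.finrank K V ≤ ∑ i ∈ S, a (τ i) →
      (∀ i ∈ S, 1 ≤ δ (τ i) →
        a (τ i) * a M ≤ ∑ j ∈ S.filter (fun j => δ (τ j) + 1 = δ (τ i)), a (τ j)) →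
      (⨅ i ∈ S, W (τ i) i : Submodule K V) = ⊥

/-- **LVT.** The level theorem. Uses `StCNT`, `StCOD`, `StSYM`, `StKEY`, `StABS`. Proof. Apply
`StABS` with `T = {D // D ⊆ TM m p q}`, `M = TM m p q`, `W D i = Wt (gn x y i) D`,
`a D = sz2 x y D`, `δ D = dg D`, `V = Vc (Kf x y) x y p q` (dimension `(Cx x y p q).card`,
`Module.finrank_fintype_fun_eq_card`). `SysOK`: `W M ≤ W D` as `D ⊆ TM`; symmetry is `StSYM`, the key
property is `StKEY`. The types are inside `range (p+1) ×ˢ range (q+1)`, so `StCOD` gives the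
codimensions. If `dg D = 0` then `D ⊆ {(0,0)}` and `sz2 x y D ≤ hh x 0 * hh y 0 = 1`. The types
`D i` with `i ∈ S` are in `T`; for `i ∉ S` replace them by the empty type. (`m = 0` is harmless:
`TM = ∅`.) -/
def StLVT : Prop :=
  ∀ (x y p q m : ℕ) (S : Finset ℕ) (D : ℕ → Finset (ℕ × ℕ)), (∀ i ∈ S, D i ⊆ TM m p q) →
    (x + p).choose x * (y + q).choose y ≤ ∑ i ∈ S, sz2 x y (D i) →
    (∀ i ∈ S, 1 ≤ dg (D i) → sz2 x y (D i) * sz2 x y (TM m p q) ≤
      ∑ j ∈ S.filter (fun j => dg (D j) + 1 = dg (D i)), sz2 x y (D j)) →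
    (⨅ i ∈ S, Wt (Kf x y) x y p q (gn x y i) (D i) :
      Submodule (Kf x y) (Vc (Kf x y) x y p q)) = ⊥

end Pool.Agent.Helper44.LN
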