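import Pool.Agent.Helper44.LN.StC

/-! Project LN, part L: the lattice generated by the exchanges. All statements were checked by
computer for `m ≤ 6`, `x + y < 60`. -/

namespace Pool.Agent.Helper44.LN

open Finset

/-- the arithmetic condition on `s = x + y` and `y` -/
def NTC (m s y : ℕ) : Prop :=
  ∀ p : ℕ, p.Prime → p ∣ s →
    (2 * m ≤ p → ¬ p ∣ y) ∧
    (p < 2 * m → ∀ e : ℕ, 1 ≤ e → p ^ e ∣ s → p ^ (e-1) < m → y ≡ 1 [MOD p ^ e])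

/-- **NTL.** Existence of good decompositions. Proof. `m ≥ 1`. Let `Lm = ∏ p < 2m prime, p^(2m)`
(so `p^e ∣ Lm` for all `p < 2m`, `e ≤ 2m`, and `p^(e-1) < m` implies `e ≤ m`). For `s ≥ 1` let
`g = gcd s Lm`; every `p^e` of the second condition divides `g`. Let `s1` be the largest divisor of
`s` coprime to `(2m-1)!` (write `s = s' * s1`, all prime factors of `s'` are `< 2m`, all of `s1` are
`≥ 2m`); `g ∣ s'`, `gcd g s1 = 1`. It suffices: `y ≡ 1 mod g` and `y` coprime to `s1` (or at least no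
prime `p ≥ 2m` divides `s` and `y`), with `y` in the middle range.
Case `s1 = 1`: `y = 1 + g * (s / (2 g))`; then `s/2 - g < y ≤ s/2 + 1`.
Case `g = 1` (no prime `< 2m` divides `s` if `m ≥ 2`, so `s` is odd; for `m = 1` the second
condition is void as there are no primes `< 2`): if `s` is odd take `y = (s+1)/2`: a prime dividing
`y` and `s` divides `2 y - s = 1`. If `s` is even (only `m = 1`): we need `gcd y s = 1`; take
`y = s/2 + 1` if `4 ∣ s`, `y = s/2 + 2` if `s ≡ 2 mod 4` (a common prime divisor `p` of `y` and `s`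
divides `2 y - s ∈ {2, 4}`, so `p = 2`, but `y` is odd). (One may treat `m = 1` separately like this.)
Case `g > 1`, `s1 > 1` (so `s1 ≥ 2m`, and `s1 ≥ 3`, odd if `m ≥ 2`): let `1 ≤ h ≤ g - 1` with
`s1 h ≡ -1 mod g` (exists, as `s1` is invertible mod `g > 1`), `u = s / (g s1)`, and
`y = 2 + s1 h + g s1 (u / 2)`. Then `y ≡ 1 mod g`, and `y ≡ 2 mod s1` is coprime to `s1` (primes
`≥ 2m ≥ 4`). Size: with `Π = g s1`, `s = Π u`: if `u = 1`: `y ≥ s1 = s/g` and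
`s - y ≥ Π - 2 - s1 (g-1) = s1 - 2 ≥ s1/3 ≥ s/(3g)`. If `u = 2`: `y ≥ Π = s/2`,
`s - y ≥ 2Π - Π - 2 - s1 (g-1) = s1 - 2 ≥ s/(6g)`. If `u ≥ 3`: `y ≥ Π (u-1)/2 ≥ s/3`,
`s - y ≥ Π (u - u/2 - 1) ≥ s/6`. So with `Θ = 6 Lm + 6` and `s ≥ s0 = Θ` large everything holds;
in all cases `x = s - y`. -/
def StNTL : Prop :=
  ∀ m : ℕ, 1 ≤ m → ∃ Θ s0 : ℕ, 2 ≤ Θ ∧ ∀ s ≥ s0, ∃ x y : ℕ, x + y = s ∧ s ≤ Θ * x ∧ s ≤ Θ * y ∧
    NTC m s y

/-- **MMV.** Special values of `Mm`. Here `q = m - σ`. Proof. Unfold `Mm`; the sum runs over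
`b ≤ q`, `a = q - b`, with the conditions `b ≤ k`, `a + k + σ ≤ d`.
(1) `k = 0`: only `b = 0` (`a = q ≤ d - σ`). (2) `k = d - m + q`, `σ = m - q`, `k + σ = d`: `a = 0`,
`b = q ≤ k`. (3) `σ = m`: `q = 0`. (4) `q ≤ k`, `k + m ≤ d`: both conditions always hold; the sum
`∑_{b ≤ q} hh x (q-b) * hh y b = hh (x+y) q` (number of exponents of degree `q` in `x + y` variables,
e.g. by the power series `(1-X)^(-x)` or induction). (5) `k < q`, `k + m ≤ d`: the second condition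
always holds (`a ≤ q`). (6) near the end: `k + σ + i = d`, `i < q`, the condition `a ≤ i`; the first
holds since `b ≤ q ≤ k` (`k = d - i - (m - q) ≥ 2m - i - m + q ≥ q`); sum over `a = q - b`. -/
def StMMV : Prop :=
  ∀ x y m d : ℕ, 1 ≤ m → 2 * m ≤ d →
    (∀ q < m, Mm x y m d 0 (m - q) = hh x q) ∧
    (∀ q < m, Mm x y m d (d - m + q) (m - q) = hh y q) ∧
    (∀ k, k + m ≤ d → Mm x y m d k m = 1) ∧
    (∀ k q, q < m → q ≤ k → k + m ≤ d → Mm x y m d k (m - q) = hh (x+y) q) ∧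
    (∀ k q, q < m → k < q → k + m ≤ d →
      Mm x y m d k (m - q) = ∑ b ∈ range (k+1), hh x (q-b) * hh y b) ∧
    (∀ i q, q < m → i < q →
      Mm x y m d (d - i - (m - q)) (m - q) = ∑ a ∈ range (i+1), hh x a * hh y (q-a))

/-- **BMP.** Binomial coefficients modulo `p`. Here `Q = p^e`, `e ≥ 1`. Proof. By Lucas' theorem for
prime powers: `(Q a + b).choose (Q c + f) ≡ a.choose c * b.choose f mod p` for `b, f < Q` (iterate
`Choose.choose_modEq_choose_mod_mul_choose_div`, or: `(1+X)^(Q a + b) = (1+X^Q)^a (1+X)^b` in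
`(ZMod p)[X]`, `add_pow_char_pow`). (1) `Q ∣ y'`, i.e. `y = Q y' + 1`: for `q < Q`
`hh y q = (Q y' + q).choose q ≡ 1`, and `hh y Q = (Q (y'+1)).choose Q ≡ y' + 1`. (2)
`x + 1 = Q x'`: `hh x 1 = x ≡ -1`; for `2 ≤ q < Q`:
`hh x q = (Q x' + (q-2)).choose q ≡ (q-2).choose q = 0`; `hh x Q = (Q x' + (Q-2)).choose Q ≡ x'`. (3)
`hh (Q s') Q = (Q s' + Q - 1).choose Q ≡ s'` (`Q s' + (Q-1)`, `(Q-1).choose 0 = 1`). (4) if
`p ≥ 2m` and `p` divides neither `x` nor `y` but `x + y`: `q! * hh z q = z (z+1) ... (z+q-1)`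
(`q < m ≤ p`), so `p ∣ hh z q` for some `q < m` only if `z mod p ≥ p - m + 2`; this cannot happen for
both `z = x` and `z = y`, since the residues of `x` and `y` add up to `p < 2 (p - m + 2)`. -/
def StBMP : Prop :=
  (∀ p e y' : ℕ, p.Prime → 1 ≤ e →
    (∀ q < p ^ e, hh (p ^ e * y' + 1) q ≡ 1 [MOD p]) ∧
      hh (p ^ e * y' + 1) (p ^ e) ≡ y' + 1 [MOD p]) ∧
  (∀ p e x x' : ℕ, p.Prime → 1 ≤ e → x + 1 = p ^ e * x' →
    (hh x 1 + 1 ≡ 0 [MOD p]) ∧ (∀ q, 2 ≤ q → q < p ^ e → hh x q ≡ 0 [MOD p]) ∧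
      hh x (p ^ e) ≡ x' [MOD p]) ∧
  (∀ p e s' : ℕ, p.Prime → 1 ≤ e → hh (p ^ e * s') (p ^ e) ≡ s' [MOD p]) ∧
  (∀ p m x y : ℕ, p.Prime → 1 ≤ m → 2 * m ≤ p → p ∣ x + y → ¬ p ∣ x → ¬ p ∣ y →
    (∀ q < m, ¬ p ∣ hh x q) ∨ (∀ q < m, ¬ p ∣ hh y q))

/-- a function on the levels which is constant along the exchanges of order prime to `p` -/
def Adj (x y m d p : ℕ) (f : ℕ → ℕ) : Prop :=
  ∀ k σ, 1 ≤ σ → σ ≤ m → k + σ ≤ d → ¬ p ∣ Mm x y m d k σ → f k = f (k + σ)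

/-- **CSA.** The star case. Uses `StMMV`. Proof. `f k = f (k + m)` for `k + m ≤ d` (`Mm = 1`). If
`p ∤ hh x q` for all `q < m` then `f 0 = f (m - q)` for all `q < m`, so `f` is constant on `[0, m]`, and
every level is congruent mod `m` to one of `[0, m)`. If `p ∤ hh y q` for `q < m` then
`f (d - m + q) = f d` for all `q < m`, so `f` is constant on `[d-m, d]`, and again by periodicity. -/
def StCSA : Prop :=
  ∀ (x y m d p : ℕ) (f : ℕ → ℕ), 1 ≤ m → 2 * m ≤ d → p.Prime → Adj x y m d p f →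
    ((∀ q < m, ¬ p ∣ hh x q) ∨ (∀ q < m, ¬ p ∣ hh y q)) → ∀ k ≤ d, f k = f 0

/-- **CB1.** Case `p ∤ y'` where `y = Q y' + 1`, `x + 1 = Q x'`, `Q = p^e < m`,
`x + y = Q s'`, `p ∤ s'`. Uses `StMMV`, `StBMP`. Proof. Let `F i = f (d - i)` for `0 ≤ i ≤ d`; it is
periodic mod `m` (`Mm k m = 1`). Relation (R): `F i = F (i + m - Q)` whenever `1 ≤ i` and
`i + m - Q ≤ d - Q`... precisely: (a) for `1 ≤ i ≤ Q - 1` the move from `k = d - i - (m - Q)` to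
`d - i` (`q = Q`) has `Mm = ∑_{a ≤ i} hh x a * hh y (Q - a) ≡ hh y Q - hh y (Q-1) ≡ y' mod p`
(`hh x 0 = 1`, `hh x 1 ≡ -1`, `hh x a ≡ 0` for `2 ≤ a < Q`), not divisible by `p`; (b) for
`Q ≤ i ≤ d - m` the move from `k = d - i - (m - Q)` (`Q ≤ k`, and `k + m ≤ d` since `i ≥ Q`) has
`Mm = hh (Q s') Q ≡ s'`, not divisible by `p`. So
`F i = F (i + m - Q)` for `1 ≤ i ≤ d - m`, in particular for all `1 ≤ i ≤ m`. (c)
`F 0 = F (m - q)` for `q < Q` : `hh y q ≡ 1` (StMMV (2)). By periodicity extend `F` to the residues mod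
`m`: `F i = F (i - Q)` for all residues, and `F 0 = F (-1) = ... = F (-(Q-1))`. So all values are
equal. -/
def StCB1 : Prop :=
  ∀ (x y m d p e x' y' s' : ℕ) (f : ℕ → ℕ), 1 ≤ m → 2 * m ≤ d → p.Prime → 1 ≤ e → p ^ e < m →
    y = p ^ e * y' + 1 → x + 1 = p ^ e * x' → x + y = p ^ e * s' → ¬ p ∣ s' → ¬ p ∣ y' →
    Adj x y m d p f → ∀ k ≤ d, f k = f 0

/-- **CB2.** Case `p ∤ x'`, same letters. Uses `StMMV`, `StBMP`. Proof. `f` is periodic mod `m` on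
`[0, d]`, extend it to the residues. (a) For `0 ≤ k ≤ Q - 2` the move from `k` to `m - 1`
(`q = k + 1`) has `Mm = ∑_{b ≤ k} hh x (k+1-b) * hh y b ≡ ∑_{j=1}^{k+1} hh x j ≡ -1`. So
`f k = f (m-1) = f (-1)` for `0 ≤ k ≤ Q-2`. (b) For `0 ≤ k ≤ Q - 2` the move from `k` to
`k + m - Q` (`q = Q`) has `Mm ≡ ∑_{j=Q-k}^{Q} hh x j ≡ hh x Q ≡ x'` (the other terms have
`2 ≤ j < Q`). So `f k = f (k - Q)` (residues mod `m`). (c) For `Q ≤ k ≤ m` (`k + m ≤ d`)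
`Mm = hh (Q s') Q ≡ s'`, so `f k = f (k - Q)`. Let `c = f (-1) = f 0 = ... = f (Q-2)`. By (c) every
`f k`, `0 ≤ k ≤ m-1`, is `f (k mod Q)`, so it is `c` unless `k ≡ -1 mod Q`, where it is `f (Q-1)`. Let
`K = j Q - 1` be the largest such number `≤ m - 1`. If `K = m - 1` then `f (Q-1) = f (m-1) = c`.
Otherwise `k* = K + Q - m` satisfies `0 ≤ k* ≤ Q - 2` and by (b)
`c = f k* = f (k* - Q) = f (k* - Q + m) = f K = f (Q-1)`. -/
def StCB2 : Prop :=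
  ∀ (x y m d p e x' y' s' : ℕ) (f : ℕ → ℕ), 1 ≤ m → 2 * m ≤ d → p.Prime → 1 ≤ e → p ^ e < m →
    y = p ^ e * y' + 1 → x + 1 = p ^ e * x' → x + y = p ^ e * s' → ¬ p ∣ s' → ¬ p ∣ x' →
    Adj x y m d p f → ∀ k ≤ d, f k = f 0

/-- **CON.** Connectedness modulo every prime divisor of `x + y`. Uses `StBMP`, `StCSA`, `StCB1`,
`StCB2`. Proof. If `p ≥ 2m`: `p ∤ y`, so `p ∤ x`, and `StBMP` (4) with `StCSA`. If `p < 2m`: let `v` be
the exponent of `p` in `x + y` (`≥ 1`). If some `e` with `1 ≤ e ≤ v`, `p^(e-1) < m ≤ p^e` exists: then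
`y ≡ 1 mod p^e` by `NTC`, so (`y ≥ 1`) `y = p^e y' + 1` and `hh y q ≡ 1` for `q < m ≤ p^e`: `StCSA`.
Otherwise `p^v < m` (if `m ≤ p^v` the smallest `e` with `m ≤ p^e` is `≤ v` and `≥ 1`, as `m ≥ 2`
because `2 ≤ p < 2m`; and `p^(e-1) < m`). Put `e = v`: `y ≡ 1 mod p^v`, so `y = p^v y' + 1`,
`x + y = p^v s'`, `p ∤ s'`, `x + 1 = p^v (s' - y')`, `x' = s' - y'`; since `x' + y' = s'` at least one
of `x'`, `y'` is prime to `p`: `StCB1` or `StCB2`. -/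
def StCON : Prop :=
  ∀ (x y m d p : ℕ) (f : ℕ → ℕ), 1 ≤ m → 2 * m ≤ d → 1 ≤ y → p.Prime → p ∣ x + y →
    NTC m (x+y) y → Adj x y m d p f → ∀ k ≤ d, f k = f 0

/-- **SMU.** The multiples of `s = x + y` are in the lattice, with few exchanges. Uses `StMMV`. Proof.
`Cut (single u) κ = Mm k σ * [k ≤ κ < k + σ]` with `k = u / m`, `σ = u % m + 1`. If `κ0 + m < d`, i.e.
`κ0 ≤ d - m - 1`: take `c = s` at the move `(κ0, m)` (index `u = κ0 m + (m-1)`, `Mm = 1`) and `-1` at the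
move `(κ0 + 1, m - 1)` (for `m ≥ 2`; index `(κ0+1) m + (m-2)`; `Mm = hh s 1 = s` by StMMV (4) with
`q = 1`, `1 ≤ κ0 + 1`, `κ0 + 1 + m ≤ d`): the cut is
`s ([κ0 ≤ κ < κ0+m] - [κ0+1 ≤ κ < κ0+m]) = s [κ = κ0]`. If `κ0 ≥ m`: put `k = κ0 + 1 - m`,
`1 ≤ k`, `k + m ≤ d`; `c = s` at `(k, m)` and `-1` at `(k, m-1)`: the cut is
`s [κ = k + m - 1] = s [κ = κ0]`. One of the two cases holds since `d ≥ 2m`. For `m = 1`: `c = s` at
`(κ0, 1)` with `Mm = 1`. -/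
def StSMU : Prop :=
  ∀ x y m d κ0 : ℕ, 1 ≤ m → 2 * m ≤ d → κ0 < d → ∃ c : ℕ → ℤ,
    (∀ u, |c u| ≤ (x : ℤ) + y + 1) ∧
    ∀ κ < d, Cut x y m d c κ = if κ = κ0 then (x : ℤ) + y else 0

/-- **LAT.** Every integer vector is a cut vector. Uses `StCON`, `StSMU`. Proof. The cut vectors
`(Cut c κ)_{κ < d}` form a subgroup `G` of `ℤ^d` (`Fin d → ℤ`), which contains `s ℤ^d`, `s = x + y ≥ 1`
(`StSMU`). Suppose `G ≠ ⊤`. The quotient is a nontrivial finite abelian group killed by `s`, so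
there are a prime `p` and a nonzero homomorphism `φ : ℤ^d → ZMod p` vanishing on `G` (a nontrivial
finite abelian group has an element of some prime order `p` and so, by duality, a nonzero map to
`ZMod p`; or: let `e > 0` be minimal with `e ℤ^d ≤ G`; `e ≠ 1`; let `p` be a prime divisor of `e`;
then `G + p ℤ^d ≠ ⊤`, otherwise `(e/p) ℤ^d ≤ (e/p) G + e ℤ^d ≤ G`, contradicting minimality; so the
image of `G` in the vector space `(ZMod p)^d` is a proper subspace and there is a nonzero linear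
functional vanishing on it). `p ∣ s` because `s ℤ^d ≤ G` and `φ ≠ 0`. Let `φ_κ = φ (e_κ)` and let
`f k ∈ ZMod p` be `∑_{κ < k} φ_κ` (`k ≤ d`). For a move `(k, σ)`, `k + σ ≤ d`, the vector
`Mm k σ * 1_[k, k+σ)` is in `G`, so `Mm k σ * (f (k+σ) - f k) = 0` in `ZMod p`; if `p ∤ Mm k σ` then
`f k = f (k+σ)`. By `StCON` (applied to `k ↦ (f k).val`) `f` is constant on `[0, d]`, so all
`φ_κ = 0`, contradiction. -/
def StLAT : Prop :=
  ∀ x y m d : ℕ, 1 ≤ m → 2 * m ≤ d → 1 ≤ y → NTC m (x+y) y →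
    ∀ t : ℕ → ℤ, ∃ c : ℕ → ℤ, ∀ κ < d, Cut x y m d c κ = t κ

/-- **LBD.** The same with few exchanges. Uses `StLAT`, `StSMU`. Proof. `s = x + y ≥ 1`. Take `c0` from
`StLAT`, put `c1 u = c0 u % s ∈ [0, s)` and `c0 u = s q u + c1 u`. `Cut` is additive in `c`, so
`t κ - Cut c1 κ = s * Cut q κ =: s * t' κ`, and
`|t' κ| ≤ (T + d m * A * s) / s ≤ T + d m A`, where `A` bounds all `Mm x y m d k σ`, `σ ≥ 1`:
`Mm ≤ (m+1) (s + m)^(m-1) ≤ (m+1)^m s^(m-1) * ...`; explicitly each term of `Mm` is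
`hh x a * hh y b ≤ (s+m)^(a+b) ≤ (s + m)^(m-1) ≤ ((m+1) s)^(m-1)` and there are at most `m + 1` terms.
Then `c = c1 + ∑_{κ0 < d} t' κ0 * c_(κ0)` with `c_(κ0)` from `StSMU` (`|c_(κ0) u| ≤ s + 1 ≤ 2 s`):
`Cut c = t` and
`|c u| ≤ s + d (T/s + d m A) * 2 s ≤ s + 2 d T + 2 d^2 m A s + 2 d s`-like; all is
`≤ C2 (s^m + T)` because `A s ≤ (m+1)^m s^m`, `s ≤ s^m`. (Use `s |t' κ| ≤ T + d m A s` to bound
`|t' κ| * (s+1) ≤ 2 s |t' κ| ≤ 2 T + 2 d m A s`.) -/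
def StLBD : Prop :=
  ∀ m d : ℕ, 1 ≤ m → 2 * m ≤ d → ∃ C2 : ℕ, ∀ x y : ℕ, 1 ≤ y → NTC m (x+y) y →
    ∀ (T : ℕ) (t : ℕ → ℤ), (∀ κ < d, |t κ| ≤ T) →
      ∃ c : ℕ → ℤ, (∀ κ < d, Cut x y m d c κ = t κ) ∧ ∀ u, |c u| ≤ C2 * (((x+y)^m + T : ℕ) : ℤ)

end Pool.Agent.Helper44.LN
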